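import Pool.Agent.Y567.MD.Bor

/-!
Structures on `ℕ` whose isomorphism is almost equality of sequences.
-/

set_option autoImplicit false

namespace Pool.Agent.Y567.MD.StdE

open FirstOrder FirstOrder.Language Set
open Pool.Agent.Y567.MC.Std (X Ph)

/-- the universe of the standard structures -/
abbrev UE : Type := Un X (ℕ × Ph) Ph

instance : Infinite UE := Infinite.of_injective (fun n : ℕ => (Sum.inl (toLex (n, (0 : ℚ))) : UE))
  (by
    intro i j h
    have h1 : (toLex (i, (0 : ℚ)) : X) = toLex (j, 0) := Sum.inl_injective h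
    exact congrArg (fun x : X => (ofLex x).1) h1)

/-- a bijection -/
noncomputable def nuE : UE ≃ ℕ := (nonempty_equiv_of_countable (α := UE) (β := ℕ)).some

/-- the structure on `ℕ` given by a sequence -/
@[instance_reducible] noncomputable def Mx (x : ℕ → Prop) : (Lg pE.ar).Structure ℕ :=
  psh nuE (str (std.tw x) Empty)

theorem Mx_iso (x y : ℕ → Prop) :
    Nonempty (@FirstOrder.Language.Equiv (Lg pE.ar) ℕ ℕ (Mx x) (Mx y)) ↔
      {k | ¬ (x k ↔ y k)}.Finite := by
  rw [isom_iff, ← isom_iff_e0]
  constructor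
  · rintro ⟨F, hF⟩
    exact ⟨_, ((psh_isom nuE (str (std.tw x) Empty)).trans hF).trans
      (psh_isom nuE (str (std.tw y) Empty)).symm⟩
  · rintro ⟨F, hF⟩
    exact ⟨_, ((psh_isom nuE (str (std.tw x) Empty)).symm.trans hF).trans
      (psh_isom nuE (str (std.tw y) Empty))⟩

theorem Mx_meas : @Measurable (ℕ → Bool) ((Lg pE.ar).Structure ℕ) inferInstance (mS (Lg pE.ar))
    (fun x : ℕ → Bool => Mx fun k => x k = true) := by
  rw [mS, measurable_comap_iff]
  refine Measurable.prodMk ?_ ?_
  · refine measurable_pi_lambda _ fun n => measurable_pi_lambda _ fun f => ?_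
    exact (f : Empty).elim
  · refine measurable_pi_lambda _ fun n => measurable_pi_lambda _ fun R =>
      measurable_pi_lambda _ fun v => ?_
    obtain ⟨k, φ, hφ⟩ := rel_tw std Empty R (nuE.symm ∘ v)
    have : (fun x : ℕ → Bool => @Structure.RelMap (Lg pE.ar) ℕ (Mx fun k => x k = true) n R v) =
        fun x : ℕ → Bool => φ (x k = true) := by
      ext x
      exact hφ _
    change Measurable (fun x : ℕ → Bool => @Structure.RelMap (Lg pE.ar) ℕ
      (Mx fun k => x k = true) n R v)
    rw [this]
    exact (measurable_of_countable (fun b : Bool => φ (b = true))).comp (measurable_pi_apply k)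

/-- The isomorphism relation of these structures is not smooth. -/
theorem Mx_not_smooth {Y : Type} (mY : MeasurableSpace Y) (f : (Lg pE.ar).Structure ℕ → Y)
    (hf : @Measurable _ _ (mS (Lg pE.ar)) mY f) (g : Y → (ℕ → Bool)) (hg : Measurable g)
    (h : ∀ A B : (Lg pE.ar).Structure ℕ,
      (Nonempty (@FirstOrder.Language.Equiv (Lg pE.ar) ℕ ℕ A B) ↔ g (f A) = g (f B))) : False := by
  apply e0_not_smooth
  refine ⟨fun x => g (f (Mx fun k => x k = true)), ?_, fun x y => ?_⟩
  · let _ := mS (Lg pE.ar)
    exact hg.comp (hf.comp Mx_meas)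
  · rw [← h, Mx_iso]
    have : {k | ¬ ((x k = true) ↔ (y k = true))} = {n | x n ≠ y n} := by
      ext k
      cases x k <;> cases y k <;> simp
    rw [this]

end Pool.Agent.Y567.MD.StdE
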