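import Mathlib

set_option autoImplicit false

namespace Pool.Agent.Y567.MD

open MeasureTheory ProbabilityTheory Set

/-- the fair coin -/
noncomputable def coin : Measure Bool := (PMF.uniformOfFintype Bool).toMeasure

instance : IsProbabilityMeasure coin := by unfold coin; infer_instance

theorem coin_not : coin.map not = coin := by
  classical
  refine Measure.ext fun s hs => ?_
  rw [Measure.map_apply (measurable_of_countable _) hs]
  unfold coin
  rw [PMF.toMeasure_uniformOfFintype_apply _ .of_discrete,
    PMF.toMeasure_uniformOfFintype_apply _ hs]
  congr 2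
  exact Fintype.card_congr ⟨fun x => ⟨!x.1, x.2⟩, fun x => ⟨!x.1, by simp⟩, fun x => by simp,
    fun x => by simp⟩

theorem e0_not_smooth : ¬ ∃ h : (ℕ → Bool) → (ℕ → Bool), Measurable h ∧
    ∀ x y, (h x = h y ↔ {n | x n ≠ y n}.Finite) := by
  rintro ⟨h, hm, hh⟩
  let μ : Measure (ℕ → Bool) := Measure.infinitePi (fun _ => coin)
  have hind : iIndep (fun n => (inferInstance : MeasurableSpace Bool).comap
      (fun x : ℕ → Bool => x n)) μ := by
    have := iIndepFun_infinitePi (P := fun _ : ℕ => coin) (X := fun _ x => x)
      (fun _ => measurable_id)
    exact this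
  have h01 : ∀ n, ∃ b, ∀ᵐ x ∂μ, h x n = b := by
    intro n
    have hA : MeasurableSet {x | h x n = true} :=
      (measurable_pi_apply n).comp hm (measurableSet_singleton true)
    have htail : MeasurableSet[Filter.limsup (fun n => (inferInstance : MeasurableSpace Bool).comap
      (fun x : ℕ → Bool => x n)) Filter.atTop] {x | h x n = true} := by
      rw [Filter.limsup_eq_iInf_iSup_of_nat, MeasurableSpace.measurableSet_iInf]
      intro k
      let φ : (ℕ → Bool) → (ℕ → Bool) := fun x i => if i < k then false else x i
      have hφ : {x | h x n = true} = φ ⁻¹' {x | h x n = true} := by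
        ext x
        have : h (φ x) = h x := by
          rw [hh]
          refine (Set.finite_lt_nat k).subset ?_
          intro i hi
          by_contra hn
          apply hi
          have hn' : ¬ i < k := hn
          simp only [φ]
          rw [if_neg hn']
        simp only [mem_ofPred_eq, mem_preimage, this]
      rw [hφ]
      have hφm : @Measurable _ _ (⨆ i, ⨆ (_ : i ≥ k), (inferInstance : MeasurableSpace Bool).comap
        (fun x : ℕ → Bool => x i)) _ φ := by
        refine @measurable_pi_lambda _ _ _ (⨆ i, ⨆ (_ : i ≥ k), (inferInstance : MeasurableSpace Bool).comap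
        (fun x : ℕ → Bool => x i)) _ _ fun i => ?_
        by_cases hi : i < k
        · simp only [φ, hi, if_true]
          exact measurable_const
        · simp only [φ, hi, if_false]
          intro s hs
          have h1 : MeasurableSet[(inferInstance : MeasurableSpace Bool).comap
            (fun x : ℕ → Bool => x i)] ((fun x : ℕ → Bool => x i) ⁻¹' s) := ⟨s, hs, rfl⟩
          have h2 : (inferInstance : MeasurableSpace Bool).comap (fun x : ℕ → Bool => x i) ≤
              ⨆ i, ⨆ (_ : i ≥ k), (inferInstance : MeasurableSpace Bool).comap
                (fun x : ℕ → Bool => x i) := by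
            refine le_iSup_of_le i ?_
            exact le_iSup_of_le (not_lt.1 hi) le_rfl
          exact h2 _ h1
      exact hφm hA
    have hle : ∀ n, (inferInstance : MeasurableSpace Bool).comap
      (fun x : ℕ → Bool => x n) ≤ (inferInstance : MeasurableSpace (ℕ → Bool)) := fun n =>
      (measurable_pi_apply n).comap_le
    rcases measure_zero_or_one_of_measurableSet_limsup_atTop hle hind htail with h1 | h1
    · refine ⟨false, ?_⟩
      rw [ae_iff]
      convert h1 using 3
      ext x
      simp
    · refine ⟨true, ?_⟩
      rw [ae_iff]
      have := (prob_compl_eq_zero_iff hA).2 h1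
      convert this using 2
      ext x
      simp
  choose b hb using h01
  have hae : ∀ᵐ x ∂μ, ∀ n, h x n = b n := ae_all_iff.2 hb
  have hflip : μ.map (fun x i => !(x i)) = μ := by
    have := Measure.infinitePi_map_pi (μ := fun _ : ℕ => coin) (f := fun _ => not)
      (fun _ => measurable_of_countable _)
    rw [show (fun _ : ℕ => coin.map not) = fun _ : ℕ => coin by ext1; exact coin_not] at this
    exact this
  have hae2 : ∀ᵐ x ∂μ, ∀ n, h (fun i => !(x i)) n = b n := by
    rw [← hflip] at hae
    exact ae_of_ae_map (by
      refine Measurable.aemeasurable ?_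
      exact measurable_pi_lambda _ fun i => (measurable_of_countable not).comp (measurable_pi_apply i)) hae
  obtain ⟨x, h1, h2⟩ := (hae.and hae2).exists
  have h3 : h x = h (fun i => !(x i)) := by
    ext n
    rw [h1, h2]
  rw [hh] at h3
  have : {n | x n ≠ !(x n)} = univ := by
    ext n; simp
  rw [this] at h3
  exact infinite_univ h3

end Pool.Agent.Y567.MD
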