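import Pool.Agent.Y567.MD.EZ

/-!
Borel invariants.
-/

set_option autoImplicit false

namespace Pool.Agent.Y567.MD

open Set FirstOrder FirstOrder.Language MeasureTheory

/-- the target of the reduction -/
abbrev YE : Type := ((ℕ → Prop) × Prop × Prop × (ℕ → Prop)) × (ℕ → Prop)

/-- the equivalence relation -/
def EE (x y : YE) : Prop := x.1 = y.1 ∧ {k | ¬ (x.2 k ↔ y.2 k)}.Finite

theorem EE_equiv : Equivalence EE := by
  refine ⟨fun x => ⟨rfl, by simp⟩, fun h => ⟨h.1.symm, ?_⟩, fun h h' => ⟨h.1.trans h'.1, ?_⟩⟩
  · refine h.2.subset fun k hk => ?_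
    intro h1
    exact hk h1.symm
  · refine (h.2.union h'.2).subset fun k hk => ?_
    by_contra hn
    rw [mem_union, not_or] at hn
    have h1 := not_not.1 hn.1
    have h2 := not_not.1 hn.2
    exact hk (h1.trans h2)

theorem EE_meas : MeasurableSet {p : YE × YE | EE p.1 p.2} := by
  have h1 : MeasurableSet {p : YE × YE | p.1.1 = p.2.1} :=
    measurableSet_eq_fun (measurable_fst.fst) (measurable_snd.fst)
  have h2 : Measurable (fun p : YE × YE => ∃ N, ∀ k, N ≤ k → (p.1.2 k ↔ p.2.2 k)) := by
    refine Measurable.exists fun N => Measurable.forall fun k => Measurable.imp measurable_const ?_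
    exact Measurable.iff ((measurable_pi_apply k).comp measurable_fst.snd)
      ((measurable_pi_apply k).comp measurable_snd.snd)
  have h3 := h1.inter h2.setOf
  convert h3 using 1
  ext p
  change (_ ∧ _) ↔ (_ ∧ _)
  refine and_congr_right fun _ => ?_
  constructor
  · intro h
    obtain ⟨N, hN⟩ := h.bddAbove
    refine ⟨N + 1, fun k hk => ?_⟩
    by_contra hn
    have := hN (a := k) hn
    omega
  · rintro ⟨N, hN⟩
    refine (Set.finite_lt_nat N).subset fun k hk => ?_
    by_contra hn
    have hn : ¬ k < N := hn
    exact hk (hN k (not_lt.1 hn))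

theorem EE_countable (y : YE) : {z : YE | EE y z}.Countable := by
  classical
  refine (Set.countable_range (fun s : Finset ℕ => ((y.1, fun k => if k ∈ s then ¬ y.2 k else y.2 k)
    : YE))).mono ?_
  rintro z ⟨h1, h2⟩
  refine ⟨h2.toFinset, Prod.ext h1 ?_⟩
  ext k
  by_cases hk : y.2 k ↔ z.2 k
  · simp [hk]
  · simp only [Set.Finite.mem_toFinset, mem_ofPred_eq, hk, not_false_eq_true, if_true]
    tauto

/-- the σ-algebra of the space of structures -/
@[instance_reducible] def mS (L : FirstOrder.Language.{0, 0}) : MeasurableSpace (L.Structure ℕ) :=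
  MeasurableSpace.comap
      (fun S : L.Structure ℕ =>
        (((fun n (f : L.Functions n) =>
            FirstOrder.Language.Structure.funMap (L := L) (M := ℕ) f),
          (fun n (r : L.Relations n) =>
            FirstOrder.Language.Structure.RelMap (L := L) (M := ℕ) r)) :
          ((n : ℕ) → L.Functions n → (Fin n → ℕ) → ℕ) ×
          ((n : ℕ) → L.Relations n → (Fin n → ℕ) → Prop)))
      (inferInstance : MeasurableSpace
          (((n : ℕ) → L.Functions n → (Fin n → ℕ) → ℕ) ×
          ((n : ℕ) → L.Relations n → (Fin n → ℕ) → Prop)))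

theorem mS_rel (L : FirstOrder.Language.{0, 0}) {n : ℕ} (R : L.Relations n) (v : Fin n → ℕ) :
    Measurable[mS L] (fun S : L.Structure ℕ => @Structure.RelMap L ℕ S n R v) := by
  have h1 : Measurable[mS L] (fun S : L.Structure ℕ =>
        (((fun n (f : L.Functions n) =>
            FirstOrder.Language.Structure.funMap (L := L) (M := ℕ) f),
          (fun n (r : L.Relations n) =>
            FirstOrder.Language.Structure.RelMap (L := L) (M := ℕ) r)) :
          ((n : ℕ) → L.Functions n → (Fin n → ℕ) → ℕ) ×
          ((n : ℕ) → L.Relations n → (Fin n → ℕ) → Prop))) := by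
    intro s hs
    exact ⟨s, hs, rfl⟩
  have h2 : Measurable (fun q : ((n : ℕ) → L.Functions n → (Fin n → ℕ) → ℕ) ×
          ((n : ℕ) → L.Relations n → (Fin n → ℕ) → Prop) => q.2 n R v) := by
    exact (measurable_pi_apply v).comp ((measurable_pi_apply R).comp
      ((measurable_pi_apply n).comp measurable_snd))
  exact h2.comp h1

variable {p : Par}

section

variable {X : Type} [MeasurableSpace X] {f : X → (Lg p.ar).Structure ℕ}
  (hf : ∀ {n : ℕ} (R : Rl p.ar n) (v : Fin n → ℕ), Measurable (fun x => rm (f x) R v))

include hf

theorem meas_top (k : ℕ) : Measurable (fun x => aTop (f x) k) :=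
  Measurable.exists fun m => Measurable.forall fun n => hf (.P k n) _

theorem meas_inf : Measurable (fun x => aInf (f x)) :=
  Measurable.exists fun m => Measurable.forall fun n => hf (.U n) _

theorem meas_lst : Measurable (fun x => aLst (f x)) :=
  Measurable.exists fun m => (Measurable.forall fun n => hf (.U n) _).and
    (Measurable.forall fun m' => (Measurable.forall fun n => hf (.U n) _).imp (hf .Lt _).not)

theorem meas_junk (j : ℕ) : Measurable (fun x => aJunk (f x) j) :=
  Measurable.exists fun s => measurable_const.and (Measurable.forall fun m =>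
    Measurable.imp measurable_const ((hf (.U 0) _).not.and
      ((Measurable.exists fun k => hf (.P k 0) _).not.and (hf .V _).not)))

theorem meas_bits (k : ℕ) : Measurable (fun x => aBits (f x) k) :=
  (meas_inf hf).not.and (Measurable.exists fun w => (hf .V _).and
    ((Measurable.forall fun w' => Measurable.imp measurable_const (hf .V _).not).and
      (Measurable.exists fun z => (Measurable.forall fun n => hf (.P k n) _).and (hf (.Q k) _))))

end

end Pool.Agent.Y567.MD
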