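import Pool.Agent.Y567.MD.RecW

/-!
Borel completeness of the theory of the standard systems.
-/

set_option autoImplicit false

namespace Pool.Agent.Y567.MD.StdW

open Set FirstOrder FirstOrder.Language MeasureTheory

section lex

variable {C : Type} [LinearOrder C]

/-- colour -/
def colC (g : C → ℕ∞) (x : C ×ₗ ℚ) : ℕ∞ := g (ofLex x).1

theorem colC_mono {g : C → ℕ∞} (hg : Monotone g) : Monotone (colC g) := by
  intro x y h
  rw [Prod.Lex.le_iff] at h
  unfold colC
  rcases h with h | ⟨h, -⟩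
  · exact hg h.le
  · rw [h]

instance [Countable C] : Countable (C ×ₗ ℚ) := inferInstanceAs (Countable (C × ℚ))

instance [Nonempty C] : Nonempty (C ×ₗ ℚ) := inferInstanceAs (Nonempty (C × ℚ))

theorem fullW [Countable C] [Nonempty C] {g : C → ℕ∞} (hg : Monotone g) (hall : ∀ n : ℕ, ∃ a, g a = n)
    (D : ℕ → List ℕ → Prop) : Full (std (colC g) (colC_mono hg) D) where
  dens := by
    intro x y hxy
    obtain ⟨n, a⟩ := x
    obtain ⟨m, b⟩ := y
    rcases (Prod.Lex.toLex_lt_toLex.1 hxy : n < m ∨ n = m ∧ a < b) with h | ⟨h1, h⟩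
    · exact ⟨toLex (n, a + 1), Prod.Lex.toLex_lt_toLex.2 (Or.inr ⟨rfl, lt_add_one a⟩),
        Prod.Lex.toLex_lt_toLex.2 (Or.inl h)⟩
    · obtain ⟨c, h2, h3⟩ := exists_between h
      exact ⟨toLex (n, c), Prod.Lex.toLex_lt_toLex.2 (Or.inr ⟨rfl, h2⟩),
        Prod.Lex.toLex_lt_toLex.2 (Or.inr ⟨h1, h3⟩)⟩
  nomax := by
    rintro ⟨n, a⟩
    exact ⟨toLex (n, a + 1), Prod.Lex.toLex_lt_toLex.2 (Or.inr ⟨rfl, lt_add_one a⟩)⟩
  down := by
    rintro n ⟨m, a⟩ h
    exact ⟨toLex (m, a - 1), Prod.Lex.toLex_lt_toLex.2 (Or.inr ⟨rfl, sub_one_lt a⟩), h⟩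
  up := by
    rintro n ⟨m, a⟩ h
    exact ⟨toLex (m, a + 1), Prod.Lex.toLex_lt_toLex.2 (Or.inr ⟨rfl, lt_add_one a⟩), h⟩
  all := by
    intro n
    obtain ⟨a, ha⟩ := hall n
    exact ⟨toLex (a, 0), ha⟩
  ne := ⟨(0, 0)⟩

end lex

/-- colour of natural numbers -/
def gN (n : ℕ) : ℕ∞ := n

theorem gN_mono : Monotone gN := fun _ _ h => by
  unfold gN
  exact_mod_cast h

/-- The standard system without heights of infinite colour. -/
noncomputable def sN (D : ℕ → List ℕ → Prop) :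
    Sy pW ⊤ (ℕ ×ₗ ℚ) (ℕ × ((ℕ ×ₗ ℚ) →₀ ℕ)) WW := std (colC gN) (colC_mono gN_mono) D

theorem sN_full (D : ℕ → List ℕ → Prop) : Full (sN D) := fullW gN_mono (fun n => ⟨n, rfl⟩) D

theorem sN_fin (x : ℕ ×ₗ ℚ) : colC gN x ≠ ⊤ := ENat.natCast_ne_top _

/-- universe -/
abbrev UW : Type := Un (ℕ ×ₗ ℚ) (ℕ × ((ℕ ×ₗ ℚ) →₀ ℕ)) WW

instance : Infinite UW := Infinite.of_injective (fun n : ℕ => (Sum.inl (toLex (n, (0 : ℚ))) : UW))
  (by
    intro i j h
    have h1 : (toLex (i, (0 : ℚ)) : ℕ ×ₗ ℚ) = toLex (j, 0) := Sum.inl_injective h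
    exact congrArg (fun x : ℕ ×ₗ ℚ => (ofLex x).1) h1)

/-- a bijection -/
noncomputable def nuW : UW ≃ ℕ := (nonempty_equiv_of_countable (α := UW) (β := ℕ)).some

/-- the theory -/
def TW : (Lg pW.ar).Theory :=
  @completeTheory (Lg pW.ar) UW (str (sN fun _ _ => False) Empty)

/-- the structure on `ℕ` given by a coded structure -/
@[instance_reducible] noncomputable def MW (D : ℕ → List ℕ → Prop) : (Lg pW.ar).Structure ℕ :=
  psh nuW (str (sN D) Empty)

theorem MW_model (D : ℕ → List ℕ → Prop) : @Theory.Model (Lg pW.ar) ℕ (MW D) TW := by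
  refine model_of_isoN (idx pW.ar) (str (sN fun _ _ => False) Empty) (MW D) fun N => ?_
  obtain ⟨F, hF⟩ := (sN_full fun _ _ => False).isoN (sN_full D) N
  exact ⟨F.trans nuW, hF.trans ((psh_isom nuW (str (sN D) Empty)).isoN N)⟩

theorem MW_iso {D D' : ℕ → List ℕ → Prop}
    (hD : ∀ a b, D (Nat.pair 0 1) [a, b] ↔ a = b) (hD' : ∀ a b, D' (Nat.pair 0 1) [a, b] ↔ a = b) :
    Nonempty (@FirstOrder.Language.Equiv (Lg pW.ar) ℕ ℕ (MW D) (MW D')) ↔
      ∃ φ : ℕ ≃ ℕ, DIso D D' φ := by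
  rw [isom_iff]
  constructor
  · rintro ⟨F, hF⟩
    exact diso_of_isom sN_fin hD hD' (((psh_isom nuW (str (sN D) Empty)).trans hF).trans
      (psh_isom nuW (str (sN D') Empty)).symm)
  · rintro ⟨φ, hφ⟩
    obtain ⟨f, g, e, hi⟩ := iso_of_DIso sN_fin (sN_full D) hφ
    exact ⟨_, ((psh_isom nuW (str (sN D) Empty)).symm.trans (isom_of_iso hi)).trans
      (psh_isom nuW (str (sN D') Empty))⟩

theorem MW_meas {X : Type} [MeasurableSpace X] {f : X → ℕ → List ℕ → Prop}
    (hf : ∀ j l, Measurable fun x => f x j l) :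
    @Measurable X ((Lg pW.ar).Structure ℕ) inferInstance (mS (Lg pW.ar)) (fun x => MW (f x)) := by
  rw [mS, measurable_comap_iff]
  refine Measurable.prodMk ?_ ?_
  · refine measurable_pi_lambda _ fun n => measurable_pi_lambda _ fun f => ?_
    exact (f : Empty).elim
  · refine measurable_pi_lambda _ fun n => measurable_pi_lambda _ fun R =>
      measurable_pi_lambda _ fun v => ?_
    obtain ⟨j, l, ψ, hψ⟩ := rel_D (H := ℕ ×ₗ ℚ) (hcol := colC_mono gN_mono) Empty R (nuW.symm ∘ v)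
    have : (fun x => @Structure.RelMap (Lg pW.ar) ℕ (MW (f x)) n R v) =
        fun x => ψ (f x j l) := by
      ext x
      exact hψ _
    change Measurable (fun x => @Structure.RelMap (Lg pW.ar) ℕ (MW (f x)) n R v)
    rw [this]
    exact (measurable_of_countable ψ).comp (hf j l)

/-- The isomorphism relation of all structures in a countable language is reducible to the
isomorphism relation of the models of `TW`. -/
theorem all_reducible (L : FirstOrder.Language.{0, 0}) [Countable L.Symbols] :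
    ∃ f : L.Structure ℕ → {S : (Lg pW.ar).Structure ℕ // ℕ ⊨ TW},
      @Measurable _ _ (mS L) (@Subtype.instMeasurableSpace _ _ (mS (Lg pW.ar))) f ∧
      ∀ A B : L.Structure ℕ, (Nonempty (@FirstOrder.Language.Equiv L ℕ ℕ A B) ↔
        Nonempty (@FirstOrder.Language.Equiv (Lg pW.ar) ℕ ℕ (f A).1 (f B).1)) := by
  have cR : Countable (Σ n, L.Relations n) :=
    (show Function.Injective (fun R : (Σ n, L.Relations n) => (Sum.inr R : L.Symbols)) from
      Sum.inr_injective).countable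
  have cF : Countable (Σ n, L.Functions n) :=
    (show Function.Injective (fun R : (Σ n, L.Functions n) => (Sum.inl R : L.Symbols)) from
      Sum.inl_injective).countable
  obtain ⟨eR, hR⟩ := exists_injective_nat (Σ n, L.Relations n)
  obtain ⟨eF, hF⟩ := exists_injective_nat (Σ n, L.Functions n)
  refine ⟨fun A => ⟨MW (DA eR eF A), MW_model _⟩, ?_, fun A B => ?_⟩
  · let _ := mS L
    let _ := mS (Lg pW.ar)
    exact Measurable.subtype_mk (MW_meas fun j l => DA_meas j l)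
  · change _ ↔ Nonempty (@FirstOrder.Language.Equiv (Lg pW.ar) ℕ ℕ (MW (DA eR eF A))
      (MW (DA eR eF B)))
    rw [DA_iso hR hF, MW_iso (DA_eq A) (DA_eq B)]

end Pool.Agent.Y567.MD.StdW
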