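import Pool.Agent.Y567.MD.Sys

/-!
One-point extensions of partial isomorphisms of systems.
-/

set_option autoImplicit false

namespace Pool.Agent.Y567.MD

open Set
open Pool.Agent.Y567.MC (Col Match AG)

variable {p : Par} {L : ℕ∞} {H Z W H' Z' W' ι : Type} [LinearOrder H] [LinearOrder H']
  (S : Sy p L H Z W) (S' : Sy p L H' Z' W')

/-- The part of a partial isomorphism on `Z` (below level `L`) -/
structure BG (A : Set (H × H')) (B : Set (Z × Z')) : Prop where
  inj : ∀ {z z' w w'}, (z, z') ∈ B → (w, w') ∈ B → (z = w ↔ z' = w')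
  low : ∀ {z z'}, (z, z') ∈ B → (S.lev z : ℕ∞) < L
  lev : ∀ {z z'}, (z, z') ∈ B → S.lev z = S'.lev z'
  cz : ∀ {z z'}, (z, z') ∈ B → S.cz z = S'.cz z'
  d : ∀ {z z'}, (z, z') ∈ B → S.cz z ≠ ⊤ → (S.d z, S'.d z') ∈ A
  s : ∀ {z z' w w'}, (z, z') ∈ B → (w, w') ∈ B → S.lev z = S.lev w → z ≠ w →
    (S.s z w, S'.s z' w') ∈ A

/-- The part of a partial isomorphism on `W` -/
structure WG (A : Set (H × H')) (C : Set (W × W')) : Prop where
  inj : ∀ {f f' g g'}, (f, f') ∈ C → (g, g') ∈ C → (f = g ↔ f' = g')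
  u : p.con → ∀ {f f' g g'}, (f, f') ∈ C → (g, g') ∈ C → f ≠ g → (S.u f g, S'.u f' g') ∈ A

/-- Compatibility with the relations -/
def RG (B : Set (Z × Z')) (C : Set (W × W')) : Prop :=
  ∀ z z', (z, z') ∈ B → ∀ l : List (W × W'), (∀ x ∈ l, x ∈ C) → l.length = p.ar (S.lev z) →
    (S.r z (l.map Prod.fst) ↔ S'.r z' (l.map Prod.snd))

variable {S S'}

theorem BG.swap {A : Set (H × H')} {B : Set (Z × Z')} (hB : BG S S' A B) :
    BG S' S (Prod.swap ⁻¹' A) (Prod.swap ⁻¹' B) where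
  inj := fun h1 h2 => (hB.inj h1 h2).symm
  low := fun h1 => by rw [← hB.lev h1]; exact hB.low h1
  lev := fun h1 => (hB.lev h1).symm
  cz := fun h1 => (hB.cz h1).symm
  d := fun h1 h2 => hB.d h1 (by rw [hB.cz h1]; exact h2)
  s := fun h1 h2 h3 h4 => hB.s h1 h2 (by rw [hB.lev h1, hB.lev h2]; exact h3)
    (fun h5 => h4 ((hB.inj h1 h2).1 h5))

theorem BG.mono {A A' : Set (H × H')} {B : Set (Z × Z')} (hB : BG S S' A B) (hA : A ⊆ A') :
    BG S S' A' B :=
  { hB with
    d := fun h1 h2 => hA (hB.d h1 h2)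
    s := fun h1 h2 h3 h4 => hA (hB.s h1 h2 h3 h4) }

theorem WG.swap {A : Set (H × H')} {C : Set (W × W')} (hC : WG S S' A C) :
    WG S' S (Prod.swap ⁻¹' A) (Prod.swap ⁻¹' C) where
  inj := fun h1 h2 => (hC.inj h1 h2).symm
  u := fun h _ _ _ _ h1 h2 h3 => hC.u h h1 h2 (fun h5 => h3 ((hC.inj h1 h2).1 h5))

theorem WG.mono {A A' : Set (H × H')} {C : Set (W × W')} (hC : WG S S' A C) (hA : A ⊆ A') :
    WG S S' A' C :=
  { hC with u := fun h _ _ _ _ h1 h2 h3 => hA (hC.u h h1 h2 h3) }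

theorem RG.swap {A : Set (H × H')} {B : Set (Z × Z')} {C : Set (W × W')} (hB : BG S S' A B)
    (h : RG S S' B C) : RG S' S (Prod.swap ⁻¹' B) (Prod.swap ⁻¹' C) := by
  intro z' z hz l hl hlen
  have h1 := h z z' hz (l.map Prod.swap) (by
    intro x hx
    obtain ⟨y, hy, rfl⟩ := List.mem_map.1 hx
    exact hl y hy) (by
    rw [List.length_map, hB.lev hz]; exact hlen)
  rw [List.map_map, List.map_map] at h1
  exact h1.symm

/-- A point of the second system that behaves as `z` does. -/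
structure Ans (S : Sy p L H Z W) (S' : Sy p L H' Z' W') (A : Set (H × H')) (B : Set (Z × Z'))
    (C : Set (W × W')) (z : Z) (z' : Z') : Prop where
  low : (S.lev z : ℕ∞) < L
  lev : S.lev z = S'.lev z'
  cz : S.cz z = S'.cz z'
  d : S.cz z ≠ ⊤ → (S.d z, S'.d z') ∈ A
  s : ∀ {a a'}, (a, a') ∈ B → S.lev a = S.lev z → a' ≠ z' ∧ (S.s a z, S'.s a' z') ∈ A
  r : ∀ l : List (W × W'), (∀ x ∈ l, x ∈ C) → l.length = p.ar (S.lev z) →
    (S.r z (l.map Prod.fst) ↔ S'.r z' (l.map Prod.snd))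

theorem BG.insert {A : Set (H × H')} {B : Set (Z × Z')} {C : Set (W × W')} (hB : BG S S' A B)
    {z : Z} {z' : Z'} (hz : ∀ w', (z, w') ∉ B) (h : Ans S S' A B C z z') :
    BG S S' A (insert (z, z') B) := by
  have hne : ∀ {a a'}, (a, a') ∈ B → a ≠ z := by
    rintro a a' h1 rfl; exact hz _ h1
  have hne' : ∀ {a a'}, (a, a') ∈ B → a' ≠ z' := by
    rintro a a' h1 rfl
    have h2 : S.lev a = S.lev z := (hB.lev h1).trans h.lev.symm
    exact (h.s h1 h2).1 rfl
  refine ⟨?_, ?_, ?_, ?_, ?_, ?_⟩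
  · rintro a a' b b' (h1 | h1) (h2 | h2)
    · cases h1; cases h2; simp
    · cases h1
      exact ⟨fun h3 => absurd h3.symm (hne h2), fun h3 => absurd h3.symm (hne' h2)⟩
    · cases h2
      exact ⟨fun h3 => absurd h3 (hne h1), fun h3 => absurd h3 (hne' h1)⟩
    · exact hB.inj h1 h2
  · rintro a a' (h1 | h1)
    · cases h1; exact h.low
    · exact hB.low h1
  · rintro a a' (h1 | h1)
    · cases h1; exact h.lev
    · exact hB.lev h1
  · rintro a a' (h1 | h1)
    · cases h1; exact h.cz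
    · exact hB.cz h1
  · rintro a a' (h1 | h1) h2
    · cases h1; exact h.d h2
    · exact hB.d h1 h2
  · rintro a a' b b' (h1 | h1) (h2 | h2) h3 h4
    · cases h1; cases h2; exact absurd rfl h4
    · cases h1
      have h5 := h.s h2 h3.symm
      rw [S.s_comm _ _ h3 h4, S'.s_comm _ _ (by rw [← h.lev, ← hB.lev h2]; exact h3) h5.1.symm]
      exact h5.2
    · cases h2
      exact (h.s h1 h3).2
    · exact hB.s h1 h2 h3 h4

theorem RG.insertZ {A : Set (H × H')} {B : Set (Z × Z')} {C : Set (W × W')} (h : RG S S' B C)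
    {z : Z} {z' : Z'} (h' : Ans S S' A B C z z') : RG S S' (insert (z, z') B) C := by
  rintro a a' (h1 | h1) l hl hlen
  · cases h1; exact h'.r l hl hlen
  · exact h a a' h1 l hl hlen

/-- `z'` has pattern `η` on `V` -/
def Pat (S : Sy p L H Z W) (V : Set W) (η : List W → Prop) (z : Z) : Prop :=
  ∀ l : List W, (∀ w ∈ l, w ∈ V) → l.length = p.ar (S.lev z) → (S.r z l ↔ η l)

/-- admissible patterns -/
def Adm (S : Sy p L H Z W) (k : ℕ) (V : Set W) (η : List W → Prop) : Prop :=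
  p.con → ∀ f ∈ V, ∀ g ∈ V, f ≠ g → S.c (S.u f g) ≤ k → (η [f] ↔ η [g])

/-- Top points of level `k` with all patterns exist. -/
def TopE (S : Sy p L H Z W) (k : ℕ) : Prop :=
  ∀ (V : Set W), V.Finite → ∀ η, Adm S k V η → ∃ z, S.lev z = k ∧ S.cz z = ⊤ ∧ Pat S V η z


theorem list_eq {X Y : Type} {C : Set (X × Y)}
    (hC : ∀ {f f' g g'}, (f, f') ∈ C → (g, g') ∈ C → (f = g ↔ f' = g')) :
    ∀ l1 l2 : List (X × Y), (∀ x ∈ l1, x ∈ C) → (∀ x ∈ l2, x ∈ C) →
      l1.map Prod.snd = l2.map Prod.snd → l1 = l2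
  | [], [], _, _, _ => rfl
  | [], _ :: _, _, _, h => by simp at h
  | _ :: _, [], _, _, h => by simp at h
  | x :: l1, y :: l2, h1, h2, h => by
    simp only [List.map_cons, List.cons.injEq] at h
    have hx : (x.1, x.2) ∈ C := h1 x (by simp)
    have hy : (y.1, y.2) ∈ C := h2 y (by simp)
    rw [Prod.ext ((hC hx hy).2 h.1) h.1, list_eq hC l1 l2 (fun z hz => h1 z (by simp [hz]))
      (fun z hz => h2 z (by simp [hz])) h.2]

theorem list_lift {X Y : Type} {C : Set (X × Y)} : ∀ l' : List Y,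
    (∀ w ∈ l', w ∈ Prod.snd '' C) → ∃ l : List (X × Y), (∀ x ∈ l, x ∈ C) ∧ l.map Prod.snd = l'
  | [], _ => ⟨[], by simp, rfl⟩
  | w :: l', h => by
    obtain ⟨x, hx, hxw⟩ := h w (by simp)
    obtain ⟨l, h1, h2⟩ := list_lift l' (fun y hy => h y (by simp [hy]))
    exact ⟨x :: l, by
      intro y hy
      rcases List.mem_cons.1 hy with rfl | hy
      · exact hx
      · exact h1 y hy, by simp [hxw, h2]⟩

/-- The main step for `Z`. -/
theorem ans_exists {ρ : H → ι} {ρ' : H' → ι} (hρ : ∀ x x', ρ x = ρ' x' → S.c x = S'.c x')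
    {A : Set (H × H')} {B : Set (Z × Z')} {C : Set (W × W')}
    (hA : AG ρ ρ' A) (hB : BG S S' A B) (hCf : C.Finite) (hC : WG S S' A C)
    {z : Z} (hzL : (S.lev z : ℕ∞) < L) (hT : S.cz z = ⊤ → TopE S' (S.lev z))
    (hBf : {a ∈ B | S.lev a.1 = S.lev z}.Finite)
    (hz : ∀ w', (z, w') ∉ B)
    (hd : S.cz z ≠ ⊤ → ∃ x', (S.d z, x') ∈ A)
    (hs : ∀ {a a'}, (a, a') ∈ B → S.lev a = S.lev z → ∃ x', (S.s a z, x') ∈ A) :
    ∃ z', Ans S S' A B C z z' := by
  classical
  have hc : ∀ {x x'}, (x, x') ∈ A → S.c x = S'.c x' := fun h => hρ _ _ (hA.lab h)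
  have hzne : ∀ {a a'}, (a, a') ∈ B → a ≠ z := by
    rintro a a' h1 rfl; exact hz _ h1
  -- the pattern
  let V : Set W' := Prod.snd '' C
  have hVf : V.Finite := hCf.image _
  let η : List W' → Prop := fun l' => ∃ l : List (W × W'), (∀ x ∈ l, x ∈ C) ∧
    l.map Prod.snd = l' ∧ S.r z (l.map Prod.fst)
  have hη : ∀ l : List (W × W'), (∀ x ∈ l, x ∈ C) →
      (η (l.map Prod.snd) ↔ S.r z (l.map Prod.fst)) := by
    intro l hl
    constructor
    · rintro ⟨l1, h1, h2, h3⟩
      rwa [list_eq hC.inj l1 l h1 hl h2] at h3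
    · exact fun h => ⟨l, hl, rfl, h⟩
  have hadm : ∀ k, k = S.lev z → Adm S' k V η := by
    rintro k rfl hcon f' ⟨⟨f, f1⟩, hf, rfl⟩ g' ⟨⟨g, g1⟩, hg, rfl⟩ hne hle
    have e1 := hη [(f, f1)] (by simpa using hf)
    have e2 := hη [(g, g1)] (by simpa using hg)
    simp only [List.map_cons, List.map_nil] at e1 e2
    rw [e1, e2]
    have hne' : f ≠ g := fun h => hne ((hC.inj hf hg).1 h)
    exact S.r_u hcon z f g hzL hne' (by rw [hc (hC.u hcon hf hg hne')]; exact hle)
  have hpat : ∀ z', S'.lev z' = S.lev z → (∀ l : List W', (∀ w ∈ l, w ∈ V) →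
      l.length = p.ar (S.lev z) → (S'.r z' l ↔ η l)) → ∀ l : List (W × W'), (∀ x ∈ l, x ∈ C) →
      l.length = p.ar (S.lev z) → (S.r z (l.map Prod.fst) ↔ S'.r z' (l.map Prod.snd)) := by
    intro z' _ h l hl hlen
    rw [h (l.map Prod.snd) (by
      intro w hw
      obtain ⟨x, hx, rfl⟩ := List.mem_map.1 hw
      exact ⟨x, hl x hx, rfl⟩) (by rw [List.length_map]; exact hlen), hη l hl]
  -- the finite set of points of the same level
  have hfin : {a | ∃ a', (a, a') ∈ B ∧ S.lev a = S.lev z}.Finite :=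
    (hBf.image Prod.fst).subset (by rintro y ⟨y', hy, hl⟩; exact ⟨_, ⟨hy, hl⟩, rfl⟩)
  have hfin' : ∀ P : Z → Z' → Prop, {a' | ∃ a, (a, a') ∈ B ∧ S.lev a = S.lev z ∧ P a a'}.Finite :=
    fun P => (hBf.image Prod.snd).subset (by rintro y ⟨y', hy, hl, -⟩; exact ⟨_, ⟨hy, hl⟩, rfl⟩)
  by_cases hcase : ∃ a a', (a, a') ∈ B ∧ S.lev a = S.lev z ∧
      ((S.cz z = ⊤ ∧ S.cz a = ⊤) ∨ (S.cz z ≠ ⊤ ∧ S.d z < S.s a z))
  · -- there is a point near `z`
    obtain ⟨a1, a1', ha1, hla1, hca1⟩ := hcase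
    obtain ⟨a, ⟨a', haa, hla⟩, hmax⟩ :=
      Set.exists_max_image _ (fun a => S.s a z) hfin ⟨a1, a1', ha1, hla1⟩
    have hmax' : ∀ {b b'}, (b, b') ∈ B → S.lev b = S.lev z → S.s b z ≤ S.s a z :=
      fun h1 h2 => hmax _ ⟨_, h1, h2⟩
    have haz : a ≠ z := hzne haa
    have hca : (S.cz z = ⊤ ∧ S.cz a = ⊤) ∨ (S.cz z ≠ ⊤ ∧ S.d z < S.s a z) := by
      rcases hca1 with ⟨h1, h2⟩ | ⟨h1, h2⟩
      · refine Or.inl ⟨h1, ?_⟩
        by_contra h3
        have h4 := S.s_top a1 z hla1 (hzne ha1) h2 h1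
        have h5 := S.c_mono (hmax' ha1 hla1)
        rw [h4, S.s_d a z hla h3 h1, S.c_d a h3] at h5
        exact h3 (top_le_iff.1 h5)
      · exact Or.inr ⟨h1, h2.trans_le (hmax' ha1 hla1)⟩
    obtain ⟨q', hq⟩ := hs haa hla
    have hla' : S'.lev a' = S.lev z := by rw [← hB.lev haa]; exact hla
    obtain ⟨z', z2, ⟨z4, z5⟩, z6, z7⟩ := S'.ext a' q'
      {b' | ∃ b, (b, b') ∈ B ∧ S.lev b = S.lev z ∧ (b = a ∨ S.s a z ≤ S.s b a)}
      (by rw [hla']; exact hzL) (hfin' _) (by
        rintro b' ⟨b, hb, hlb, h1⟩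
        by_cases hba : b = a
        · exact Or.inl ((hB.inj hb haa).1 hba)
        · refine Or.inr ⟨by rw [← hB.lev hb, hlb, hla'], ?_⟩
          rw [← hA.le_iff hq (hB.s hb haa (hlb.trans hla.symm) hba)]
          exact h1.resolve_left hba) V hVf η (hadm _ hla')
    rw [hla'] at z7
    have hlz' : S.lev z = S'.lev z' := by rw [z2, hla']
    have hsb : ∀ {b b'}, (b, b') ∈ B → S.lev b = S.lev z →
        b' ≠ z' ∧ (S.s b z, S'.s b' z') ∈ A := by
      intro b b' hb hlb
      by_cases hF : b = a ∨ S.s a z ≤ S.s b a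
      · obtain ⟨h2, h3⟩ := z6 b' ⟨b, hb, hlb, hF⟩
        refine ⟨h2, ?_⟩
        rw [h3]
        have h4 : S.s b z = S.s a z := by
          rcases hF with rfl | h5
          · rfl
          · refine le_antisymm (hmax' hb hlb) ?_
            by_cases hba : b = a
            · rw [hba]
            · refine le_trans (le_min h5 le_rfl)
                (S.ultra b a z (hlb.trans hla.symm) hla hba haz (hzne hb))
        rw [h4]; exact hq
      · push Not at hF
        obtain ⟨hba, hlt⟩ := hF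
        have hba' : b' ≠ a' := fun h => hba ((hB.inj hb haa).2 h)
        have hlb' : S'.lev b' = S'.lev a' := by rw [← hB.lev hb, hlb, hla']
        obtain ⟨h5, h6⟩ := S.s_iso (hlb.trans hla.symm) hla hba haz hlt
        have hlt' : S'.s b' a' < S'.s a' z' := by
          rw [z5, ← hA.ord (hB.s hb haa (hlb.trans hla.symm) hba) hq]; exact hlt
        obtain ⟨h7, h8⟩ := S'.s_iso hlb' z2.symm hba' z4 hlt'
        refine ⟨h7, ?_⟩
        rw [h6, h8]
        exact hB.s hb haa (hlb.trans hla.symm) hba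
    rcases hca with ⟨hzt, hat⟩ | ⟨hzt, hdz⟩
    · have hat' : S'.cz a' = ⊤ := by rw [← hB.cz haa]; exact hat
      have hzt' : S'.cz z' = ⊤ := by
        by_contra h1
        have h2 := S'.s_d z' a' z2 h1 hat'
        rw [S'.s_comm z' a' z2 z4.symm, z5] at h2
        have h3 := S'.c_d z' h1
        rw [← h2, ← hc hq, S.s_top a z hla haz hat hzt] at h3
        exact h1 h3.symm
      exact ⟨z', hzL, hlz', by rw [hzt, hzt'], fun h => absurd hzt h, hsb, hpat z' hlz'.symm z7⟩
    · have hna : S.cz a ≠ ⊤ := by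
        intro h1
        have := S.s_d z a hla.symm hzt h1
        rw [S.s_comm z a hla.symm haz.symm] at this
        rw [this] at hdz
        exact lt_irrefl _ hdz
      rw [S.s_comm a z hla haz] at hdz
      obtain ⟨-, hda⟩ := S.d_eq_of_lt hla.symm haz.symm hzt hdz
      have hna' : S'.cz a' ≠ ⊤ := by rw [← hB.cz haa]; exact hna
      have hlt' : S'.d a' < S'.s a' z' := by
        rw [z5, ← hA.ord (hB.d haa hna) hq, hda, S.s_comm a z hla haz]; exact hdz
      obtain ⟨h1, h2⟩ := S'.d_eq_of_lt z2.symm z4 hna' hlt'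
      have hdd : (S.d z, S'.d z') ∈ A := by rw [h2, ← hda]; exact hB.d haa hna
      refine ⟨z', hzL, hlz', ?_, fun _ => hdd, hsb, hpat z' hlz'.symm z7⟩
      rw [← S.c_d z hzt, ← S'.c_d z' h1]
      exact hc hdd
  · push Not at hcase
    by_cases hzt : S.cz z = ⊤
    · -- no top point yet
      obtain ⟨z', h1, h2, h3⟩ := hT hzt V hVf η (hadm _ rfl)
      refine ⟨z', hzL, h1.symm, by rw [hzt, h2], fun h => absurd hzt h, ?_, hpat z' h1
        (by intro l hl hlen; exact h3 l hl (by rw [h1]; exact hlen))⟩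
      intro a a' ha hla
      have hna : S.cz a ≠ ⊤ := (hcase a a' ha hla).1 hzt
      have hna' : S'.cz a' ≠ ⊤ := by rw [← hB.cz ha]; exact hna
      refine ⟨by rintro rfl; exact hna' h2, ?_⟩
      rw [S.s_d a z hla hna hzt, S'.s_d a' z' (by rw [← hB.lev ha, hla, h1]) hna' h2]
      exact hB.d ha hna
    · -- the virtual point is nearest
      obtain ⟨q', hq⟩ := hd hzt
      have hcq : S'.c q' = S.cz z := by rw [← hc hq, S.c_d z hzt]
      have hle : ∀ {a a'}, (a, a') ∈ B → S.lev a = S.lev z → S.s a z ≤ S.d z :=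
        fun h1 h2 => (hcase _ _ h1 h2).2 hzt
      have hF : ∀ b', b' ∈ {b' | ∃ b, (b, b') ∈ B ∧ S.lev b = S.lev z ∧ (S.cz b ≠ ⊤ ∧
          S.d b = S.d z)} → S'.lev b' = S.lev z ∧ S'.cz b' ≠ ⊤ ∧ S'.d b' = q' := by
        rintro b' ⟨b, hb, hlb, h1, h2⟩
        refine ⟨by rw [← hB.lev hb, hlb], by rw [← hB.cz hb]; exact h1, ?_⟩
        exact (hA.eq_iff (hB.d hb h1) hq).1 h2
      obtain ⟨z', z2, z4, z5, z6, z7⟩ := S'.ext1 (k := S.lev z) hzL (q := q') (hfin' _)
        (by rw [hcq]; exact hzt) hF hVf (hadm _ rfl)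
      have hlz' : S.lev z = S'.lev z' := z2.symm
      have hczz : S.cz z = S'.cz z' := by rw [← S'.c_d z' z4, z5, hcq]
      refine ⟨z', hzL, hlz', hczz, fun _ => by rw [z5]; exact hq, ?_, hpat z' z2 z7⟩
      intro a a' ha hla
      have hla' : S'.lev a' = S'.lev z' := by rw [← hB.lev ha, hla, hlz']
      have haz : a ≠ z := hzne ha
      by_cases hat : S.cz a = ⊤
      · have hat' : S'.cz a' = ⊤ := by rw [← hB.cz ha]; exact hat
        have hne : a' ≠ z' := by rintro rfl; exact z4 hat'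
        refine ⟨hne, ?_⟩
        rw [S.s_comm a z hla haz, S'.s_comm a' z' hla' hne, S.s_d z a hla.symm hzt hat,
          S'.s_d z' a' hla'.symm z4 hat', z5]
        exact hq
      · have hat' : S'.cz a' ≠ ⊤ := by rw [← hB.cz ha]; exact hat
        have hdA := hB.d ha hat
        have g1 := S.d2 a z hla haz hat hzt
        have g2 := S.d1 z a hla.symm haz.symm hzt hat
        rw [S.s_comm z a hla.symm haz.symm] at g2
        have g4 := hle ha hla
        rcases lt_trichotomy (S.d a) (S.d z) with h1 | h1 | h1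
        · -- `d a < d z`
          have h2 : S'.d a' < S'.d z' := by rw [z5, ← hA.ord hdA hq]; exact h1
          have hne : a' ≠ z' := by rintro rfl; exact lt_irrefl _ h2
          refine ⟨hne, ?_⟩
          have g1' := S'.d2 a' z' hla' hne hat' z4
          have g2' := S'.d1 z' a' hla'.symm hne.symm z4 hat'
          rw [S'.s_comm z' a' hla'.symm hne.symm] at g2'
          rw [min_eq_left h1.le] at g1
          rw [min_eq_left h2.le] at g1'
          have e1 : S.s a z = S.d a := by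
            rcases min_le_iff.1 g2 with h3 | h3
            · exact absurd h3 (not_le.2 h1)
            · exact le_antisymm h3 g1
          have e2 : S'.s a' z' = S'.d a' := by
            rcases min_le_iff.1 g2' with h3 | h3
            · exact absurd h3 (not_le.2 h2)
            · exact le_antisymm h3 g1'
          rw [e1, e2]; exact hdA
        · obtain ⟨h3, h4⟩ := z6 a' ⟨a, ha, hla, hat, h1⟩
          refine ⟨h3, ?_⟩
          rw [h1, min_self] at g1
          rw [h4, le_antisymm g4 g1]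
          exact hq
        · have h2 : S'.d z' < S'.d a' := by rw [z5, ← hA.ord hq hdA]; exact h1
          have hne : a' ≠ z' := by rintro rfl; exact lt_irrefl _ h2
          refine ⟨hne, ?_⟩
          have g1' := S'.d2 a' z' hla' hne hat' z4
          have g3' := S'.d1 a' z' hla' hne hat' z4
          rw [min_eq_right h1.le] at g1
          rw [min_eq_right h2.le] at g1'
          have e1 : S.s a z = S.d z := le_antisymm g4 g1
          have e2 : S'.s a' z' = S'.d z' := by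
            rcases min_le_iff.1 g3' with h3 | h3
            · exact absurd h3 (not_le.2 h2)
            · exact le_antisymm h3 g1'
          rw [e1, e2, z5]; exact hq

end Pool.Agent.Y567.MD
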