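import Pool.Agent.Y567.MD.Lang

/-!
Existence of isomorphisms in the case of heights of infinite colour, and of truncated systems.
-/

set_option autoImplicit false

namespace Pool.Agent.Y567.MD

open Set FirstOrder FirstOrder.Language
open Pool.Agent.Y567.MC (Col Match AG tr tr_of_lt tr_of_le tr_eq_top le_tr tr_mono le_tr_iff)

variable {p : Par} {L : ℕ∞} {H Z W H' Z' W' ι : Type} [LinearOrder H] [LinearOrder H']
  {S : Sy p L H Z W} {S' : Sy p L H' Z' W'} {ρ : H → ι} {ρ' : H' → ι} {sg : ι → Prop}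
  {B0 : Set (Z × Z')} {Θ : Set (W × W')} {A : Set (H × H')} {B : Set (Z × Z')} {C : Set (W × W')}

theorem topE_of {k : ℕ} (hk : (k : ℕ∞) < L) {a : Z} (ha : S.lev a = k) (hat : S.cz a = ⊤) {q : H}
    (hq : S.c q = ⊤) : TopE S k := by
  subst ha
  intro V hV η hη
  obtain ⟨z, z1, ⟨z2, z3⟩, -, z4⟩ := S.ext a q ∅ hk Set.finite_empty (by simp) V hV η hη
  refine ⟨z, z1, ?_, fun l hl hlen => z4 l hl (by rw [← z1]; exact hlen)⟩
  by_contra h6
  have h7 := S.s_d z a z1 h6 hat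
  rw [S.s_comm _ _ z1 z2.symm, z3] at h7
  have h8 := S.c_d z h6
  rw [← h7, hq] at h8
  exact h6 h8.symm

/-- the first points of `W` -/
theorem start (hA : AG ρ ρ' A) (hAf : A.Finite) (hB : BG S S' A B) (hBf : B.Finite) {q' : H'}
    (hq' : S'.c q' = ⊤) (w : W) (f0' : W') :
    ∃ w', Inv S S' ρ ρ' ∅ univ A B {(w, w')} := by
  obtain ⟨w', w1, w2, w3⟩ := S'.extW f0' q' {f0'} (Set.finite_singleton _) rfl
    (fun _ g hg => Or.inl hg) (Prod.snd '' B) (hBf.image _) (by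
      rintro z' ⟨⟨z, z1⟩, hz, rfl⟩
      rw [← hB.lev hz]; exact hB.low hz)
    (fun z' l' => ∃ z, (z, z') ∈ B ∧ S.r z (l'.map fun _ => w)) (by
      rintro hcon z' ⟨⟨z, z1⟩, hz, rfl⟩ hle
      rw [hq'] at hle
      exact absurd (top_le_iff.1 hle) (ENat.natCast_ne_top _))
  refine ⟨w', ⟨hA, hAf, hB, empty_subset _, by simpa using hBf, ⟨?_, ?_⟩,
    Set.finite_singleton _, ⟨_, rfl⟩, subset_univ _, ?_⟩⟩
  · rintro f f' g g' h1 h2
    cases h1; cases h2; simp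
  · rintro _ f f' g g' h1 h2 h3
    cases h1; cases h2; exact absurd rfl h3
  · intro z z' hz l hl hlen
    by_cases hl0 : l = []
    · subst hl0
      exact absurd hlen.symm (p.pos _)
    have h1 := w3 z' ⟨(z, z'), hz, rfl⟩ (l.map fun _ => none) (by
      cases l with
      | nil => exact absurd rfl hl0
      | cons x l => simp) (by
      intro g hg
      obtain ⟨y, -, hy⟩ := List.mem_map.1 hg
      simp at hy) (by rw [List.length_map, ← hB.lev hz]; exact hlen)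
    rw [List.map_map] at h1
    have e1 : l.map Prod.snd = l.map ((fun x : Option W' => x.getD w') ∘ fun _ => none) := by
      refine List.map_congr_left fun x hx => ?_
      have := hl x hx
      rw [mem_singleton_iff] at this
      rw [this]; rfl
    have e2 : l.map Prod.fst = (l.map fun _ => (none : Option W')).map fun _ => w := by
      rw [List.map_map]
      refine List.map_congr_left fun x hx => ?_
      have := hl x hx
      rw [mem_singleton_iff] at this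
      rw [this]; rfl
    rw [e1, h1, e2]
    constructor
    · exact fun h => ⟨z, hz, h⟩
    · rintro ⟨z1, h2, h3⟩
      rwa [(hB.inj h2 hz).2 rfl] at h3


/-- Steps for the points of `W'`. -/
theorem stepW' (m : Match ρ ρ' sg) (hρ : ∀ x x', ρ x = ρ' x' → S.c x = S'.c x')
    (hB0 : ∀ k, {a ∈ B0 | S.lev a.1 = k}.Finite) (hc : B0 = ∅ ∨ (p.con ∧ ∀ q, S'.c q ≠ ⊤))
    (h : Inv S S' ρ ρ' B0 univ A B C) (w' : W') :
    ∃ A' C', A ⊆ A' ∧ C ⊆ C' ∧ Inv S S' ρ ρ' B0 univ A' B C' ∧ ∃ w, (w, w') ∈ C' := by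
  have hB0' : ∀ k, {a ∈ Prod.swap ⁻¹' B0 | S'.lev a.1 = k}.Finite := by
    intro k
    refine ((hB0 k).image Prod.swap).subset ?_
    rintro ⟨z', z⟩ ⟨h1, h2⟩
    refine ⟨(z, z'), ⟨h1, ?_⟩, rfl⟩
    rw [← h2]
    exact h.bg.lev (h.sub h1)
  obtain ⟨A2, C2, q1, q2, q3, ⟨w, q4⟩⟩ := Inv.extW (Inv.swap h) m.symm
    (fun x x' h => (hρ x' x h.symm).symm) hB0' (by
      rcases hc with h1 | h1
      · left; rw [h1]; rfl
      · exact Or.inr h1) w'
  have q3' := q3.swap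
  simp only [swap_swap_set] at q3'
  exact ⟨Prod.swap ⁻¹' A2, Prod.swap ⁻¹' C2, fun p hp => q1 (by simpa using hp),
    fun p hp => q2 (by simpa using hp), q3', w, q4⟩

/-- Isomorphisms in the case of heights of infinite colour. -/
theorem iso_inf [Countable H] [Countable Z] [Countable H'] [Countable Z'] [Countable W]
    [Countable W'] (m : Match ρ ρ' sg) (hρ : ∀ x x', ρ x = ρ' x' → S.c x = S'.c x')
    (hT : ∀ k : ℕ, (k : ℕ∞) < L → ((∃ z, S.lev z = k ∧ S.cz z = ⊤) ↔ ∃ z, S'.lev z = k ∧ S'.cz z = ⊤))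
    {q : H} (hq : S.c q = ⊤) {q' : H'} (hq' : S'.c q' = ⊤) (hw : Nonempty W) (hw' : Nonempty W')
    (w : {z : Z // ¬ (S.lev z : ℕ∞) < L} ≃ {z : Z' // ¬ (S'.lev z : ℕ∞) < L})
    (h0 : (AG ρ ρ' A ∧ A.Finite ∧ BG S S' A B ∧ B.Finite ∧ C = ∅) ∨
      Inv S S' ρ ρ' ∅ univ A B C) :
    ∃ (f : H ≃ H') (g : Z ≃ Z') (e : W ≃ W'), Iso S S' f g e ∧
      (∀ x x', (x, x') ∈ A → f x = x') ∧
      (∀ z z', (z, z') ∈ B → (S.lev z : ℕ∞) < L → g z = z') ∧
      (∀ w w', (w, w') ∈ C → e w = w') ∧ ∀ z hz, g z = (w ⟨z, hz⟩).1 := by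
  obtain ⟨C', h1, h2⟩ : ∃ C', C ⊆ C' ∧ Inv S S' ρ ρ' ∅ univ A B C' := by
    rcases h0 with ⟨h1, h2, h3, h4, h5⟩ | h
    · obtain ⟨w'⟩ := hw'
      obtain ⟨w⟩ := hw
      obtain ⟨w1, hw1⟩ := start h1 h2 h3 h4 hq' w w'
      exact ⟨_, by rw [h5]; exact empty_subset _, hw1⟩
    · exact ⟨C, subset_rfl, h⟩
  obtain ⟨f, g, e, h3, h4, h5, h6, -, h7⟩ := exists_iso (Θ := univ) m hρ
    (fun k => by simp)
    (fun z hz hzt => by
      obtain ⟨z', h8, h9⟩ := (hT _ hz).1 ⟨z, rfl, hzt⟩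
      exact Or.inr (topE_of hz h8 h9 hq'))
    (fun z hz hzt => by
      obtain ⟨z', h8, h9⟩ := (hT _ hz).2 ⟨z, rfl, hzt⟩
      exact Or.inr (topE_of hz h8 h9 hq))
    (fun A B C h => h.extW m hρ (fun k => by simp) (Or.inl rfl))
    (fun A B C h => stepW' m hρ (fun k => by simp) (Or.inl rfl) h) w h2
  exact ⟨f, g, e, h3, h4, h5, fun w w' h => h6 w w' (h1 h), h7⟩

end Pool.Agent.Y567.MD
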