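import Pool.Agent.Y567.MD.Full

/-!
Classification of full systems: the case of heights of infinite colour, and the case of an
ultrametric `W`.
-/

set_option autoImplicit false

namespace Pool.Agent.Y567.MD

open Set FirstOrder FirstOrder.Language
open Pool.Agent.Y567.MC (Col Match AG)

variable {p : Par} {H Z W : Type} [LinearOrder H] (S : Sy p ⊤ H Z W)

/-- there is a top point of level `k` -/
def TopL (k : ℕ) : Prop := ∃ z, S.lev z = k ∧ S.cz z = ⊤

/-- there is a height of infinite colour -/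
def CInf : Prop := ∃ x, S.c x = ⊤

/-- least height of infinite colour -/
def CLeast (x : H) : Prop := S.c x = ⊤ ∧ ∀ y, S.c y = ⊤ → x ≤ y

variable {S}

theorem top_unique (hC : ¬ CInf S) {z w : Z} (hl : S.lev z = S.lev w) (hz : S.cz z = ⊤)
    (hw : S.cz w = ⊤) : z = w := by
  by_contra hne
  exact hC ⟨_, S.s_top z w hl hne hz hw⟩

variable {H' Z' W' : Type} [LinearOrder H'] {S' : Sy p ⊤ H' Z' W'}

/-- labels in the case of heights of infinite colour -/
def lab0 (S : Sy p ⊤ H Z W) (x : H) : ℕ∞ × Prop := (S.c x, CLeast S x)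

theorem col0 (hF : Full S) : Col (lab0 S) (fun i => i.2) where
  single := by
    intro x y hx hxy
    simp only [lab0, Prod.mk.injEq] at hx hxy
    have hy : CLeast S y := by rw [hxy.2]; exact hx
    exact le_antisymm (hy.2 x hx.1) (hx.2 y hy.1)
  down := by
    intro x hx
    change ¬ CLeast S x at hx
    by_cases hc : S.c x = ⊤
    · have : ∃ y, S.c y = ⊤ ∧ y < x := by
        by_contra hn
        push Not at hn
        exact hx ⟨hc, hn⟩
      obtain ⟨y, h1, h2⟩ := this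
      obtain ⟨t, h3, h4⟩ := hF.dens y x h2
      have hct : S.c t = ⊤ := top_le_iff.1 (h1.symm.le.trans (S.c_mono h3.le))
      have hn : ¬ CLeast S t := fun h => absurd (h.2 y h1) (not_le.2 h3)
      exact ⟨t, h4, by simp only [lab0, hct, hc, hn, hx]⟩
    · obtain ⟨n, hn⟩ := ENat.ne_top_iff_exists.1 hc
      obtain ⟨y, h1, h2⟩ := hF.down n x hn.le
      have hcy : S.c y = S.c x := le_antisymm (S.c_mono h1.le) (by rw [← hn]; exact h2)
      have hny : ¬ CLeast S y := fun h => hc (by rw [← hcy]; exact h.1)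
      exact ⟨y, h1, by simp only [lab0, hcy, hny, hx]⟩
  up := by
    intro x hx
    change ¬ CLeast S x at hx
    by_cases hc : S.c x = ⊤
    · obtain ⟨y, h1⟩ := hF.nomax x
      have hcy : S.c y = ⊤ := top_le_iff.1 (hc.symm.le.trans (S.c_mono h1.le))
      have hn : ¬ CLeast S y := fun h => absurd (h.2 x hc) (not_le.2 h1)
      exact ⟨y, h1, by simp only [lab0, hcy, hc, hn, hx]⟩
    · obtain ⟨n, hn⟩ := ENat.ne_top_iff_exists.1 hc
      obtain ⟨y, h1, h2⟩ := hF.up n x (by rw [← hn, Nat.cast_le]; omega)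
      have hcy : S.c y = S.c x := by
        refine le_antisymm ?_ (S.c_mono h1.le)
        rw [← hn]
        have := not_le.1 h2
        rw [Nat.cast_add, Nat.cast_one] at this
        exact Order.le_of_lt_add_one this
      have hny : ¬ CLeast S y := fun h => hc (by rw [← hcy]; exact h.1)
      exact ⟨y, h1, by simp only [lab0, hcy, hny, hx]⟩
  mid := by
    intro x y hx hxy hlt
    change ¬ CLeast S x at hx
    simp only [lab0, Prod.mk.injEq] at hxy
    obtain ⟨t, h1, h2⟩ := hF.dens x y hlt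
    have hct : S.c t = S.c x :=
      le_antisymm ((S.c_mono h2.le).trans hxy.1.le) (S.c_mono h1.le)
    have hn : ¬ CLeast S t := fun h => absurd (h.2 x (by rw [← hct]; exact h.1)) (not_le.2 h1)
    exact ⟨t, h1, h2, by simp only [lab0, hct, hn, hx]⟩

theorem lab0_exists (hF' : Full S') (hC' : CInf S') (hM : (∃ x, CLeast S x) → ∃ x, CLeast S' x)
    (x : H) : ∃ x', lab0 S' x' = lab0 S x := by
  by_cases hc : S.c x = ⊤
  · by_cases hx : CLeast S x
    · obtain ⟨x', hx'⟩ := hM ⟨x, hx⟩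
      exact ⟨x', by simp only [lab0, hx'.1, hx.1, hx, hx']⟩
    · obtain ⟨y', hy'⟩ := hC'
      obtain ⟨x', h1⟩ := hF'.nomax y'
      have hcx : S'.c x' = ⊤ := top_le_iff.1 (hy'.symm.le.trans (S'.c_mono h1.le))
      have hn : ¬ CLeast S' x' := fun h => absurd (h.2 y' hy') (not_le.2 h1)
      exact ⟨x', by simp only [lab0, hcx, hc, hn, hx]⟩
  · obtain ⟨n, hn⟩ := ENat.ne_top_iff_exists.1 hc
    obtain ⟨x', hx'⟩ := hF'.all n
    have hcx : S'.c x' = S.c x := by rw [hx', hn]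
    have h1 : ¬ CLeast S x := fun h => hc h.1
    have h2 : ¬ CLeast S' x' := fun h => hc (by rw [← hcx]; exact h.1)
    exact ⟨x', by simp only [lab0, hcx, h1, h2]⟩

theorem sep0_half {x y : H} {x' y' : H'} (h1 : lab0 S x = lab0 S' x') (h2 : lab0 S y = lab0 S' y')
    (h3 : lab0 S x ≠ lab0 S y) (hlt : x < y) : x' < y' := by
  simp only [lab0, Prod.mk.injEq] at h1 h2
  rcases (S.c_mono hlt.le).eq_or_lt with hc | hc
  · have hN : CLeast S x ≠ CLeast S y := by
      intro h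
      exact h3 (by simp only [lab0, hc, h])
    by_cases hx : CLeast S x
    · have hy : ¬ CLeast S y := fun h => hN (by rw [eq_iff_iff]; exact ⟨fun _ => h, fun _ => hx⟩)
      have hx' : CLeast S' x' := by rw [← h1.2]; exact hx
      have hy' : ¬ CLeast S' y' := by rw [← h2.2]; exact hy
      refine lt_of_le_of_ne (hx'.2 y' (by rw [← h2.1, ← hc]; exact hx.1)) ?_
      rintro rfl
      exact hy' hx'
    · exfalso
      have hy : CLeast S y := by
        by_contra h
        exact hN (by rw [eq_iff_iff]; exact ⟨fun h' => absurd h' hx, fun h' => absurd h' h⟩)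
      exact absurd (hy.2 x (by rw [hc]; exact hy.1)) (not_le.2 hlt)
  · rw [h1.1, h2.1] at hc
    exact S'.lt_of_c hc

theorem match0 (hF : Full S) (hC : CInf S) (hF' : Full S') (hC' : CInf S')
    (hM : (∃ x, CLeast S x) ↔ ∃ x, CLeast S' x) :
    Match (lab0 S) (lab0 S') (fun i => i.2) where
  col := col0 hF
  col' := col0 hF'
  lab := lab0_exists hF' hC' hM.1
  lab' := lab0_exists hF hC hM.2
  sep := fun x x' y y' h1 h2 h3 => ⟨sep0_half h1 h2 h3, sep0_half h1.symm h2.symm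
    (by rw [← h1, ← h2]; exact h3)⟩

/-- there are no levels `≥ ⊤` -/
noncomputable def noHigh (S : Sy p ⊤ H Z W) (S' : Sy p ⊤ H' Z' W') :
    {z : Z // ¬ (S.lev z : ℕ∞) < ⊤} ≃ {z : Z' // ¬ (S'.lev z : ℕ∞) < ⊤} := by
  have h1 : IsEmpty {z : Z // ¬ (S.lev z : ℕ∞) < ⊤} := ⟨fun z => z.2 (ENat.natCast_lt_top _)⟩
  have h2 : IsEmpty {z : Z' // ¬ (S'.lev z : ℕ∞) < ⊤} := ⟨fun z => z.2 (ENat.natCast_lt_top _)⟩
  exact Equiv.equivOfIsEmpty _ _

/-- The classification in the case of heights of infinite colour. -/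
theorem classify_inf [Countable H] [Countable Z] [Countable H'] [Countable Z'] [Countable W]
    [Countable W'] (hF : Full S) (hF' : Full S') (hC : CInf S) (hC' : CInf S')
    (hM : (∃ x, CLeast S x) ↔ ∃ x, CLeast S' x) (hT : ∀ k, TopL S k ↔ TopL S' k)
    {A : Set (H × H')} (hA : AG (lab0 S) (lab0 S') A) (hAf : A.Finite) :
    ∃ (f : H ≃ H') (g : Z ≃ Z') (e : W ≃ W'), Iso S S' f g e ∧ ∀ x x', (x, x') ∈ A → f x = x' := by
  obtain ⟨q, hq⟩ := hC
  obtain ⟨q', hq'⟩ := hC'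
  obtain ⟨f, g, e, h1, h2, -⟩ := iso_inf (S := S) (S' := S') (A := A) (B := ∅) (C := ∅)
    (match0 hF ⟨q, hq⟩ hF' ⟨q', hq'⟩ hM) (fun x x' h => congrArg Prod.fst h)
    (fun k _ => hT k) hq hq' hF.ne hF'.ne (noHigh S S')
    (Or.inl ⟨hA, hAf, ⟨fun h => h.elim,
      fun h => h.elim, fun h => h.elim, fun h => h.elim, fun h => h.elim, fun h => h.elim⟩,
      Set.finite_empty, rfl⟩)
  exact ⟨f, g, e, h1, h2⟩

/-- the bits -/
def bit (S : Sy p ⊤ H Z W) (w : W) (k : ℕ) : Prop := ∃ z, S.lev z = k ∧ S.cz z = ⊤ ∧ S.r z [w]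

/-- Change of a point of `W` so that the first bits are prescribed. -/
theorem exists_bits (hcon : p.con) (hF : Full S) (hC : ¬ CInf S) (w : W) (N : ℕ) (x : ℕ → Prop) :
    ∃ w', (∀ k, k < N → TopL S k → (bit S w' k ↔ x k)) ∧ ∀ k, N ≤ k → (bit S w' k ↔ bit S w k) := by
  obtain ⟨q, hq⟩ := hF.all N
  have hG : {z | S.lev z < N ∧ S.cz z = ⊤}.Finite := by
    refine Set.Finite.subset (s := ⋃ k ∈ Finset.range N, {z | S.lev z = k ∧ S.cz z = ⊤})
      (Set.Finite.biUnion (Finset.finite_toSet _) fun k _ => Set.Subsingleton.finite ?_) ?_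
    · rintro z ⟨h1, h2⟩ z' ⟨h3, h4⟩
      exact top_unique hC (h1.trans h3.symm) h2 h4
    · rintro z ⟨h1, h2⟩
      simp only [mem_iUnion]
      exact ⟨S.lev z, by simpa using h1, rfl, h2⟩
  obtain ⟨w', h1, h2, h3⟩ := S.extW w q {w} (Set.finite_singleton _) rfl
    (fun _ g hg => Or.inl hg) {z | S.lev z < N ∧ S.cz z = ⊤} hG (fun _ _ => ENat.natCast_lt_top _)
    (fun z _ => x (S.lev z)) (by
      rintro - z ⟨hz, -⟩ hle
      rw [hq, Nat.cast_le] at hle
      omega)
  have h4 := h2 hcon w rfl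
  have hne : w ≠ w' := fun h => h1 h.symm
  refine ⟨w', ?_, ?_⟩
  · rintro k hk ⟨z, hz, hzt⟩
    have h5 := h3 z ⟨by rw [hz]; exact hk, hzt⟩ [none] (by simp) (by simp)
      (by simp [p.one hcon])
    simp only [List.map_cons, List.map_nil, Option.getD_none] at h5
    constructor
    · rintro ⟨z', h6, h7, h8⟩
      rw [top_unique hC (h6.trans hz.symm) h7 hzt] at h8
      rw [← hz]; exact h5.1 h8
    · intro h
      exact ⟨z, hz, hzt, h5.2 (by rw [hz]; exact h)⟩
  · intro k hk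
    have h5 : ∀ z, S.lev z = k → (S.r z [w] ↔ S.r z [w']) := by
      intro z hz
      refine S.r_u hcon z w w' (ENat.natCast_lt_top _) hne ?_
      rw [h4, hq, hz]
      exact_mod_cast hk
    constructor
    · rintro ⟨z, h6, h7, h8⟩
      exact ⟨z, h6, h7, (h5 z h6).2 h8⟩
    · rintro ⟨z, h6, h7, h8⟩
      exact ⟨z, h6, h7, (h5 z h6).1 h8⟩

/-- The bits of two points differ at finitely many places. -/
theorem bits_fin (hcon : p.con) (hC : ¬ CInf S) (w w' : W) :
    ∃ N, ∀ k, N ≤ k → (bit S w k ↔ bit S w' k) := by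
  by_cases hne : w = w'
  · exact ⟨0, fun k _ => by rw [hne]⟩
  obtain ⟨N, hN⟩ := ENat.ne_top_iff_exists.1 (fun h => hC ⟨S.u w w', h⟩)
  refine ⟨N, fun k hk => ?_⟩
  have h5 : ∀ z, S.lev z = k → (S.r z [w] ↔ S.r z [w']) := by
    intro z hz
    refine S.r_u hcon z w w' (ENat.natCast_lt_top _) hne ?_
    rw [← hN, hz]
    exact_mod_cast hk
  constructor
  · rintro ⟨z, h6, h7, h8⟩
    exact ⟨z, h6, h7, (h5 z h6).1 h8⟩
  · rintro ⟨z, h6, h7, h8⟩
    exact ⟨z, h6, h7, (h5 z h6).2 h8⟩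

theorem col_fin (hF : Full S) (hC : ¬ CInf S) : Col S.c (fun _ => False) where
  single := fun _ _ h => h.elim
  down := by
    intro x _
    obtain ⟨n, hn⟩ := ENat.ne_top_iff_exists.1 (fun h => hC ⟨x, h⟩)
    obtain ⟨y, h1, h2⟩ := hF.down n x hn.le
    exact ⟨y, h1, le_antisymm (S.c_mono h1.le) (by rw [← hn]; exact h2)⟩
  up := by
    intro x _
    obtain ⟨n, hn⟩ := ENat.ne_top_iff_exists.1 (fun h => hC ⟨x, h⟩)
    obtain ⟨y, h1, h2⟩ := hF.up n x (by rw [← hn, Nat.cast_le]; omega)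
    refine ⟨y, h1, le_antisymm ?_ (S.c_mono h1.le)⟩
    rw [← hn]
    have := not_le.1 h2
    rw [Nat.cast_add, Nat.cast_one] at this
    exact Order.le_of_lt_add_one this
  mid := by
    intro x y _ hxy hlt
    obtain ⟨t, h1, h2⟩ := hF.dens x y hlt
    exact ⟨t, h1, h2, le_antisymm ((S.c_mono h2.le).trans hxy.le) (S.c_mono h1.le)⟩

theorem match_fin (hF : Full S) (hC : ¬ CInf S) (hF' : Full S') (hC' : ¬ CInf S') :
    Match S.c S'.c (fun _ => False) where
  col := col_fin hF hC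
  col' := col_fin hF' hC'
  lab := by
    intro x
    obtain ⟨n, hn⟩ := ENat.ne_top_iff_exists.1 (fun h => hC ⟨x, h⟩)
    obtain ⟨y, hy⟩ := hF'.all n
    exact ⟨y, by rw [hy, hn]⟩
  lab' := by
    intro x
    obtain ⟨n, hn⟩ := ENat.ne_top_iff_exists.1 (fun h => hC' ⟨x, h⟩)
    obtain ⟨y, hy⟩ := hF.all n
    exact ⟨y, by rw [hy, hn]⟩
  sep := by
    have key : ∀ {H Z W H' Z' W' : Type} [LinearOrder H] [LinearOrder H'] {S : Sy p ⊤ H Z W}
      {S' : Sy p ⊤ H' Z' W'}, ∀ x x' y y', S.c x = S'.c x' → S.c y = S'.c y' → S.c x ≠ S.c y →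
        x < y → x' < y' := by
      intro H Z W H' Z' W' _ _ S S' x x' y y' h1 h2 h3 h4
      refine S'.lt_of_c ?_
      rw [← h1, ← h2]
      exact lt_of_le_of_ne (S.c_mono h4.le) h3
    intro x x' y y' h1 h2 h3
    exact ⟨key (S := S) (S' := S') x x' y y' h1 h2 h3,
      key (S := S') (S' := S) x' x y' y h1.symm h2.symm (by rw [← h1, ← h2]; exact h3)⟩

/-- The classification in the case without heights of infinite colour and ultrametric `W`. -/
theorem classify_fin [Countable H] [Countable Z] [Countable H'] [Countable Z'] [Countable W]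
    [Countable W'] (hcon : p.con) (hF : Full S) (hF' : Full S') (hC : ¬ CInf S) (hC' : ¬ CInf S')
    (hT : ∀ k, TopL S k ↔ TopL S' k) (w0 : W) (w1 : W') (N : ℕ)
    (hN : ∀ k, N ≤ k → (bit S w0 k ↔ bit S' w1 k)) :
    ∃ (f : H ≃ H') (g : Z ≃ Z') (e : W ≃ W'), Iso S S' f g e := by
  obtain ⟨w0', h1, h2⟩ := exists_bits hcon hF' hC' w1 N (fun k => bit S w0 k)
  have hbit : ∀ k, TopL S k → (bit S w0 k ↔ bit S' w0' k) := by
    intro k hk
    by_cases hkN : k < N
    · exact (h1 k hkN ((hT k).1 hk)).symm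
    · exact (hN k (not_lt.1 hkN)).trans (h2 k (not_lt.1 hkN)).symm
  let B0 : Set (Z × Z') := {a | S.lev a.1 = S'.lev a.2 ∧ S.cz a.1 = ⊤ ∧ S'.cz a.2 = ⊤}
  have hB0 : ∀ k, {a ∈ B0 | S.lev a.1 = k}.Finite := by
    intro k
    refine Set.Subsingleton.finite ?_
    rintro ⟨z, z'⟩ ⟨⟨g1, g2, g3⟩, g4⟩ ⟨y, y'⟩ ⟨⟨g5, g6, g7⟩, g8⟩
    dsimp only at g1 g2 g3 g4 g5 g6 g7 g8
    exact Prod.ext (top_unique hC (by dsimp only; omega) g2 g6)
      (top_unique hC' (by dsimp only; omega) g3 g7)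
  have hI : Inv S S' S.c S'.c B0 univ ∅ B0 {(w0, w0')} := by
    refine ⟨⟨fun h => h.elim, fun h => h.elim⟩, Set.finite_empty, ⟨?_, ?_, ?_, ?_, ?_, ?_⟩,
      subset_rfl, by simp, ⟨?_, ?_⟩, Set.finite_singleton _, ⟨_, rfl⟩, subset_univ _, ?_⟩
    · rintro z z' y y' ⟨g1, g2, g3⟩ ⟨g5, g6, g7⟩
      dsimp only at g1 g2 g3 g5 g6 g7
      constructor
      · intro h
        refine top_unique hC' ?_ g3 g7
        rw [← g1, ← g5, h]
      · intro h
        refine top_unique hC ?_ g2 g6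
        rw [g1, g5, h]
    · exact fun _ => ENat.natCast_lt_top _
    · exact fun h => h.1
    · exact fun h => h.2.1.trans h.2.2.symm
    · exact fun h h' => absurd h.2.1 h'
    · rintro z z' y y' ⟨g1, g2, g3⟩ ⟨g5, g6, g7⟩ g8 g9
      exact absurd (top_unique hC g8 g2 g6) g9
    · rintro f f' g g' h1 h2
      cases h1; cases h2; simp
    · rintro _ f f' g g' h1 h2 h3
      cases h1; cases h2; exact absurd rfl h3
    · rintro z z' ⟨g1, g2, g3⟩ l hl hlen
      dsimp only at g1 g2 g3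
      obtain ⟨a, rfl⟩ : ∃ a, l = [a] := List.length_eq_one_iff.1 (by rw [hlen, p.one hcon])
      have ha : a = (w0, w0') := by simpa using hl a (by simp)
      subst ha
      simp only [List.map_cons, List.map_nil]
      have h3 := hbit (S.lev z) ⟨z, rfl, g2⟩
      constructor
      · intro h
        obtain ⟨y, h4, h5, h6⟩ := h3.1 ⟨z, rfl, g2, h⟩
        rwa [top_unique hC' (h4.trans g1) h5 g3] at h6
      · intro h
        obtain ⟨y, h4, h5, h6⟩ := h3.2 ⟨z', g1.symm, g3, h⟩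
        rwa [top_unique hC h4 h5 g2] at h6
  have hfin : ∀ q, S.c q ≠ ⊤ := fun q h => hC ⟨q, h⟩
  have hfin' : ∀ q, S'.c q ≠ ⊤ := fun q h => hC' ⟨q, h⟩
  obtain ⟨f, g, e, h3, -⟩ := exists_iso (Θ := univ) (match_fin hF hC hF' hC') (fun x x' h => h) hB0
    (fun z _ hz => by
      obtain ⟨z', g1, g2⟩ := (hT (S.lev z)).1 ⟨z, rfl, hz⟩
      exact Or.inl ⟨z', g1.symm, hz, g2⟩)
    (fun z _ hz => by
      obtain ⟨z', g1, g2⟩ := (hT (S'.lev z)).2 ⟨z, rfl, hz⟩
      exact Or.inl ⟨z', g1, g2, hz⟩)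
    (fun A B C h => h.extW (match_fin hF hC hF' hC') (fun x x' h => h) hB0 (Or.inr ⟨hcon, hfin⟩))
    (fun A B C h => stepW' (match_fin hF hC hF' hC') (fun x x' h => h) hB0
      (Or.inr ⟨hcon, hfin'⟩) h) (noHigh S S') hI
  exact ⟨f, g, e, h3⟩

end Pool.Agent.Y567.MD
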