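import Pool.Agent.Y567.MD.Mk
import Pool.Agent.Y567.MC.Conv

/-!
Structures which are isomorphic to the structure of a full system for every finite part of the
language are structures of full systems.
-/

set_option autoImplicit false

namespace Pool.Agent.Y567.MD

open Set FirstOrder FirstOrder.Language
open Pool.Agent.Y567.MC (exists_col)

variable {p : Par} {H0 Z0 W0 : Type} [LinearOrder H0] {S : Sy p ⊤ H0 Z0 W0} {M : Type}
  {SM : (Lg p.ar).Structure M} {N : ℕ} {F : Un H0 Z0 W0 ≃ M}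

theorem tR (hF : IsoN (idx p.ar) (str S Empty) SM N F) {n : ℕ} (R : Rl p.ar n)
    (hR : idx p.ar n R ≤ N) (v : Fin n → M) : rm SM R v ↔ rel S Empty R (F.symm ∘ v) := by
  have h := hF n R (F.symm ∘ v) hR
  have e : F ∘ (F.symm ∘ v) = v := by ext i; simp
  rw [e] at h
  exact h.symm

theorem tU (hF : IsoN (idx p.ar) (str S Empty) SM N F) {n : ℕ} (hn : n ≤ N) (m : M) :
    rm SM (.U n) ![m] ↔ ∃ x, m = F (.inl x) ∧ (n : ℕ∞) ≤ S.c x := by
  rw [tR hF (.U n) hn]
  simp [rel, Equiv.symm_apply_eq]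

theorem tP (hF : IsoN (idx p.ar) (str S Empty) SM N F) {k n : ℕ} (hk : k ≤ N) (hn : n ≤ N) (m : M) :
    rm SM (.P k n) ![m] ↔ ∃ z, m = F (.inr (.inl z)) ∧ S.lev z = k ∧ (n : ℕ∞) ≤ S.cz z := by
  rw [tR hF (.P k n) (max_le hk hn)]
  simp [rel, Equiv.symm_apply_eq]

theorem tV (hF : IsoN (idx p.ar) (str S Empty) SM N F) (m : M) :
    rm SM .V ![m] ↔ ∃ w, m = F (.inr (.inr (.inl w))) := by
  rw [tR hF .V (Nat.zero_le _)]
  simp [rel, Equiv.symm_apply_eq]

theorem tL (hF : IsoN (idx p.ar) (str S Empty) SM N F) (m m' : M) :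
    rm SM .Lt ![m, m'] ↔ ∃ x y, m = F (.inl x) ∧ m' = F (.inl y) ∧ x < y := by
  rw [tR hF .Lt (Nat.zero_le _)]
  simp [rel, Equiv.symm_apply_eq]

theorem tD (hF : IsoN (idx p.ar) (str S Empty) SM N F) {k : ℕ} (hk : k ≤ N) (m m' m'' : M) :
    rm SM (.D k) ![m, m', m''] ↔ ∃ z w x, m = F (.inr (.inl z)) ∧ m' = F (.inr (.inl w)) ∧
      m'' = F (.inl x) ∧ S.lev z = k ∧ S.lev w = k ∧ z ≠ w ∧ S.s z w = x := by
  rw [tR hF (.D k) hk]
  simp [rel, Equiv.symm_apply_eq]

theorem tE (hF : IsoN (idx p.ar) (str S Empty) SM N F) (m m' m'' : M) :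
    rm SM .E ![m, m', m''] ↔ p.con ∧ ∃ f g x, m = F (.inr (.inr (.inl f))) ∧
      m' = F (.inr (.inr (.inl g))) ∧ m'' = F (.inl x) ∧ f ≠ g ∧ S.u f g = x := by
  rw [tR hF .E (Nat.zero_le _)]
  simp [rel, Equiv.symm_apply_eq]

theorem tQ (hF : IsoN (idx p.ar) (str S Empty) SM N F) {k : ℕ} (hk : k ≤ N)
    (v : Fin (p.ar k + 1) → M) :
    rm SM (.Q k) v ↔ ∃ z, ∃ a : Fin (p.ar k) → W0, v (Fin.last _) = F (.inr (.inl z)) ∧
      (∀ i, v i.castSucc = F (.inr (.inr (.inl (a i))))) ∧ S.lev z = k ∧ S.r z (List.ofFn a) := by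
  rw [tR hF (.Q k) hk]
  simp [rel, Equiv.symm_apply_eq]

section conv

variable (hM : ∀ N, ∃ F : Un H0 Z0 W0 ≃ M, IsoN (idx p.ar) (str S Empty) SM N F)

/-- heights -/
abbrev HM (SM : (Lg p.ar).Structure M) : Type := {x : M // rm SM (.U 0) ![x]}

/-- points -/
abbrev ZM (SM : (Lg p.ar).Structure M) : Type := {x : M // ∃ k, rm SM (.P k 0) ![x]}

/-- the set `W` -/
abbrev WM (SM : (Lg p.ar).Structure M) : Type := {x : M // rm SM .V ![x]}

/-- the rest -/
abbrev JM (SM : (Lg p.ar).Structure M) : Type :=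
  {x : M // ¬ rm SM (.U 0) ![x] ∧ (¬ ∃ k, rm SM (.P k 0) ![x]) ∧ ¬ rm SM .V ![x]}

include hM

theorem cU1 {n : ℕ} {x : M} (h : rm SM (.U (n + 1)) ![x]) : rm SM (.U n) ![x] := by
  obtain ⟨F, hF⟩ := hM (n + 1)
  rw [tU hF le_rfl] at h
  rw [tU hF (Nat.le_succ n)]
  obtain ⟨y, h1, h2⟩ := h
  exact ⟨y, h1, le_trans (by exact_mod_cast Nat.le_succ n) h2⟩

theorem cU0 {n : ℕ} {x : M} (h : rm SM (.U n) ![x]) : rm SM (.U 0) ![x] := by
  induction n with
  | zero => exact h
  | succ n ih => exact ih (cU1 hM h)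

theorem cP1 {k n : ℕ} {x : M} (h : rm SM (.P k (n + 1)) ![x]) : rm SM (.P k n) ![x] := by
  obtain ⟨F, hF⟩ := hM (max k (n + 1))
  rw [tP hF (le_max_left _ _) (le_max_right _ _)] at h
  rw [tP hF (le_max_left _ _) ((Nat.le_succ n).trans (le_max_right _ _))]
  obtain ⟨y, h1, h2, h3⟩ := h
  exact ⟨y, h1, h2, le_trans (by exact_mod_cast Nat.le_succ n) h3⟩

theorem cP0 {k n : ℕ} {x : M} (h : rm SM (.P k n) ![x]) : rm SM (.P k 0) ![x] := by
  induction n with
  | zero => exact h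
  | succ n ih => exact ih (cP1 hM h)

theorem cPk {k k' : ℕ} {x : M} (h : rm SM (.P k 0) ![x]) (h' : rm SM (.P k' 0) ![x]) :
    k = k' := by
  obtain ⟨F, hF⟩ := hM (max k k')
  rw [tP hF (le_max_left _ _) (Nat.zero_le _)] at h
  rw [tP hF (le_max_right _ _) (Nat.zero_le _)] at h'
  obtain ⟨y, h1, h2, -⟩ := h
  obtain ⟨y', h1', h2', -⟩ := h'
  rw [h1] at h1'
  have := F.injective h1'
  simp only [Sum.inr.injEq, Sum.inl.injEq] at this
  rw [← h2, ← h2', this]

theorem cUP {k : ℕ} {x : M} (h : rm SM (.U 0) ![x]) : ¬ rm SM (.P k 0) ![x] := by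
  intro h'
  obtain ⟨F, hF⟩ := hM k
  rw [tU hF (Nat.zero_le _)] at h
  rw [tP hF le_rfl (Nat.zero_le _)] at h'
  obtain ⟨y, h1, -⟩ := h
  obtain ⟨y', h1', -⟩ := h'
  rw [h1] at h1'
  have := F.injective h1'
  simp at this

theorem cUV {x : M} (h : rm SM (.U 0) ![x]) : ¬ rm SM .V ![x] := by
  intro h'
  obtain ⟨F, hF⟩ := hM 0
  rw [tU hF (Nat.zero_le _)] at h
  rw [tV hF] at h'
  obtain ⟨y, h1, -⟩ := h
  obtain ⟨y', h1'⟩ := h'
  rw [h1] at h1'
  have := F.injective h1'
  simp at this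

theorem cPV {k : ℕ} {x : M} (h : rm SM (.P k 0) ![x]) : ¬ rm SM .V ![x] := by
  intro h'
  obtain ⟨F, hF⟩ := hM k
  rw [tP hF le_rfl (Nat.zero_le _)] at h
  rw [tV hF] at h'
  obtain ⟨y, h1, -⟩ := h
  obtain ⟨y', h1'⟩ := h'
  rw [h1] at h1'
  have := F.injective h1'
  simp at this

/-- the linear order of the heights -/
theorem cOrd : ∃ lo : LinearOrder (HM SM), ∀ x y : HM SM, lo.lt x y ↔ rm SM .Lt ![x.1, y.1] := by
  obtain ⟨F, hF⟩ := hM 0
  have h1 : ∀ x : HM SM, ∃ y : H0, x.1 = F (.inl y) := by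
    rintro ⟨x, hx⟩
    rw [tU hF (Nat.zero_le _)] at hx
    obtain ⟨y, h1, -⟩ := hx
    exact ⟨y, h1⟩
  choose g hg using h1
  have ginj : Function.Injective g := by
    intro x y h
    exact Subtype.ext (by rw [hg x, hg y, h])
  refine ⟨LinearOrder.lift' g ginj, fun x y => ?_⟩
  change g x < g y ↔ _
  rw [tL hF]
  constructor
  · exact fun h => ⟨g x, g y, hg x, hg y, h⟩
  · rintro ⟨a, b, h1, h2, h3⟩
    rw [hg x] at h1
    rw [hg y] at h2
    have e1 := F.injective h1
    have e2 := F.injective h2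
    simp only [Sum.inl.injEq] at e1 e2
    rw [e1, e2]
    exact h3

theorem exists_sys (hS : Full S) : ∃ (_ : LinearOrder (HM SM)) (T : Sy p ⊤ (HM SM) (ZM SM) (WM SM))
    (F : HM SM ⊕ ZM SM ⊕ WM SM ⊕ JM SM ≃ M), Full T ∧
    (∀ x, F (.inl x) = x.1) ∧ (∀ x, F (.inr (.inl x)) = x.1) ∧
    (∀ x, F (.inr (.inr (.inl x))) = x.1) ∧
    ∀ {n : ℕ} (R : Rl p.ar n) v, rel T (JM SM) R v ↔ rm SM R (F ∘ v) := by
  classical
  obtain ⟨lo, hlo⟩ := cOrd hM
  let _ := lo
  have hlt : ∀ x y : HM SM, x < y ↔ rm SM .Lt ![x.1, y.1] := hlo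
  -- colours and levels
  have hc : ∀ x : HM SM, ∃ c : ℕ∞, ∀ n : ℕ, (n : ℕ∞) ≤ c ↔ rm SM (.U n) ![x.1] := fun x =>
    exists_col _ x.2 (fun n h => cU1 hM h)
  choose c hc using hc
  have hlev : ∀ z : ZM SM, ∃ k, rm SM (.P k 0) ![z.1] := fun z => z.2
  choose lev hlev using hlev
  have lev_eq : ∀ (z : ZM SM) (k n : ℕ), rm SM (.P k n) ![z.1] → lev z = k := fun z k n h =>
    cPk hM (hlev z) (cP0 hM h)
  have hcz : ∀ z : ZM SM, ∃ c : ℕ∞, ∀ n : ℕ, (n : ℕ∞) ≤ c ↔ rm SM (.P (lev z) n) ![z.1] := fun z =>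
    exists_col _ (hlev z) (fun n h => cP1 hM h)
  choose cz hcz using hcz
  -- distances
  obtain ⟨x00⟩ : Nonempty (HM SM) := by
    obtain ⟨F, hF⟩ := hM 0
    obtain ⟨x, -⟩ := hS.all 0
    exact ⟨⟨F (.inl x), (tU hF le_rfl _).2 ⟨x, rfl, by simp⟩⟩⟩
  have hs : ∀ z w : ZM SM, ∃ x : HM SM, lev z = lev w → z ≠ w →
      ∀ y : M, rm SM (.D (lev z)) ![z.1, w.1, y] ↔ y = x.1 := by
    intro z w
    by_cases hcond : lev z = lev w ∧ z ≠ w
    · obtain ⟨h1, h2⟩ := hcond
      obtain ⟨F, hF⟩ := hM (lev z)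
      have h3 := hlev z
      have h4 := hlev w
      rw [← h1, tP hF le_rfl (Nat.zero_le _)] at h4
      rw [tP hF le_rfl (Nat.zero_le _)] at h3
      obtain ⟨z0, h5, h6, -⟩ := h3
      obtain ⟨w0, h7, h8, -⟩ := h4
      refine ⟨⟨F (.inl (S.s z0 w0)), (tU hF (Nat.zero_le _) _).2 ⟨_, rfl, by simp⟩⟩,
        fun _ _ y => ?_⟩
      rw [tD hF le_rfl]
      constructor
      · rintro ⟨z1, w1, x, g1, g2, g3, g4, g5, g6, g7⟩
        rw [h5] at g1
        rw [h7] at g2
        have e1 := F.injective g1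
        have e2 := F.injective g2
        simp only [Sum.inr.injEq, Sum.inl.injEq] at e1 e2
        rw [g3, ← g7, e1, e2]
      · rintro rfl
        refine ⟨z0, w0, _, h5, h7, rfl, h6, h8, ?_, rfl⟩
        rintro rfl
        exact h2 (Subtype.ext (by rw [h5, h7]))
    · exact ⟨x00, fun h1 h2 => absurd ⟨h1, h2⟩ hcond⟩
  choose s hs using hs
  have hu : ∀ z w : WM SM, ∃ x : HM SM, p.con → z ≠ w →
      ∀ y : M, rm SM .E ![z.1, w.1, y] ↔ y = x.1 := by
    intro z w
    by_cases hcond : z ≠ w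
    · obtain ⟨F, hF⟩ := hM 0
      have h3 := z.2
      have h4 := w.2
      rw [tV hF] at h4 h3
      obtain ⟨z0, h5⟩ := h3
      obtain ⟨w0, h7⟩ := h4
      refine ⟨⟨F (.inl (S.u z0 w0)), (tU hF (Nat.zero_le _) _).2 ⟨_, rfl, by simp⟩⟩,
        fun hcon _ y => ?_⟩
      rw [tE hF]
      constructor
      · rintro ⟨-, z1, w1, x, g1, g2, g3, g6, g7⟩
        rw [h5] at g1
        rw [h7] at g2
        have e1 := F.injective g1
        have e2 := F.injective g2
        simp only [Sum.inr.injEq, Sum.inl.injEq] at e1 e2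
        rw [g3, ← g7, e1, e2]
      · rintro rfl
        refine ⟨hcon, z0, w0, _, h5, h7, rfl, ?_, rfl⟩
        rintro rfl
        exact hcond (Subtype.ext (by rw [h5, h7]))
    · exact ⟨x00, fun _ h2 => absurd h2 hcond⟩
  choose u hu using hu
  let R0 : Raw (HM SM) (ZM SM) (WM SM) :=
    { c := c, lev := lev, cz := cz, s := s, u := u
      r := fun z l => ∃ a : Fin (p.ar (lev z)) → WM SM, l = List.ofFn a ∧
        rm SM (.Q (lev z)) (Fin.snoc (fun i => (a i).1) z.1 : Fin (p.ar (lev z) + 1) → M) }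
  have hApx : ∀ N, Nonempty (Apx S R0 N) := by
    intro N
    obtain ⟨F, hF⟩ := hM N
    let f : H0 → HM SM := fun x => ⟨F (.inl x), (tU hF (Nat.zero_le _) _).2 ⟨x, rfl, by simp⟩⟩
    let e : W0 → WM SM := fun x => ⟨F (.inr (.inr (.inl x))), (tV hF _).2 ⟨x, rfl⟩⟩
    have hf : Function.Bijective f := by
      constructor
      · intro x y h
        have := F.injective (congrArg Subtype.val h)
        simpa using this
      · rintro ⟨x, hx⟩
        obtain ⟨y, h1, -⟩ := (tU hF (Nat.zero_le _) _).1 hx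
        exact ⟨y, Subtype.ext h1.symm⟩
    have he : Function.Bijective e := by
      constructor
      · intro x y h
        have := F.injective (congrArg Subtype.val h)
        simpa using this
      · rintro ⟨x, hx⟩
        obtain ⟨y, h1⟩ := (tV hF _).1 hx
        exact ⟨y, Subtype.ext h1.symm⟩
    have hlow : ∀ (z0 : Z0) (z : ZM SM), z.1 = F (.inr (.inl z0)) → S.lev z0 ≤ N →
        S.lev z0 = lev z := by
      intro z0 z h1 h2
      exact (lev_eq z (S.lev z0) 0 ((tP hF h2 (Nat.zero_le _) _).2 ⟨z0, h1, rfl, by simp⟩)).symm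
    exact ⟨{
      f := Equiv.ofBijective f hf
      e := Equiv.ofBijective e he
      zz := fun z0 z => z.1 = F (.inr (.inl z0)) ∧ S.lev z0 ≤ N
      ord := by
        intro x y
        simp only [Equiv.ofBijective_apply]
        rw [hlt, tL hF]
        constructor
        · exact fun h => ⟨x, y, rfl, rfl, h⟩
        · rintro ⟨a, b, h1, h2, h3⟩
          have e1 := F.injective h1
          have e2 := F.injective h2
          simp only [Sum.inl.injEq] at e1 e2
          rw [e1, e2]; exact h3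
      c := by
        intro x n hn
        simp only [Equiv.ofBijective_apply]
        change _ ↔ (n : ℕ∞) ≤ c (f x)
        rw [hc, tU hF hn]
        constructor
        · exact fun h => ⟨x, rfl, h⟩
        · rintro ⟨a, h1, h2⟩
          have e1 := F.injective h1
          simp only [Sum.inl.injEq] at e1
          rw [e1]; exact h2
      ex := by
        intro z hz
        change lev z ≤ N at hz
        obtain ⟨z0, h1, h2, -⟩ := (tP hF hz (Nat.zero_le _) _).1 (hlev z)
        exact ⟨z0, h1, by omega⟩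
      ex' := by
        intro z0 hz
        exact ⟨⟨F (.inr (.inl z0)), S.lev z0, (tP hF hz (Nat.zero_le _) _).2
          ⟨z0, rfl, rfl, by simp⟩⟩, rfl, hz⟩
      low := by
        rintro z0 z ⟨h1, h2⟩
        have h3 := hlow z0 z h1 h2
        exact ⟨h3, show lev z ≤ N by rw [← h3]; exact h2⟩
      inj := by
        rintro z0 z w0 w ⟨h1, -⟩ ⟨h2, -⟩
        rw [Subtype.ext_iff, h1, h2, F.injective.eq_iff]
        simp
      cz := by
        rintro z0 z ⟨h1, h2⟩ n hn
        have h3 := hlow z0 z h1 h2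
        change _ ↔ (n : ℕ∞) ≤ cz z
        rw [hcz, tP hF (by omega) hn]
        constructor
        · exact fun h => ⟨z0, h1, h3, h⟩
        · rintro ⟨z1, g1, -, g2⟩
          rw [h1] at g1
          have e1 := F.injective g1
          simp only [Sum.inr.injEq, Sum.inl.injEq] at e1
          rw [e1]; exact g2
      s := by
        rintro z0 z w0 w ⟨h1, h2⟩ ⟨h3, h4⟩ hl hne
        have h5 := hlow z0 z h1 h2
        have h6 := hlow w0 w h3 h4
        have h7 := (hs z w hl hne (F (.inl (S.s z0 w0)))).1 ((tD hF (by omega) _ _ _).2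
          ⟨z0, w0, _, h1, h3, rfl, h5, by rw [h6]; exact hl.symm, by
            rintro rfl
            exact hne (Subtype.ext (by rw [h1, h3])), rfl⟩)
        exact Subtype.ext h7
      u := by
        intro hcon v w hne
        have hne' : e v ≠ e w := fun h => hne (he.1 h)
        have h7 := (hu (e v) (e w) hcon hne' (F (.inl (S.u v w)))).1 ((tE hF _ _ _).2
          ⟨hcon, v, w, _, rfl, rfl, rfl, hne, rfl⟩)
        exact Subtype.ext h7
      r := by
        rintro z0 z ⟨h1, h2⟩ l hlen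
        have h5 := hlow z0 z h1 h2
        change l.length = p.ar (lev z) at hlen
        change _ ↔ ∃ a : Fin (p.ar (lev z)) → WM SM, l.map e = List.ofFn a ∧
          rm SM (.Q (lev z)) (Fin.snoc (fun i => (a i).1) z.1 : Fin (p.ar (lev z) + 1) → M)
        let b : Fin (p.ar (lev z)) → W0 := fun i => l[(i : ℕ)]'(by omega)
        have hb : l = List.ofFn b := by
          apply List.ext_getElem (by simp [hlen])
          intro i g1 g2
          simp [b]
        constructor
        · intro h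
          refine ⟨e ∘ b, by conv_lhs => rw [hb, List.map_ofFn], ?_⟩
          rw [tQ hF (by omega)]
          refine ⟨z0, b, by rw [Fin.snoc_last]; exact h1, fun i => by rw [Fin.snoc_castSucc]; rfl,
            h5, by rw [← hb]; exact h⟩
        · rintro ⟨a, h3, h4⟩
          rw [tQ hF (by omega)] at h4
          obtain ⟨z1, a1, g1, g2, -, g3⟩ := h4
          rw [Fin.snoc_last, h1] at g1
          have e1 := F.injective g1
          simp only [Sum.inr.injEq, Sum.inl.injEq] at e1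
          rw [e1]
          have e2 : l = List.ofFn a1 := by
            have : Function.Injective (List.map e) := List.map_injective_iff.2 he.1
            apply this
            rw [h3, List.map_ofFn]
            congr 1
            ext i
            have := g2 i
            rw [Fin.snoc_castSucc] at this
            exact this
          rw [e2]; exact g3 }⟩
  obtain ⟨T, t1, t2, t3, t4, t5, t6, hT⟩ := mk_sy hS R0 hApx
  -- the bijection
  let G : HM SM ⊕ ZM SM ⊕ WM SM ⊕ JM SM → M := fun x => match x with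
    | .inl x => x.1
    | .inr (.inl x) => x.1
    | .inr (.inr (.inl x)) => x.1
    | .inr (.inr (.inr x)) => x.1
  have hG : Function.Bijective G := by
    constructor
    · rintro (x | x | x | x) (y | y | y | y) h
      · have : x = y := Subtype.ext h
        rw [this]
      · obtain ⟨k, hk⟩ := y.2
        have h' : x.1 = y.1 := h
        exact absurd (h' ▸ hk) (cUP hM x.2)
      · have h' : x.1 = y.1 := h
        exact absurd (h' ▸ y.2) (cUV hM x.2)
      · have h' : x.1 = y.1 := h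
        exact absurd (h' ▸ x.2) y.2.1
      · obtain ⟨k, hk⟩ := x.2
        have h' : x.1 = y.1 := h
        exact absurd (h' ▸ hk) (cUP hM y.2)
      · have : x = y := Subtype.ext h
        rw [this]
      · obtain ⟨k, hk⟩ := x.2
        have h' : x.1 = y.1 := h
        exact absurd (h' ▸ y.2) (cPV hM hk)
      · have h' : x.1 = y.1 := h
        exact absurd (h' ▸ x.2) y.2.2.1
      · have h' : x.1 = y.1 := h
        exact absurd (h' ▸ x.2) (cUV hM y.2)
      · obtain ⟨k, hk⟩ := y.2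
        have h' : x.1 = y.1 := h
        exact absurd (h' ▸ x.2) (cPV hM hk)
      · have : x = y := Subtype.ext h
        rw [this]
      · have h' : x.1 = y.1 := h
        exact absurd (h' ▸ x.2) y.2.2.2
      · have h' : x.1 = y.1 := h
        exact absurd (h' ▸ y.2) x.2.1
      · have h' : x.1 = y.1 := h
        exact absurd (h' ▸ y.2) x.2.2.1
      · have h' : x.1 = y.1 := h
        exact absurd (h' ▸ y.2) x.2.2.2
      · have : x = y := Subtype.ext h
        rw [this]
    · intro x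
      by_cases h1 : rm SM (.U 0) ![x]
      · exact ⟨.inl ⟨x, h1⟩, rfl⟩
      by_cases h2 : ∃ k, rm SM (.P k 0) ![x]
      · exact ⟨.inr (.inl ⟨x, h2⟩), rfl⟩
      by_cases h3 : rm SM .V ![x]
      · exact ⟨.inr (.inr (.inl ⟨x, h3⟩)), rfl⟩
      · exact ⟨.inr (.inr (.inr ⟨x, h1, h2, h3⟩)), rfl⟩
  have gU : ∀ x, rm SM (.U 0) ![G x] → ∃ y, x = .inl y ∧ y.1 = G x := by
    intro x hx
    obtain ⟨y, hy⟩ : ∃ y : HM SM, y.1 = G x := ⟨⟨G x, hx⟩, rfl⟩
    exact ⟨y, hG.1 hy.symm, hy⟩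
  have gP : ∀ x k, rm SM (.P k 0) ![G x] → ∃ y, x = .inr (.inl y) ∧ y.1 = G x := by
    intro x k hx
    obtain ⟨y, hy⟩ : ∃ y : ZM SM, y.1 = G x := ⟨⟨G x, k, hx⟩, rfl⟩
    exact ⟨y, hG.1 hy.symm, hy⟩
  have gV : ∀ x, rm SM .V ![G x] → ∃ y, x = .inr (.inr (.inl y)) ∧ y.1 = G x := by
    intro x hx
    obtain ⟨y, hy⟩ : ∃ y : WM SM, y.1 = G x := ⟨⟨G x, hx⟩, rfl⟩
    exact ⟨y, hG.1 hy.symm, hy⟩
  refine ⟨lo, T, Equiv.ofBijective G hG, hT, fun x => rfl, fun x => rfl, fun x => rfl, ?_⟩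
  intro n R v
  have e1 : ∀ v : Fin 1 → HM SM ⊕ ZM SM ⊕ WM SM ⊕ JM SM,
      (Equiv.ofBijective G hG) ∘ v = ![G (v 0)] := by
    intro v; ext i; fin_cases i; rfl
  have e2 : ∀ v : Fin 2 → HM SM ⊕ ZM SM ⊕ WM SM ⊕ JM SM,
      (Equiv.ofBijective G hG) ∘ v = ![G (v 0), G (v 1)] := by
    intro v; ext i; fin_cases i <;> rfl
  have e3 : ∀ v : Fin 3 → HM SM ⊕ ZM SM ⊕ WM SM ⊕ JM SM,
      (Equiv.ofBijective G hG) ∘ v = ![G (v 0), G (v 1), G (v 2)] := by
    intro v; ext i; fin_cases i <;> rfl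
  cases R with
  | U n =>
    rw [e1]
    simp only [rel, t1]
    constructor
    · rintro ⟨x, h1, h2⟩
      rw [h1]
      exact (hc x n).1 h2
    · intro h
      obtain ⟨y, h1, h2⟩ := gU _ (cU0 hM h)
      refine ⟨y, h1, (hc y n).2 ?_⟩
      rw [h2]; exact h
  | P k n =>
    rw [e1]
    simp only [rel, t2, t3]
    constructor
    · rintro ⟨x, h1, h2, h3⟩
      rw [h1]
      have := (hcz x n).1 h3
      change lev x = k at h2
      rw [h2] at this
      exact this
    · intro h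
      obtain ⟨y, h1, h2⟩ := gP _ _ (cP0 hM h)
      rw [← h2] at h
      have h3 := lev_eq y k n h
      exact ⟨y, h1, h3, (hcz y n).2 (by rw [h3]; exact h)⟩
  | V =>
    rw [e1]
    simp only [rel]
    constructor
    · rintro ⟨x, h1⟩
      rw [h1]
      exact x.2
    · intro h
      obtain ⟨y, h1, h2⟩ := gV _ h
      exact ⟨y, h1⟩
  | Lt =>
    rw [e2]
    simp only [rel]
    constructor
    · rintro ⟨x, y, h1, h2, h3⟩
      rw [h1, h2]
      exact (hlt x y).1 h3
    · intro h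
      have h' : rm SM (.U 0) ![G (v 0)] ∧ rm SM (.U 0) ![G (v 1)] := by
        obtain ⟨F, hF⟩ := hM 0
        rw [tL hF] at h
        obtain ⟨x, y, h1, h2, -⟩ := h
        exact ⟨(tU hF le_rfl _).2 ⟨x, h1, by simp⟩, (tU hF le_rfl _).2 ⟨y, h2, by simp⟩⟩
      obtain ⟨x, h1, h2⟩ := gU _ h'.1
      obtain ⟨y, h3, h4⟩ := gU _ h'.2
      exact ⟨x, y, h1, h3, (hlt x y).2 (by rw [h2, h4]; exact h)⟩
  | D k =>
    rw [e3]
    simp only [rel, t2, t4]
    constructor
    · rintro ⟨z, w, x, h1, h2, h3, h4, h5, h6, h7⟩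
      rw [h1, h2, h3]
      change lev z = k at h4
      change lev w = k at h5
      have := (hs z w (by rw [h4, h5]) h6 x.1).2 (by rw [← h7])
      rw [h4] at this
      exact this
    · intro h
      have h' : rm SM (.P k 0) ![G (v 0)] ∧ rm SM (.P k 0) ![G (v 1)] ∧ G (v 0) ≠ G (v 1) ∧
          rm SM (.U 0) ![G (v 2)] := by
        obtain ⟨F, hF⟩ := hM k
        rw [tD hF le_rfl] at h
        obtain ⟨z, w, x, h1, h2, h3, h4, h5, h6, -⟩ := h
        refine ⟨(tP hF le_rfl (Nat.zero_le _) _).2 ⟨z, h1, h4, by simp⟩,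
          (tP hF le_rfl (Nat.zero_le _) _).2 ⟨w, h2, h5, by simp⟩, ?_,
          (tU hF (Nat.zero_le _) _).2 ⟨x, h3, by simp⟩⟩
        rw [h1, h2]
        intro h7
        have := F.injective h7
        simp only [Sum.inr.injEq, Sum.inl.injEq] at this
        exact h6 this
      obtain ⟨z, h1, h2⟩ := gP _ _ h'.1
      obtain ⟨w, h3, h4⟩ := gP _ _ h'.2.1
      obtain ⟨x, h5, h6⟩ := gU _ h'.2.2.2
      have g1 : lev z = k := lev_eq z k 0 (by rw [h2]; exact h'.1)
      have g2 : lev w = k := lev_eq w k 0 (by rw [h4]; exact h'.2.1)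
      have g3 : z ≠ w := by
        rintro rfl
        exact h'.2.2.1 (by rw [← h2, ← h4])
      refine ⟨z, w, x, h1, h3, h5, g1, g2, g3, ?_⟩
      have := (hs z w (by rw [g1, g2]) g3 x.1).1 (by rw [g1, h2, h4, h6]; exact h)
      exact (Subtype.ext this).symm
  | E =>
    rw [e3]
    simp only [rel, t5]
    constructor
    · rintro ⟨hcon, z, w, x, h1, h2, h3, h6, h7⟩
      rw [h1, h2, h3]
      exact (hu z w hcon h6 x.1).2 (by rw [← h7])
    · intro h
      have h' : p.con ∧ rm SM .V ![G (v 0)] ∧ rm SM .V ![G (v 1)] ∧ G (v 0) ≠ G (v 1) ∧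
          rm SM (.U 0) ![G (v 2)] := by
        obtain ⟨F, hF⟩ := hM 0
        rw [tE hF] at h
        obtain ⟨hcon, z, w, x, h1, h2, h3, h6, -⟩ := h
        refine ⟨hcon, (tV hF _).2 ⟨z, h1⟩, (tV hF _).2 ⟨w, h2⟩, ?_,
          (tU hF (Nat.zero_le _) _).2 ⟨x, h3, by simp⟩⟩
        rw [h1, h2]
        intro h7
        have := F.injective h7
        simp only [Sum.inr.injEq, Sum.inl.injEq] at this
        exact h6 this
      obtain ⟨z, h1, h2⟩ := gV _ h'.2.1
      obtain ⟨w, h3, h4⟩ := gV _ h'.2.2.1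
      obtain ⟨x, h5, h6⟩ := gU _ h'.2.2.2.2
      have g3 : z ≠ w := by
        rintro rfl
        exact h'.2.2.2.1 (by rw [← h2, ← h4])
      refine ⟨h'.1, z, w, x, h1, h3, h5, g3, ?_⟩
      have := (hu z w h'.1 g3 x.1).1 (by rw [h2, h4, h6]; exact h)
      exact (Subtype.ext this).symm
  | Q k =>
    simp only [rel, t2, t6]
    constructor
    · rintro ⟨z, a, h1, h2, h3, h4⟩
      change lev z = k at h3
      change ∃ b : Fin (p.ar (lev z)) → WM SM, List.ofFn a = List.ofFn b ∧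
        rm SM (.Q (lev z)) (Fin.snoc (fun i => (b i).1) z.1 : Fin (p.ar (lev z) + 1) → M) at h4
      subst h3
      obtain ⟨b, h5, h6⟩ := h4
      have : a = b := List.ofFn_injective h5
      subst this
      have e : (Equiv.ofBijective G hG) ∘ v =
          (Fin.snoc (fun i => (a i).1) z.1 : Fin (p.ar (lev z) + 1) → M) := by
        ext i
        refine Fin.lastCases ?_ (fun i => ?_) i
        · rw [Fin.snoc_last]
          change G (v (Fin.last _)) = _
          rw [h1]
        · rw [Fin.snoc_castSucc]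
          change G (v _) = _
          rw [h2 i]
      rw [e]; exact h6
    · intro h
      have h' : rm SM (.P k 0) ![G (v (Fin.last _))] ∧ ∀ i : Fin (p.ar k),
          rm SM .V ![G (v i.castSucc)] := by
        obtain ⟨F, hF⟩ := hM k
        rw [tQ hF le_rfl] at h
        obtain ⟨z, a, h1, h2, h3, -⟩ := h
        exact ⟨(tP hF le_rfl (Nat.zero_le _) _).2 ⟨z, h1, h3, by simp⟩,
          fun i => (tV hF _).2 ⟨a i, h2 i⟩⟩
      obtain ⟨z, h1, h2⟩ := gP _ _ h'.1
      choose a h3 h4 using fun i => gV _ (h'.2 i)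
      have g1 : lev z = k := lev_eq z k 0 (by rw [h2]; exact h'.1)
      refine ⟨z, a, h1, h3, g1, ?_⟩
      change ∃ b : Fin (p.ar (lev z)) → WM SM, List.ofFn a = List.ofFn b ∧
        rm SM (.Q (lev z)) (Fin.snoc (fun i => (b i).1) z.1 : Fin (p.ar (lev z) + 1) → M)
      subst g1
      refine ⟨a, rfl, ?_⟩
      have e : (Equiv.ofBijective G hG) ∘ v =
          (Fin.snoc (fun i => (a i).1) z.1 : Fin (p.ar (lev z) + 1) → M) := by
        ext i
        refine Fin.lastCases ?_ (fun i => ?_) i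
        · rw [Fin.snoc_last]
          exact h2.symm
        · rw [Fin.snoc_castSucc]
          exact (h4 i).symm
      rw [← e]; exact h

end conv

end Pool.Agent.Y567.MD
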