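import Pool.Agent.Y567.MC.Std
import Pool.Agent.Y567.MD.Class

/-!
The standard system with ultrametric `W`.
-/

set_option autoImplicit false

namespace Pool.Agent.Y567.MD

open Set

/-- twisted system -/
def Sy.tw {p : Par} {L : ℕ∞} {H Z W : Type} [LinearOrder H] (S : Sy p L H Z W) (x : ℕ → Prop) :
    Sy p L H Z W :=
  { S with
    r := fun z l => ¬ (x (S.lev z) ↔ S.r z l)
    r_u := by
      intro hcon z f g h1 h2 h3
      rw [S.r_u hcon z f g h1 h2 h3]
    ext := by
      intro a q F h1 h2 h3 V hV η hη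
      obtain ⟨z, g1, g2, g3, g4⟩ := S.ext a q F h1 h2 h3 V hV (fun l => ¬ (x (S.lev a) ↔ η l)) (by
        intro hcon f hf g hg hne hle
        rw [hη hcon f hf g hg hne hle])
      refine ⟨z, g1, g2, g3, fun l hl hlen => ?_⟩
      have := g4 l hl hlen
      rw [g1, this]
      tauto
    extW := by
      intro f0 q V hV hf0 hVu G hG hGL η hη
      obtain ⟨w, g1, g2, g3⟩ := S.extW f0 q V hV hf0 hVu G hG hGL
        (fun z l => ¬ (x (S.lev z) ↔ η z l)) (by
        intro hcon z hz hle
        have := hη hcon z hz hle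
        rw [this]
        tauto)
      refine ⟨w, g1, g2, fun z hz l hl hlV hlen => ?_⟩
      have := g3 z hz l hl hlV hlen
      rw [this]
      tauto }

theorem Full.tw {p : Par} {H Z W : Type} [LinearOrder H] {S : Sy p ⊤ H Z W} (h : Full S)
    (x : ℕ → Prop) : Full (S.tw x) :=
  ⟨h.dens, h.nomax, h.down, h.up, h.all, h.ne⟩

theorem exists_dec (B : Type) [Countable B] [Nonempty B] :
    ∃ d : ℕ → B, ∀ b, {n | d n = b}.Infinite := by
  obtain ⟨e, he⟩ := exists_surjective_nat B
  refine ⟨fun n => e n.unpair.1, fun b => ?_⟩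
  obtain ⟨m, rfl⟩ := he b
  refine Set.infinite_of_injective_forall_mem (f := fun j => Nat.pair m j) ?_ ?_
  · intro i j h
    have := congrArg (fun n => (Nat.unpair n).2) h
    simpa using this
  · intro j
    change e (Nat.pair m j).unpair.1 = e m
    rw [Nat.unpair_pair]

end Pool.Agent.Y567.MD

namespace Pool.Agent.Y567.MD.StdE

open Set
open Pool.Agent.Y567.MC.Std (X Ph sg le_sg sg_comm sg_top sg_tri sg_of col col_mono col_ne_top lastv
  exists_coord)

instance : Countable X := inferInstanceAs (Countable (ℕ × ℚ))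

instance : Countable Ph := inferInstanceAs (Countable (X →₀ ℕ))

/-- the parameters -/
def pE : Par := ⟨fun _ => 1, True, fun _ _ => rfl, fun _ => one_ne_zero⟩

/-- distance -/
noncomputable def ds (f g : Ph) : X := (sg f g).untopD (toLex (0, 0))

theorem coe_ds {f g : Ph} (h : f ≠ g) : (ds f g : WithTop X) = sg f g := by
  obtain ⟨y, hy⟩ := WithTop.ne_top_iff_exists.1 (fun h1 => h (sg_top.1 h1))
  rw [ds, ← hy, WithTop.untopD_coe]

theorem ds_comm (f g : Ph) : ds f g = ds g f := by unfold ds; rw [sg_comm]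

theorem ds_tri {f g h : Ph} (h1 : f ≠ g) (h2 : g ≠ h) (h3 : f ≠ h) :
    min (ds f g) (ds g h) ≤ ds f h := by
  rw [← WithTop.coe_le_coe, WithTop.coe_min, coe_ds h1, coe_ds h2, coe_ds h3]
  exact sg_tri

theorem ds_of {f g : Ph} {q : X} (h1 : ∀ u, u < q → f u = g u) (h2 : f q ≠ g q) :
    f ≠ g ∧ ds f g = q := by
  refine ⟨fun h => h2 (by rw [h]), ?_⟩
  rw [ds, sg_of h1 h2, WithTop.untopD_coe]

theorem le_ds {f g : Ph} {q : X} (hne : f ≠ g) (h : q ≤ ds f g) {u : X} (hu : u < q) : f u = g u := by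
  rw [← WithTop.coe_le_coe, coe_ds hne] at h
  exact le_sg.1 h u (WithTop.coe_lt_coe.2 hu)

/-- greatest difference -/
noncomputable def mg (f g : Ph) : WithBot X := (f.neLocus g).max

theorem mg_le {f g : Ph} {x : WithBot X} : mg f g ≤ x ↔ ∀ u : X, x < (u : WithBot X) → f u = g u := by
  unfold mg
  constructor
  · intro h u hu
    by_contra hn
    exact absurd ((Finset.le_max (by simpa using hn)).trans h) (not_le.2 hu)
  · intro h
    refine Finset.max_le fun u hu => ?_
    by_contra hn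
    exact (by simpa using hu : f u ≠ g u) (h u (not_le.1 hn))

theorem mg_comm (f g : Ph) : mg f g = mg g f := by
  unfold mg; rw [Finsupp.neLocus_comm]

theorem mg_bot {f g : Ph} (h : mg f g = ⊥) : f = g := by
  ext u
  exact mg_le.1 h.le u (WithBot.bot_lt_coe u)

theorem mg_tri {f g h : Ph} : mg f h ≤ max (mg f g) (mg g h) := by
  rw [mg_le]
  intro u hu
  obtain ⟨h1, h2⟩ := max_lt_iff.1 hu
  exact (mg_le.1 le_rfl u h1).trans (mg_le.1 le_rfl u h2)

/-- distance in `W` -/
noncomputable def ud (f g : Ph) : X := (mg f g).unbotD (toLex (0, 0))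

theorem coe_ud {f g : Ph} (h : f ≠ g) : (ud f g : WithBot X) = mg f g := by
  obtain ⟨y, hy⟩ := WithBot.ne_bot_iff_exists.1 (fun h1 => h (mg_bot h1))
  rw [ud, ← hy, WithBot.unbotD_coe]

theorem ud_comm (f g : Ph) : ud f g = ud g f := by unfold ud; rw [mg_comm]

theorem ud_tri {f g h : Ph} (h1 : f ≠ g) (h2 : g ≠ h) (h3 : f ≠ h) :
    ud f h ≤ max (ud f g) (ud g h) := by
  rw [← WithBot.coe_le_coe, WithBot.coe_max, coe_ud h1, coe_ud h2, coe_ud h3]
  exact mg_tri

theorem ud_of {f g : Ph} {q : X} (h1 : ∀ u, q < u → f u = g u) (h2 : f q ≠ g q) :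
    f ≠ g ∧ ud f g = q := by
  have hne : f ≠ g := fun h => h2 (by rw [h])
  refine ⟨hne, ?_⟩
  rw [← WithBot.coe_inj, coe_ud hne]
  refine le_antisymm (mg_le.2 fun u hu => h1 u (WithBot.coe_lt_coe.1 hu)) ?_
  by_contra hn
  exact h2 (mg_le.1 le_rfl q (not_le.1 hn))

theorem ud_le {f g : Ph} {q : X} (hne : f ≠ g) (h : ud f g ≤ q) {u : X} (hu : q < u) :
    f u = g u := by
  rw [← WithBot.coe_le_coe, coe_ud hne] at h
  exact mg_le.1 h u (WithBot.coe_lt_coe.2 hu)

/-- restriction to larger colours -/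
noncomputable def hi (k : ℕ) (f : Ph) : Ph := by
  classical exact f.filter (fun x => (k : ℕ∞) < col x)

theorem hi_pos {k : ℕ} {f : Ph} {u : X} (h : (k : ℕ∞) < col u) : hi k f u = f u := by
  classical
  unfold hi
  rw [Finsupp.filter_apply, if_pos h]

theorem hi_neg {k : ℕ} {f : Ph} {u : X} (h : ¬ (k : ℕ∞) < col u) : hi k f u = 0 := by
  classical
  unfold hi
  rw [Finsupp.filter_apply, if_neg h]

theorem hi_congr {k : ℕ} {f g : Ph} (h : ∀ u, (k : ℕ∞) < col u → f u = g u) : hi k f = hi k g := by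
  ext u
  by_cases hu : (k : ℕ∞) < col u
  · rw [hi_pos hu, hi_pos hu, h u hu]
  · rw [hi_neg hu, hi_neg hu]

theorem col_lt {x y : X} (h : col x < col y) : x < y := by
  by_contra hn
  exact absurd (col_mono (not_lt.1 hn)) (not_le.2 h)

theorem hi_eq_of_ud {k : ℕ} {f g : Ph} (hne : f ≠ g) (h : col (ud f g) ≤ k) : hi k f = hi k g :=
  hi_congr fun _ hu => ud_le hne le_rfl (col_lt (h.trans_lt hu))

theorem ud_of_hi_eq {k : ℕ} {f g : Ph} (hne : f ≠ g) (h : hi k f = hi k g) :
    col (ud f g) ≤ k := by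
  by_contra hn
  have hn := not_le.1 hn
  have h1 : f (ud f g) ≠ g (ud f g) := by
    intro h2
    have h3 : (ud f g : WithBot X) = mg f g := coe_ud hne
    have h4 : ∃ a ∈ f.neLocus g, (a : WithBot X) = (f.neLocus g).max := by
      obtain ⟨a, ha⟩ := Finset.max_of_nonempty (s := f.neLocus g) (by
        rw [Finset.nonempty_iff_ne_empty]
        intro h5
        exact hne (Finsupp.neLocus_eq_empty.1 h5))
      exact ⟨a, Finset.mem_of_max ha, ha.symm⟩
    obtain ⟨a, ha1, ha2⟩ := h4
    have h5 : a = ud f g := by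
      rw [← WithBot.coe_inj, ha2, h3, mg]
    rw [h5] at ha1
    exact (by simpa using ha1 : f (ud f g) ≠ g (ud f g)) h2
  apply h1
  have := DFunLike.congr_fun h (ud f g)
  rwa [hi_pos hn, hi_pos hn] at this

/-- the value at the first point of the support -/
noncomputable def firstv (f : Ph) : ℕ := f (f.support.min.untopD (toLex (0, 0)))

/-- codes -/
noncomputable def dW : ℕ → Finset (ℕ × Ph) × Finset (ℕ × Ph) :=
  (exists_dec (Finset (ℕ × Ph) × Finset (ℕ × Ph))).choose

theorem dW_inf (b : Finset (ℕ × Ph) × Finset (ℕ × Ph)) : {n | dW n = b}.Infinite :=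
  (exists_dec (Finset (ℕ × Ph) × Finset (ℕ × Ph))).choose_spec b

/-- codes -/
noncomputable def dZ : ℕ → Finset Ph := (exists_dec (Finset Ph)).choose

theorem dZ_inf (b : Finset Ph) : {n | dZ n = b}.Infinite := (exists_dec (Finset Ph)).choose_spec b

/-- the code of a point of `W` decides -/
def Dc (k : ℕ) (g f : Ph) : Prop := hi k f ≠ 0 ∧ (k, g) ∈ (dW (firstv (hi k f))).1

/-- the relation -/
def Rr (k : ℕ) (g f : Ph) : Prop :=
  (Dc k g f ∧ (k, g) ∈ (dW (firstv (hi k f))).2) ∨
    (¬ Dc k g f ∧ g ≠ 0 ∧ hi k f ∈ dZ (lastv g))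

theorem Rr_congr {k : ℕ} {g f f' : Ph} (h : hi k f = hi k f') : Rr k g f ↔ Rr k g f' := by
  unfold Rr Dc; rw [h]

theorem Rr_zero {k : ℕ} {f : Ph} (h : hi k f = 0) : ¬ Rr k 0 f := by
  unfold Rr Dc; simp [h]

/-- The new coordinate in `W`. -/
theorem exists_coordW (f0 : Ph) (q : X) (r : ℕ) (hr : r ≠ 0) :
    ∃ f : Ph, (∀ u, q < u → f u = f0 u) ∧ f q = r ∧
      ∀ k : ℕ, (k : ℕ∞) < col q → hi k f ≠ 0 ∧ firstv (hi k f) = r := by
  classical
  have key : ∀ u, u < q → ((f0.filter (q < ·)).update q r) u = 0 := by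
    intro u hu
    rw [Finsupp.coe_update, Function.update_of_ne hu.ne, Finsupp.filter_apply,
      if_neg (not_lt.2 hu.le)]
  have key2 : ((f0.filter (q < ·)).update q r) q = r := by
    rw [Finsupp.coe_update, Function.update_self]
  refine ⟨(f0.filter (q < ·)).update q r, ?_, key2, ?_⟩
  · intro u hu
    rw [Finsupp.coe_update, Function.update_of_ne hu.ne', Finsupp.filter_apply, if_pos hu]
  · intro k hk
    have h1 : hi k ((f0.filter (q < ·)).update q r) q = r := by rw [hi_pos hk, key2]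
    refine ⟨fun h => hr (by rw [← h1, h]; rfl), ?_⟩
    have hmin : (hi k ((f0.filter (q < ·)).update q r)).support.min = (q : WithTop X) := by
      refine le_antisymm (Finset.min_le ?_) (Finset.le_min ?_)
      · rw [Finsupp.mem_support_iff, h1]
        exact hr
      · intro u hu
        rw [Finsupp.mem_support_iff] at hu
        by_contra hn
        have hn : u < q := by simpa using hn
        apply hu
        by_cases huk : (k : ℕ∞) < col u
        · rw [hi_pos huk, key u hn]
        · rw [hi_neg huk]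
    rw [firstv, hmin, WithTop.untopD_coe, h1]

theorem ne_of {z w : ℕ × Ph} (hl : z.1 = w.1) (hne : z ≠ w) : z.2 ≠ w.2 :=
  fun h => hne (Prod.ext hl h)

/-- The standard system. -/
noncomputable def std : Sy pE ⊤ X (ℕ × Ph) Ph where
  c := col
  lev := Prod.fst
  cz := fun z => by classical exact if z.2 = 0 then ⊤ else col (ds z.2 0)
  s := fun z w => ds z.2 w.2
  d := fun z => ds z.2 0
  u := ud
  r := fun z l => ∃ f, l = [f] ∧ Rr z.1 z.2 f
  c_mono := col_mono
  s_comm := fun z w _ _ => ds_comm _ _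
  ultra := fun x y z h1 h2 n1 n2 n3 => ds_tri (ne_of h1 n1) (ne_of h2 n2) (ne_of (h1.trans h2) n3)
  s_top := by
    intro z w hl hne h1 h2
    have h3 : z.2 = 0 := by
      by_contra hn
      rw [if_neg hn] at h1
      exact col_ne_top _ h1
    have h4 : w.2 = 0 := by
      by_contra hn
      rw [if_neg hn] at h2
      exact col_ne_top _ h2
    exact absurd (h3.trans h4.symm) (ne_of hl hne)
  s_d := by
    intro z w hl h1 h2
    have h4 : w.2 = 0 := by
      by_contra hn
      rw [if_neg hn] at h2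
      exact col_ne_top _ h2
    rw [h4]
  c_d := by
    intro z h1
    have h3 : z.2 ≠ 0 := by
      intro h
      rw [if_pos h] at h1
      exact h1 rfl
    rw [if_neg h3]
  d1 := by
    intro z w hl hne h1 h2
    have h3 : z.2 ≠ 0 := by
      intro h
      rw [if_pos h] at h1
      exact h1 rfl
    have h4 : w.2 ≠ 0 := by
      intro h
      rw [if_pos h] at h2
      exact h2 rfl
    have := ds_tri (ne_of hl hne).symm h3 h4
    rwa [ds_comm w.2 z.2, min_comm] at this
  d2 := by
    intro z w hl hne h1 h2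
    have h3 : z.2 ≠ 0 := by
      intro h
      rw [if_pos h] at h1
      exact h1 rfl
    have h4 : w.2 ≠ 0 := by
      intro h
      rw [if_pos h] at h2
      exact h2 rfl
    have := ds_tri h3 h4.symm (ne_of hl hne)
    rwa [ds_comm 0 w.2] at this
  unb := by
    intro k x _ hx
    refine ⟨(k, 0), rfl, ?_⟩
    rw [if_pos rfl]
    exact lt_top_iff_ne_top.2 hx
  u_comm := fun _ f g _ => ud_comm f g
  u_ultra := fun _ f g h h1 h2 h3 => ud_tri h1 h2 h3
  r_u := by
    intro _ z f g _ hne hle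
    have h1 := Rr_congr (g := z.2) (hi_eq_of_ud hne hle)
    simp only [List.cons.injEq, and_true, exists_eq_left']
    exact h1
  ext := by
    classical
    rintro ⟨k, g0⟩ q F _ hF hFb V hV η hη
    -- the code
    obtain ⟨D, hD⟩ : ∃ D : Finset Ph, ∀ x, x ∈ D ↔ ∃ f ∈ V, hi k f = x ∧ η [f] := by
      have : {x | ∃ f ∈ V, hi k f = x ∧ η [f]}.Finite := by
        refine (hV.image (hi k)).subset ?_
        rintro x ⟨f, h1, h2, -⟩
        exact ⟨f, h1, h2⟩
      exact ⟨this.toFinset, fun x => by simp⟩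
    have hfin : (insert 0 ((fun b : ℕ × Ph => b.2 q) '' (insert (k, g0) F)) ∪
        ⋃ f ∈ V, (fun b : ℕ × Ph => b.2 q) '' ((dW (firstv (hi k f))).1 : Set (ℕ × Ph))).Finite :=
      (((hF.insert _).image _).insert _).union
        (hV.biUnion fun f _ => (Finset.finite_toSet _).image _)
    obtain ⟨n, hn, hn'⟩ := ((dZ_inf D).sdiff hfin).nonempty
    have hn0 : n ≠ 0 := fun h => hn' (Or.inl (by simp [h]))
    have hnF : ∀ b ∈ insert (k, g0) F, b.2 q ≠ n := fun b hb h =>
      hn' (Or.inl (Or.inr ⟨b, hb, h⟩))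
    obtain ⟨g, h1, h2, h3, h4⟩ := exists_coord g0 q n hn0
    have key : ∀ b : ℕ × Ph, b ∈ insert (k, g0) F → (b = (k, g0) ∨ (b.1 = k ∧ q ≤ ds b.2 g0)) →
        b.2 ≠ g ∧ ds b.2 g = q := by
      intro b hb hb2
      refine ds_of (fun u hu => ?_) (by rw [h2]; exact hnF b hb)
      rw [h1 u hu]
      rcases hb2 with rfl | ⟨-, h5⟩
      · rfl
      · by_cases h6 : b.2 = g0
        · rw [h6]
        · exact le_ds h6 h5 hu
    refine ⟨(k, g), rfl, ?_, ?_, ?_⟩
    · obtain ⟨h5, h6⟩ := key (k, g0) (mem_insert _ _) (Or.inl rfl)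
      exact ⟨fun h => h5 (congrArg Prod.snd h), h6⟩
    · intro b hb
      obtain ⟨h5, h6⟩ := key b (mem_insert_of_mem _ hb) (hFb b hb)
      exact ⟨fun h => h5 (congrArg Prod.snd h), h6⟩
    · intro l hl hlen
      obtain ⟨f, rfl⟩ : ∃ a, l = [a] := List.length_eq_one_iff.1 hlen
      have hf : f ∈ V := hl f (by simp)
      simp only [List.cons.injEq, and_true, exists_eq_left']
      have hnd : ¬ Dc k g f := by
        rintro ⟨-, h5⟩
        refine hn' (Or.inr ?_)
        simp only [mem_iUnion]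
        exact ⟨f, hf, (k, g), h5, h2⟩
      have e1 : Rr k g f ↔ hi k f ∈ D := by
        unfold Rr
        rw [h4, show dZ n = D from hn]
        simp [hnd, h3]
      rw [e1, hD]
      constructor
      · rintro ⟨f', h5, h6, h7⟩
        by_cases hff : f' = f
        · rw [← hff]; exact h7
        · exact (hη trivial f' h5 f hf hff (ud_of_hi_eq hff h6)).1 h7
      · exact fun h => ⟨f, hf, rfl, h⟩
  extW := by
    classical
    intro f0 q V hV hf0 hVu G hG _ η hη
    let E1 : Finset (ℕ × Ph) := hG.toFinset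
    obtain ⟨E2, hE2⟩ : ∃ E2 : Finset (ℕ × Ph), ∀ x, x ∈ E2 ↔ x ∈ G ∧ η x [none] := by
      have : {x | x ∈ G ∧ η x [none]}.Finite := hG.subset fun x hx => hx.1
      exact ⟨this.toFinset, fun x => by simp⟩
    have hfin : (insert 0 ((fun b : Ph => b q) '' V)).Finite := (hV.image _).insert _
    obtain ⟨n, hn, hn'⟩ := ((dW_inf (E1, E2)).sdiff hfin).nonempty
    have hn0 : n ≠ 0 := fun h => hn' (by simp [h])
    obtain ⟨w, h1, h2, h3⟩ := exists_coordW f0 q n hn0
    have key : ∀ g ∈ V, g ≠ w ∧ ud g w = q := by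
      intro g hg
      refine ud_of (fun u hu => ?_) (by rw [h2]; exact fun h => hn' (Or.inr ⟨g, hg, h⟩))
      rw [h1 u hu]
      rcases hVu trivial g hg with rfl | h5
      · rfl
      · by_cases h6 : g = f0
        · rw [h6]
        · exact ud_le h6 h5 hu
    refine ⟨w, fun h => (key w h).1 rfl, fun _ g hg => (key g hg).2, ?_⟩
    intro z hz l hl hlV hlen
    obtain ⟨a, rfl⟩ : ∃ a, l = [a] := List.length_eq_one_iff.1 hlen
    have ha : a = none := by
      have : none = a := by simpa using hl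
      exact this.symm
    subst ha
    simp only [List.map_cons, List.map_nil, Option.getD_none, List.cons.injEq, and_true,
      exists_eq_left']
    by_cases hk : (z.1 : ℕ∞) < col q
    · obtain ⟨h5, h6⟩ := h3 z.1 hk
      have hd : Dc z.1 z.2 w := by
        refine ⟨h5, ?_⟩
        rw [h6, show dW n = (E1, E2) from hn]
        simpa [E1] using hz
      unfold Rr
      rw [h6, show dW n = (E1, E2) from hn]
      have : ((z.1, z.2) : ℕ × Ph) = z := rfl
      rw [this, hE2]
      simp [hd, hz]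
    · have h5 : hi z.1 w = hi z.1 f0 := hi_congr fun u hu => h1 u (col_lt ((not_lt.1 hk).trans_lt hu))
      rw [Rr_congr h5, hη trivial z hz (not_lt.1 hk)]
      simp

theorem full : Full std where
  dens := by
    intro x y hxy
    obtain ⟨n, a⟩ := x
    obtain ⟨m, b⟩ := y
    rcases (Prod.Lex.toLex_lt_toLex.1 hxy : n < m ∨ n = m ∧ a < b) with h | ⟨h1, h⟩
    · exact ⟨toLex (n, a + 1), Prod.Lex.toLex_lt_toLex.2 (Or.inr ⟨rfl, lt_add_one a⟩),
        Prod.Lex.toLex_lt_toLex.2 (Or.inl h)⟩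
    · obtain ⟨c, h2, h3⟩ := exists_between h
      exact ⟨toLex (n, c), Prod.Lex.toLex_lt_toLex.2 (Or.inr ⟨rfl, h2⟩),
        Prod.Lex.toLex_lt_toLex.2 (Or.inr ⟨h1, h3⟩)⟩
  nomax := by
    rintro ⟨n, a⟩
    exact ⟨toLex (n, a + 1), Prod.Lex.toLex_lt_toLex.2 (Or.inr ⟨rfl, lt_add_one a⟩)⟩
  down := by
    rintro n ⟨m, a⟩ h
    exact ⟨toLex (m, a - 1), Prod.Lex.toLex_lt_toLex.2 (Or.inr ⟨rfl, sub_one_lt a⟩), h⟩
  up := by
    rintro n ⟨m, a⟩ h
    exact ⟨toLex (m, a + 1), Prod.Lex.toLex_lt_toLex.2 (Or.inr ⟨rfl, lt_add_one a⟩), h⟩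
  all := fun n => ⟨toLex (n, 0), rfl⟩
  ne := ⟨0⟩

end Pool.Agent.Y567.MD.StdE
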