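import Pool.Agent.Y567.MD.Mod
import Pool.Agent.Y567.MD.StdE
import Pool.Agent.Y567.MD.E0

/-!
The standard systems with ultrametric `W` and their isomorphisms.
-/

set_option autoImplicit false

namespace Pool.Agent.Y567.MD

open Set FirstOrder FirstOrder.Language

section gen

variable {p : Par} {H Z W : Type} [LinearOrder H]

/-- transport of a structure -/
@[instance_reducible] def psh {M N : Type} (ν : M ≃ N) (A : (Lg p.ar).Structure M) :
    (Lg p.ar).Structure N where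
  funMap := fun f _ => (f : Empty).elim
  RelMap := fun R v => @Structure.RelMap (Lg p.ar) M A _ R (ν.symm ∘ v)

theorem psh_isom {M N : Type} (ν : M ≃ N) (A : (Lg p.ar).Structure M) : Isom A (psh ν A) ν := by
  refine ⟨fun {n} R v => ?_⟩
  change rm A R v ↔ rm A R (ν.symm ∘ (ν ∘ v))
  have : ν.symm ∘ (ν ∘ v) = v := by ext i; simp
  rw [this]

theorem Isom.trans {M M' M'' : Type} {A : (Lg p.ar).Structure M} {B : (Lg p.ar).Structure M'}
    {C : (Lg p.ar).Structure M''} {F : M ≃ M'} {G : M' ≃ M''} (h : Isom A B F) (h' : Isom B C G) :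
    Isom A C (F.trans G) := by
  refine ⟨fun {n} R v => ?_⟩
  rw [h.pres R v, h'.pres R]
  rfl

theorem Isom.isoN {M M' : Type} {A : (Lg p.ar).Structure M} {B : (Lg p.ar).Structure M'}
    {F : M ≃ M'} (h : Isom A B F) (N : ℕ) : IsoN (idx p.ar) A B N F := fun _ R v _ => h.pres R v

theorem rel_tw (S : Sy p ⊤ H Z W) (J : Type) {n : ℕ} (R : Rl p.ar n)
    (v : Fin n → H ⊕ Z ⊕ W ⊕ J) :
    ∃ (k : ℕ) (φ : Prop → Prop), ∀ x : ℕ → Prop, (rel (S.tw x) J R v ↔ φ (x k)) := by
  cases R with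
  | U n => exact ⟨0, fun _ => rel S J (.U n) v, fun x => Iff.rfl⟩
  | P k n => exact ⟨0, fun _ => rel S J (.P k n) v, fun x => Iff.rfl⟩
  | V => exact ⟨0, fun _ => rel S J .V v, fun x => Iff.rfl⟩
  | Lt => exact ⟨0, fun _ => rel S J .Lt v, fun x => Iff.rfl⟩
  | D k => exact ⟨0, fun _ => rel S J (.D k) v, fun x => Iff.rfl⟩
  | E => exact ⟨0, fun _ => rel S J .E v, fun x => Iff.rfl⟩
  | Q k =>
    refine ⟨k, fun b => ∃ z, ∃ a : Fin (p.ar k) → W, v (Fin.last _) = .inr (.inl z) ∧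
      (∀ i, v i.castSucc = .inr (.inr (.inl (a i)))) ∧ S.lev z = k ∧
      ¬ (b ↔ S.r z (List.ofFn a)), fun x => ?_⟩
    constructor
    · rintro ⟨z, a, h1, h2, h3, h4⟩
      change ¬ (x (S.lev z) ↔ S.r z _) at h4
      change S.lev z = k at h3
      rw [h3] at h4
      exact ⟨z, a, h1, h2, h3, h4⟩
    · rintro ⟨z, a, h1, h2, h3, h4⟩
      refine ⟨z, a, h1, h2, h3, ?_⟩
      change ¬ (x (S.lev z) ↔ S.r z _)
      rw [h3]
      exact h4

theorem aBit_str (hcon : p.con) (S : Sy p ⊤ H Z W) (J : Type) (w : W) (k : ℕ) :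
    aBit (str S J) (.inr (.inr (.inl w))) k ↔ bit S w k := by
  have e : List.ofFn (fun _ : Fin (p.ar k) => w) = [w] := by
    apply List.ext_getElem (by simp [p.one hcon])
    intro i h1 h2
    simp at h2
    subst h2
    simp
  constructor
  · rintro ⟨m, hm, z, a, h1, h2, h3, h4⟩
    rw [Fin.snoc_last] at h1
    subst h1
    have ha : a = fun _ => w := by
      ext1 i
      have := h2 i
      rw [Fin.snoc_castSucc] at this
      simpa using this.symm
    rw [ha, e] at h4
    refine ⟨z, h3, ?_, h4⟩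
    rw [← top_le_iff]
    refine le_of_nat fun n _ => ?_
    obtain ⟨z', g1, -, g2⟩ := hm n
    have : z = z' := by simpa using g1
    rw [this]; exact g2
  · rintro ⟨z, h1, h2, h3⟩
    refine ⟨.inr (.inl z), fun n => ⟨z, rfl, h1, by rw [h2]; exact le_top⟩, z, fun _ => w,
      by rw [Fin.snoc_last], fun i => by rw [Fin.snoc_castSucc], h1, ?_⟩
    rw [e]; exact h3

theorem isom_of_iso {H' Z' W' : Type} [LinearOrder H'] {S : Sy p ⊤ H Z W} {S' : Sy p ⊤ H' Z' W'}
    {f : H ≃ H'} {g : Z ≃ Z'} {e : W ≃ W'} (hi : Iso S S' f g e) :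
    Isom (str S Empty) (str S' Empty) (bij f g e (Equiv.refl Empty)) :=
  ⟨fun R v => hi.rIso.rel_iff _ R v (ENat.natCast_lt_top _)⟩

end gen

namespace StdE

open Pool.Agent.Y567.MC.Std (X Ph col_ne_top)

theorem not_cinf (x : ℕ → Prop) : ¬ CInf (std.tw x) := fun ⟨q, hq⟩ => col_ne_top q hq

theorem std_cz (k : ℕ) : std.cz (k, 0) = ⊤ := by
  unfold std
  simp

theorem topL_all (x : ℕ → Prop) (k : ℕ) : TopL (std.tw x) k := by
  classical
  exact ⟨(k, 0), rfl, std_cz k⟩

theorem bit_zero (x : ℕ → Prop) (k : ℕ) : bit (std.tw x) 0 k ↔ x k := by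
  classical
  have h0 : hi k 0 = 0 := by
    ext u
    by_cases hu : (k : ℕ∞) < Pool.Agent.Y567.MC.Std.col u
    · rw [hi_pos hu]
    · rw [hi_neg hu]; rfl
  have h1 : ¬ ∃ f, [(0 : Ph)] = [f] ∧ Rr k 0 f := by
    rintro ⟨f, h2, h3⟩
    have : f = 0 := by simpa using h2.symm
    subst this
    exact Rr_zero h0 h3
  constructor
  · rintro ⟨z, h2, h3, h4⟩
    have hz : z.2 = 0 := by
      by_contra hn
      change (if z.2 = 0 then (⊤ : ℕ∞) else _) = ⊤ at h3
      rw [if_neg hn] at h3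
      exact col_ne_top _ h3
    have hz1 : z.1 = k := h2
    change ¬ (x z.1 ↔ ∃ f, [(0 : Ph)] = [f] ∧ Rr z.1 z.2 f) at h4
    rw [hz, hz1] at h4
    by_contra hx
    exact h4 ⟨fun h => absurd h hx, fun h => absurd h h1⟩
  · intro hx
    refine ⟨(k, 0), rfl, ?_, ?_⟩
    · exact std_cz k
    · change ¬ (x k ↔ ∃ f, [(0 : Ph)] = [f] ∧ Rr k 0 f)
      exact fun h => h1 (h.1 hx)

/-- The classes of the standard systems. -/
theorem isom_iff_e0 (x y : ℕ → Prop) :
    (∃ G : Un X (ℕ × Ph) Ph ≃ Un X (ℕ × Ph) Ph,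
      Isom (str (std.tw x) Empty) (str (std.tw y) Empty) G) ↔ {k | ¬ (x k ↔ y k)}.Finite := by
  constructor
  · rintro ⟨G, hG⟩
    -- the image of the point `0` of `W`
    obtain ⟨w', hw'⟩ : ∃ w', G (.inr (.inr (.inl 0))) = .inr (.inr (.inl w')) := by
      have h1 := (hG.one .V (.inr (.inr (.inl 0)))).1 ⟨0, rfl⟩
      obtain ⟨w', h2⟩ := h1
      exact ⟨w', h2⟩
    obtain ⟨N, hN⟩ := bits_fin (S := std.tw y) trivial (not_cinf y) w' 0
    refine (Set.finite_lt_nat N).subset ?_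
    intro k hk
    by_contra hn
    have hn : ¬ k < N := hn
    apply hk
    rw [← bit_zero x k, ← bit_zero y k, ← hN k (not_lt.1 hn), ← aBit_str trivial _ Empty,
      ← aBit_str trivial _ Empty, ← hw']
    constructor
    · exact fun h => hG.bit h
    · intro h
      have := hG.symm.bit h
      simpa using this
  · intro h
    obtain ⟨N, hN⟩ := h.bddAbove
    obtain ⟨f, g, e, hi⟩ := classify_fin (S := std.tw x) (S' := std.tw y) trivial (full.tw x)
      (full.tw y) (not_cinf x) (not_cinf y) (fun k => ⟨fun _ => topL_all y k, fun _ => topL_all x k⟩)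
      0 0 (N + 1) (by
        intro k hk
        rw [bit_zero, bit_zero]
        by_contra hn
        have := hN (a := k) hn
        omega)
    exact ⟨_, isom_of_iso hi⟩

end StdE

end Pool.Agent.Y567.MD
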