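import Pool.Agent.Y567.MC.FO

/-!
First-order properties for an arbitrary countable relational language, with an index function.
-/

set_option autoImplicit false

namespace Pool.Agent.Y567.MD

open Set FirstOrder FirstOrder.Language
open Pool.Agent.Y567.MC (cn)

variable {L : FirstOrder.Language.{0, 0}}

/-- The bijection preserves the symbols of number at most `N`. -/
def IsoN (ix : ∀ n, L.Relations n → ℕ) {M M' : Type} (S : L.Structure M) (S' : L.Structure M')
    (N : ℕ) (F : M ≃ M') : Prop :=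
  ∀ (n : ℕ) (R : L.Relations n) (v : Fin n → M), ix n R ≤ N →
    (@Structure.RelMap L M S n R v ↔ @Structure.RelMap L M' S' n R (F ∘ v))

variable {ix : ∀ n, L.Relations n → ℕ}

theorem IsoN.mono {M M' : Type} {S : L.Structure M} {S' : L.Structure M'} {N K : ℕ}
    {F : M ≃ M'} (h : IsoN ix S S' N F) (hK : K ≤ N) : IsoN ix S S' K F :=
  fun n R v hR => h n R v (hR.trans hK)

theorem IsoN.symm {M M' : Type} {S : L.Structure M} {S' : L.Structure M'} {N : ℕ}
    {F : M ≃ M'} (h : IsoN ix S S' N F) : IsoN ix S' S N F.symm := by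
  intro n R v hR
  rw [h n R (F.symm ∘ v) hR]
  have : F ∘ (F.symm ∘ v) = v := by ext i; simp
  rw [this]

theorem IsoN.trans {M M' M'' : Type} {S : L.Structure M} {S' : L.Structure M'}
    {S'' : L.Structure M''} {N : ℕ} {F : M ≃ M'} {G : M' ≃ M''} (h : IsoN ix S S' N F)
    (h' : IsoN ix S' S'' N G) : IsoN ix S S'' N (F.trans G) := by
  intro n R v hR
  rw [h n R v hR, h' n R _ hR]
  rfl

theorem term_realize [L.IsRelational] {M M' : Type} (S : L.Structure M) (S' : L.Structure M')
    (F : M ≃ M') {α : Type} (t : L.Term α) (v : α → M) :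
    F (@Term.realize L M S α v t) = @Term.realize L M' S' α (F ∘ v) t := by
  induction t with
  | var a => rfl
  | func f ts ih => exact isEmptyElim f

/-- A formula is preserved by the bijections which preserve sufficiently many symbols. -/
theorem fo_pres [L.IsRelational] (ix : ∀ n, L.Relations n → ℕ) {α : Type} {n : ℕ}
    (φ : L.BoundedFormula α n) : ∃ N : ℕ,
    ∀ (M M' : Type) (S : L.Structure M) (S' : L.Structure M') (F : M ≃ M'), IsoN ix S S' N F →
      ∀ (v : α → M) (xs : Fin n → M), (@BoundedFormula.Realize L M S α n φ v xs ↔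
        @BoundedFormula.Realize L M' S' α n φ (F ∘ v) (F ∘ xs)) := by
  induction φ with
  | falsum => exact ⟨0, fun _ _ _ _ _ _ _ _ => Iff.rfl⟩
  | equal t₁ t₂ =>
    refine ⟨0, fun M M' S S' F _ v xs => ?_⟩
    have h := fun t => term_realize S S' F (α := α ⊕ Fin _) t (Sum.elim v xs)
    change (_ = _) ↔ (_ = _)
    rw [← F.injective.eq_iff, h, h, Sum.comp_elim]
  | rel R ts =>
    refine ⟨ix _ R, fun M M' S S' F hF v xs => ?_⟩
    have h := hF _ R (fun i => @Term.realize L M S _ (Sum.elim v xs) (ts i)) le_rfl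
    change @Structure.RelMap L M S _ R _ ↔ @Structure.RelMap L M' S' _ R _
    rw [h]
    have h2 : (F ∘ fun i => @Term.realize L M S _ (Sum.elim v xs) (ts i)) =
        fun i => @Term.realize L M' S' _ (Sum.elim (F ∘ v) (F ∘ xs)) (ts i) := by
      ext i
      simp only [Function.comp]
      rw [term_realize S S' F, Sum.comp_elim]
    rw [h2]
  | imp φ ψ ih1 ih2 =>
    obtain ⟨N1, h1⟩ := ih1
    obtain ⟨N2, h2⟩ := ih2
    refine ⟨max N1 N2, fun M M' S S' F hF v xs => ?_⟩
    exact imp_congr (h1 _ _ _ _ F (hF.mono (le_max_left _ _)) v xs)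
      (h2 _ _ _ _ F (hF.mono (le_max_right _ _)) v xs)
  | all φ ih =>
    obtain ⟨N, h⟩ := ih
    refine ⟨N, fun M M' S S' F hF v xs => ?_⟩
    have h1 : ∀ x, (F ∘ (Fin.snoc xs x : Fin (_ + 1) → M)) =
        (Fin.snoc (F ∘ xs) (F x) : Fin (_ + 1) → M') := fun x => Fin.comp_snoc _ _ _
    change (∀ x, _) ↔ (∀ x, _)
    constructor
    · intro h2 y
      have h3 := (h _ _ _ _ F hF v _).1 (h2 (F.symm y))
      rwa [h1, Equiv.apply_symm_apply] at h3
    · intro h2 x
      refine (h _ _ _ _ F hF v _).2 ?_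
      rw [h1]
      exact h2 (F x)

/-- Structures which are isomorphic for all finite parts of the language are elementarily
equivalent. -/
theorem model_of_isoN [L.IsRelational] (ix : ∀ n, L.Relations n → ℕ) {M M' : Type}
    (S : L.Structure M) (S' : L.Structure M') (h : ∀ N, ∃ F : M ≃ M', IsoN ix S S' N F) :
    @Theory.Model L M' S' (@completeTheory L M S) := by
  let _ := S
  let _ := S'
  refine (Theory.model_iff _).2 fun φ hφ => ?_
  obtain ⟨N, hN⟩ := fo_pres ix φ
  obtain ⟨F, hF⟩ := h N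
  have h1 := hN M M' S S' F hF default default
  have h2 : M ⊨ φ := hφ
  have h3 : @BoundedFormula.Realize L M' S' Empty 0 φ (F ∘ default) (F ∘ default) := h1.1 h2
  have e1 : (F ∘ (default : Empty → M)) = (default : Empty → M') := Subsingleton.elim _ _
  have e2 : (F ∘ (default : Fin 0 → M)) = (default : Fin 0 → M') := Subsingleton.elim _ _
  rw [e1, e2] at h3
  exact h3

/-- first-order expressible properties, invariant under `IsoN` -/
def FN (ix : ∀ n, L.Relations n → ℕ) (N : ℕ)
    (P : ∀ M : Type, L.Structure M → (ℕ → M) → Prop) : Prop :=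
  (∃ φ : L.Formula ℕ, ∀ (M : Type) (S : L.Structure M) (v : ℕ → M),
    @Formula.Realize L M S ℕ φ v ↔ P M S v) ∧
  ∀ (M M' : Type) (S : L.Structure M) (S' : L.Structure M') (F : M ≃ M'), IsoN ix S S' N F →
    ∀ v : ℕ → M, P M S v ↔ P M' S' (F ∘ v)

theorem cn_comp {M M' : Type} (F : M → M') (x : M) (v : ℕ → M) : F ∘ cn x v = cn (F x) (F ∘ v) := by
  ext n; cases n <;> rfl

namespace FN

variable {N : ℕ} {P Q : ∀ M : Type, L.Structure M → (ℕ → M) → Prop}

theorem congr (h : FN ix N P) (hPQ : ∀ M S v, Q M S v ↔ P M S v) : FN ix N Q := by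
  obtain ⟨⟨φ, hφ⟩, h2⟩ := h
  exact ⟨⟨φ, fun M S v => (hφ M S v).trans (hPQ M S v).symm⟩, fun M M' S S' F hF v => by
    rw [hPQ, hPQ]; exact h2 M M' S S' F hF v⟩

theorem fls : FN ix N (fun _ _ _ => False) :=
  ⟨⟨⊥, fun _ _ _ => Iff.rfl⟩, fun _ _ _ _ _ _ _ => Iff.rfl⟩

theorem imp (hP : FN ix N P) (hQ : FN ix N Q) : FN ix N (fun M S v => P M S v → Q M S v) := by
  obtain ⟨⟨φ, hφ⟩, h1⟩ := hP
  obtain ⟨⟨ψ, hψ⟩, h2⟩ := hQ
  exact ⟨⟨φ.imp ψ, fun M S v => imp_congr (hφ M S v) (hψ M S v)⟩,
    fun M M' S S' F hF v => imp_congr (h1 M M' S S' F hF v) (h2 M M' S S' F hF v)⟩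

theorem not (hP : FN ix N P) : FN ix N (fun M S v => ¬ P M S v) := hP.imp fls

theorem tru : FN ix N (fun _ _ _ => True) := fls.not.congr (by simp)

theorem and (hP : FN ix N P) (hQ : FN ix N Q) : FN ix N (fun M S v => P M S v ∧ Q M S v) :=
  (hP.imp hQ.not).not.congr (by intro M S v; tauto)

theorem or (hP : FN ix N P) (hQ : FN ix N Q) : FN ix N (fun M S v => P M S v ∨ Q M S v) :=
  (hP.not.imp hQ).congr (by intro M S v; tauto)

theorem all (hP : FN ix N P) : FN ix N (fun M S v => ∀ x : M, P M S (cn x v)) := by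
  obtain ⟨⟨φ, hφ⟩, hi⟩ := hP
  refine ⟨?_, ?_⟩
  · let g : ℕ → ℕ ⊕ Fin 1 := fun n => Nat.casesOn n (Sum.inr 0) Sum.inl
    refine ⟨((BoundedFormula.relabel g φ : L.BoundedFormula ℕ 1).all : L.BoundedFormula ℕ 0),
      fun M S v => ?_⟩
    change (∀ x : M, _) ↔ _
    refine forall_congr' fun x => ?_
    rw [← hφ]
    let _ := S
    have h := BoundedFormula.realize_relabel (M := M) (φ := φ) (g := g) (v := v)
      (xs := (Fin.snoc default x : Fin (1 + 0) → M))
    refine h.trans ?_
    have h1 : (Sum.elim v ((Fin.snoc default x : Fin (1 + 0) → M) ∘ Fin.castAdd 0) ∘ g) =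
        cn x v := by
      ext n
      cases n with
      | zero => rfl
      | succ n => rfl
    rw [h1]
    unfold Formula.Realize
    have h2 : ((Fin.snoc default x : Fin (1 + 0) → M) ∘ Fin.natAdd 1 : Fin 0 → M) = default :=
      Subsingleton.elim _ _
    rw [h2]
  · intro M M' S S' F hF v
    constructor
    · intro h y
      have := (hi M M' S S' F hF _).1 (h (F.symm y))
      rwa [cn_comp, Equiv.apply_symm_apply] at this
    · intro h x
      refine (hi M M' S S' F hF _).2 ?_
      rw [cn_comp]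
      exact h (F x)

theorem ex (hP : FN ix N P) : FN ix N (fun M S v => ∃ x : M, P M S (cn x v)) :=
  hP.not.all.not.congr (by intro M S v; push Not; rfl)

theorem eq (i j : ℕ) : FN ix N (fun _ _ v => v i = v j) := by
  refine ⟨⟨Term.equal (var i) (var j), fun M S v => ?_⟩, fun M M' S S' F _ v => ?_⟩
  · let _ := S
    rw [Formula.realize_equal]
    rfl
  · exact F.injective.eq_iff.symm

theorem relg {n : ℕ} (R : L.Relations n) (hR : ix n R ≤ N) (f : Fin n → ℕ) :
    FN ix N (fun M S v => @Structure.RelMap L M S n R (fun i => v (f i))) := by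
  refine ⟨⟨Relations.formula R (fun i => var (f i)), fun M S v => ?_⟩,
    fun M M' S S' F hF v => ?_⟩
  · let _ := S
    rw [Formula.realize_rel]
    rfl
  · exact hF n R (fun i => v (f i)) hR

/-- several values in front of a valuation -/
theorem blk (hP : FN ix N P) (m : ℕ) :
    FN ix N (fun M S v => ∀ l : List M, l.length = m → P M S (l.foldr cn v)) := by
  induction m generalizing P with
  | zero => exact hP.congr (by
      intro M S v
      constructor
      · exact fun h => h [] rfl
      · intro h l hl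
        rw [List.length_eq_zero_iff.1 hl]
        exact h)
  | succ m ih =>
    refine (ih hP.all).congr ?_
    intro M S v
    constructor
    · intro h l hl x
      exact h (x :: l) (by simp [hl])
    · intro h l hl
      cases l with
      | nil => simp at hl
      | cons x l => exact h l (by simpa using hl) x

/-- Transfer from a structure to the models of its theory. -/
theorem transfer (hP : FN ix N P) {M₀ : Type} (S₀ : L.Structure M₀)
    {M : Type} (S : L.Structure M)
    (h : @Theory.Model L M S (@completeTheory L M₀ S₀))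
    (h0 : ∀ x, P M₀ S₀ (fun _ => x)) (x : M) : P M S (fun _ => x) := by
  obtain ⟨⟨φ, hφ⟩, -⟩ := hP
  let g : ℕ → Empty ⊕ Fin 1 := fun _ => Sum.inr 0
  let σ : L.Sentence := ((BoundedFormula.relabel g φ : L.BoundedFormula Empty 1).all :
    L.BoundedFormula Empty 0)
  have key : ∀ (M : Type) (S : L.Structure M), @Sentence.Realize L M S σ ↔
      ∀ x : M, P M S (fun _ => x) := by
    intro M S
    change (∀ x : M, _) ↔ _
    refine forall_congr' fun x => ?_
    rw [← hφ]
    let _ := S
    have h := BoundedFormula.realize_relabel (M := M) (φ := φ) (g := g) (v := default)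
      (xs := (Fin.snoc default x : Fin (1 + 0) → M))
    refine h.trans ?_
    have h1 : (Sum.elim default ((Fin.snoc default x : Fin (1 + 0) → M) ∘ Fin.castAdd 0) ∘ g) =
        fun _ => x := by
      ext n
      rfl
    rw [h1]
    unfold Formula.Realize
    have h2 : ((Fin.snoc default x : Fin (1 + 0) → M) ∘ Fin.natAdd 1 : Fin 0 → M) = default :=
      Subsingleton.elim _ _
    rw [h2]
  have hσ : σ ∈ @completeTheory L M₀ S₀ := (key M₀ S₀).2 h0
  exact (key M S).1 (@Theory.Model.realize_of_mem L M S _ h σ hσ) x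

end FN

/-- valuations from lists -/
def vl {M : Type} (x : M) (l : List M) : ℕ → M := l.foldr cn (fun _ => x)

theorem vl_cons {M : Type} (x y : M) (l : List M) : vl x (y :: l) = cn y (vl x l) := rfl

theorem comp_vl {M M' : Type} (F : M → M') (x : M) (l : List M) :
    F ∘ vl x l = vl (F x) (l.map F) := by
  induction l with
  | nil => rfl
  | cons y l ih => rw [vl_cons, cn_comp, ih]; rfl

/-- the type of a valuation -/
def tpN (ix : ∀ n, L.Relations n → ℕ) (N : ℕ) {M : Type} (S : L.Structure M) (v : ℕ → M) :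
    Set (∀ M : Type, L.Structure M → (ℕ → M) → Prop) :=
  {P | FN ix N P ∧ P M S v}

theorem tpN_eq {N : ℕ} {M M' : Type} {S : L.Structure M} {S' : L.Structure M'} {v : ℕ → M}
    {v' : ℕ → M'} : tpN ix N S v = tpN ix N S' v' ↔ ∀ P, FN ix N P → (P M S v ↔ P M' S' v') := by
  constructor
  · intro h P hP
    have := Set.ext_iff.1 h P
    simp only [tpN, mem_ofPred_eq, hP, true_and] at this
    exact this
  · intro h
    ext P
    simp only [tpN, mem_ofPred_eq]
    exact and_congr_right fun hP => h P hP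

/-- Finitely many orbits of tuples. -/
def Oligo (ix : ∀ n, L.Relations n → ℕ) (N : ℕ) {M : Type} (S : L.Structure M) : Prop :=
  ∀ n : ℕ, ∃ (κ : Type) (_ : Finite κ) (D : (Fin n → M) → κ), ∀ a b, D a = D b →
    ∃ F : M ≃ M, IsoN ix S S N F ∧ ∀ i, F (a i) = b i

theorem Oligo.finite {N : ℕ} {M : Type} {S : L.Structure M} (h : Oligo ix N S) (n : ℕ) :
    {t | ∃ (x : M) (l : List M), l.length = n ∧ t = tpN ix N S (vl x l)}.Finite := by
  obtain ⟨κ, hκ, D, hD⟩ := h (n + 1)
  let tup : M → List M → Fin (n + 1) → M := fun x l i => (x :: l).getD i x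
  have key : ∀ x l x' l', l.length = n → l'.length = n → D (tup x l) = D (tup x' l') →
      tpN ix N S (vl x l) = tpN ix N S (vl x' l') := by
    intro x l x' l' hl hl' hDD
    obtain ⟨F, hF, hF2⟩ := hD _ _ hDD
    have e0 : F x = x' := hF2 0
    have e1 : l.map F = l' := by
      apply List.ext_getElem (by simp [hl, hl'])
      intro i h1 h2
      have := hF2 ⟨i + 1, by omega⟩
      simp only [tup, List.getD_cons_succ] at this
      rw [List.getD_eq_getElem _ _ (by simpa using h1), List.getD_eq_getElem _ _ h2] at this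
      simpa using this
    rw [tpN_eq]
    intro P hP
    rw [hP.2 M M S S F hF, comp_vl, e0, e1]
  refine Set.Finite.subset (s := (fun k : κ => {P | ∃ (x : M) (l : List M), l.length = n ∧
    D (tup x l) = k ∧ P ∈ tpN ix N S (vl x l)}) '' univ) (Set.finite_univ.image _) ?_
  rintro t ⟨x, l, hl, rfl⟩
  refine ⟨D (tup x l), mem_univ _, ?_⟩
  ext P
  constructor
  · rintro ⟨x', l', hl', h1, h2⟩
    rw [← key x' l' x l hl' hl h1]
    exact h2
  · exact fun hP => ⟨x, l, hl, rfl, hP⟩

/-- isolating formulas -/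
theorem Oligo.isol {N : ℕ} {M : Type} {S : L.Structure M} (h : Oligo ix N S) {n : ℕ} {x : M}
    {l : List M} (hl : l.length = n) : ∃ P, FN ix N P ∧ P M S (vl x l) ∧
      ∀ (x' : M) (l' : List M), l'.length = n → P M S (vl x' l') →
        tpN ix N S (vl x' l') = tpN ix N S (vl x l) := by
  have h1 : ∀ T : Set (Set (∀ M : Type, L.Structure M → (ℕ → M) → Prop)), T.Finite →
      tpN ix N S (vl x l) ∉ T → ∃ P, FN ix N P ∧ P M S (vl x l) ∧
        ∀ (x' : M) (l' : List M), l'.length = n → P M S (vl x' l') →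
          tpN ix N S (vl x' l') ∉ T := by
    intro T hT
    induction T, hT using Set.Finite.induction_on with
    | empty => exact fun _ => ⟨fun _ _ _ => True, FN.tru, trivial, fun _ _ _ _ h => h.elim⟩
    | @insert t T _ _ ih =>
      intro hn
      obtain ⟨P, hP1, hP2, hP3⟩ := ih (fun h => hn (Or.inr h))
      have hne : tpN ix N S (vl x l) ≠ t := fun h => hn (Or.inl h)
      by_cases ht : ∃ (x' : M) (l' : List M), t = tpN ix N S (vl x' l')
      · obtain ⟨x', l', rfl⟩ := ht
        obtain ⟨Q, hQ1, hQ2, hQ3⟩ : ∃ Q, FN ix N Q ∧ Q M S (vl x l) ∧ ¬ Q M S (vl x' l') := by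
          by_contra hcon
          push Not at hcon
          apply hne
          rw [tpN_eq]
          intro P hP
          refine ⟨hcon P hP, fun h => ?_⟩
          by_contra h2
          exact hcon _ hP.not h2 h
        refine ⟨fun M S v => P M S v ∧ Q M S v, hP1.and hQ1, ⟨hP2, hQ2⟩, ?_⟩
        rintro x1 l1 hl1 ⟨h2, h3⟩ (h4 | h4)
        · rw [tpN_eq] at h4
          exact hQ3 ((h4 Q hQ1).1 h3)
        · exact hP3 x1 l1 hl1 h2 h4
      · refine ⟨P, hP1, hP2, ?_⟩
        rintro x1 l1 hl1 h2 (h4 | h4)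
        · exact ht ⟨x1, l1, h4.symm⟩
        · exact hP3 x1 l1 hl1 h2 h4
  obtain ⟨P, hP1, hP2, hP3⟩ := h1 ({t | ∃ (x : M) (l : List M), l.length = n ∧
    t = tpN ix N S (vl x l)} \ {tpN ix N S (vl x l)}) ((h.finite n).subset sdiff_subset)
    (fun h => h.2 rfl)
  refine ⟨P, hP1, hP2, fun x' l' hl' h2 => ?_⟩
  by_contra hne
  exact hP3 x' l' hl' h2 ⟨⟨x', l', hl', rfl⟩, hne⟩

/-- the set of all isolating formulas for tuples of given length -/
theorem Oligo.cover {N : ℕ} {M : Type} {S : L.Structure M} (h : Oligo ix N S) (n : ℕ) :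
    ∃ G : Set (∀ M : Type, L.Structure M → (ℕ → M) → Prop), G.Finite ∧ (∀ P ∈ G, FN ix N P) ∧
      (∀ P ∈ G, ∀ (x x' : M) (l l' : List M), l.length = n → l'.length = n → P M S (vl x l) →
        P M S (vl x' l') → tpN ix N S (vl x l) = tpN ix N S (vl x' l')) ∧
      ∀ (x : M) (l : List M), l.length = n → ∃ P ∈ G, P M S (vl x l) := by
  classical
  have hfin := h.finite n
  have h1 : ∀ t : Set (∀ M : Type, L.Structure M → (ℕ → M) → Prop), ∃ P, FN ix N P ∧
      ((∃ (x : M) (l : List M), l.length = n ∧ t = tpN ix N S (vl x l)) →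
        (∀ (x' : M) (l' : List M), l'.length = n → (P M S (vl x' l') ↔
          tpN ix N S (vl x' l') = t))) := by
    intro t
    by_cases ht : ∃ (x : M) (l : List M), l.length = n ∧ t = tpN ix N S (vl x l)
    · obtain ⟨x, l, hl, rfl⟩ := ht
      obtain ⟨P, hP1, hP2, hP3⟩ := h.isol (x := x) hl
      refine ⟨P, hP1, fun _ x' l' hl' => ⟨hP3 x' l' hl', fun h => ?_⟩⟩
      rw [tpN_eq] at h
      exact (h P hP1).2 hP2
    · exact ⟨fun _ _ _ => True, FN.tru, fun h => absurd h ht⟩
  choose g hg1 hg2 using h1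
  refine ⟨g '' {t | ∃ (x : M) (l : List M), l.length = n ∧ t = tpN ix N S (vl x l)},
    hfin.image _, ?_, ?_, ?_⟩
  · rintro P ⟨t, -, rfl⟩
    exact hg1 t
  · rintro P ⟨t, ht, rfl⟩ x x' l l' hl hl' h3 h4
    rw [hg2 t ht x l hl] at h3
    rw [hg2 t ht x' l' hl'] at h4
    rw [h3, h4]
  · intro x l hl
    exact ⟨_, ⟨_, ⟨x, l, hl, rfl⟩, rfl⟩, (hg2 _ ⟨x, l, hl, rfl⟩ x l hl).2 rfl⟩

end Pool.Agent.Y567.MD
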