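import Pool.Agent.Y567.MD.Cases

/-!
Full systems: elementary equivalence, and finitely many orbits of tuples.
-/

set_option autoImplicit false

namespace Pool.Agent.Y567.MD

open Set FirstOrder FirstOrder.Language
open Pool.Agent.Y567.MC (Col Match AG tr tr_of_lt tr_of_le tr_eq_top le_tr tr_mono le_tr_iff
  exists_chain equiv_of_graph)

variable {p : Par} {H Z W H' Z' W' : Type} [LinearOrder H] [LinearOrder H']

/-- Full systems. -/
structure Full (S : Sy p ⊤ H Z W) : Prop where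
  dens : ∀ x y : H, x < y → ∃ z, x < z ∧ z < y
  nomax : ∀ x : H, ∃ y, x < y
  down : ∀ (n : ℕ) (x : H), (n : ℕ∞) ≤ S.c x → ∃ y, y < x ∧ (n : ℕ∞) ≤ S.c y
  up : ∀ (n : ℕ) (x : H), ¬ ((n + 1 : ℕ) : ℕ∞) ≤ S.c x → ∃ y, x < y ∧ ¬ ((n + 1 : ℕ) : ℕ∞) ≤ S.c y
  all : ∀ n : ℕ, ∃ x, S.c x = n
  ne : Nonempty W

variable {S : Sy p ⊤ H Z W} {S' : Sy p ⊤ H' Z' W'}

theorem Full.col (hF : Full S) (N : ℕ) : Col (fun x => tr N (S.c x)) (fun _ => False) where
  single := fun _ _ h => h.elim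
  down := by
    intro x _
    by_cases hx : S.c x < N
    · obtain ⟨n, hn⟩ := ENat.ne_top_iff_exists.1 (ne_top_of_lt hx)
      obtain ⟨y, h1, h2⟩ := hF.down n x hn.le
      have : S.c y = S.c x := le_antisymm (S.c_mono h1.le) (by rw [← hn]; exact h2)
      exact ⟨y, h1, by simp only [this]⟩
    · obtain ⟨y, h1, h2⟩ := hF.down N x (not_lt.1 hx)
      exact ⟨y, h1, by simp only [tr_of_le h2, tr_of_le (not_lt.1 hx)]⟩
  up := by
    intro x _
    by_cases hx : S.c x < N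
    · obtain ⟨n, hn⟩ := ENat.ne_top_iff_exists.1 (ne_top_of_lt hx)
      obtain ⟨y, h1, h2⟩ := hF.up n x (by rw [← hn, Nat.cast_le]; omega)
      have : S.c y = S.c x := by
        refine le_antisymm ?_ (S.c_mono h1.le)
        rw [← hn]
        have := not_le.1 h2
        rw [Nat.cast_add, Nat.cast_one] at this
        exact Order.le_of_lt_add_one this
      exact ⟨y, h1, by simp only [this]⟩
    · obtain ⟨y, h1⟩ := hF.nomax x
      exact ⟨y, h1, by simp only [tr_of_le ((not_lt.1 hx).trans (S.c_mono h1.le)),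
        tr_of_le (not_lt.1 hx)]⟩
  mid := by
    intro x y _ hxy hlt
    obtain ⟨t, h1, h2⟩ := hF.dens x y hlt
    replace hxy : tr N (S.c y) = tr N (S.c x) := hxy
    refine ⟨t, h1, h2, le_antisymm ?_ (tr_mono (S.c_mono h1.le))⟩
    rw [← hxy]
    exact tr_mono (S.c_mono h2.le)

theorem Full.match_trunc (hF : Full S) (hF' : Full S') (N : ℕ) :
    Match (fun x => tr N (S.c x)) (fun x => tr N (S'.c x)) (fun _ => False) := by
  have lab : ∀ {H Z W H' Z' W' : Type} [LinearOrder H] [LinearOrder H'] {S : Sy p ⊤ H Z W}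
      {S' : Sy p ⊤ H' Z' W'}, Full S' → ∀ x, ∃ x', tr N (S'.c x') = tr N (S.c x) := by
    intro H Z W H' Z' W' _ _ S S' hF' x
    by_cases hx : S.c x < N
    · obtain ⟨n, hn⟩ := ENat.ne_top_iff_exists.1 (ne_top_of_lt hx)
      obtain ⟨y, h1⟩ := hF'.all n
      exact ⟨y, by rw [h1, hn]⟩
    · obtain ⟨y, h1⟩ := hF'.all N
      exact ⟨y, by rw [h1, tr_of_le le_rfl, tr_of_le (not_lt.1 hx)]⟩
  have sep : ∀ {H Z W H' Z' W' : Type} [LinearOrder H] [LinearOrder H'] {S : Sy p ⊤ H Z W}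
      {S' : Sy p ⊤ H' Z' W'}, ∀ x x' y y', tr N (S.c x) = tr N (S'.c x') →
      tr N (S.c y) = tr N (S'.c y') → tr N (S.c x) ≠ tr N (S.c y) → x < y → x' < y' := by
    intro H Z W H' Z' W' _ _ S S' x x' y y' h1 h2 h3 h4
    have h5 : tr N (S'.c x') < tr N (S'.c y') := by
      rw [← h1, ← h2]
      exact lt_of_le_of_ne (tr_mono (S.c_mono h4.le)) h3
    exact (S'.trunc N).lt_of_c h5
  exact ⟨hF.col N, hF'.col N, lab hF', lab hF, fun x x' y y' h1 h2 h3 =>
    ⟨sep x x' y y' h1 h2 h3, sep x' x y' y h1.symm h2.symm (by rw [← h1, ← h2]; exact h3)⟩⟩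

theorem Full.infinite (hF : Full S) (N : ℕ) : Infinite {z : Z // ¬ (S.lev z : ℕ∞) < N} := by
  obtain ⟨x, hx⟩ := hF.all 0
  have h1 : ∀ k : ℕ, ∃ z, S.lev z = k := fun k => by
    obtain ⟨z, hz, -⟩ := S.unb k x (ENat.natCast_lt_top _) (by rw [hx]; exact ENat.natCast_ne_top _)
    exact ⟨z, hz⟩
  choose g hg using h1
  refine Infinite.of_injective (fun k : ℕ => (⟨g (N + k), ?_⟩ : {z : Z // ¬ (S.lev z : ℕ∞) < N})) ?_
  · rw [hg, Nat.cast_lt]; omega
  · intro i j hij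
    have := congrArg (fun z : {z : Z // ¬ (S.lev z : ℕ∞) < N} => S.lev z.1) hij
    simp only [hg] at this
    omega

theorem Full.trunc_inf (hF : Full S) (N : ℕ) : ∃ q, (S.trunc N).c q = ⊤ := by
  obtain ⟨x, hx⟩ := hF.all N
  exact ⟨x, tr_of_le hx.ge⟩

theorem Full.trunc_top (hF : Full S) (N k : ℕ) :
    ∃ z, (S.trunc N).lev z = k ∧ (S.trunc N).cz z = ⊤ := by
  obtain ⟨x, hx⟩ := hF.all N
  obtain ⟨z, h1, h2⟩ := S.unb k x (ENat.natCast_lt_top _) (by rw [hx]; exact ENat.natCast_ne_top _)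
  exact ⟨z, h1, tr_of_le (by rw [← hx]; exact h2.le)⟩

/-- Finite partial bijections extend. -/
theorem extend_equiv {X Y : Type} [Countable X] [Infinite X] [Countable Y] [Infinite Y]
    (R : Set (X × Y)) (hR : R.Finite)
    (hinj : ∀ {x y x' y'}, (x, y) ∈ R → (x', y') ∈ R → (x = x' ↔ y = y')) :
    ∃ e : X ≃ Y, ∀ x y, (x, y) ∈ R → e x = y := by
  classical
  let P : Set (X × Y) → Prop := fun R => R.Finite ∧
    ∀ x y x' y', (x, y) ∈ R → (x', y') ∈ R → (x = x' ↔ y = y')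
  have hins : ∀ (R : Set (X × Y)) x y, P R → (∀ y, (x, y) ∉ R) → (∀ x, (x, y) ∉ R) →
      P (insert (x, y) R) := by
    rintro R x y ⟨h1, h2⟩ hx hy
    refine ⟨h1.insert _, ?_⟩
    rintro a b a' b' (h3 | h3) (h4 | h4)
    · cases h3; cases h4; simp
    · cases h3
      exact ⟨fun h => absurd (by rw [h]; exact h4) (hx b'), fun h => absurd (by rw [h]; exact h4) (hy a')⟩
    · cases h4
      exact ⟨fun h => absurd (by rw [← h]; exact h3) (hx b), fun h => absurd (by rw [← h]; exact h3) (hy a)⟩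
    · exact h2 a b a' b' h3 h4
  have : Nonempty (X ⊕ Y) := ⟨Sum.inl (Classical.arbitrary X)⟩
  obtain ⟨task, htask⟩ := exists_surjective_nat (X ⊕ Y)
  let Rt : (X ⊕ Y) → Set (X × Y) → Prop := fun t R => match t with
    | Sum.inl x => ∃ y, (x, y) ∈ R
    | Sum.inr y => ∃ x, (x, y) ∈ R
  obtain ⟨f, f0, fP, fle, fR⟩ := exists_chain P (fun a b => a ⊆ b) (fun _ => subset_rfl)
    (fun _ _ _ h1 h2 => h1.trans h2) (fun n => Rt (task n)) (by
      intro n R hR
      rcases task n with x | y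
      · by_cases hx : ∃ y, (x, y) ∈ R
        · exact ⟨R, hR, subset_rfl, hx⟩
        push Not at hx
        obtain ⟨y, hy⟩ := (hR.1.image Prod.snd).infinite_compl.nonempty
        exact ⟨insert (x, y) R, hins R x y hR hx (fun x' h => hy ⟨_, h, rfl⟩), subset_insert _ _,
          y, mem_insert _ _⟩
      · by_cases hy : ∃ x, (x, y) ∈ R
        · exact ⟨R, hR, subset_rfl, hy⟩
        push Not at hy
        obtain ⟨x, hx⟩ := (hR.1.image Prod.fst).infinite_compl.nonempty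
        exact ⟨insert (x, y) R, hins R x y hR (fun y' h => hx ⟨_, h, rfl⟩) hy, subset_insert _ _,
          x, mem_insert _ _⟩) R ⟨hR, fun x y x' y' h1 h2 => hinj h1 h2⟩
  have hmem : ∀ t, ∃ n, Rt t (f n) := fun t => by
    obtain ⟨n, hn⟩ := htask t
    exact ⟨n + 1, hn ▸ fR n⟩
  obtain ⟨e, he⟩ := equiv_of_graph {a : X × Y | ∃ n, a ∈ f n}
    (fun x => by
      obtain ⟨n, y, h⟩ := hmem (Sum.inl x)
      exact ⟨y, n, h⟩)
    (fun y => by
      obtain ⟨n, x, h⟩ := hmem (Sum.inr y)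
      exact ⟨x, n, h⟩)
    (by
      rintro a a' b b' ⟨m, hm⟩ ⟨n, hn⟩
      exact (fP (max m n)).2 _ _ _ _ (fle m _ (le_max_left _ _) hm)
        (fle n _ (le_max_right _ _) hn))
  exact ⟨e, fun x y h => (he x y).2 ⟨0, by rw [f0]; exact h⟩⟩

/-- Full systems are isomorphic for all finite parts of the language. -/
theorem Full.isoN [Countable H] [Countable Z] [Countable H'] [Countable Z'] [Countable W]
    [Countable W'] (hF : Full S) (hF' : Full S') (N : ℕ) :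
    ∃ F : H ⊕ Z ⊕ W ⊕ Empty ≃ H' ⊕ Z' ⊕ W' ⊕ Empty,
      IsoN (idx p.ar) (str S Empty) (str S' Empty) N F := by
  obtain ⟨q, hq⟩ := hF.trunc_inf (N + 1)
  obtain ⟨q', hq'⟩ := hF'.trunc_inf (N + 1)
  have := hF.infinite (N + 1)
  have := hF'.infinite (N + 1)
  obtain ⟨w⟩ := nonempty_equiv_of_countable (α := {z : Z // ¬ (S.lev z : ℕ∞) < (N + 1 : ℕ)})
    (β := {z : Z' // ¬ (S'.lev z : ℕ∞) < (N + 1 : ℕ)})
  obtain ⟨f, g, e, h1, -⟩ := iso_inf (S := S.trunc (N + 1)) (S' := S'.trunc (N + 1))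
    (A := ∅) (B := ∅) (C := ∅) (hF.match_trunc hF' (N + 1)) (fun x x' h => h)
    (fun k _ => ⟨fun _ => hF'.trunc_top _ _, fun _ => hF.trunc_top _ _⟩) hq hq' hF.ne hF'.ne w
    (Or.inl ⟨⟨fun h => h.elim, fun h => h.elim⟩, Set.finite_empty, ⟨fun h => h.elim,
      fun h => h.elim, fun h => h.elim, fun h => h.elim, fun h => h.elim, fun h => h.elim⟩,
      Set.finite_empty, rfl⟩)
  refine ⟨bij f g e (Equiv.refl Empty), fun n R v hR => ?_⟩
  refine (h1.rIso_trunc).rel_iff (Equiv.refl Empty) R v ?_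
  exact_mod_cast Nat.lt_succ_of_le hR

end Pool.Agent.Y567.MD
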