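import Pool.Agent.Y567.MD.StdW
import Pool.Agent.Y567.MD.EZ

/-!
Isomorphisms of the standard systems without metric on `W`.
-/

set_option autoImplicit false

namespace Pool.Agent.Y567.MD.StdW

open Set
open Pool.Agent.Y567.MC (Col Match AG)

/-- isomorphism of coded structures -/
def DIso (D D' : ℕ → List ℕ → Prop) (φ : ℕ ≃ ℕ) : Prop :=
  ∀ j l, l.length = (Nat.unpair j).2 + 1 → (D j l ↔ D' j (l.map φ))

theorem DIso.symm {D D' : ℕ → List ℕ → Prop} {φ : ℕ ≃ ℕ} (h : DIso D D' φ) : DIso D' D φ.symm := by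
  intro j l hl
  rw [h j (l.map φ.symm) (by simpa using hl), List.map_map]
  have : (φ ∘ φ.symm : ℕ → ℕ) = id := by ext x; simp
  rw [this, List.map_id]

section

variable {H : Type} [LinearOrder H] [Countable H] [Nonempty H] {col : H → ℕ∞} {hcol : Monotone col}
  {D D' : ℕ → List ℕ → Prop} {φ : ℕ ≃ ℕ}

/-- the pairs of top points -/
def B0 (H : Type) : Set ((ℕ × (H →₀ ℕ)) × (ℕ × (H →₀ ℕ))) := {x | x.1 = x.2 ∧ x.1.2 = 0}

/-- label condition -/
def Th (φ : ℕ ≃ ℕ) : Set (WW × WW) := {x | φ x.1.1 = x.2.1}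

omit [LinearOrder H] [Countable H] [Nonempty H] in
theorem B0_swap : Prod.swap ⁻¹' (B0 H) = B0 H := by
  ext ⟨z, w⟩
  simp only [B0, mem_preimage, Prod.swap_prod_mk, mem_ofPred_eq]
  constructor
  · rintro ⟨h1, h2⟩
    exact ⟨h1.symm, by rw [← h1]; exact h2⟩
  · rintro ⟨h1, h2⟩
    exact ⟨h1.symm, by rw [← h1]; exact h2⟩

theorem Th_swap : Prod.swap ⁻¹' (Th φ) = Th φ.symm := by
  ext ⟨z, w⟩
  simp only [Th, mem_preimage, Prod.swap_prod_mk, mem_ofPred_eq]
  rw [Equiv.symm_apply_eq]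
  exact eq_comm

theorem ansW (hφ : DIso D D' φ) {A : Set (H × H)}
    {B : Set ((ℕ × (H →₀ ℕ)) × (ℕ × (H →₀ ℕ)))} {C : Set (WW × WW)}
    (hB : BG (std col hcol D) (std col hcol D') A B) (hBf : (B \ B0 H).Finite)
    (hC : WG (std col hcol D) (std col hcol D') A C) (hCf : C.Finite) (hCt : C ⊆ Th φ) (w : WW) :
    ∃ w', AnsW (std col hcol D) (std col hcol D') A B C w w' ∧ (w, w') ∈ Th φ := by
  classical
  obtain ⟨N1, hN1⟩ := bound H ((hCf.image Prod.fst).insert w)
  let V' : Set WW := Prod.snd '' C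
  have hV' : V'.Finite := hCf.image _
  let G : Set (ℕ × (H →₀ ℕ)) := Prod.snd '' (B \ B0 H) ∪ (fun k : ℕ => (k, (0 : H →₀ ℕ))) '' {k | k < N1}
  have hG : G.Finite := (hBf.image _).union ((Set.finite_lt_nat N1).image _)
  let E1 : Set ((ℕ × (H →₀ ℕ)) × List (Option WW)) := {x | x.1 ∈ G ∧
        (∀ o ∈ x.2, o ∈ insert none (some '' V')) ∧ x.2.length = pW.ar x.1.1}
  have hE : E1.Finite := by
    have h1 : (⋃ z ∈ G, (fun l : List (Option WW) => (z, l)) '' {l | (∀ o ∈ l, o ∈
        insert none (some '' V')) ∧ l.length = pW.ar z.1}).Finite :=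
      hG.biUnion fun z _ => (finite_lists ((hV'.image _).insert _) _).image _
    refine h1.subset ?_
    rintro ⟨z, l⟩ ⟨g1, g2, g3⟩
    simp only [mem_iUnion]
    exact ⟨z, g1, l, ⟨g2, g3⟩, rfl⟩
  obtain ⟨w', h1, h2, h3⟩ := exists_w D' (φ w.1) hV' hE (etaW (std col hcol D) B C w)
  refine ⟨w', ⟨?_, fun h => h.elim, ?_⟩, h1.symm⟩
  · rintro f' ⟨f, hf⟩ rfl
    exact h2 ⟨_, hf, rfl⟩
  · intro z z' hz l hl hlC hlen
    have hlev : z.1 = z'.1 := hB.lev hz
    have e1 : (l.map fun o => (o.map Prod.snd).getD w') =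
        (l.map (Option.map Prod.snd)).map fun x => x.getD w' := by
      rw [List.map_map]; rfl
    have m1 : none ∈ l.map (Option.map (Prod.snd : WW × WW → WW)) := List.mem_map.2 ⟨none, hl, rfl⟩
    have m2 : ∀ g, some g ∈ l.map (Option.map (Prod.snd : WW × WW → WW)) → g ∈ V' := by
      intro g hg
      obtain ⟨o, ho, ho2⟩ := List.mem_map.1 hg
      cases o with
      | none => simp at ho2
      | some x =>
        simp only [Option.map_some, Option.some.injEq] at ho2
        exact ⟨x, hlC x ho, ho2⟩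
    obtain ⟨h4, h5⟩ := h3 z' (l.map (Option.map Prod.snd)) m1 m2
    rw [e1]
    change _ ↔ Rr D' z' _
    by_cases hE1 : (z', l.map (Option.map Prod.snd)) ∈ E1
    · rw [h4 hE1]
      exact (etaW_iff hB hC hz hlC).symm
    · have hlen' : (l.map (Option.map (Prod.snd : WW × WW → WW))).length = pW.ar z'.1 := by
        rw [List.length_map, hlen, ← hlev]; rfl
      have hG' : z' ∉ G := by
        intro h
        refine hE1 ⟨h, fun o ho => ?_, hlen'⟩
        cases o with
        | none => exact mem_insert _ _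
        | some g => exact mem_insert_of_mem _ ⟨g, m2 g ho, rfl⟩
      have hz0 : (z, z') ∈ B0 H := by
        by_contra hn
        exact hG' (Or.inl ⟨(z, z'), ⟨hz, hn⟩, rfl⟩)
      obtain ⟨hzz, hz0⟩ := hz0
      dsimp only at hzz hz0
      subst hzz
      have hk : N1 ≤ z.1 := by
        by_contra hn
        refine hG' (Or.inr ⟨z.1, not_le.1 hn, ?_⟩)
        exact Prod.ext rfl hz0.symm
      have hnd : ¬ Dc z (l.map fun o => (o.map Prod.fst).getD w) := by
        rintro ⟨v, g1, g2⟩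
        obtain ⟨o, ho, rfl⟩ := List.mem_map.1 g1.1
        have := hN1 _ (by
          cases o with
          | none => exact mem_insert _ _
          | some x => exact mem_insert_of_mem _ ⟨x, hlC x ho, rfl⟩) _ g2
        dsimp only at this
        omega
      change Rr D z _ ↔ _
      rw [Rr_of_not hnd, Rr_of_not (h5 hE1)]
      simp only [hz0, true_and, ne_eq, not_true_eq_false, false_and, or_false]
      rw [hφ _ _ (by rw [List.length_map, List.length_map]; exact hlen), List.map_map, List.map_map,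
        List.map_map, List.map_map]
      have e2 : l.map ((⇑φ ∘ Prod.fst) ∘ fun o => (Option.map Prod.fst o).getD w) =
          l.map ((Prod.fst ∘ fun x => x.getD w') ∘ Option.map Prod.snd) := by
        refine List.map_congr_left fun o ho => ?_
        cases o with
        | none => simp [h1]
        | some x =>
          have : φ x.1.1 = x.2.1 := hCt (hlC x ho)
          simp [this]
      rw [e2]

theorem Rg_single {A : Set (H × H)} {B : Set ((ℕ × (H →₀ ℕ)) × (ℕ × (H →₀ ℕ)))} {w w' : WW}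
    (h : AnsW (std col hcol D) (std col hcol D') A B ∅ w w') :
    RG (std col hcol D) (std col hcol D') B {(w, w')} := by
  intro z z' hz l hl hlen
  have hl0 : l ≠ [] := by
    rintro rfl
    exact pW.pos _ hlen.symm
  have h1 := h.r z z' hz (l.map fun _ => none) (by
      cases l with
      | nil => exact absurd rfl hl0
      | cons x l => simp) (by
      intro g hg
      obtain ⟨y, -, hy⟩ := List.mem_map.1 hg
      simp at hy) (by rw [List.length_map]; exact hlen)
  rw [List.map_map, List.map_map] at h1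
  have e1 : l.map Prod.fst = l.map ((fun o : Option (WW × WW) => (o.map Prod.fst).getD w) ∘
      fun _ => none) := by
    refine List.map_congr_left fun x hx => ?_
    have := hl x hx
    rw [mem_singleton_iff] at this
    rw [this]; rfl
  have e2 : l.map Prod.snd = l.map ((fun o : Option (WW × WW) => (o.map Prod.snd).getD w') ∘
      fun _ => none) := by
    refine List.map_congr_left fun x hx => ?_
    have := hl x hx
    rw [mem_singleton_iff] at this
    rw [this]; rfl
  rw [e1, e2]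
  exact h1

theorem stepW (hφ : DIso D D' φ) {ρ ρ' : H → ℕ∞} {A : Set (H × H)}
    {B : Set ((ℕ × (H →₀ ℕ)) × (ℕ × (H →₀ ℕ)))} {C : Set (WW × WW)}
    (h : Inv (std col hcol D) (std col hcol D') ρ ρ' (B0 H) (Th φ) A B C) (w : WW) :
    ∃ C', C ⊆ C' ∧ Inv (std col hcol D) (std col hcol D') ρ ρ' (B0 H) (Th φ) A B C' ∧
      ∃ w', (w, w') ∈ C' := by
  by_cases hin : ∃ w', (w, w') ∈ C
  · exact ⟨C, subset_rfl, h, hin⟩
  push Not at hin
  obtain ⟨w', h1, h2⟩ := ansW hφ h.bg h.bf h.wg h.cf h.ct w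
  exact ⟨_, subset_insert _ _, h.insertW hin h1 h2, w', mem_insert _ _⟩

omit [LinearOrder H] [Countable H] [Nonempty H] in
theorem B0_fin (k : ℕ) : {a ∈ B0 H | a.1.1 = k}.Finite := by
  refine Set.Subsingleton.finite ?_
  rintro ⟨⟨i, f⟩, ⟨i', f'⟩⟩ ⟨⟨g1, g2⟩, g3⟩ ⟨⟨j, e⟩, ⟨j', e'⟩⟩ ⟨⟨g4, g5⟩, g6⟩
  simp only [Prod.mk.injEq] at g1 g2 g3 g4 g5 g6 ⊢
  obtain ⟨rfl, rfl⟩ := g1
  obtain ⟨rfl, rfl⟩ := g4
  subst g2; subst g3; subst g5; subst g6
  simp

/-- Isomorphic coded structures give isomorphic systems. -/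
theorem iso_of_DIso (hfin : ∀ x, col x ≠ ⊤) (hF : Full (std col hcol D)) (hφ : DIso D D' φ) :
    ∃ (f : H ≃ H) (g : ℕ × (H →₀ ℕ) ≃ ℕ × (H →₀ ℕ)) (e : WW ≃ WW),
      Iso (std col hcol D) (std col hcol D') f g e := by
  have hF' : Full (std col hcol D') := ⟨hF.dens, hF.nomax, hF.down, hF.up, hF.all, hF.ne⟩
  have hC : ¬ CInf (std col hcol D) := fun ⟨x, hx⟩ => hfin x hx
  have hC' : ¬ CInf (std col hcol D') := fun ⟨x, hx⟩ => hfin x hx
  have m := match_fin hF hC hF' hC'
  have htop : ∀ z : ℕ × (H →₀ ℕ), cf col z.2 = ⊤ → z.2 = 0 := by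
    intro z hz
    by_contra hn
    rw [cf_ne col hn] at hz
    exact hfin _ hz
  have hB : BG (std col hcol D) (std col hcol D') ∅ (B0 H) := by
    refine ⟨?_, ?_, ?_, ?_, ?_, ?_⟩
    · rintro z z' w w' ⟨h1, -⟩ ⟨h2, -⟩
      dsimp only at h1 h2
      rw [h1, h2]
    · exact fun _ => ENat.natCast_lt_top _
    · rintro z z' ⟨h1, -⟩
      dsimp only at h1
      rw [h1]; rfl
    · rintro z z' ⟨h1, -⟩
      dsimp only at h1
      rw [h1]; rfl
    · rintro z z' ⟨h1, h2⟩ h3
      exact absurd (show cf col z.2 = ⊤ by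
        dsimp only at h2
        rw [h2]; exact cf_zero col) h3
    · rintro z z' w w' ⟨h1, h2⟩ ⟨h3, h4⟩ h5 h6
      exact absurd (Prod.ext h5 (h2.trans h4.symm)) h6
  obtain ⟨w', h1, h2⟩ := ansW hφ hB (by simp) (C := ∅) ⟨fun h => h.elim, fun h => h.elim⟩
    Set.finite_empty (empty_subset _) (0, 0)
  have hI : Inv (std col hcol D) (std col hcol D') (std col hcol D).c (std col hcol D').c (B0 H)
      (Th φ) ∅ (B0 H) {((0, 0), w')} := by
    refine ⟨⟨fun h => h.elim, fun h => h.elim⟩, Set.finite_empty, hB, subset_rfl, by simp,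
      ⟨?_, fun h => h.elim⟩, Set.finite_singleton _, ⟨_, rfl⟩, ?_, Rg_single h1⟩
    · rintro f f' g g' h1 h2
      cases h1; cases h2; simp
    · rintro _ rfl
      exact h2
  have hswap : ∀ {A B C}, Inv (std col hcol D) (std col hcol D') (std col hcol D).c
      (std col hcol D').c (B0 H) (Th φ) A B C →
      Inv (std col hcol D') (std col hcol D) (std col hcol D').c
      (std col hcol D).c (B0 H) (Th φ.symm) (Prod.swap ⁻¹' A) (Prod.swap ⁻¹' B)
        (Prod.swap ⁻¹' C) := by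
    intro A B C h
    have := h.swap
    rwa [B0_swap, Th_swap] at this
  obtain ⟨f, g, e, h3, -⟩ := exists_iso (Θ := Th φ) m (fun x x' h => h) (fun k => B0_fin k)
    (fun z _ hz => Or.inl ⟨z, rfl, htop z hz⟩) (fun z _ hz => Or.inl ⟨z, rfl, htop z hz⟩)
    (fun A B C h w => by
      obtain ⟨C', g1, g2, g3⟩ := stepW hφ h w
      exact ⟨A, C', subset_rfl, g1, g2, g3⟩)
    (fun A B C h w => by
      obtain ⟨C', g1, g2, ⟨w', g3⟩⟩ := stepW hφ.symm (hswap h) w
      have g4 := g2.swap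
      rw [B0_swap, Th_swap, Equiv.symm_symm] at g4
      simp only [swap_swap_set] at g4
      exact ⟨A, Prod.swap ⁻¹' C', subset_rfl, fun p hp => g1 (by simpa using hp), g4, w', g3⟩)
    (noHigh _ _) hI
  exact ⟨f, g, e, h3⟩

/-- For a list of elements and large levels the relations are the default ones. -/
theorem default_rel (D : ℕ → List ℕ → Prop) (l : List WW) :
    ∃ N, ∀ k, N ≤ k → (Rr D ((k, 0) : ℕ × (H →₀ ℕ)) l ↔ D (Nat.unpair k).1 (l.map Prod.fst)) := by
  obtain ⟨N, hN⟩ := bound H (V := {w | w ∈ l}) (List.finite_toSet l)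
  refine ⟨N, fun k hk => ?_⟩
  have : ¬ Dc ((k, 0) : ℕ × (H →₀ ℕ)) l := by
    rintro ⟨w, h1, h2⟩
    have := hN w h1.1 _ h2
    dsimp only at this
    omega
  rw [Rr_of_not this]
  simp

end

end Pool.Agent.Y567.MD.StdW
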