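import Pool.Agent.Y567.MD.FO

/-!
A countable structure elementarily equivalent to a countable structure with finitely many orbits of
tuples (for a finite part of the language) is isomorphic to it (for this part of the language).
-/

set_option autoImplicit false

namespace Pool.Agent.Y567.MD

open Set FirstOrder FirstOrder.Language
open Pool.Agent.Y567.MC (cn exists_chain equiv_of_graph)

variable {L : FirstOrder.Language.{0, 0}} {ix : ∀ n, L.Relations n → ℕ}
  {N : ℕ} {M M' : Type} {S : L.Structure M} {S' : L.Structure M'}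

/-- transfer of universal statements about tuples -/
theorem transfer_list (hM : @Theory.Model L M' S' (@completeTheory L M S))
    {P : ∀ M : Type, L.Structure M → (ℕ → M) → Prop} (hP : FN ix N P) {n : ℕ}
    (h : ∀ (x : M) (l : List M), l.length = n → P M S (vl x l)) (x : M') (l : List M')
    (hl : l.length = n) : P M' S' (vl x l) :=
  (hP.blk n).transfer S S' hM (fun x l hl => h x l hl) x l hl

theorem tpN_of_isol (hM : @Theory.Model L M' S' (@completeTheory L M S))
    {P : ∀ M : Type, L.Structure M → (ℕ → M) → Prop} (hP : FN ix N P) {n : ℕ}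
    (hiso : ∀ (x x' : M) (l l' : List M), l.length = n → l'.length = n → P M S (vl x l) →
        P M S (vl x' l') → tpN ix N S (vl x l) = tpN ix N S (vl x' l'))
    {x : M} {l : List M} (hl : l.length = n) (h1 : P M S (vl x l)) {x' : M'} {l' : List M'}
    (hl' : l'.length = n) (h2 : P M' S' (vl x' l')) :
    tpN ix N S (vl x l) = tpN ix N S' (vl x' l') := by
  have key : ∀ Q, FN ix N Q → Q M S (vl x l) → Q M' S' (vl x' l') := by
    intro Q hQ hQx
    refine transfer_list (P := fun M S v => P M S v → Q M S v) hM (hP.imp hQ) (n := n) ?_ x' l'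
      hl' h2
    intro x1 l1 hl1 h3
    exact ((tpN_eq.1 (hiso x x1 l l1 hl hl1 h1 h3)) Q hQ).1 hQx
  rw [tpN_eq]
  intro Q hQ
  refine ⟨key Q hQ, fun h => ?_⟩
  by_contra h3
  exact key _ hQ.not h3 h

/-- one-point extension -/
theorem rn_forth (hM : @Theory.Model L M' S' (@completeTheory L M S)) (hO : Oligo ix N S)
    {x : M} {l : List M} {x' : M'} {l' : List M'} (hll : l.length = l'.length)
    (h : tpN ix N S (vl x l) = tpN ix N S' (vl x' l')) (y : M) :
    ∃ y', tpN ix N S (vl x (y :: l)) = tpN ix N S' (vl x' (y' :: l')) := by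
  obtain ⟨G, -, hG1, hG2, hG3⟩ := hO.cover (l.length + 1)
  obtain ⟨P, hP, h1⟩ := hG3 x (y :: l) rfl
  have h2 : ∃ y, P M S (cn y (vl x l)) := ⟨y, h1⟩
  obtain ⟨y', hy'⟩ := ((tpN_eq.1 h) _ (hG1 P hP).ex).1 h2
  exact ⟨y', tpN_of_isol hM (hG1 P hP) (hG2 P hP) (n := l.length + 1) rfl h1
    (by simp [hll]) hy'⟩

theorem rn_back (hM : @Theory.Model L M' S' (@completeTheory L M S)) (hO : Oligo ix N S)
    {x : M} {l : List M} {x' : M'} {l' : List M'} (hll : l.length = l'.length)
    (h : tpN ix N S (vl x l) = tpN ix N S' (vl x' l')) (y' : M') :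
    ∃ y, tpN ix N S (vl x (y :: l)) = tpN ix N S' (vl x' (y' :: l')) := by
  obtain ⟨G, hGf, hG1, hG2, hG3⟩ := hO.cover (l.length + 1)
  obtain ⟨P, hP, h1⟩ : ∃ P ∈ G, P M' S' (vl x' (y' :: l')) := by
    -- the disjunction of the isolating formulas
    have hdis : ∀ G : Set (∀ M : Type, L.Structure M → (ℕ → M) → Prop), G.Finite →
        (∀ P ∈ G, FN ix N P) → FN ix N (fun M S v => ∃ P ∈ G, P M S v) := by
      intro G hG
      induction G, hG using Set.Finite.induction_on with
      | empty => exact fun _ => FN.fls.congr (by simp)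
      | @insert P G _ _ ih =>
        intro h
        refine ((h P (mem_insert _ _)).or (ih fun Q hQ => h Q (mem_insert_of_mem _ hQ))).congr ?_
        intro M S v
        constructor
        · rintro ⟨Q, (rfl | hQ), h2⟩
          · exact Or.inl h2
          · exact Or.inr ⟨Q, hQ, h2⟩
        · rintro (h2 | ⟨Q, hQ, h2⟩)
          · exact ⟨P, mem_insert _ _, h2⟩
          · exact ⟨Q, mem_insert_of_mem _ hQ, h2⟩
    exact transfer_list hM (hdis G hGf hG1) (fun x l hl => hG3 x l hl) x' (y' :: l') (by simp [hll])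
  have h2 : ∃ y, P M' S' (cn y (vl x' l')) := ⟨y', h1⟩
  obtain ⟨y, hy⟩ := ((tpN_eq.1 h) _ (hG1 P hP).ex).2 h2
  exact ⟨y, tpN_of_isol (l := y :: l) (x := x) hM (hG1 P hP) (hG2 P hP) (n := l.length + 1) rfl hy
    (by simp [hll]) h1⟩

theorem vl_append_lt {M : Type} (x : M) (l l' : List M) (i : ℕ) :
    vl x (l' ++ l) (l'.length + i) = vl x l i := by
  induction l' with
  | nil => simp
  | cons y l' ih =>
    rw [List.cons_append, vl_cons, List.length_cons,
      show l'.length + 1 + i = (l'.length + i) + 1 by omega]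
    exact ih

theorem vl_get {M : Type} (x : M) (l : List M) (i : ℕ) (hi : i < l.length) :
    vl x l i = l[i] := by
  induction l generalizing i with
  | nil => simp at hi
  | cons y l ih =>
    cases i with
    | zero => rfl
    | succ i => exact ih i (by simpa using hi)

/-- The theorem. -/
theorem isoN_of_model [Countable M] [Countable M'] [Nonempty M] [Nonempty M']
    (hM : @Theory.Model L M' S' (@completeTheory L M S)) (hO : Oligo ix N S) :
    ∃ F : M ≃ M', IsoN ix S S' N F := by
  classical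
  obtain ⟨x⟩ := (inferInstance : Nonempty M)
  -- the first point
  obtain ⟨x', hx'⟩ : ∃ x' : M', tpN ix N S (vl x []) = tpN ix N S' (vl x' []) := by
    obtain ⟨P, hP1, hP2, hP3⟩ := hO.isol (x := x) (l := []) (n := 0) rfl
    have h1 : ∃ x' : M', P M' S' (vl x' []) := by
      by_contra hcon
      push Not at hcon
      have hn : ¬ ∀ y : M, ¬ P M S (fun _ => y) := fun h => h x hP2
      apply hn
      -- the theory decides the sentence
      intro y hy
      have hM' : @Theory.Model L M S (@completeTheory L M' S') := by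
        refine (@Theory.model_iff L M S _).2 fun φ hφ => ?_
        exact (@realize_iff_of_model_completeTheory L M M' S S' hM φ).1 hφ
      exact hP1.not.transfer S' S hM' (fun z => hcon z) y hy
    obtain ⟨x', h2⟩ := h1
    refine ⟨x', tpN_of_isol hM hP1 (n := 0) ?_ rfl hP2 rfl h2⟩
    intro x1 x2 l1 l2 h3 h4 h5 h6
    rw [hP3 x1 l1 h3 h5, hP3 x2 l2 h4 h6]
  -- the chain
  let P : List (M × M') → Prop := fun t =>
    tpN ix N S (vl x (t.map Prod.fst)) = tpN ix N S' (vl x' (t.map Prod.snd))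
  let le : List (M × M') → List (M × M') → Prop := fun s t => ∃ r, t = r ++ s
  have : Nonempty (M ⊕ M') := ⟨Sum.inl x⟩
  obtain ⟨task, htask⟩ := exists_surjective_nat (M ⊕ M')
  let Rt : (M ⊕ M') → List (M × M') → Prop := fun t s => match t with
    | Sum.inl y => ∃ y', (y, y') ∈ s
    | Sum.inr y' => ∃ y, (y, y') ∈ s
  obtain ⟨f, f0, fP, fle, fR⟩ := exists_chain P le (fun _ => ⟨[], rfl⟩)
    (by rintro a b c ⟨r, rfl⟩ ⟨r', rfl⟩; exact ⟨r' ++ r, by simp⟩) (fun n => Rt (task n)) (by
      intro n s hs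
      rcases task n with y | y'
      · obtain ⟨y', hy'⟩ := rn_forth hM hO (by simp) hs y
        exact ⟨(y, y') :: s, hy', ⟨[(y, y')], rfl⟩, y', by simp⟩
      · obtain ⟨y, hy⟩ := rn_back hM hO (by simp) hs y'
        exact ⟨(y, y') :: s, hy, ⟨[(y, y')], rfl⟩, y, by simp⟩) [] hx'
  have hsub : ∀ m n, m ≤ n → ∀ a ∈ f m, a ∈ f n := by
    intro m n hmn a ha
    obtain ⟨r, hr⟩ := fle m n hmn
    rw [hr]; exact List.mem_append_right _ ha
  have hmem : ∀ t, ∃ n, Rt t (f n) := fun t => by
    obtain ⟨n, hn⟩ := htask t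
    exact ⟨n + 1, hn ▸ fR n⟩
  -- positions
  have hpos : ∀ n, ∀ a ∈ f n, ∃ i, vl x ((f n).map Prod.fst) i = a.1 ∧
      vl x' ((f n).map Prod.snd) i = a.2 := by
    intro n a ha
    obtain ⟨i, hi, rfl⟩ := List.getElem_of_mem ha
    exact ⟨i, by rw [vl_get _ _ _ (by simpa using hi)]; simp,
      by rw [vl_get _ _ _ (by simpa using hi)]; simp⟩
  obtain ⟨F, hF⟩ := equiv_of_graph {a : M × M' | ∃ n, a ∈ f n}
    (fun y => by
      obtain ⟨n, y', h⟩ := hmem (Sum.inl y)
      exact ⟨y', n, h⟩)
    (fun y' => by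
      obtain ⟨n, y, h⟩ := hmem (Sum.inr y')
      exact ⟨y, n, h⟩)
    (by
      rintro a a' b b' ⟨m, hm⟩ ⟨n, hn⟩
      obtain ⟨i, hi1, hi2⟩ := hpos (max m n) _ (hsub m _ (le_max_left _ _) _ hm)
      obtain ⟨j, hj1, hj2⟩ := hpos (max m n) _ (hsub n _ (le_max_right _ _) _ hn)
      have := (tpN_eq.1 (fP (max m n))) _ (FN.eq i j)
      simp only at hi1 hi2 hj1 hj2
      rw [hi1, hi2, hj1, hj2] at this
      exact this)
  refine ⟨F, fun n R v hR => ?_⟩
  obtain ⟨m, hm⟩ : ∃ m, ∀ i, (v i, F (v i)) ∈ f m := by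
    have h1 : ∀ i, ∃ m, (v i, F (v i)) ∈ f m := fun i => (hF (v i) _).1 rfl
    choose g hg using h1
    obtain ⟨m, hm⟩ := (Set.finite_range g).bddAbove
    exact ⟨m, fun i => hsub _ _ (hm ⟨i, rfl⟩) _ (hg i)⟩
  choose p hp1 hp2 using fun i => hpos m _ (hm i)
  have h2 := (tpN_eq.1 (fP m)) _ (FN.relg R hR p)
  simp only at h2 hp1 hp2
  simp only [hp1, hp2] at h2
  exact h2

end Pool.Agent.Y567.MD
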