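import Pool.Agent.Y567.MD.Lim
import Pool.Agent.Y567.MD.RN

/-!
The language of systems.
-/

set_option autoImplicit false

namespace Pool.Agent.Y567.MD

open Set FirstOrder FirstOrder.Language
open Pool.Agent.Y567.MC (tr tr_of_lt tr_of_le tr_eq_top le_tr tr_mono le_tr_iff)

/-- Relation symbols. -/
inductive Rl (ar : ℕ → ℕ) : ℕ → Type
  | U (n : ℕ) : Rl ar 1
  | P (k n : ℕ) : Rl ar 1
  | V : Rl ar 1
  | Lt : Rl ar 2
  | D (k : ℕ) : Rl ar 3
  | E : Rl ar 3
  | Q (k : ℕ) : Rl ar (ar k + 1)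

/-- The language. -/
def Lg (ar : ℕ → ℕ) : FirstOrder.Language.{0, 0} := ⟨fun _ => Empty, Rl ar⟩

/-- The number of a symbol. -/
def idx (ar : ℕ → ℕ) : ∀ n, (Lg ar).Relations n → ℕ
  | _, .U n => n
  | _, .P k n => max k n
  | _, .V => 0
  | _, .Lt => 0
  | _, .D k => k
  | _, .E => 0
  | _, .Q k => k

instance (ar : ℕ → ℕ) : (Lg ar).IsRelational := fun _ => inferInstanceAs (IsEmpty Empty)

/-- an injection of the symbols into a countable type -/
def codeRl (ar : ℕ → ℕ) : (Σ n, Rl ar n) → ℕ × ℕ × ℕ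
  | ⟨_, .U n⟩ => (0, n, 0)
  | ⟨_, .P k n⟩ => (1, k, n)
  | ⟨_, .V⟩ => (2, 0, 0)
  | ⟨_, .Lt⟩ => (3, 0, 0)
  | ⟨_, .D k⟩ => (4, k, 0)
  | ⟨_, .E⟩ => (5, 0, 0)
  | ⟨_, .Q k⟩ => (6, k, 0)

theorem codeRl_inj (ar : ℕ → ℕ) : Function.Injective (codeRl ar) := by
  rintro ⟨n, r⟩ ⟨m, q⟩ h
  cases r <;> cases q <;> simp only [codeRl, Prod.mk.injEq] at h <;> first
    | rfl
    | (obtain ⟨h1, h2, h3⟩ := h; first | (exact absurd h1 (by decide)) | (subst h2; subst h3; rfl) | (subst h2; rfl))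

instance (ar : ℕ → ℕ) : Countable (Lg ar).Symbols := by
  have : Countable (Σ n, (Lg ar).Relations n) := (codeRl_inj ar).countable
  have : Countable (Σ n, (Lg ar).Functions n) := by
    have : IsEmpty (Σ n, (Lg ar).Functions n) := ⟨fun ⟨_, f⟩ => (f : Empty).elim⟩
    infer_instance
  unfold FirstOrder.Language.Symbols
  infer_instance

/-- interpretation of a relation symbol in a structure -/
abbrev rm {ar : ℕ → ℕ} {M : Type} (S : (Lg ar).Structure M) {n : ℕ} (R : Rl ar n)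
    (v : Fin n → M) : Prop :=
  @Structure.RelMap (Lg ar) M S n R v

variable {p : Par} {L : ℕ∞} {H Z W H' Z' W' : Type} [LinearOrder H] [LinearOrder H']

/-- relations of the structure of a system, with isolated points `J` -/
def rel (S : Sy p L H Z W) (J : Type) : {n : ℕ} → Rl p.ar n → (Fin n → H ⊕ Z ⊕ W ⊕ J) → Prop
  | _, .U n, v => ∃ x, v 0 = .inl x ∧ (n : ℕ∞) ≤ S.c x
  | _, .P k n, v => ∃ z, v 0 = .inr (.inl z) ∧ S.lev z = k ∧ (n : ℕ∞) ≤ S.cz z
  | _, .V, v => ∃ w, v 0 = .inr (.inr (.inl w))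
  | _, .Lt, v => ∃ x y, v 0 = .inl x ∧ v 1 = .inl y ∧ x < y
  | _, .D k, v => ∃ z w x, v 0 = .inr (.inl z) ∧ v 1 = .inr (.inl w) ∧ v 2 = .inl x ∧
      S.lev z = k ∧ S.lev w = k ∧ z ≠ w ∧ S.s z w = x
  | _, .E, v => p.con ∧ ∃ f g x, v 0 = .inr (.inr (.inl f)) ∧ v 1 = .inr (.inr (.inl g)) ∧
      v 2 = .inl x ∧ f ≠ g ∧ S.u f g = x
  | _, .Q k, v => ∃ z, ∃ a : Fin (p.ar k) → W, v (Fin.last _) = .inr (.inl z) ∧
      (∀ i, v i.castSucc = .inr (.inr (.inl (a i)))) ∧ S.lev z = k ∧ S.r z (List.ofFn a)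

/-- the structure of a system -/
@[instance_reducible] def str (S : Sy p L H Z W) (J : Type) : (Lg p.ar).Structure (H ⊕ Z ⊕ W ⊕ J) where
  funMap := fun f _ => (f : Empty).elim
  RelMap := fun R v => rel S J R v

/-- Truncated system: the colours `≥ N` are identified with `⊤`. -/
noncomputable def Sy.trunc (S : Sy p ⊤ H Z W) (N : ℕ) : Sy p N H Z W where
  c := fun x => tr N (S.c x)
  lev := S.lev
  cz := fun z => tr N (S.cz z)
  s := S.s
  d := S.d
  u := S.u
  r := S.r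
  c_mono := fun x y h => tr_mono (S.c_mono h)
  s_comm := S.s_comm
  ultra := S.ultra
  s_top := fun z w h1 h2 h3 h4 => by
    rw [tr_eq_top] at h3 h4 ⊢
    exact (le_min h3 h4).trans (S.cs_ge h1 h2)
  s_d := fun z w h1 h2 h3 => by
    refine S.s_eq_d h1 (lt_of_lt_of_le ?_ (tr_eq_top.1 h3))
    by_contra hn
    exact h2 (tr_of_le (not_lt.1 hn))
  c_d := fun z h => by
    have : S.cz z ≠ ⊤ := fun h1 => h (by rw [h1]; exact tr_of_le le_top)
    rw [S.c_d z this]
  d1 := fun z w h1 h2 h3 h4 => by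
    refine S.d1 z w h1 h2 (fun h => h3 ?_) (fun h => h4 ?_) <;> rw [h] <;> exact tr_of_le le_top
  d2 := fun z w h1 h2 h3 h4 => by
    refine S.d2 z w h1 h2 (fun h => h3 ?_) (fun h => h4 ?_) <;> rw [h] <;> exact tr_of_le le_top
  unb := fun k x _ hx => by
    have h1 : S.c x < N := by
      by_contra hn
      exact hx (tr_of_le (not_lt.1 hn))
    obtain ⟨z, h2, h3⟩ := S.unb k x (ENat.natCast_lt_top _) (ne_top_of_lt h1)
    exact ⟨z, h2, by rw [tr_of_lt h1]; exact h3.trans_le le_tr⟩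
  u_comm := S.u_comm
  u_ultra := S.u_ultra
  r_u := fun hcon z f g _ hne hle => S.r_u hcon z f g (ENat.natCast_lt_top _) hne (le_tr.trans hle)
  ext := fun a q F ha hF h1 V hV η hη => S.ext a q F (ENat.natCast_lt_top _) hF h1 V hV η
    (fun hcon f hf g hg hne hle => hη hcon f hf g hg hne (by
      rw [tr_of_lt (lt_of_le_of_lt hle ha)]; exact hle))
  extW := fun f0 q V hV hf0 hV2 G hG hGL η hη => S.extW f0 q V hV hf0 hV2 G hG
    (fun z _ => ENat.natCast_lt_top _) η (fun hcon z hz hle => hη hcon z hz (by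
      rw [tr_of_lt (lt_of_le_of_lt hle (hGL z hz))]; exact hle))

/-- What is needed for preservation of the symbols of number less than `N`. -/
structure RIso {L L' : ℕ∞} (S : Sy p L H Z W) (S' : Sy p L' H' Z' W') (f : H ≃ H') (g : Z ≃ Z')
    (e : W ≃ W') (N : ℕ∞) : Prop where
  ord : ∀ x y, x < y ↔ f x < f y
  c : ∀ x (n : ℕ), (n : ℕ∞) < N → ((n : ℕ∞) ≤ S.c x ↔ (n : ℕ∞) ≤ S'.c (f x))
  lev : ∀ z (k : ℕ), (k : ℕ∞) < N → (S.lev z = k ↔ S'.lev (g z) = k)
  cz : ∀ z (n : ℕ), (n : ℕ∞) < N → (S.lev z : ℕ∞) < N →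
    ((n : ℕ∞) ≤ S.cz z ↔ (n : ℕ∞) ≤ S'.cz (g z))
  s : ∀ z w, (S.lev z : ℕ∞) < N → S.lev z = S.lev w → z ≠ w → f (S.s z w) = S'.s (g z) (g w)
  u : p.con → ∀ v w, v ≠ w → f (S.u v w) = S'.u (e v) (e w)
  r : ∀ z, (S.lev z : ℕ∞) < N → ∀ l : List W, l.length = p.ar (S.lev z) →
    (S.r z l ↔ S'.r (g z) (l.map e))

/-- the bijection of the universes -/
def bij {J J' : Type} (f : H ≃ H') (g : Z ≃ Z') (e : W ≃ W') (j : J ≃ J') :
    H ⊕ Z ⊕ W ⊕ J ≃ H' ⊕ Z' ⊕ W' ⊕ J' :=
  Equiv.sumCongr f (Equiv.sumCongr g (Equiv.sumCongr e j))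

theorem RIso.rel_iff {L L' : ℕ∞} {S : Sy p L H Z W} {S' : Sy p L' H' Z' W'} {f : H ≃ H'}
    {g : Z ≃ Z'} {e : W ≃ W'} {N : ℕ∞}
    (r : RIso S S' f g e N) {J J' : Type} (j : J ≃ J') {n : ℕ} (R : Rl p.ar n)
    (v : Fin n → H ⊕ Z ⊕ W ⊕ J) (hR : (idx p.ar n R : ℕ∞) < N) :
    rel S J R v ↔ rel S' J' R (bij f g e j ∘ v) := by
  cases R with
  | U n =>
    simp only [rel, Function.comp]
    rcases v 0 with x | z | x | x <;> simp [bij]
    exact r.c x n hR
  | P k n =>
    have hk : (k : ℕ∞) < N := lt_of_le_of_lt (by exact_mod_cast le_max_left k n) hR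
    have hn : (n : ℕ∞) < N := lt_of_le_of_lt (by exact_mod_cast le_max_right k n) hR
    simp only [rel, Function.comp]
    rcases v 0 with x | z | x | x <;> simp [bij]
    rw [← r.lev z k hk]
    refine and_congr_right fun h => ?_
    exact r.cz z n hn (by rw [h]; exact hk)
  | V =>
    simp only [rel, Function.comp]
    rcases v 0 with x | z | x | x <;> simp [bij]
  | Lt =>
    simp only [rel, Function.comp]
    rcases v 0 with x | z | x | x <;> rcases v 1 with y | z' | y | y <;> simp [bij]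
    exact r.ord x y
  | D k =>
    simp only [idx] at hR
    simp only [rel, Function.comp]
    rcases v 0 with x | z | x | x <;> rcases v 1 with y | z' | y | y <;>
      rcases v 2 with x' | z'' | x' | x' <;> simp [bij]
    rw [← r.lev z k hR, ← r.lev z' k hR]
    refine and_congr_left fun ⟨h, h', hne⟩ => ?_
    rw [← r.s z z' (by rw [h]; exact hR) (h.trans h'.symm) hne, f.injective.eq_iff]
  | E =>
    simp only [rel, Function.comp]
    rcases v 0 with x | z | x | x <;> rcases v 1 with y | z' | y | y <;>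
      rcases v 2 with x' | z'' | x' | x' <;> simp [bij]
    intro hcon hne
    rw [← r.u hcon x y hne, f.injective.eq_iff]
  | Q k =>
    simp only [idx] at hR
    simp only [rel, Function.comp]
    constructor
    · rintro ⟨z, a, h1, h2, h3, h4⟩
      refine ⟨g z, e ∘ a, by rw [h1]; rfl, fun i => by rw [h2]; rfl, ?_, ?_⟩
      · exact (r.lev z k hR).1 h3
      · have h5 := (r.r z (by rw [h3]; exact hR) (List.ofFn a) (by simp [h3])).1 h4
        rwa [List.map_ofFn] at h5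
    · rintro ⟨z', a', h1, h2, h3, h4⟩
      obtain ⟨z, hz⟩ : ∃ z, v (Fin.last _) = .inr (.inl z) := by
        rcases hv : v (Fin.last _) with x | z | x | x <;> rw [hv] at h1 <;> simp [bij] at h1
        exact ⟨z, rfl⟩
      have ha : ∀ i : Fin (p.ar k), ∃ w, v i.castSucc = .inr (.inr (.inl w)) := by
        intro i
        have h5 := h2 i
        rcases hv : v i.castSucc with x | z | x | x <;> rw [hv] at h5 <;> simp [bij] at h5
        exact ⟨x, rfl⟩
      choose a ha using ha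
      have hz' : g z = z' := by
        rw [hz] at h1
        simpa [bij] using h1
      have haa : e ∘ a = a' := by
        ext i
        have h5 := h2 i
        rw [ha i] at h5
        simpa [bij] using h5
      subst hz'
      subst haa
      have hl : S.lev z = k := (r.lev z k hR).2 h3
      refine ⟨z, a, hz, ha, hl, ?_⟩
      rw [r.r z (by rw [hl]; exact hR) (List.ofFn a) (by simp [hl]), List.map_ofFn]
      exact h4

theorem Iso.rIso {S : Sy p ⊤ H Z W} {S' : Sy p ⊤ H' Z' W'} {f : H ≃ H'} {g : Z ≃ Z'}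
    {e : W ≃ W'} (i : Iso S S' f g e) : RIso S S' f g e ⊤ where
  ord := i.ord
  c := fun x n _ => by rw [i.c x]
  lev := fun z k _ => by rw [i.lev z (ENat.natCast_lt_top _)]
  cz := fun z n _ _ => by rw [i.cz z (ENat.natCast_lt_top _)]
  s := fun z w _ h => i.s z w (ENat.natCast_lt_top _) h
  u := i.u
  r := fun z _ l hl => i.r z (ENat.natCast_lt_top _) l hl

theorem Iso.rIso_trunc {S : Sy p ⊤ H Z W} {S' : Sy p ⊤ H' Z' W'} {f : H ≃ H'} {g : Z ≃ Z'}
    {e : W ≃ W'} {N : ℕ} (i : Iso (S.trunc N) (S'.trunc N) f g e) :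
    RIso S S' f g e N where
  ord := i.ord
  c := fun x n hn => by
    have hn' : n ≤ N := by exact_mod_cast hn.le
    rw [← le_tr_iff hn', ← le_tr_iff (c := S'.c (f x)) hn']
    have := i.c x
    change tr N (S.c x) = tr N (S'.c (f x)) at this
    rw [this]
  lev := fun z k hk => by
    have hk' : k < N := by exact_mod_cast hk
    have h1 := i.low z
    have h2 := i.lev z
    change ((S.lev z : ℕ∞) < (N : ℕ) ↔ (S'.lev (g z) : ℕ∞) < (N : ℕ)) at h1
    change ((S.lev z : ℕ∞) < (N : ℕ) → S.lev z = S'.lev (g z)) at h2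
    rw [Nat.cast_lt, Nat.cast_lt] at h1
    rw [Nat.cast_lt] at h2
    constructor
    · intro h; rw [← h2 (by omega)]; exact h
    · intro h; rw [h2 (h1.2 (by omega))]; exact h
  cz := fun z n hn hz => by
    have hn' : n ≤ N := by exact_mod_cast hn.le
    rw [← le_tr_iff hn', ← le_tr_iff (c := S'.cz (g z)) hn']
    have := i.cz z hz
    change tr N (S.cz z) = tr N (S'.cz (g z)) at this
    rw [this]
  s := fun z w hz h => i.s z w hz h
  u := i.u
  r := fun z hz l hl => i.r z hz l hl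

end Pool.Agent.Y567.MD
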