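import Pool.Agent.Y567.MD.Step

/-!
The limit of the back and forth construction.
-/

set_option autoImplicit false

namespace Pool.Agent.Y567.MD

open Set
open Pool.Agent.Y567.MC (Col Match AG exists_chain equiv_of_graph)

variable {p : Par} {L : ℕ∞} {H Z W H' Z' W' ι : Type} [LinearOrder H] [LinearOrder H']

variable {S : Sy p L H Z W} {S' : Sy p L H' Z' W'} {ρ : H → ι} {ρ' : H' → ι} {sg : ι → Prop}
  {B0 : Set (Z × Z')} {Θ : Set (W × W')} {A : Set (H × H')} {B : Set (Z × Z')} {C : Set (W × W')}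

theorem back_forth [Countable H] [Countable Z] [Countable H'] [Countable Z'] [Countable W]
    [Countable W'] (m : Match ρ ρ' sg) (hρ : ∀ x x', ρ x = ρ' x' → S.c x = S'.c x')
    (hB0 : ∀ k, {a ∈ B0 | S.lev a.1 = k}.Finite)
    (hT : ∀ z, (S.lev z : ℕ∞) < L → S.cz z = ⊤ → (∃ z', (z, z') ∈ B0) ∨ TopE S' (S.lev z))
    (hT' : ∀ z', (S'.lev z' : ℕ∞) < L → S'.cz z' = ⊤ → (∃ z, (z, z') ∈ B0) ∨ TopE S (S'.lev z'))
    (hW : ∀ A B C, Inv S S' ρ ρ' B0 Θ A B C → ∀ w, ∃ A' C', A ⊆ A' ∧ C ⊆ C' ∧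
      Inv S S' ρ ρ' B0 Θ A' B C' ∧ ∃ w', (w, w') ∈ C')
    (hW' : ∀ A B C, Inv S S' ρ ρ' B0 Θ A B C → ∀ w', ∃ A' C', A ⊆ A' ∧ C ⊆ C' ∧
      Inv S S' ρ ρ' B0 Θ A' B C' ∧ ∃ w, (w, w') ∈ C')
    (h0 : Inv S S' ρ ρ' B0 Θ A B C) :
    ∃ (A' : Set (H × H')) (B' : Set (Z × Z')) (C' : Set (W × W')), A ⊆ A' ∧ B ⊆ B' ∧ C ⊆ C' ∧
      AG ρ ρ' A' ∧ BG S S' A' B' ∧ WG S S' A' C' ∧ RG S S' B' C' ∧ C' ⊆ Θ ∧
      (∀ x, ∃ x', (x, x') ∈ A') ∧ (∀ x', ∃ x, (x, x') ∈ A') ∧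
      (∀ z, (S.lev z : ℕ∞) < L → ∃ z', (z, z') ∈ B') ∧
      (∀ z', (S'.lev z' : ℕ∞) < L → ∃ z, (z, z') ∈ B') ∧
      (∀ w, ∃ w', (w, w') ∈ C') ∧ (∀ w', ∃ w, (w, w') ∈ C') := by
  classical
  obtain ⟨⟨w0, w0'⟩, hw0⟩ := h0.cn
  have : Nonempty ((H ⊕ H') ⊕ (Z ⊕ Z') ⊕ (W ⊕ W')) := ⟨Sum.inr (Sum.inr (Sum.inl w0))⟩
  obtain ⟨task, htask⟩ := exists_surjective_nat ((H ⊕ H') ⊕ (Z ⊕ Z') ⊕ (W ⊕ W'))
  let P : Set (H × H') × Set (Z × Z') × Set (W × W') → Prop := fun p =>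
    Inv S S' ρ ρ' B0 Θ p.1 p.2.1 p.2.2
  let le : Set (H × H') × Set (Z × Z') × Set (W × W') →
      Set (H × H') × Set (Z × Z') × Set (W × W') → Prop := fun p q =>
    p.1 ⊆ q.1 ∧ p.2.1 ⊆ q.2.1 ∧ p.2.2 ⊆ q.2.2
  let Rt : ((H ⊕ H') ⊕ (Z ⊕ Z') ⊕ (W ⊕ W')) →
      Set (H × H') × Set (Z × Z') × Set (W × W') → Prop := fun t p => match t with
    | Sum.inl (Sum.inl x) => ∃ x', (x, x') ∈ p.1
    | Sum.inl (Sum.inr x') => ∃ x, (x, x') ∈ p.1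
    | Sum.inr (Sum.inl (Sum.inl z)) => (S.lev z : ℕ∞) < L → ∃ z', (z, z') ∈ p.2.1
    | Sum.inr (Sum.inl (Sum.inr z')) => (S'.lev z' : ℕ∞) < L → ∃ z, (z, z') ∈ p.2.1
    | Sum.inr (Sum.inr (Sum.inl w)) => ∃ w', (w, w') ∈ p.2.2
    | Sum.inr (Sum.inr (Sum.inr w')) => ∃ w, (w, w') ∈ p.2.2
  have hB0' : ∀ k, {a ∈ Prod.swap ⁻¹' B0 | S'.lev a.1 = k}.Finite := by
    intro k
    refine ((hB0 k).image Prod.swap).subset ?_
    rintro ⟨z', z⟩ ⟨h1, h2⟩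
    refine ⟨(z, z'), ⟨h1, ?_⟩, rfl⟩
    rw [← h2]
    exact h0.bg.lev (h0.sub h1)
  have hstep : ∀ t p, P p → ∃ q, P q ∧ le p q ∧ Rt t q := by
    rintro t ⟨A1, B1, C1⟩ h1
    rcases t with (x | x') | (z | z') | (w | w')
    · obtain ⟨x', hx'⟩ := Inv.extH h1 m x
      exact ⟨(insert (x, x') A1, B1, C1), hx', ⟨subset_insert _ _, subset_rfl, subset_rfl⟩,
        x', mem_insert _ _⟩
    · obtain ⟨x, hx⟩ := Inv.extH (Inv.swap h1) m.symm x'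
      have h5 : Prod.swap ⁻¹' (insert (x', x) (Prod.swap ⁻¹' A1)) = insert (x, x') A1 := by
        ext ⟨a, b⟩
        simp [Prod.ext_iff, and_comm]
      have hx2 := hx.swap
      simp only [swap_swap_set] at hx2
      rw [h5] at hx2
      exact ⟨(insert (x, x') A1, B1, C1), hx2, ⟨subset_insert _ _, subset_rfl, subset_rfl⟩,
        x, mem_insert _ _⟩
    · by_cases hL : (S.lev z : ℕ∞) < L
      · obtain ⟨A2, B2, q1, q2, q3, q4⟩ := Inv.extZ h1 m hρ hB0 z hL (hT z hL)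
        exact ⟨(A2, B2, C1), q3, ⟨q1, q2, subset_rfl⟩, fun _ => q4⟩
      · exact ⟨(A1, B1, C1), h1, ⟨subset_rfl, subset_rfl, subset_rfl⟩, fun h => absurd h hL⟩
    · by_cases hL : (S'.lev z' : ℕ∞) < L
      · obtain ⟨A2, B2, q1, q2, q3, ⟨z, q4⟩⟩ := Inv.extZ (Inv.swap h1) m.symm
          (fun x x' h => (hρ x' x h.symm).symm) hB0' z' hL (hT' z' hL)
        have q3' := q3.swap
        simp only [swap_swap_set] at q3'
        exact ⟨(Prod.swap ⁻¹' A2, Prod.swap ⁻¹' B2, C1), q3',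
          ⟨fun p hp => q1 (by simpa using hp), fun p hp => q2 (by simpa using hp), subset_rfl⟩,
          fun _ => ⟨z, q4⟩⟩
      · exact ⟨(A1, B1, C1), h1, ⟨subset_rfl, subset_rfl, subset_rfl⟩, fun h => absurd h hL⟩
    · obtain ⟨A2, C2, q1, q2, q3, q4⟩ := hW _ _ _ h1 w
      exact ⟨(A2, B1, C2), q3, ⟨q1, subset_rfl, q2⟩, q4⟩
    · obtain ⟨A2, C2, q1, q2, q3, q4⟩ := hW' _ _ _ h1 w'
      exact ⟨(A2, B1, C2), q3, ⟨q1, subset_rfl, q2⟩, q4⟩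
  obtain ⟨f, f0, fP, fle, fR⟩ := exists_chain P le (fun _ => ⟨subset_rfl, subset_rfl, subset_rfl⟩)
    (fun _ _ _ h1 h2 => ⟨h1.1.trans h2.1, h1.2.1.trans h2.2.1, h1.2.2.trans h2.2.2⟩)
    (fun n => Rt (task n)) (fun n p hp => hstep _ p hp) (A, B, C) h0
  have hdir : ∀ {i j : ℕ}, le (f i) (f (max i j)) ∧ le (f j) (f (max i j)) :=
    ⟨fle _ _ (le_max_left _ _), fle _ _ (le_max_right _ _)⟩
  have hmem : ∀ t, ∃ n, Rt t (f n) := fun t => by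
    obtain ⟨n, hn⟩ := htask t
    exact ⟨n + 1, hn ▸ fR n⟩
  refine ⟨⋃ n, (f n).1, ⋃ n, (f n).2.1, ⋃ n, (f n).2.2, ?_, ?_, ?_, ⟨?_, ?_⟩,
    ⟨?_, ?_, ?_, ?_, ?_, ?_⟩, ⟨?_, ?_⟩, ?_, ?_, ?_, ?_, ?_, ?_, ?_, ?_⟩
  · have : A = (f 0).1 := by rw [f0]
    rw [this]; exact subset_iUnion (fun n => (f n).1) 0
  · have : B = (f 0).2.1 := by rw [f0]
    rw [this]; exact subset_iUnion (fun n => (f n).2.1) 0
  · have : C = (f 0).2.2 := by rw [f0]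
    rw [this]; exact subset_iUnion (fun n => (f n).2.2) 0
  · intro x x' y y' h1 h2
    obtain ⟨i, hi⟩ := mem_iUnion.1 h1
    obtain ⟨j, hj⟩ := mem_iUnion.1 h2
    exact (fP (max i j)).ag.ord (hdir.1.1 hi) (hdir.2.1 hj)
  · intro x x' h1
    obtain ⟨i, hi⟩ := mem_iUnion.1 h1
    exact (fP i).ag.lab hi
  · intro z z' w w' h1 h2
    obtain ⟨i, hi⟩ := mem_iUnion.1 h1
    obtain ⟨j, hj⟩ := mem_iUnion.1 h2
    exact (fP (max i j)).bg.inj (hdir.1.2.1 hi) (hdir.2.2.1 hj)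
  · intro z z' h1
    obtain ⟨i, hi⟩ := mem_iUnion.1 h1
    exact (fP i).bg.low hi
  · intro z z' h1
    obtain ⟨i, hi⟩ := mem_iUnion.1 h1
    exact (fP i).bg.lev hi
  · intro z z' h1
    obtain ⟨i, hi⟩ := mem_iUnion.1 h1
    exact (fP i).bg.cz hi
  · intro z z' h1 h2
    obtain ⟨i, hi⟩ := mem_iUnion.1 h1
    exact mem_iUnion.2 ⟨i, (fP i).bg.d hi h2⟩
  · intro z z' w w' h1 h2 h3 h4
    obtain ⟨i, hi⟩ := mem_iUnion.1 h1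
    obtain ⟨j, hj⟩ := mem_iUnion.1 h2
    exact mem_iUnion.2 ⟨_, (fP (max i j)).bg.s (hdir.1.2.1 hi) (hdir.2.2.1 hj) h3 h4⟩
  · intro z z' w w' h1 h2
    obtain ⟨i, hi⟩ := mem_iUnion.1 h1
    obtain ⟨j, hj⟩ := mem_iUnion.1 h2
    exact (fP (max i j)).wg.inj (hdir.1.2.2 hi) (hdir.2.2.2 hj)
  · intro hcon z z' w w' h1 h2 h4
    obtain ⟨i, hi⟩ := mem_iUnion.1 h1
    obtain ⟨j, hj⟩ := mem_iUnion.1 h2
    exact mem_iUnion.2 ⟨_, (fP (max i j)).wg.u hcon (hdir.1.2.2 hi) (hdir.2.2.2 hj) h4⟩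
  · intro z z' h1 l hl hlen
    obtain ⟨i, hi⟩ := mem_iUnion.1 h1
    obtain ⟨j, hj⟩ : ∃ j, ∀ x ∈ l, x ∈ (f j).2.2 := by
      clear hlen
      induction l with
      | nil => exact ⟨0, by simp⟩
      | cons x l ih =>
        obtain ⟨j1, hj1⟩ := ih (fun y hy => hl y (by simp [hy]))
        obtain ⟨j2, hj2⟩ := mem_iUnion.1 (hl x (by simp))
        refine ⟨max j2 j1, ?_⟩
        intro y hy
        rcases List.mem_cons.1 hy with rfl | hy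
        · exact hdir.1.2.2 hj2
        · exact hdir.2.2.2 (hj1 y hy)
    exact (fP (max i j)).rg z z' (hdir.1.2.1 hi) l (fun x hx => hdir.2.2.2 (hj x hx)) hlen
  · exact iUnion_subset fun n => (fP n).ct
  · intro x
    obtain ⟨n, x', hn⟩ := hmem (Sum.inl (Sum.inl x))
    exact ⟨x', mem_iUnion.2 ⟨n, hn⟩⟩
  · intro x'
    obtain ⟨n, x, hn⟩ := hmem (Sum.inl (Sum.inr x'))
    exact ⟨x, mem_iUnion.2 ⟨n, hn⟩⟩
  · intro z hz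
    obtain ⟨n, hn⟩ := hmem (Sum.inr (Sum.inl (Sum.inl z)))
    obtain ⟨z', hz'⟩ := hn hz
    exact ⟨z', mem_iUnion.2 ⟨n, hz'⟩⟩
  · intro z' hz'
    obtain ⟨n, hn⟩ := hmem (Sum.inr (Sum.inl (Sum.inr z')))
    obtain ⟨z, hz⟩ := hn hz'
    exact ⟨z, mem_iUnion.2 ⟨n, hz⟩⟩
  · intro w
    obtain ⟨n, w', hn⟩ := hmem (Sum.inr (Sum.inr (Sum.inl w)))
    exact ⟨w', mem_iUnion.2 ⟨n, hn⟩⟩
  · intro w'
    obtain ⟨n, w, hn⟩ := hmem (Sum.inr (Sum.inr (Sum.inr w')))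
    exact ⟨w, mem_iUnion.2 ⟨n, hn⟩⟩

/-- Isomorphism of two systems below level `L`. -/
structure Iso (S : Sy p L H Z W) (S' : Sy p L H' Z' W') (f : H ≃ H') (g : Z ≃ Z') (e : W ≃ W') :
    Prop where
  ord : ∀ x y, x < y ↔ f x < f y
  c : ∀ x, S.c x = S'.c (f x)
  low : ∀ z, (S.lev z : ℕ∞) < L ↔ (S'.lev (g z) : ℕ∞) < L
  lev : ∀ z, (S.lev z : ℕ∞) < L → S.lev z = S'.lev (g z)
  cz : ∀ z, (S.lev z : ℕ∞) < L → S.cz z = S'.cz (g z)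
  s : ∀ z w, (S.lev z : ℕ∞) < L → S.lev z = S.lev w → z ≠ w → f (S.s z w) = S'.s (g z) (g w)
  u : p.con → ∀ v w, v ≠ w → f (S.u v w) = S'.u (e v) (e w)
  r : ∀ z, (S.lev z : ℕ∞) < L → ∀ l : List W, l.length = p.ar (S.lev z) →
    (S.r z l ↔ S'.r (g z) (l.map e))

/-- The isomorphism as a triple of bijections. -/
theorem exists_iso [Countable H] [Countable Z] [Countable H'] [Countable Z'] [Countable W]
    [Countable W'] (m : Match ρ ρ' sg) (hρ : ∀ x x', ρ x = ρ' x' → S.c x = S'.c x')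
    (hB0 : ∀ k, {a ∈ B0 | S.lev a.1 = k}.Finite)
    (hT : ∀ z, (S.lev z : ℕ∞) < L → S.cz z = ⊤ → (∃ z', (z, z') ∈ B0) ∨ TopE S' (S.lev z))
    (hT' : ∀ z', (S'.lev z' : ℕ∞) < L → S'.cz z' = ⊤ → (∃ z, (z, z') ∈ B0) ∨ TopE S (S'.lev z'))
    (hW : ∀ A B C, Inv S S' ρ ρ' B0 Θ A B C → ∀ w, ∃ A' C', A ⊆ A' ∧ C ⊆ C' ∧
      Inv S S' ρ ρ' B0 Θ A' B C' ∧ ∃ w', (w, w') ∈ C')
    (hW' : ∀ A B C, Inv S S' ρ ρ' B0 Θ A B C → ∀ w', ∃ A' C', A ⊆ A' ∧ C ⊆ C' ∧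
      Inv S S' ρ ρ' B0 Θ A' B C' ∧ ∃ w, (w, w') ∈ C')
    (w : {z : Z // ¬ (S.lev z : ℕ∞) < L} ≃ {z : Z' // ¬ (S'.lev z : ℕ∞) < L})
    (h0 : Inv S S' ρ ρ' B0 Θ A B C) :
    ∃ (f : H ≃ H') (g : Z ≃ Z') (e : W ≃ W'), Iso S S' f g e ∧
      (∀ x x', (x, x') ∈ A → f x = x') ∧
      (∀ z z', (z, z') ∈ B → (S.lev z : ℕ∞) < L → g z = z') ∧
      (∀ w w', (w, w') ∈ C → e w = w') ∧ (∀ w, (w, e w) ∈ Θ) ∧ ∀ z hz, g z = (w ⟨z, hz⟩).1 := by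
  classical
  obtain ⟨A', B', C', h1, h2, h2', h3, h4, h4', h4'', hΘ, h5, h6, h7, h8, h9, h10⟩ :=
    back_forth m hρ hB0 hT hT' hW hW' h0
  obtain ⟨f, hf⟩ := equiv_of_graph A' h5 h6 (fun a b => h3.eq_iff a b)
  obtain ⟨e, he⟩ := equiv_of_graph C' h9 h10 (fun a b => h4'.inj a b)
  obtain ⟨g0, hg0⟩ := equiv_of_graph
    (X := {z : Z // (S.lev z : ℕ∞) < L}) (Y := {z : Z' // (S'.lev z : ℕ∞) < L})
    {p | (p.1.1, p.2.1) ∈ B'}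
    (fun z => by
      obtain ⟨z', hz'⟩ := h7 z.1 z.2
      exact ⟨⟨z', by rw [← h4.lev hz']; exact z.2⟩, hz'⟩)
    (fun z' => by
      obtain ⟨z, hz⟩ := h8 z'.1 z'.2
      exact ⟨⟨z, by rw [h4.lev hz]; exact z'.2⟩, hz⟩)
    (fun {x y x' y'} a b => by
      rw [Subtype.ext_iff, Subtype.ext_iff]; exact h4.inj a b)
  let g : Z ≃ Z' := (Equiv.sumCompl (fun z : Z => (S.lev z : ℕ∞) < L)).symm.trans
    ((Equiv.sumCongr g0 w).trans (Equiv.sumCompl (fun z : Z' => (S'.lev z : ℕ∞) < L)))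
  have hg : ∀ z (hz : (S.lev z : ℕ∞) < L), g z = (g0 ⟨z, hz⟩).1 := by
    intro z hz
    simp [g, Equiv.sumCompl_symm_apply_of_pos, hz]
  have hg' : ∀ z (hz : ¬ (S.lev z : ℕ∞) < L), g z = (w ⟨z, hz⟩).1 := by
    intro z hz
    simp [g, Equiv.sumCompl_symm_apply_of_neg, hz]
  have hgB : ∀ z, (S.lev z : ℕ∞) < L → (z, g z) ∈ B' := by
    intro z hz
    rw [hg z hz]
    exact (hg0 ⟨z, hz⟩ (g0 ⟨z, hz⟩)).1 rfl
  have hBg : ∀ z z', (S.lev z : ℕ∞) < L → (z, z') ∈ B' → g z = z' := fun z z' hz hzz =>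
    (h4.inj (hgB z hz) hzz).1 rfl
  have hAf' : ∀ x x', (x, x') ∈ A' → f x = x' := fun x x' h => (hf x x').2 h
  have hfA : ∀ x, (x, f x) ∈ A' := fun x => (hf x (f x)).1 rfl
  have heC : ∀ x, (x, e x) ∈ C' := fun x => (he x (e x)).1 rfl
  refine ⟨f, g, e, ⟨fun x y => h3.ord (hfA x) (hfA y), fun x => hρ _ _ (h3.lab (hfA x)), ?_,
    fun z hz => h4.lev (hgB z hz), fun z hz => h4.cz (hgB z hz), ?_, ?_, ?_⟩,
    fun x x' h => hAf' x x' (h1 h), fun z z' h hz => hBg z z' hz (h2 h),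
    fun x x' h => (he x x').2 (h2' h), fun x => hΘ (heC x), hg'⟩
  · intro z
    constructor
    · intro hz
      rw [hg z hz]
      exact (g0 ⟨z, hz⟩).2
    · intro hz
      by_contra hn
      rw [hg' z hn] at hz
      exact (w ⟨z, hn⟩).2 hz
  · intro z w' hz hl hne
    exact hAf' _ _ (h4.s (hgB z hz) (hgB w' (by rw [← hl]; exact hz)) hl hne)
  · intro hcon v v' hne
    exact hAf' _ _ (h4'.u hcon (heC v) (heC v') hne)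
  · intro z hz l hl
    have h11 := h4'' z (g z) (hgB z hz) (l.map fun x => (x, e x)) (by
      intro x hx
      obtain ⟨y, -, rfl⟩ := List.mem_map.1 hx
      exact heC y) (by rw [List.length_map]; exact hl)
    rw [List.map_map, List.map_map] at h11
    have e1 : (Prod.fst ∘ fun x => (x, e x)) = (id : W → W) := rfl
    have e2 : (Prod.snd ∘ fun x => (x, e x)) = (e : W → W') := rfl
    rw [e1, e2, List.map_id] at h11
    exact h11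

end Pool.Agent.Y567.MD
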