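import Pool.Agent.Y567.MD.Olig

/-!
Raw data which look like a full system for every finite part of the language are a full system.
-/

set_option autoImplicit false

namespace Pool.Agent.Y567.MD

open Set FirstOrder FirstOrder.Language
open Pool.Agent.Y567.MC (tr tr_of_lt tr_of_le tr_eq_top le_tr tr_mono le_tr_iff)

/-- raw data -/
structure Raw (H Z W : Type) where
  c : H → ℕ∞
  lev : Z → ℕ
  cz : Z → ℕ∞
  s : Z → Z → H
  u : W → W → H
  r : Z → List W → Prop

variable {p : Par} {H0 Z0 W0 H Z W : Type} [LinearOrder H0] [LinearOrder H]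

/-- approximate isomorphism -/
structure Apx (S : Sy p ⊤ H0 Z0 W0) (R : Raw H Z W) (N : ℕ) where
  f : H0 ≃ H
  e : W0 ≃ W
  zz : Z0 → Z → Prop
  ord : ∀ x y, x < y ↔ f x < f y
  c : ∀ x (n : ℕ), n ≤ N → ((n : ℕ∞) ≤ S.c x ↔ (n : ℕ∞) ≤ R.c (f x))
  ex : ∀ z, R.lev z ≤ N → ∃ z0, zz z0 z
  ex' : ∀ z0, S.lev z0 ≤ N → ∃ z, zz z0 z
  low : ∀ z0 z, zz z0 z → S.lev z0 = R.lev z ∧ R.lev z ≤ N
  inj : ∀ z0 z w0 w, zz z0 z → zz w0 w → (z0 = w0 ↔ z = w)
  cz : ∀ z0 z, zz z0 z → ∀ n : ℕ, n ≤ N → ((n : ℕ∞) ≤ S.cz z0 ↔ (n : ℕ∞) ≤ R.cz z)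
  s : ∀ z0 z w0 w, zz z0 z → zz w0 w → R.lev z = R.lev w → z ≠ w → f (S.s z0 w0) = R.s z w
  u : p.con → ∀ v w, v ≠ w → f (S.u v w) = R.u (e v) (e w)
  r : ∀ z0 z, zz z0 z → ∀ l : List W0, l.length = p.ar (R.lev z) →
    (S.r z0 l ↔ R.r z (l.map e))

theorem le_of_nat {c c' : ℕ∞} (h : ∀ n : ℕ, (n : ℕ∞) ≤ c → (n : ℕ∞) ≤ c') : c ≤ c' := by
  rw [← ENat.forall_natCast_le_iff_le]
  exact h

theorem eq_nat {c : ℕ∞} {n : ℕ} (h1 : (n : ℕ∞) ≤ c) (h2 : ¬ ((n + 1 : ℕ) : ℕ∞) ≤ c) : c = n := by
  refine le_antisymm ?_ h1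
  have := not_le.1 h2
  rw [Nat.cast_add, Nat.cast_one] at this
  exact Order.le_of_lt_add_one this

theorem nat_lt_iff {c : ℕ∞} {n : ℕ} : (n : ℕ∞) < c ↔ ((n + 1 : ℕ) : ℕ∞) ≤ c := by
  rw [Nat.cast_add, Nat.cast_one]
  exact (Order.add_one_le_iff_of_not_isMax (by simp [isMax_iff_eq_top])).symm

namespace Apx

variable {S : Sy p ⊤ H0 Z0 W0} {R : Raw H Z W} {N : ℕ} (a : Apx S R N)

include a

theorem le_iff (x y : H0) : x ≤ y ↔ a.f x ≤ a.f y := by
  rw [← not_lt, ← not_lt, a.ord]

theorem c_nat {x : H0} {n : ℕ} (hn : n + 1 ≤ N) : S.c x = n ↔ R.c (a.f x) = n := by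
  have h1 := a.c x n (by omega)
  have h2 := a.c x (n + 1) hn
  constructor
  · intro h
    rw [h] at h1 h2
    exact eq_nat (h1.1 le_rfl) (fun h3 => by
      have := h2.2 h3
      rw [Nat.cast_le] at this
      omega)
  · intro h
    rw [h] at h1 h2
    exact eq_nat (h1.2 le_rfl) (fun h3 => by
      have := h2.1 h3
      rw [Nat.cast_le] at this
      omega)

theorem cz_nat {z0 : Z0} {z : Z} (h : a.zz z0 z) {n : ℕ} (hn : n + 1 ≤ N) :
    S.cz z0 = n ↔ R.cz z = n := by
  have h1 := a.cz z0 z h n (by omega)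
  have h2 := a.cz z0 z h (n + 1) hn
  constructor
  · intro h
    rw [h] at h1 h2
    exact eq_nat (h1.1 le_rfl) (fun h3 => by
      have := h2.2 h3
      rw [Nat.cast_le] at this
      omega)
  · intro h
    rw [h] at h1 h2
    exact eq_nat (h1.2 le_rfl) (fun h3 => by
      have := h2.1 h3
      rw [Nat.cast_le] at this
      omega)

theorem min_le {x y z : H0} : min x y ≤ z ↔ min (a.f x) (a.f y) ≤ a.f z := by
  rw [min_le_iff, min_le_iff, a.le_iff, a.le_iff]

end Apx

theorem mk_sy {S : Sy p ⊤ H0 Z0 W0} (hF : Full S) (R : Raw H Z W)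
    (h : ∀ N, Nonempty (Apx S R N)) : ∃ T : Sy p ⊤ H Z W, T.c = R.c ∧ T.lev = R.lev ∧
      T.cz = R.cz ∧ T.s = R.s ∧ T.u = R.u ∧ T.r = R.r ∧ Full T := by
  classical
  have c_mono : Monotone R.c := by
    intro x y hxy
    refine le_of_nat fun n hn => ?_
    obtain ⟨a⟩ := h n
    have h1 := (a.c (a.f.symm x) n le_rfl).2 (by simpa using hn)
    have h2 : a.f.symm x ≤ a.f.symm y := by rw [a.le_iff]; simpa using hxy
    simpa using (a.c (a.f.symm y) n le_rfl).1 (h1.trans (S.c_mono h2))
  have big : ∀ k n : ℕ, ∃ b, R.lev b = k ∧ (n : ℕ∞) < R.cz b := by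
    intro k n
    obtain ⟨a⟩ := h (max (n + 1) k)
    obtain ⟨x, hx⟩ := hF.all n
    obtain ⟨b0, h1, h2⟩ := S.unb k x (ENat.natCast_lt_top _) (by rw [hx]; exact ENat.natCast_ne_top _)
    obtain ⟨b, hb⟩ := a.ex' b0 (by rw [h1]; exact le_max_right _ _)
    refine ⟨b, by rw [← (a.low _ _ hb).1, h1], ?_⟩
    rw [hx] at h2
    exact nat_lt_iff.2 ((a.cz _ _ hb (n + 1) (le_max_left _ _)).1 (nat_lt_iff.1 h2))
  -- the distances to the points of larger colour
  have key : ∀ {N n : ℕ} (a : Apx S R N), n + 1 ≤ N → ∀ z0 z b, a.zz z0 z → R.lev b = R.lev z →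
      R.cz z = n → (n : ℕ∞) < R.cz b → S.cz z0 = n ∧ R.s z b = a.f (S.d z0) := by
    intro N n a hn z0 z b hz hl hc hb
    obtain ⟨b0, hb0⟩ := a.ex b (by rw [hl]; exact (a.low _ _ hz).2)
    have h1 : S.cz z0 = n := (a.cz_nat hz hn).2 hc
    have h2 : S.cz z0 < S.cz b0 := by
      rw [h1]
      exact nat_lt_iff.2 ((a.cz _ _ hb0 (n + 1) hn).2 (nat_lt_iff.1 hb))
    refine ⟨h1, ?_⟩
    rw [← S.s_eq_d (by rw [(a.low _ _ hz).1, (a.low _ _ hb0).1, hl]) h2]
    refine (a.s z0 z b0 b hz hb0 hl.symm ?_).symm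
    rintro rfl
    rw [hc] at hb
    exact lt_irrefl _ hb
  have hd : ∀ z, ∃ x : H, ∀ b, R.lev b = R.lev z → R.cz z < R.cz b → R.s z b = x := by
    intro z
    by_cases hz : R.cz z = ⊤
    · obtain ⟨a⟩ := h 0
      obtain ⟨x, -⟩ := hF.all 0
      exact ⟨a.f x, fun b _ h2 => by rw [hz] at h2; exact absurd h2 not_top_lt⟩
    · obtain ⟨n, hn⟩ := ENat.ne_top_iff_exists.1 hz
      obtain ⟨a⟩ := h (max (n + 1) (R.lev z))
      obtain ⟨z0, hz0⟩ := a.ex z (le_max_right _ _)
      exact ⟨a.f (S.d z0), fun b h1 h2 =>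
        (key a (le_max_left _ _) z0 z b hz0 h1 hn.symm (by rw [hn]; exact h2)).2⟩
  choose d hd using hd
  have key2 : ∀ {N n : ℕ} (a : Apx S R N), n + 1 ≤ N → ∀ z0 z, a.zz z0 z →
      R.cz z = n → S.cz z0 = n ∧ d z = a.f (S.d z0) := by
    intro N n a hn z0 z hz hc
    obtain ⟨b, h1, h2⟩ := big (R.lev z) n
    have h3 := key a hn z0 z b hz h1 hc h2
    exact ⟨h3.1, by rw [← hd z b h1 (by rw [hc]; exact h2)]; exact h3.2⟩
  -- two points
  have two : ∀ {N : ℕ} (a : Apx S R N) (z w : Z), R.lev z = R.lev w → R.lev z ≤ N →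
      ∃ z0 w0, a.zz z0 z ∧ a.zz w0 w ∧ S.lev z0 = S.lev w0 := by
    intro N a z w hl hz
    obtain ⟨z0, hz0⟩ := a.ex z hz
    obtain ⟨w0, hw0⟩ := a.ex w (by omega)
    exact ⟨z0, w0, hz0, hw0, by rw [(a.low _ _ hz0).1, (a.low _ _ hw0).1, hl]⟩
  let T : Sy p ⊤ H Z W :=
    { c := R.c, lev := R.lev, cz := R.cz, s := R.s, d := d, u := R.u, r := R.r
      c_mono := c_mono
      s_comm := by
        intro z w hl hne
        obtain ⟨a⟩ := h (R.lev z)
        obtain ⟨z0, w0, h1, h2, h3⟩ := two a z w hl le_rfl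
        have hne0 : z0 ≠ w0 := fun h => hne ((a.inj _ _ _ _ h1 h2).1 h)
        rw [← a.s _ _ _ _ h1 h2 hl hne, ← a.s _ _ _ _ h2 h1 hl.symm hne.symm,
          S.s_comm z0 w0 h3 hne0]
      ultra := by
        intro x y z hxy hyz n1 n2 n3
        obtain ⟨a⟩ := h (R.lev x)
        obtain ⟨x0, y0, h1, h2, h3⟩ := two a x y hxy le_rfl
        obtain ⟨z0, hz⟩ := a.ex z (by omega)
        have h4 : S.lev y0 = S.lev z0 := by rw [(a.low _ _ h2).1, (a.low _ _ hz).1, hyz]
        rw [← a.s _ _ _ _ h1 h2 hxy n1, ← a.s _ _ _ _ h2 hz hyz n2,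
          ← a.s _ _ _ _ h1 hz (hxy.trans hyz) n3, ← a.min_le]
        exact S.ultra x0 y0 z0 h3 h4 (fun h => n1 ((a.inj _ _ _ _ h1 h2).1 h))
          (fun h => n2 ((a.inj _ _ _ _ h2 hz).1 h)) (fun h => n3 ((a.inj _ _ _ _ h1 hz).1 h))
      s_top := by
        intro z w hl hne hz hw
        rw [← top_le_iff]
        refine le_of_nat fun n _ => ?_
        obtain ⟨a⟩ := h (max n (R.lev z))
        obtain ⟨z0, w0, h1, h2, h3⟩ := two a z w hl (le_max_right _ _)
        have hne0 : z0 ≠ w0 := fun h => hne ((a.inj _ _ _ _ h1 h2).1 h)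
        rw [← a.s _ _ _ _ h1 h2 hl hne, ← a.c _ n (le_max_left _ _)]
        refine le_trans (le_min ?_ ?_) (S.cs_ge h3 hne0)
        · exact (a.cz _ _ h1 n (le_max_left _ _)).2 (by rw [hz]; exact le_top)
        · exact (a.cz _ _ h2 n (le_max_left _ _)).2 (by rw [hw]; exact le_top)
      s_d := by
        intro z w hl hz hw
        exact hd z w hl.symm (by rw [hw]; exact lt_top_iff_ne_top.2 hz)
      c_d := by
        intro z hz
        obtain ⟨n, hn⟩ := ENat.ne_top_iff_exists.1 hz
        obtain ⟨a⟩ := h (max (n + 1) (R.lev z))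
        obtain ⟨z0, hz0⟩ := a.ex z (le_max_right _ _)
        obtain ⟨h1, h2⟩ := key2 a (le_max_left _ _) z0 z hz0 hn.symm
        rw [h2, ← hn, ← a.c_nat (le_max_left _ _), S.c_d z0 (by rw [h1]; exact ENat.natCast_ne_top _),
          h1]
      d1 := by
        intro z w hl hne hz hw
        obtain ⟨n, hn⟩ := ENat.ne_top_iff_exists.1 hz
        obtain ⟨m, hm⟩ := ENat.ne_top_iff_exists.1 hw
        obtain ⟨a⟩ := h (max (max (n + 1) (m + 1)) (R.lev z))
        obtain ⟨z0, w0, h1, h2, h3⟩ := two a z w hl (le_max_right _ _)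
        have hne0 : z0 ≠ w0 := fun h => hne ((a.inj _ _ _ _ h1 h2).1 h)
        obtain ⟨g1, g2⟩ := key2 a ((le_max_left _ _).trans (le_max_left _ _)) z0 z h1 hn.symm
        obtain ⟨g3, g4⟩ := key2 a ((le_max_right _ _).trans (le_max_left _ _)) w0 w h2 hm.symm
        rw [g2, g4, ← a.s _ _ _ _ h1 h2 hl hne, ← a.min_le]
        exact S.d1 z0 w0 h3 hne0 (by rw [g1]; exact ENat.natCast_ne_top _)
          (by rw [g3]; exact ENat.natCast_ne_top _)
      d2 := by
        intro z w hl hne hz hw
        obtain ⟨n, hn⟩ := ENat.ne_top_iff_exists.1 hz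
        obtain ⟨m, hm⟩ := ENat.ne_top_iff_exists.1 hw
        obtain ⟨a⟩ := h (max (max (n + 1) (m + 1)) (R.lev z))
        obtain ⟨z0, w0, h1, h2, h3⟩ := two a z w hl (le_max_right _ _)
        have hne0 : z0 ≠ w0 := fun h => hne ((a.inj _ _ _ _ h1 h2).1 h)
        obtain ⟨g1, g2⟩ := key2 a ((le_max_left _ _).trans (le_max_left _ _)) z0 z h1 hn.symm
        obtain ⟨g3, g4⟩ := key2 a ((le_max_right _ _).trans (le_max_left _ _)) w0 w h2 hm.symm
        rw [g2, g4, ← a.s _ _ _ _ h1 h2 hl hne, ← a.min_le]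
        exact S.d2 z0 w0 h3 hne0 (by rw [g1]; exact ENat.natCast_ne_top _)
          (by rw [g3]; exact ENat.natCast_ne_top _)
      unb := by
        intro k x _ hx
        obtain ⟨n, hn⟩ := ENat.ne_top_iff_exists.1 hx
        rw [← hn]
        exact big k n
      u_comm := by
        intro hcon v w hne
        obtain ⟨a⟩ := h 0
        have h1 := a.u hcon (a.e.symm v) (a.e.symm w) (fun h => hne (a.e.symm.injective h))
        have h2 := a.u hcon (a.e.symm w) (a.e.symm v) (fun h => hne (a.e.symm.injective h).symm)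
        simp only [Equiv.apply_symm_apply] at h1 h2
        rw [← h1, ← h2, S.u_comm hcon _ _ (fun h => hne (a.e.symm.injective h))]
      u_ultra := by
        intro hcon v w x n1 n2 n3
        obtain ⟨a⟩ := h 0
        have h1 := a.u hcon (a.e.symm v) (a.e.symm w) (fun h => n1 (a.e.symm.injective h))
        have h2 := a.u hcon (a.e.symm w) (a.e.symm x) (fun h => n2 (a.e.symm.injective h))
        have h3 := a.u hcon (a.e.symm v) (a.e.symm x) (fun h => n3 (a.e.symm.injective h))
        simp only [Equiv.apply_symm_apply] at h1 h2 h3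
        rw [← h1, ← h2, ← h3, le_max_iff, ← a.le_iff, ← a.le_iff, ← le_max_iff]
        exact S.u_ultra hcon _ _ _ (fun h => n1 (a.e.symm.injective h))
          (fun h => n2 (a.e.symm.injective h)) (fun h => n3 (a.e.symm.injective h))
      r_u := by
        intro hcon z v w _ hne hle
        obtain ⟨a⟩ := h (R.lev z + 1)
        obtain ⟨z0, hz0⟩ := a.ex z (Nat.le_succ _)
        have hlev := (a.low _ _ hz0).1
        have hne0 : a.e.symm v ≠ a.e.symm w := fun h => hne (a.e.symm.injective h)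
        have h1 := a.u hcon (a.e.symm v) (a.e.symm w) hne0
        simp only [Equiv.apply_symm_apply] at h1
        have h2 := a.r z0 z hz0 [a.e.symm v] (by simp [p.one hcon])
        have h3 := a.r z0 z hz0 [a.e.symm w] (by simp [p.one hcon])
        simp only [List.map_cons, List.map_nil, Equiv.apply_symm_apply] at h2 h3
        rw [← h2, ← h3]
        refine S.r_u hcon z0 _ _ (ENat.natCast_lt_top _) hne0 ?_
        rw [hlev]
        by_contra hn
        have h4 := nat_lt_iff.1 (not_le.1 hn)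
        rw [a.c _ _ le_rfl, h1] at h4
        exact absurd (nat_lt_iff.2 h4) (not_lt.2 hle)
      ext := by
        intro b q F _ hFf hFb V hV η hη
        obtain ⟨a⟩ := h (R.lev b + 1)
        obtain ⟨b0, hb0⟩ := a.ex b (Nat.le_succ _)
        have hlev := (a.low _ _ hb0).1
        obtain ⟨z0, g1, ⟨g2, g3⟩, g4, g5⟩ := S.ext b0 (a.f.symm q)
          {y0 | ∃ y ∈ F, a.zz y0 y} (ENat.natCast_lt_top _) (by
            have : {y0 | ∃ y ∈ F, a.zz y0 y} = ⋃ y ∈ F, {y0 | a.zz y0 y} := by
              ext y0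
              simp
            rw [this]
            refine hFf.biUnion fun y _ => Set.Subsingleton.finite ?_
            intro y0 h1 y1 h2
            exact (a.inj _ _ _ _ h1 h2).2 rfl) (by
            rintro y0 ⟨y, hy, hyy⟩
            rcases hFb y hy with rfl | ⟨h1, h2⟩
            · exact Or.inl ((a.inj _ _ _ _ hyy hb0).2 rfl)
            · by_cases hyb : y = b
              · exact Or.inl ((a.inj _ _ _ _ hyy hb0).2 hyb)
              refine Or.inr ⟨by rw [(a.low _ _ hyy).1, hlev, h1], ?_⟩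
              rw [a.le_iff, a.s _ _ _ _ hyy hb0 h1 hyb]
              simpa using h2) (a.e ⁻¹' V) (hV.preimage a.e.injective.injOn)
          (fun l => η (l.map a.e)) (by
            intro hcon v hv w hw hne hle
            refine hη hcon (a.e v) hv (a.e w) hw (fun h => hne (a.e.injective h)) ?_
            rw [← a.u hcon v w hne]
            by_contra hn
            have h4 := nat_lt_iff.1 (not_le.1 hn)
            rw [← a.c _ _ le_rfl] at h4
            rw [hlev] at hle
            exact absurd (nat_lt_iff.2 h4) (not_lt.2 hle))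
        obtain ⟨z, hz⟩ := a.ex' z0 (by rw [g1, hlev]; exact Nat.le_succ _)
        have hlz : R.lev z = R.lev b := by rw [← (a.low _ _ hz).1, g1, hlev]
        have hbz : b ≠ z := fun h => g2 ((a.inj _ _ _ _ hb0 hz).2 h)
        refine ⟨z, hlz, ⟨hbz, ?_⟩, ?_, ?_⟩
        · rw [← a.s _ _ _ _ hb0 hz hlz.symm hbz, g3]; simp
        · intro y hy
          have hly : R.lev y = R.lev b := by
            rcases hFb y hy with rfl | ⟨h1, -⟩
            · rfl
            · exact h1
          obtain ⟨y0, hy0⟩ := a.ex y (by rw [hly]; exact Nat.le_succ _)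
          obtain ⟨g6, g7⟩ := g4 y0 ⟨y, hy, hy0⟩
          have hyz : y ≠ z := fun h => g6 ((a.inj _ _ _ _ hy0 hz).2 h)
          refine ⟨hyz, ?_⟩
          rw [← a.s _ _ _ _ hy0 hz (hly.trans hlz.symm) hyz, g7]; simp
        · intro l hl hlen
          have e1 : (l.map a.e.symm).map a.e = l := by
            rw [List.map_map]
            have : (a.e ∘ a.e.symm : W → W) = id := by ext x; simp
            rw [this, List.map_id]
          have h1 := a.r z0 z hz (l.map a.e.symm) (by rw [List.length_map, hlen, hlz])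
          rw [e1] at h1
          rw [← h1, g5 (l.map a.e.symm) (by
            intro w hw
            obtain ⟨y, hy, rfl⟩ := List.mem_map.1 hw
            simpa using hl y hy) (by rw [List.length_map, hlen, hlev]), e1]
      extW := by
        intro v0 q V hV hv0 hVu G hG _ η hη
        obtain ⟨N, hN⟩ : ∃ N, ∀ z ∈ G, R.lev z + 1 ≤ N := by
          obtain ⟨N, hN⟩ := (hG.image R.lev).bddAbove
          exact ⟨N + 1, fun z hz => Nat.succ_le_succ (hN ⟨z, hz, rfl⟩)⟩
        obtain ⟨a⟩ := h N
        have eo : ∀ l : List (Option W0), (l.map (Option.map a.e)).map (Option.map a.e.symm) = l := by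
          intro l
          rw [List.map_map]
          have : (Option.map a.e.symm ∘ Option.map a.e : Option W0 → Option W0) = id := by
            ext x; simp
          rw [this, List.map_id]
        obtain ⟨w0, g1, g2, g3⟩ := S.extW (a.e.symm v0) (a.f.symm q) (a.e ⁻¹' V)
          (hV.preimage a.e.injective.injOn) (by simpa using hv0) (by
            intro hcon g hg
            rcases hVu hcon (a.e g) hg with h1 | h1
            · left; rw [← h1]; simp
            · by_cases hgv : g = a.e.symm v0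
              · exact Or.inl hgv
              right
              rw [a.le_iff, a.u hcon g _ hgv]
              simpa using h1) {z0 | ∃ z ∈ G, a.zz z0 z} (by
            have : {y0 | ∃ y ∈ G, a.zz y0 y} = ⋃ y ∈ G, {y0 | a.zz y0 y} := by
              ext y0
              simp
            rw [this]
            refine hG.biUnion fun y _ => Set.Subsingleton.finite ?_
            intro y0 h1 y1 h2
            exact (a.inj _ _ _ _ h1 h2).2 rfl) (fun z _ => ENat.natCast_lt_top _)
            (fun z0 l => ∃ z ∈ G, a.zz z0 z ∧ η z (l.map (Option.map a.e))) (by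
            rintro hcon z0 ⟨z, hz, hzz⟩ hle
            have hlev := (a.low _ _ hzz).1
            have h1 := hη hcon z hz (by
              by_contra hn
              have h4 := nat_lt_iff.1 (not_le.1 hn)
              have h5 : R.c (a.f (a.f.symm q)) = R.c q := by simp
              rw [← h5, ← a.c _ _ (hN z hz)] at h4
              rw [hlev] at hle
              exact absurd (nat_lt_iff.2 h4) (not_lt.2 hle))
            have h2 := a.r z0 z hzz [a.e.symm v0] (by simp [p.one hcon])
            simp only [List.map_cons, List.map_nil, Equiv.apply_symm_apply] at h2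
            rw [h2, ← h1]
            constructor
            · rintro ⟨z1, hz1, h3, h4⟩
              rw [(a.inj _ _ _ _ hzz h3).1 rfl]
              simpa using h4
            · intro h3
              exact ⟨z, hz, hzz, by simpa using h3⟩)
        refine ⟨a.e w0, g1, ?_, ?_⟩
        · intro hcon g hg
          have h1 := g2 hcon (a.e.symm g) (by simpa using hg)
          have hne : a.e.symm g ≠ w0 := by
            rintro rfl
            exact g1 (by simpa using hg)
          have h2 := a.u hcon _ _ hne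
          rw [h1] at h2
          simp only [Equiv.apply_symm_apply] at h2
          exact h2.symm
        · intro z hz l hl hlV hlen
          obtain ⟨z0, hz0⟩ := a.ex z (by have := hN z hz; omega)
          have hlev := (a.low _ _ hz0).1
          have h1 := g3 z0 ⟨z, hz, hz0⟩ (l.map (Option.map a.e.symm)) (by
            exact List.mem_map.2 ⟨none, hl, rfl⟩) (by
            intro g hg
            obtain ⟨o, ho, ho2⟩ := List.mem_map.1 hg
            cases o with
            | none => simp at ho2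
            | some y =>
              simp only [Option.map_some, Option.some.injEq] at ho2
              rw [← ho2]
              simpa using hlV y ho) (by rw [List.length_map, hlen, hlev])
          have h2 := a.r z0 z hz0 ((l.map (Option.map a.e.symm)).map fun x => x.getD w0) (by
            rw [List.length_map, List.length_map, hlen])
          rw [h1] at h2
          have e1 : (((l.map (Option.map a.e.symm)).map fun x => x.getD w0).map a.e) =
              l.map fun x => x.getD (a.e w0) := by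
            rw [List.map_map, List.map_map]
            refine List.map_congr_left fun x _ => ?_
            cases x <;> simp
          have e2 : (l.map (Option.map a.e.symm)).map (Option.map a.e) = l := by
            rw [List.map_map]
            have : (Option.map a.e ∘ Option.map a.e.symm : Option W → Option W) = id := by
              ext x; simp
            rw [this, List.map_id]
          rw [e1] at h2
          rw [← h2]
          constructor
          · rintro ⟨z1, hz1, h3, h4⟩
            rw [e2] at h4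
            rw [(a.inj _ _ _ _ hz0 h3).1 rfl]
            exact h4
          · intro h3
            exact ⟨z, hz, hz0, by rw [e2]; exact h3⟩ }
  refine ⟨T, rfl, rfl, rfl, rfl, rfl, rfl, ⟨?_, ?_, ?_, ?_, ?_, ?_⟩⟩
  · intro x y hxy
    obtain ⟨a⟩ := h 0
    obtain ⟨z, h1, h2⟩ := hF.dens (a.f.symm x) (a.f.symm y) (by rw [a.ord]; simpa using hxy)
    rw [a.ord] at h1 h2
    exact ⟨a.f z, by simpa using h1, by simpa using h2⟩
  · intro x
    obtain ⟨a⟩ := h 0
    obtain ⟨y, h1⟩ := hF.nomax (a.f.symm x)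
    rw [a.ord] at h1
    exact ⟨a.f y, by simpa using h1⟩
  · intro n x hx
    obtain ⟨a⟩ := h n
    obtain ⟨y, h1, h2⟩ := hF.down n (a.f.symm x) (by rw [a.c _ _ le_rfl]; simpa using hx)
    rw [a.ord] at h1
    rw [a.c _ _ le_rfl] at h2
    exact ⟨a.f y, by simpa using h1, h2⟩
  · intro n x hx
    obtain ⟨a⟩ := h (n + 1)
    obtain ⟨y, h1, h2⟩ := hF.up n (a.f.symm x) (by rw [a.c _ _ le_rfl]; simpa using hx)
    rw [a.ord] at h1
    rw [a.c _ _ le_rfl] at h2
    exact ⟨a.f y, by simpa using h1, h2⟩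
  · intro n
    obtain ⟨a⟩ := h (n + 1)
    obtain ⟨x, hx⟩ := hF.all n
    exact ⟨a.f x, (a.c_nat le_rfl).1 hx⟩
  · obtain ⟨a⟩ := h 0
    obtain ⟨w⟩ := hF.ne
    exact ⟨a.e w⟩

end Pool.Agent.Y567.MD
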