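import Pool.Agent.Y567.MD.Conv
import Pool.Agent.Y567.MD.Class

/-!
Invariants of the models with universe `ℕ`.
-/

set_option autoImplicit false

namespace Pool.Agent.Y567.MD

open Set FirstOrder FirstOrder.Language
open Pool.Agent.Y567.MC (Col Match AG)

variable {p : Par} {H0 Z0 W0 : Type} [LinearOrder H0] {S : Sy p ⊤ H0 Z0 W0}

/-- Countable models are systems with isolated points. -/
theorem rep [Countable H0] [Countable Z0] [Countable W0] (hS : Full S) {M : Type} [Countable M]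
    [Nonempty M] (A : (Lg p.ar).Structure M)
    (hA : @Theory.Model (Lg p.ar) M A (@completeTheory (Lg p.ar) (Un H0 Z0 W0) (str S Empty))) :
    ∃ (_ : LinearOrder (HM A)) (T : Sy p ⊤ (HM A) (ZM A) (WM A))
    (F : HM A ⊕ ZM A ⊕ WM A ⊕ JM A ≃ M), Full T ∧
    (∀ x, F (.inl x) = x.1) ∧ (∀ x, F (.inr (.inl x)) = x.1) ∧
    (∀ x, F (.inr (.inr (.inl x))) = x.1) ∧
    ∀ {n : ℕ} (R : Rl p.ar n) v, rel T (JM A) R v ↔ rm A R (F ∘ v) := by
  have : Nonempty (Un H0 Z0 W0) := by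
    obtain ⟨w⟩ := hS.ne
    exact ⟨.inr (.inr (.inl w))⟩
  exact exists_sys (fun N => isoN_of_model hA (hS.oligo N)) hS

section inv

variable {M : Type}

/-- there is a top point of level `k` -/
def aTop (A : (Lg p.ar).Structure M) (k : ℕ) : Prop := ∃ m, ∀ n, rm A (.P k n) ![m]

/-- there is a height of infinite colour -/
def aInf (A : (Lg p.ar).Structure M) : Prop := ∃ m, ∀ n, rm A (.U n) ![m]

/-- there is a least height of infinite colour -/
def aLst (A : (Lg p.ar).Structure M) : Prop := ∃ m, (∀ n, rm A (.U n) ![m]) ∧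
  ∀ m', (∀ n, rm A (.U n) ![m']) → ¬ rm A .Lt ![m', m]

/-- there are `j` isolated points -/
def aJunk (A : (Lg p.ar).Structure M) (j : ℕ) : Prop := ∃ s : Finset M, s.card = j ∧
  ∀ m ∈ s, ¬ rm A (.U 0) ![m] ∧ (¬ ∃ k, rm A (.P k 0) ![m]) ∧ ¬ rm A .V ![m]

/-- bits -/
def aBit (A : (Lg p.ar).Structure M) (w : M) (k : ℕ) : Prop := ∃ z, (∀ n, rm A (.P k n) ![z]) ∧
  rm A (.Q k) (Fin.snoc (fun _ => w) z : Fin (p.ar k + 1) → M)

/-- representation -/
structure Rep (A : (Lg p.ar).Structure M) [LinearOrder (HM A)] (T : Sy p ⊤ (HM A) (ZM A) (WM A))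
    (F : HM A ⊕ ZM A ⊕ WM A ⊕ JM A ≃ M) : Prop where
  full : Full T
  h : ∀ x, F (.inl x) = x.1
  z : ∀ x, F (.inr (.inl x)) = x.1
  w : ∀ x, F (.inr (.inr (.inl x))) = x.1
  r : ∀ {n : ℕ} (R : Rl p.ar n) v, rel T (JM A) R v ↔ rm A R (F ∘ v)

namespace Rep

variable {A : (Lg p.ar).Structure M} [LinearOrder (HM A)] {T : Sy p ⊤ (HM A) (ZM A) (WM A)}
  {F : HM A ⊕ ZM A ⊕ WM A ⊕ JM A ≃ M} (h : Rep A T F)

include h

theorem rU (x : HM A) (n : ℕ) : rm A (.U n) ![x.1] ↔ (n : ℕ∞) ≤ T.c x := by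
  have h1 := h.r (.U n) ![.inl x]
  have e : F ∘ ![.inl x] = ![x.1] := by
    ext i; fin_cases i; exact h.h x
  rw [e] at h1
  rw [← h1]
  simp [rel]

theorem rP (z : ZM A) (k n : ℕ) : rm A (.P k n) ![z.1] ↔ T.lev z = k ∧ (n : ℕ∞) ≤ T.cz z := by
  have h1 := h.r (.P k n) ![.inr (.inl z)]
  have e : F ∘ ![.inr (.inl z)] = ![z.1] := by
    ext i; fin_cases i; exact h.z z
  rw [e] at h1
  rw [← h1]
  simp [rel]

theorem rL (x y : HM A) : rm A .Lt ![x.1, y.1] ↔ x < y := by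
  have h1 := h.r .Lt ![.inl x, .inl y]
  have e : F ∘ ![.inl x, .inl y] = ![x.1, y.1] := by
    ext i
    fin_cases i
    · exact h.h x
    · exact h.h y
  rw [e] at h1
  rw [← h1]
  simp [rel]

theorem rQ (z : ZM A) (w : WM A) (k : ℕ) :
    rm A (.Q k) (Fin.snoc (fun _ => w.1) z.1 : Fin (p.ar k + 1) → M) ↔
      T.lev z = k ∧ T.r z (List.ofFn fun _ : Fin (p.ar k) => w) := by
  have h1 := h.r (.Q k) (Fin.snoc (fun _ => .inr (.inr (.inl w))) (.inr (.inl z)))
  have e : F ∘ (Fin.snoc (fun _ => .inr (.inr (.inl w))) (.inr (.inl z)) :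
      Fin (p.ar k + 1) → HM A ⊕ ZM A ⊕ WM A ⊕ JM A) =
      (Fin.snoc (fun _ => w.1) z.1 : Fin (p.ar k + 1) → M) := by
    ext i
    refine Fin.lastCases ?_ (fun i => ?_) i
    · simp only [Function.comp, Fin.snoc_last]
      exact h.z z
    · simp only [Function.comp, Fin.snoc_castSucc]
      exact h.w w
  rw [e] at h1
  rw [← h1]
  simp only [rel, Fin.snoc_last, Fin.snoc_castSucc, Sum.inr.injEq, Sum.inl.injEq]
  constructor
  · rintro ⟨z', a, rfl, h2, h3, h4⟩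
    have : a = fun _ => w := by ext1 i; exact (h2 i).symm
    rw [this] at h4
    exact ⟨h3, h4⟩
  · rintro ⟨h2, h3⟩
    exact ⟨z, fun _ => w, rfl, fun _ => rfl, h2, h3⟩

theorem top_iff (k : ℕ) : aTop A k ↔ TopL T k := by
  constructor
  · rintro ⟨m, hm⟩
    have h1 := fun n => (h.rP ⟨m, k, hm 0⟩ k n).1 (hm n)
    refine ⟨⟨m, k, hm 0⟩, (h1 0).1, ?_⟩
    rw [← top_le_iff]
    exact le_of_nat fun n _ => (h1 n).2
  · rintro ⟨z, h1, h2⟩
    exact ⟨z.1, fun n => (h.rP z k n).2 ⟨h1, by rw [h2]; exact le_top⟩⟩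

theorem inf_iff : aInf A ↔ CInf T := by
  constructor
  · rintro ⟨m, hm⟩
    have h1 := fun n => (h.rU ⟨m, hm 0⟩ n).1 (hm n)
    refine ⟨⟨m, hm 0⟩, ?_⟩
    rw [← top_le_iff]
    exact le_of_nat fun n _ => h1 n
  · rintro ⟨x, h2⟩
    exact ⟨x.1, fun n => (h.rU x n).2 (by rw [h2]; exact le_top)⟩

theorem lst_iff' (x : HM A) : CLeast T x ↔ (∀ n, rm A (.U n) ![x.1]) ∧
    ∀ m', (∀ n, rm A (.U n) ![m']) → ¬ rm A .Lt ![m', x.1] := by
  constructor
  · rintro ⟨h2, h3⟩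
    refine ⟨fun n => (h.rU x n).2 (by rw [h2]; exact le_top), fun m' hm' hlt => ?_⟩
    have h4 : T.c ⟨m', hm' 0⟩ = ⊤ := by
      rw [← top_le_iff]
      exact le_of_nat fun n _ => (h.rU ⟨m', hm' 0⟩ n).1 (hm' n)
    exact absurd (h3 _ h4) (not_le.2 ((h.rL ⟨m', hm' 0⟩ x).1 hlt))
  · rintro ⟨h2, h3⟩
    have h4 : ∀ y : HM A, T.c y = ⊤ ↔ ∀ n, rm A (.U n) ![y.1] := by
      intro y
      constructor
      · intro h5 n
        exact (h.rU y n).2 (by rw [h5]; exact le_top)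
      · intro h5
        rw [← top_le_iff]
        exact le_of_nat fun n _ => (h.rU y n).1 (h5 n)
    refine ⟨(h4 x).2 h2, fun y hy => ?_⟩
    by_contra hn
    exact h3 y.1 ((h4 y).1 hy) ((h.rL y x).2 (not_le.1 hn))

theorem lst_iff : aLst A ↔ ∃ x, CLeast T x := by
  constructor
  · rintro ⟨m, h1, h2⟩
    exact ⟨⟨m, h1 0⟩, (h.lst_iff' _).2 ⟨h1, h2⟩⟩
  · rintro ⟨x, hx⟩
    exact ⟨x.1, (h.lst_iff' x).1 hx⟩

theorem bit_iff (hcon : p.con) (w : WM A) (k : ℕ) : aBit A w.1 k ↔ bit T w k := by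
  have e : List.ofFn (fun _ : Fin (p.ar k) => w) = [w] := by
    apply List.ext_getElem (by simp [p.one hcon])
    intro i h1 h2
    simp at h2
    subst h2
    simp
  constructor
  · rintro ⟨m, hm, hq⟩
    have h1 := fun n => (h.rP ⟨m, k, hm 0⟩ k n).1 (hm n)
    have h2 := (h.rQ ⟨m, k, hm 0⟩ w k).1 hq
    rw [e] at h2
    refine ⟨⟨m, k, hm 0⟩, (h1 0).1, ?_, h2.2⟩
    rw [← top_le_iff]
    exact le_of_nat fun n _ => (h1 n).2
  · rintro ⟨z, h1, h2, h3⟩
    refine ⟨z.1, fun n => (h.rP z k n).2 ⟨h1, by rw [h2]; exact le_top⟩, (h.rQ z w k).2 ⟨h1, ?_⟩⟩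
    rw [e]; exact h3

end Rep

end inv

section iso

variable {M M' : Type} {A : (Lg p.ar).Structure M} {B : (Lg p.ar).Structure M'} {F : M ≃ M'}

/-- isomorphisms -/
structure Isom (A : (Lg p.ar).Structure M) (B : (Lg p.ar).Structure M') (F : M ≃ M') : Prop where
  pres : ∀ {n : ℕ} (R : Rl p.ar n) v, rm A R v ↔ rm B R (F ∘ v)

theorem Isom.symm (h : Isom A B F) : Isom B A F.symm := by
  refine ⟨fun {n} R v => ?_⟩
  rw [h.pres R (F.symm ∘ v)]
  have : F ∘ (F.symm ∘ v) = v := by ext i; simp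
  rw [this]

theorem Isom.one (h : Isom A B F) (R : Rl p.ar 1) (m : M) : rm A R ![m] ↔ rm B R ![F m] := by
  rw [h.pres R ![m] ]
  have : F ∘ ![m] = ![F m] := by ext i; fin_cases i; rfl
  rw [this]

theorem Isom.two (h : Isom A B F) (R : Rl p.ar 2) (m m' : M) :
    rm A R ![m, m'] ↔ rm B R ![F m, F m'] := by
  rw [h.pres R ![m, m'] ]
  have : F ∘ ![m, m'] = ![F m, F m'] := by ext i; fin_cases i <;> rfl
  rw [this]

theorem Isom.top (h : Isom A B F) {k : ℕ} (h1 : aTop A k) : aTop B k := by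
  obtain ⟨m, hm⟩ := h1
  exact ⟨F m, fun n => (h.one _ _).1 (hm n)⟩

theorem Isom.inf (h : Isom A B F) (h1 : aInf A) : aInf B := by
  obtain ⟨m, hm⟩ := h1
  exact ⟨F m, fun n => (h.one _ _).1 (hm n)⟩

theorem Isom.lst (h : Isom A B F) (h1 : aLst A) : aLst B := by
  obtain ⟨m, hm, hm2⟩ := h1
  refine ⟨F m, fun n => (h.one _ _).1 (hm n), fun m' h2 h3 => ?_⟩
  refine hm2 (F.symm m') (fun n => ?_) ?_
  · rw [h.one, Equiv.apply_symm_apply]; exact h2 n
  · rw [h.two, Equiv.apply_symm_apply]; exact h3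

theorem Isom.junk (h : Isom A B F) {j : ℕ} (h1 : aJunk A j) : aJunk B j := by
  obtain ⟨s, h2, h3⟩ := h1
  refine ⟨s.map F.toEmbedding, by rw [Finset.card_map, h2], fun m hm => ?_⟩
  obtain ⟨m', hm', rfl⟩ := Finset.mem_map.1 hm
  obtain ⟨g1, g2, g3⟩ := h3 m' hm'
  simp only [Equiv.coe_toEmbedding]
  refine ⟨fun h4 => g1 ((h.one _ _).2 h4), ?_, fun h4 => g3 ((h.one _ _).2 h4)⟩
  rintro ⟨k, hk⟩
  exact g2 ⟨k, (h.one _ _).2 hk⟩

theorem Isom.bit (h : Isom A B F) {w : M} {k : ℕ} (h1 : aBit A w k) : aBit B (F w) k := by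
  obtain ⟨z, h2, h3⟩ := h1
  refine ⟨F z, fun n => (h.one _ _).1 (h2 n), ?_⟩
  rw [h.pres] at h3
  have : F ∘ (Fin.snoc (fun _ => w) z : Fin (p.ar k + 1) → M) = Fin.snoc (fun _ => F w) (F z) := by
    ext i
    refine Fin.lastCases ?_ (fun i => ?_) i
    · simp only [Function.comp, Fin.snoc_last]
    · simp only [Function.comp, Fin.snoc_castSucc]
  rw [this] at h3
  exact h3

theorem isom_iff (A : (Lg p.ar).Structure M) (B : (Lg p.ar).Structure M') :
    Nonempty (@FirstOrder.Language.Equiv (Lg p.ar) M M' A B) ↔ ∃ F : M ≃ M', Isom A B F := by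
  constructor
  · rintro ⟨f⟩
    exact ⟨f.toEquiv, ⟨fun R v => (f.map_rel' R v).symm⟩⟩
  · rintro ⟨F, hF⟩
    exact ⟨{ toEquiv := F
             map_fun' := fun f _ => (f : Empty).elim
             map_rel' := fun R v => (hF.pres R v).symm }⟩

end iso

theorem junk_equiv {M M' : Type} [Countable M] [Countable M'] {P : M → Prop} {Q : M' → Prop}
    (h : ∀ j, (∃ s : Finset M, s.card = j ∧ ∀ m ∈ s, P m) ↔
      ∃ s : Finset M', s.card = j ∧ ∀ m ∈ s, Q m) : Nonempty ({m // P m} ≃ {m // Q m}) := by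
  classical
  have key : ∀ {M : Type} {P : M → Prop}, Infinite {m // P m} → ∀ j, ∃ s : Finset M, s.card = j ∧
      ∀ m ∈ s, P m := by
    intro M P hinf j
    obtain ⟨s, hs⟩ := Infinite.exists_subset_card_eq {m // P m} j
    refine ⟨s.map (Function.Embedding.subtype P), by rw [Finset.card_map, hs], fun m hm => ?_⟩
    obtain ⟨m', -, rfl⟩ := Finset.mem_map.1 hm
    exact m'.2
  have key2 : ∀ {M : Type} {P : M → Prop} (_ : Finite {m // P m}) (j : ℕ) ,
      (∃ s : Finset M, s.card = j ∧ ∀ m ∈ s, P m) → j ≤ Nat.card {m // P m} := by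
    rintro M P hfin j ⟨s, hs, hs2⟩
    have := Fintype.ofFinite {m // P m}
    rw [Nat.card_eq_fintype_card, ← hs, ← Fintype.card_coe]
    exact Fintype.card_le_of_injective (fun x : s => (⟨x.1, hs2 _ x.2⟩ : {m // P m}))
      (fun x y h => Subtype.ext (congrArg (fun t : {m // P m} => t.1) h))
  have key3 : ∀ {M : Type} {P : M → Prop} (_ : Finite {m // P m}),
      ∃ s : Finset M, s.card = Nat.card {m // P m} ∧ ∀ m ∈ s, P m := by
    intro M P hfin
    have := Fintype.ofFinite {m // P m}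
    refine ⟨(Finset.univ : Finset {m // P m}).map (Function.Embedding.subtype P), ?_, fun m hm => ?_⟩
    · rw [Finset.card_map, Finset.card_univ, Nat.card_eq_fintype_card]
    · obtain ⟨m', -, rfl⟩ := Finset.mem_map.1 hm
      exact m'.2
  rcases finite_or_infinite {m // P m} with h1 | h1 <;>
    rcases finite_or_infinite {m // Q m} with h2 | h2
  · have e : Nat.card {m // P m} = Nat.card {m // Q m} :=
      le_antisymm (key2 h2 _ ((h _).1 (key3 h1))) (key2 h1 _ ((h _).2 (key3 h2)))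
    have := Fintype.ofFinite {m // P m}
    have := Fintype.ofFinite {m // Q m}
    rw [Nat.card_eq_fintype_card, Nat.card_eq_fintype_card] at e
    exact Fintype.card_eq.1 e
  · have := key2 h1 _ ((h _).2 (key h2 (Nat.card {m // P m} + 1)))
    omega
  · have := key2 h2 _ ((h _).1 (key h1 (Nat.card {m // Q m} + 1)))
    omega
  · exact nonempty_equiv_of_countable

/-- Isomorphism of the systems gives isomorphism of the structures. -/
theorem isom_of {M M' : Type} {A : (Lg p.ar).Structure M} {B : (Lg p.ar).Structure M'}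
    [LinearOrder (HM A)] [LinearOrder (HM B)] {T : Sy p ⊤ (HM A) (ZM A) (WM A)}
    {T' : Sy p ⊤ (HM B) (ZM B) (WM B)} {F : HM A ⊕ ZM A ⊕ WM A ⊕ JM A ≃ M}
    {F' : HM B ⊕ ZM B ⊕ WM B ⊕ JM B ≃ M'} (h : Rep A T F) (h' : Rep B T' F')
    {f : HM A ≃ HM B} {g : ZM A ≃ ZM B} {e : WM A ≃ WM B} (hi : Iso T T' f g e)
    (j : JM A ≃ JM B) : ∃ G : M ≃ M', Isom A B G ∧ ∀ x : HM A, G x.1 = (f x).1 := by
  refine ⟨F.symm.trans ((bij f g e j).trans F'), ⟨fun R v => ?_⟩, fun x => ?_⟩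
  · have h1 := h.r R (F.symm ∘ v)
    have e1 : F ∘ (F.symm ∘ v) = v := by ext i; simp
    rw [e1] at h1
    rw [← h1, hi.rIso.rel_iff j R _ (ENat.natCast_lt_top _), h'.r R]
    rfl
  · have e1 : F.symm x.1 = .inl x := by rw [Equiv.symm_apply_eq, h.h x]
    simp only [Equiv.trans_apply, e1]
    exact h'.h (f x)

/-- the bits of the first point of `W` -/
def aBits (A : (Lg p.ar).Structure ℕ) (k : ℕ) : Prop :=
  ¬ aInf A ∧ ∃ w, rm A .V ![w] ∧ (∀ w' < w, ¬ rm A .V ![w']) ∧ aBit A w k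

/-- Classification of the models with universe `ℕ`. -/
theorem iso_iff [Countable H0] [Countable Z0] [Countable W0] (hcon : p.con) (hS : Full S)
    (A B : (Lg p.ar).Structure ℕ)
    (hA : @Theory.Model (Lg p.ar) ℕ A (@completeTheory (Lg p.ar) (Un H0 Z0 W0) (str S Empty)))
    (hB : @Theory.Model (Lg p.ar) ℕ B (@completeTheory (Lg p.ar) (Un H0 Z0 W0) (str S Empty))) :
    Nonempty (@FirstOrder.Language.Equiv (Lg p.ar) ℕ ℕ A B) ↔
      (∀ k, aTop A k ↔ aTop B k) ∧ (aInf A ↔ aInf B) ∧ (aLst A ↔ aLst B) ∧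
      (∀ j, aJunk A j ↔ aJunk B j) ∧ {k | ¬ (aBits A k ↔ aBits B k)}.Finite := by
  classical
  obtain ⟨lo, T, F, h1, h2, h3, h4, h5⟩ := rep hS A hA
  obtain ⟨lo', T', F', h1', h2', h3', h4', h5'⟩ := rep hS B hB
  let _ := lo
  let _ := lo'
  have r : Rep A T F := ⟨h1, h2, h3, h4, h5⟩
  have r' : Rep B T' F' := ⟨h1', h2', h3', h4', h5'⟩
  -- the first points of `W`
  have hw : ∀ {A : (Lg p.ar).Structure ℕ}, (∃ w, rm A .V ![w]) → ∃ w, rm A .V ![w] ∧
      ∀ w' < w, ¬ rm A .V ![w'] := fun {A} hex => ⟨Nat.find hex, Nat.find_spec hex,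
        fun w' hw' => Nat.find_min hex hw'⟩
  obtain ⟨w, hw1, hw2⟩ := hw (A := A) (by
    obtain ⟨w⟩ := h1.ne
    exact ⟨w.1, w.2⟩)
  obtain ⟨w', hw1', hw2'⟩ := hw (A := B) (by
    obtain ⟨w⟩ := h1'.ne
    exact ⟨w.1, w.2⟩)
  have hbits : ∀ {A : (Lg p.ar).Structure ℕ} {w}, rm A .V ![w] → (∀ w' < w, ¬ rm A .V ![w']) →
      ¬ aInf A → ∀ k, (aBits A k ↔ aBit A w k) := by
    intro A w g1 g2 g3 k
    constructor
    · rintro ⟨-, v, g4, g5, g6⟩
      have : v = w := by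
        rcases lt_trichotomy v w with h | h | h
        · exact absurd g4 (g2 _ h)
        · exact h
        · exact absurd g1 (g5 _ h)
      rw [← this]; exact g6
    · exact fun h => ⟨g3, w, g1, g2, h⟩
  rw [isom_iff]
  constructor
  · rintro ⟨G, hG⟩
    refine ⟨fun k => ⟨hG.top, hG.symm.top⟩, ⟨hG.inf, hG.symm.inf⟩, ⟨hG.lst, hG.symm.lst⟩,
      fun j => ⟨hG.junk, hG.symm.junk⟩, ?_⟩
    by_cases hinf : aInf A
    · have hinf' := hG.inf hinf
      have : {k | ¬ (aBits A k ↔ aBits B k)} = ∅ := by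
        rw [eq_empty_iff_forall_notMem]
        intro k hk
        exact hk ⟨fun h => absurd hinf h.1, fun h => absurd hinf' h.1⟩
      rw [this]
      exact Set.finite_empty
    · have hinf' : ¬ aInf B := fun h => hinf (hG.symm.inf h)
      have hGw : rm B .V ![G w] := (hG.one _ _).1 hw1
      obtain ⟨N, hN⟩ := bits_fin hcon (S := T') (fun h => hinf' (r'.inf_iff.2 h)) ⟨G w, hGw⟩
        ⟨w', hw1'⟩
      refine (Set.finite_lt_nat N).subset ?_
      intro k hk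
      by_contra hn
      have hn : ¬ k < N := hn
      apply hk
      rw [hbits hw1 hw2 hinf, hbits hw1' hw2' hinf']
      have h6 := hN k (not_lt.1 hn)
      rw [← r'.bit_iff hcon, ← r'.bit_iff hcon] at h6
      rw [← h6]
      constructor
      · exact fun h => hG.bit h
      · intro h
        have := hG.symm.bit h
        simpa using this
  · rintro ⟨g1, g2, g3, g4, g5⟩
    obtain ⟨j⟩ : Nonempty (JM A ≃ JM B) := junk_equiv g4
    have hT : ∀ k, TopL T k ↔ TopL T' k := fun k => by rw [← r.top_iff, ← r'.top_iff, g1]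
    by_cases hinf : aInf A
    · have hinf' := g2.1 hinf
      obtain ⟨f, g, e, hi, -⟩ := classify_inf r.full r'.full (r.inf_iff.1 hinf) (r'.inf_iff.1 hinf')
        (by rw [← r.lst_iff, ← r'.lst_iff, g3]) hT (A := ∅) ⟨fun h => h.elim, fun h => h.elim⟩
        Set.finite_empty
      obtain ⟨G, hG, -⟩ := isom_of r r' hi j
      exact ⟨G, hG⟩
    · have hinf' : ¬ aInf B := fun h => hinf (g2.2 h)
      obtain ⟨N, hN⟩ := g5.bddAbove
      obtain ⟨f, g, e, hi⟩ := classify_fin hcon r.full r'.full (fun h => hinf (r.inf_iff.2 h))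
        (fun h => hinf' (r'.inf_iff.2 h)) hT ⟨w, hw1⟩ ⟨w', hw1'⟩ (N + 1) (by
          intro k hk
          rw [← r.bit_iff hcon, ← r'.bit_iff hcon]
          by_contra hn
          have : k ∈ {k | ¬ (aBits A k ↔ aBits B k)} := by
            intro h
            rw [hbits hw1 hw2 hinf, hbits hw1' hw2' hinf'] at h
            exact hn h
          have := hN this
          omega)
      obtain ⟨G, hG, -⟩ := isom_of r r' hi j
      exact ⟨G, hG⟩

end Pool.Agent.Y567.MD
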