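import Pool.Agent.Y567.MD.BCW

/-!
Naming a constant of infinite colour.
-/

set_option autoImplicit false

namespace Pool.Agent.Y567.MD.StdW

open Set FirstOrder FirstOrder.Language MeasureTheory
open Pool.Agent.Y567.MC (AG)

section gen

variable {L : FirstOrder.Language.{0, 0}}

/-- The structure `(M, c)`, in the language with one additional constant symbol. -/
@[instance_reducible] def named {M : Type} (S : L.Structure M) (c : M) : (L[[Unit]]).Structure M :=
  @Language.sumStructure L (constantsOn Unit) M S (constantsOn.structure fun _ => c)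

/-- the reduct -/
@[instance_reducible] def rd {M : Type} (A : (L[[Unit]]).Structure M) : L.Structure M :=
  @LHom.reduct L (L[[Unit]]) (L.lhomWithConstants Unit) M A

/-- the value of the constant symbol -/
def cst {M : Type} (A : (L[[Unit]]).Structure M) : M :=
  @Structure.funMap (L[[Unit]]) M A 0 (L.con ()) (fun i => i.elim0)

theorem rd_named {M : Type} (S : L.Structure M) (c : M) : rd (named S c) = S := by
  ext <;> rfl

theorem rd_rel {M : Type} (A : (L[[Unit]]).Structure M) {n : ℕ} (R : L.Relations n)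
    (v : Fin n → M) : @Structure.RelMap L M (rd A) n R v ↔
      @Structure.RelMap (L[[Unit]]) M A n (Sum.inl R) v := Iff.rfl

/-- The reduct of a model of the theory of `(M, c)` is a model of the theory of `M`. -/
theorem rd_model {M N : Type} (S : L.Structure M) (c : M) (A : (L[[Unit]]).Structure N)
    (h : @Theory.Model (L[[Unit]]) N A (@completeTheory (L[[Unit]]) M (named S c))) :
    @Theory.Model L N (rd A) (@completeTheory L M S) := by
  refine (@Theory.model_iff L N (rd A) _).2 fun φ hφ => ?_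
  have h1 : (L.lhomWithConstants Unit).onSentence φ ∈ @completeTheory (L[[Unit]]) M (named S c) := by
    let _ := named S c
    let _ := S
    have : (L.lhomWithConstants Unit).IsExpansionOn M := ⟨fun _ _ => rfl, fun _ _ => rfl⟩
    exact (LHom.realize_onSentence M (L.lhomWithConstants Unit) φ).2 hφ
  have h2 := (@Theory.model_iff (L[[Unit]]) N A _).1 h _ h1
  let _ := A
  let _ := rd A
  have : (L.lhomWithConstants Unit).IsExpansionOn N := ⟨fun _ _ => rfl, fun _ _ => rfl⟩
  exact (LHom.realize_onSentence N (L.lhomWithConstants Unit) φ).1 h2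

/-- Atomic properties of the constant. -/
theorem rd_const {M N : Type} (S : L.Structure M) (c : M) (A : (L[[Unit]]).Structure N)
    (h : @Theory.Model (L[[Unit]]) N A (@completeTheory (L[[Unit]]) M (named S c)))
    (R : L.Relations 1) (hR : @Structure.RelMap L M S 1 R ![c]) :
    @Structure.RelMap L N (rd A) 1 R ![cst A] := by
  let t : (L[[Unit]]).Term (Empty ⊕ Fin 0) :=
    Term.func (L.con ()) (fun i => i.elim0)
  let σ : (L[[Unit]]).Sentence := BoundedFormula.rel (Sum.inl R : L.Relations 1 ⊕ _) ![t]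
  have key : ∀ (K : Type) (B : (L[[Unit]]).Structure K), @Sentence.Realize (L[[Unit]]) K B σ ↔
      @Structure.RelMap L K (rd B) 1 R ![cst B] := by
    intro K B
    change @Structure.RelMap (L[[Unit]]) K B 1 (Sum.inl R) _ ↔ _
    rw [rd_rel]
    have : (fun i => @Term.realize (L[[Unit]]) K B (Empty ⊕ Fin 0)
        (Sum.elim (default : Empty → K) (default : Fin 0 → K)) (![t] i)) = ![cst B] := by
      ext i
      fin_cases i
      change @Structure.funMap (L[[Unit]]) K B 0 _ _ = cst B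
      unfold cst
      congr 1
      exact funext fun i => i.elim0
    rw [this]
  have h1 : σ ∈ @completeTheory (L[[Unit]]) M (named S c) := by
    change @Sentence.Realize (L[[Unit]]) M (named S c) σ
    rw [key]
    exact hR
  exact (key N A).1 ((@Theory.model_iff (L[[Unit]]) N A _).1 h _ h1)

/-- Isomorphisms of structures with a named constant. -/
theorem liso_iff (A B : (L[[Unit]]).Structure ℕ) :
    Nonempty (@FirstOrder.Language.Equiv (L[[Unit]]) ℕ ℕ A B) ↔
      ∃ F : ℕ ≃ ℕ, LIso (rd A) (rd B) F ∧ F (cst A) = cst B := by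
  rw [lequiv_iff]
  constructor
  · rintro ⟨F, hF⟩
    refine ⟨F, ⟨fun R v => hF.rel (Sum.inl R) v, fun f v => hF.fn (Sum.inl f) v⟩, ?_⟩
    unfold cst
    rw [hF.fn]
    congr 1
    exact funext fun i => i.elim0
  · rintro ⟨F, hF, hc⟩
    refine ⟨F, ⟨fun {n} R v => ?_, fun {n} f v => ?_⟩⟩
    · rcases R with R | R
      · exact hF.rel R v
      · exact (R : Empty).elim
    · rcases f with f | f
      · exact hF.fn f v
      · match n, f, v with
        | 0, (), v =>
          change F (@Structure.funMap (L[[Unit]]) ℕ A 0 (L.con ()) v) =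
            @Structure.funMap (L[[Unit]]) ℕ B 0 (L.con ()) (F ∘ v)
          have e1 : v = fun i => i.elim0 := funext fun i => i.elim0
          have e2 : F ∘ v = fun i => i.elim0 := funext fun i => i.elim0
          rw [e2, e1]
          exact hc
        | n + 1, f, v => exact (f : PEmpty).elim

end gen

/-- The standard system with heights of infinite colour. -/
noncomputable def sI : Sy pW ⊤ (ℕ∞ ×ₗ ℚ) (ℕ × ((ℕ∞ ×ₗ ℚ) →₀ ℕ)) WW :=
  std (colC id) (colC_mono monotone_id) (fun _ _ => False)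

theorem sI_full : Full sI := fullW monotone_id (fun n => ⟨n, rfl⟩) _

/-- universe -/
abbrev UI : Type := Un (ℕ∞ ×ₗ ℚ) (ℕ × ((ℕ∞ ×ₗ ℚ) →₀ ℕ)) WW

instance : Infinite UI := Infinite.of_injective
  (fun n : ℕ => (Sum.inl (toLex ((n : ℕ∞), (0 : ℚ))) : UI)) (by
    intro i j h
    have h1 : (toLex ((i : ℕ∞), (0 : ℚ)) : ℕ∞ ×ₗ ℚ) = toLex ((j : ℕ∞), 0) := Sum.inl_injective h
    have h2 := congrArg (fun x : ℕ∞ ×ₗ ℚ => (ofLex x).1) h1
    exact ENat.natCast_inj.1 h2)

/-- the constant -/
def cI : UI := .inl (toLex (⊤, 0))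

theorem UI_model : @Theory.Model (Lg pW.ar) UI (str sI Empty) TW :=
  model_of_isoN (idx pW.ar) (str (sN fun _ _ => False) Empty) (str sI Empty)
    fun N => (sN_full _).isoN sI_full N

/-- the theory of the structure with the constant -/
def TC : ((Lg pW.ar)[[Unit]]).Theory :=
  @completeTheory ((Lg pW.ar)[[Unit]]) UI (named (str sI Empty) cI)

/-- the constant is the least height of infinite colour -/
def cLst (A : ((Lg pW.ar)[[Unit]]).Structure ℕ) : Prop :=
  ∀ m', (∀ n, rm (rd A) (.U n) ![m']) → ¬ rm (rd A) .Lt ![m', cst A]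

theorem TC_iso (A B : ((Lg pW.ar)[[Unit]]).Structure ℕ)
    (hA : @Theory.Model ((Lg pW.ar)[[Unit]]) ℕ A TC)
    (hB : @Theory.Model ((Lg pW.ar)[[Unit]]) ℕ B TC) :
    Nonempty (@FirstOrder.Language.Equiv ((Lg pW.ar)[[Unit]]) ℕ ℕ A B) ↔
      (∀ k, aTop (rd A) k ↔ aTop (rd B) k) ∧ (aLst (rd A) ↔ aLst (rd B)) ∧
      (∀ j, aJunk (rd A) j ↔ aJunk (rd B) j) ∧ (cLst A ↔ cLst B) := by
  have hc : ∀ {A : ((Lg pW.ar)[[Unit]]).Structure ℕ}, @Theory.Model ((Lg pW.ar)[[Unit]]) ℕ A TC →
      ∀ n, rm (rd A) (.U n) ![cst A] := by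
    intro A hA n
    refine rd_const (str sI Empty) cI A hA (.U n) ?_
    refine ⟨toLex (⊤, 0), rfl, ?_⟩
    change (n : ℕ∞) ≤ colC id (toLex (⊤, 0))
    exact le_top
  have hlf : ∀ {A B : ((Lg pW.ar)[[Unit]]).Structure ℕ} {F : ℕ ≃ ℕ},
      LIso (rd A) (rd B) F ↔ Isom (rd A) (rd B) F := by
    intro A B F
    exact ⟨fun h => ⟨fun R v => h.rel R v⟩, fun h => ⟨fun R v => h.pres R v,
      fun f _ => (f : Empty).elim⟩⟩
  rw [liso_iff]
  constructor
  · rintro ⟨F, hF, hF2⟩
    rw [hlf] at hF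
    have hF3 : F.symm (cst B) = cst A := by rw [Equiv.symm_apply_eq, hF2]
    refine ⟨fun k => ⟨hF.top, hF.symm.top⟩, ⟨hF.lst, hF.symm.lst⟩,
      fun j => ⟨hF.junk, hF.symm.junk⟩, ?_⟩
    have key : ∀ {A B : ((Lg pW.ar)[[Unit]]).Structure ℕ} {F : ℕ ≃ ℕ}, Isom (rd A) (rd B) F →
        F (cst A) = cst B → cLst A → cLst B := by
      intro A B F hF hF2 h m' h1 h2
      refine h (F.symm m') (fun n => ?_) ?_
      · rw [hF.one, Equiv.apply_symm_apply]; exact h1 n
      · rw [hF.two, Equiv.apply_symm_apply, hF2]; exact h2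
    exact ⟨key hF hF2, key hF.symm hF3⟩
  · rintro ⟨g1, g2, g3, g4⟩
    obtain ⟨lo, T, F, h1, h2, h3, h4, h5⟩ := rep sI_full (rd A) (rd_model _ _ A hA)
    obtain ⟨lo', T', F', h1', h2', h3', h4', h5'⟩ := rep sI_full (rd B) (rd_model _ _ B hB)
    let _ := lo
    let _ := lo'
    have r : Rep (rd A) T F := ⟨h1, h2, h3, h4, h5⟩
    have r' : Rep (rd B) T' F' := ⟨h1', h2', h3', h4', h5'⟩
    obtain ⟨j⟩ : Nonempty (JM (rd A) ≃ JM (rd B)) := junk_equiv g3
    have hT : ∀ k, TopL T k ↔ TopL T' k := fun k => by rw [← r.top_iff, ← r'.top_iff, g1]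
    have cA : CLeast T ⟨cst A, hc hA 0⟩ ↔ cLst A := by
      rw [r.lst_iff']
      exact ⟨fun h => h.2, fun h => ⟨hc hA, h⟩⟩
    have cB : CLeast T' ⟨cst B, hc hB 0⟩ ↔ cLst B := by
      rw [r'.lst_iff']
      exact ⟨fun h => h.2, fun h => ⟨hc hB, h⟩⟩
    have tA : T.c ⟨cst A, hc hA 0⟩ = ⊤ := by
      rw [← top_le_iff]
      exact le_of_nat fun n _ => (r.rU ⟨cst A, hc hA 0⟩ n).1 (hc hA n)
    have tB : T'.c ⟨cst B, hc hB 0⟩ = ⊤ := by
      rw [← top_le_iff]
      exact le_of_nat fun n _ => (r'.rU ⟨cst B, hc hB 0⟩ n).1 (hc hB n)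
    obtain ⟨f, g, e, hi, hf⟩ := classify_inf r.full r'.full (r.inf_iff.1 ⟨_, hc hA⟩)
      (r'.inf_iff.1 ⟨_, hc hB⟩) (by rw [← r.lst_iff, ← r'.lst_iff, g2]) hT
      (A := {(⟨cst A, hc hA 0⟩, ⟨cst B, hc hB 0⟩)}) (by
        constructor
        · rintro x x' y y' h1 h2
          cases h1; cases h2
          exact iff_of_false (@lt_irrefl _ lo.toPartialOrder.toPreorder _)
            (@lt_irrefl _ lo'.toPartialOrder.toPreorder _)
        · rintro x x' h1
          cases h1
          exact Prod.ext (tA.trans tB.symm) (propext (cA.trans (g4.trans cB.symm))))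
      (Set.finite_singleton _)
    obtain ⟨G, hG, hG2⟩ := isom_of r r' hi j
    refine ⟨G, hlf.2 hG, ?_⟩
    have h6 := hG2 ⟨cst A, hc hA 0⟩
    rw [hf _ _ rfl] at h6
    exact h6

end Pool.Agent.Y567.MD.StdW
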