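import Pool.Agent.Y567.MD.Full

/-!
Full systems have finitely many orbits of tuples, for finite parts of the language.
-/

set_option autoImplicit false

namespace Pool.Agent.Y567.MD

open Set FirstOrder FirstOrder.Language
open Pool.Agent.Y567.MC (Col Match AG tr tr_of_lt tr_of_le tr_eq_top le_tr tr_mono le_tr_iff)

theorem tr_congr {M : ℕ} {c c' : ℕ∞} (h : ∀ n : ℕ, n ≤ M → ((n : ℕ∞) ≤ c ↔ (n : ℕ∞) ≤ c')) :
    tr M c = tr M c' := by
  have key : ∀ {c c' : ℕ∞}, (∀ n : ℕ, n ≤ M → ((n : ℕ∞) ≤ c ↔ (n : ℕ∞) ≤ c')) →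
      tr M c ≤ tr M c' := by
    intro c c' h
    by_cases h1 : c' < M
    · rw [tr_of_lt h1]
      obtain ⟨n, rfl⟩ := ENat.ne_top_iff_exists.1 (ne_top_of_lt h1)
      have h2 : n < M := by exact_mod_cast h1
      have h3 : ¬ ((n + 1 : ℕ) : ℕ∞) ≤ c := by
        rw [h (n + 1) (by omega), Nat.cast_le]; omega
      have h4 : c ≤ n := by
        have := not_le.1 h3
        rw [Nat.cast_add, Nat.cast_one] at this
        exact Order.le_of_lt_add_one this
      rw [tr_of_lt (lt_of_le_of_lt h4 h1)]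
      exact h4
    · rw [tr_of_le (not_lt.1 h1)]; exact le_top
  exact le_antisymm (key h) (key fun n hn => (h n hn).symm)

variable {p : Par} {H Z W : Type} [LinearOrder H] (S : Sy p ⊤ H Z W)

/-- the universe -/
abbrev Un (H Z W : Type) : Type := H ⊕ Z ⊕ W ⊕ Empty

/-- the indices of the heights that belong to a tuple -/
abbrev Jn (n : ℕ) : Type := Fin n ⊕ Fin n ⊕ (Fin n × Fin n) ⊕ (Fin n × Fin n)

/-- the heights that belong to a tuple -/
def hv (M : ℕ) {n : ℕ} (a : Fin n → Un H Z W) : Jn n → H → Prop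
  | .inl i, x => a i = .inl x
  | .inr (.inl i), x => ∃ z, a i = .inr (.inl z) ∧ S.lev z < M ∧ ¬ (M : ℕ∞) ≤ S.cz z ∧ x = S.d z
  | .inr (.inr (.inl (i, j))), x => ∃ z w, a i = .inr (.inl z) ∧ a j = .inr (.inl w) ∧
      S.lev z < M ∧ S.lev z = S.lev w ∧ z ≠ w ∧ x = S.s z w
  | .inr (.inr (.inr (i, j))), x => p.con ∧ ∃ f g, a i = .inr (.inr (.inl f)) ∧
      a j = .inr (.inr (.inl g)) ∧ f ≠ g ∧ x = S.u f g

theorem hv_unique {M : ℕ} {n : ℕ} {a : Fin n → Un H Z W} {j : Jn n} {x y : H}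
    (hx : hv S M a j x) (hy : hv S M a j y) : x = y := by
  rcases j with i | i | ⟨i, j⟩ | ⟨i, j⟩
  · have h : a i = .inl x := hx
    have h' : a i = .inl y := hy
    rw [h] at h'
    simpa using h'
  · obtain ⟨z, h1, -, -, rfl⟩ := hx
    obtain ⟨z', h1', -, -, rfl⟩ := hy
    rw [h1] at h1'
    simp only [Sum.inr.injEq, Sum.inl.injEq] at h1'
    rw [h1']
  · obtain ⟨z, w, h1, h2, -, -, -, rfl⟩ := hx
    obtain ⟨z', w', h1', h2', -, -, -, rfl⟩ := hy
    rw [h1] at h1'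
    rw [h2] at h2'
    simp only [Sum.inr.injEq, Sum.inl.injEq] at h1' h2'
    rw [h1', h2']
  · obtain ⟨-, z, w, h1, h2, -, rfl⟩ := hx
    obtain ⟨-, z', w', h1', h2', -, rfl⟩ := hy
    rw [h1] at h1'
    rw [h2] at h2'
    simp only [Sum.inr.injEq, Sum.inl.injEq] at h1' h2'
    rw [h1', h2']

/-- the finite information about a tuple -/
structure Dat (p : Par) (M n : ℕ) where
  hc : Jn n → Fin (M + 1) → Prop
  ho : Jn n → Jn n → Prop
  zs : Fin n → Prop
  ws : Fin n → Prop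
  zl : Fin n → Fin M → Fin (M + 1) → Prop
  eq : Fin n → Fin n → Prop
  rr : Fin n → (Σ k : Fin M, (Fin (p.ar k) → Fin n)) → Prop

instance (p : Par) (M n : ℕ) : Finite (Dat p M n) := by
  have i1 : Finite (Σ k : Fin M, (Fin (p.ar k) → Fin n)) :=
    inferInstanceAs (Finite (Sigma fun k : Fin M => (Fin (p.ar k) → Fin n)))
  have i2 : Finite (Fin n → (Σ k : Fin M, (Fin (p.ar k) → Fin n)) → Prop) := inferInstance
  have i3 : Finite (Jn n → Fin (M + 1) → Prop) := inferInstance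
  have i4 : Finite (Jn n → Jn n → Prop) := inferInstance
  have i5 : Finite (Fin n → Fin M → Fin (M + 1) → Prop) := inferInstance
  have i6 : Finite (Fin n → Fin n → Prop) := inferInstance
  have i7 : Finite (Fin n → Prop) := inferInstance
  let f : Dat p M n → (Jn n → Fin (M + 1) → Prop) × (Jn n → Jn n → Prop) × (Fin n → Prop) ×
      (Fin n → Prop) × (Fin n → Fin M → Fin (M + 1) → Prop) × (Fin n → Fin n → Prop) ×
      (Fin n → (Σ k : Fin M, (Fin (p.ar k) → Fin n)) → Prop) :=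
    fun d => (d.hc, d.ho, d.zs, d.ws, d.zl, d.eq, d.rr)
  refine Finite.of_injective f ?_
  rintro ⟨a1, a2, a3, a4, a5, a6, a7⟩ ⟨b1, b2, b3, b4, b5, b6, b7⟩ h
  simp only [f, Prod.mk.injEq] at h
  obtain ⟨rfl, rfl, rfl, rfl, rfl, rfl, rfl⟩ := h
  rfl

/-- the data of a tuple -/
def dat (M : ℕ) {n : ℕ} (a : Fin n → Un H Z W) : Dat p M n where
  hc := fun j c => ∃ x, hv S M a j x ∧ ((c : ℕ) : ℕ∞) ≤ S.c x
  ho := fun j j' => ∃ x y, hv S M a j x ∧ hv S M a j' y ∧ x < y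
  zs := fun i => ∃ z, a i = .inr (.inl z)
  ws := fun i => ∃ w, a i = .inr (.inr (.inl w))
  zl := fun i k c => ∃ z, a i = .inr (.inl z) ∧ S.lev z = k ∧ ((c : ℕ) : ℕ∞) ≤ S.cz z
  eq := fun i j => a i = a j
  rr := fun i x => ∃ z, ∃ b : Fin (p.ar x.1) → W, a i = .inr (.inl z) ∧ S.lev z = x.1 ∧
    (∀ t, a (x.2 t) = .inr (.inr (.inl (b t)))) ∧ S.r z (List.ofFn b)

/-- Existence of an automorphism. -/
theorem Full.aut {S : Sy p ⊤ H Z W} [Countable H] [Countable Z] [Countable W] (hF : Full S) (N : ℕ)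
    {n : ℕ} (a b : Fin n → Un H Z W) (h : dat S (N + 1) a = dat S (N + 1) b) :
    ∃ F : Un H Z W ≃ Un H Z W, IsoN (idx p.ar) (str S Empty) (str S Empty) N F ∧
      ∀ i, F (a i) = b i := by
  classical
  obtain ⟨q, hq⟩ := hF.trunc_inf (N + 1)
  have hinf := hF.infinite (N + 1)
  have Ehc : ∀ j (c : ℕ), c ≤ N + 1 → ((∃ x, hv S (N + 1) a j x ∧ (c : ℕ∞) ≤ S.c x) ↔
      ∃ x, hv S (N + 1) b j x ∧ (c : ℕ∞) ≤ S.c x) := fun j c hc =>
    (congrFun (congrFun (congrArg Dat.hc h) j) ⟨c, by omega⟩).to_iff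
  have Eho : ∀ j j', ((∃ x y, hv S (N + 1) a j x ∧ hv S (N + 1) a j' y ∧ x < y) ↔
      ∃ x y, hv S (N + 1) b j x ∧ hv S (N + 1) b j' y ∧ x < y) := fun j j' =>
    (congrFun (congrFun (congrArg Dat.ho h) j) j').to_iff
  have Ezs : ∀ i, ((∃ z, a i = .inr (.inl z)) ↔ ∃ z, b i = .inr (.inl z)) := fun i =>
    (congrFun (congrArg Dat.zs h) i).to_iff
  have Ews : ∀ i, ((∃ w, a i = .inr (.inr (.inl w))) ↔ ∃ w, b i = .inr (.inr (.inl w))) := fun i =>
    (congrFun (congrArg Dat.ws h) i).to_iff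
  have Ezl : ∀ i (k c : ℕ), k < N + 1 → c ≤ N + 1 →
      ((∃ z, a i = .inr (.inl z) ∧ S.lev z = k ∧ (c : ℕ∞) ≤ S.cz z) ↔
      ∃ z, b i = .inr (.inl z) ∧ S.lev z = k ∧ (c : ℕ∞) ≤ S.cz z) := fun i k c hk hc =>
    (congrFun (congrFun (congrFun (congrArg Dat.zl h) i) ⟨k, hk⟩) ⟨c, by omega⟩).to_iff
  have Eeq : ∀ i j, (a i = a j ↔ b i = b j) := fun i j =>
    (congrFun (congrFun (congrArg Dat.eq h) i) j).to_iff
  have Err : ∀ i (k : ℕ) (hk : k < N + 1) (φ : Fin (p.ar k) → Fin n),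
      ((∃ z, ∃ c : Fin (p.ar k) → W, a i = .inr (.inl z) ∧ S.lev z = k ∧
        (∀ t, a (φ t) = .inr (.inr (.inl (c t)))) ∧ S.r z (List.ofFn c)) ↔
      (∃ z, ∃ c : Fin (p.ar k) → W, b i = .inr (.inl z) ∧ S.lev z = k ∧
        (∀ t, b (φ t) = .inr (.inr (.inl (c t)))) ∧ S.r z (List.ofFn c))) := fun i k hk φ =>
    (congrFun (congrFun (congrArg Dat.rr h) i) ⟨⟨k, hk⟩, φ⟩).to_iff
  -- levels and colours
  have hzl : ∀ {i z z'}, a i = .inr (.inl z) → b i = .inr (.inl z') → S.lev z < N + 1 →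
      S.lev z = S.lev z' ∧ tr (N + 1) (S.cz z) = tr (N + 1) (S.cz z') := by
    intro i z z' h1 h2 h3
    obtain ⟨z1, h4, h5, -⟩ := (Ezl i (S.lev z) 0 h3 (by omega)).1 ⟨z, h1, rfl, by simp⟩
    rw [h2] at h4
    simp only [Sum.inr.injEq, Sum.inl.injEq] at h4
    subst h4
    refine ⟨h5.symm, tr_congr fun c hc => ?_⟩
    have h6 := Ezl i (S.lev z) c h3 hc
    constructor
    · intro h7
      obtain ⟨z2, g1, -, g2⟩ := h6.1 ⟨z, h1, rfl, h7⟩
      rw [h2] at g1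
      simp only [Sum.inr.injEq, Sum.inl.injEq] at g1
      rw [g1]; exact g2
    · intro h7
      obtain ⟨z2, g1, -, g2⟩ := h6.2 ⟨z', h2, h5, h7⟩
      rw [h1] at g1
      simp only [Sum.inr.injEq, Sum.inl.injEq] at g1
      rw [g1]; exact g2
  have hzl' : ∀ {i z z'}, a i = .inr (.inl z) → b i = .inr (.inl z') → S.lev z' < N + 1 →
      S.lev z < N + 1 := by
    intro i z z' h1 h2 h3
    obtain ⟨z1, h4, h5, -⟩ := (Ezl i (S.lev z') 0 h3 (by omega)).2 ⟨z', h2, rfl, by simp⟩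
    rw [h1] at h4
    simp only [Sum.inr.injEq, Sum.inl.injEq] at h4
    subst h4
    rw [h5]; exact h3
  have hzeq : ∀ {i j} {z w z' w' : Z}, a i = .inr (.inl z) → b i = .inr (.inl z') →
      a j = .inr (.inl w) → b j = .inr (.inl w') → (z = w ↔ z' = w') := by
    intro i j z w z' w' h1 h2 h3 h4
    have := Eeq i j
    rw [h1, h2, h3, h4] at this
    simpa using this
  have hweq : ∀ {i j} {z w z' w' : W}, a i = .inr (.inr (.inl z)) → b i = .inr (.inr (.inl z')) →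
      a j = .inr (.inr (.inl w)) → b j = .inr (.inr (.inl w')) → (z = w ↔ z' = w') := by
    intro i j z w z' w' h1 h2 h3 h4
    have := Eeq i j
    rw [h1, h2, h3, h4] at this
    simpa using this
  -- the finite partial isomorphism
  let A : Set (H × H) := {x | ∃ j, hv S (N + 1) a j x.1 ∧ hv S (N + 1) b j x.2}
  let B : Set (Z × Z) := {x | ∃ i, a i = .inr (.inl x.1) ∧ b i = .inr (.inl x.2) ∧ S.lev x.1 < N + 1}
  let C : Set (W × W) := {x | ∃ i, a i = .inr (.inr (.inl x.1)) ∧ b i = .inr (.inr (.inl x.2))}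
  have hAf : A.Finite := by
    refine (Set.finite_iUnion (fun j : Jn n => (Set.Subsingleton.finite
      (s := {x : H × H | hv S (N + 1) a j x.1 ∧ hv S (N + 1) b j x.2}) ?_))).subset ?_
    · rintro ⟨x, x'⟩ ⟨h1, h2⟩ ⟨y, y'⟩ ⟨h3, h4⟩
      exact Prod.ext (hv_unique S h1 h3) (hv_unique S h2 h4)
    · rintro x ⟨j, hj⟩
      exact mem_iUnion.2 ⟨j, hj⟩
  have hBf : B.Finite := by
    refine (Set.finite_iUnion (fun i : Fin n => (Set.Subsingleton.finite
      (s := {x : Z × Z | a i = .inr (.inl x.1) ∧ b i = .inr (.inl x.2)}) ?_))).subset ?_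
    · rintro ⟨x, x'⟩ ⟨h1, h2⟩ ⟨y, y'⟩ ⟨h3, h4⟩
      simp only at h1 h2 h3 h4
      rw [h1] at h3
      rw [h2] at h4
      simp only [Sum.inr.injEq, Sum.inl.injEq] at h3 h4
      rw [h3, h4]
    · rintro x ⟨j, h1, h2, -⟩
      exact mem_iUnion.2 ⟨j, h1, h2⟩
  have hCf : C.Finite := by
    refine (Set.finite_iUnion (fun i : Fin n => (Set.Subsingleton.finite
      (s := {x : W × W | a i = .inr (.inr (.inl x.1)) ∧ b i = .inr (.inr (.inl x.2))}) ?_))).subset ?_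
    · rintro ⟨x, x'⟩ ⟨h1, h2⟩ ⟨y, y'⟩ ⟨h3, h4⟩
      simp only at h1 h2 h3 h4
      rw [h1] at h3
      rw [h2] at h4
      simp only [Sum.inr.injEq, Sum.inl.injEq] at h3 h4
      rw [h3, h4]
    · rintro x ⟨j, h1, h2⟩
      exact mem_iUnion.2 ⟨j, h1, h2⟩
  have hA : AG (fun x => tr (N + 1) (S.c x)) (fun x => tr (N + 1) (S.c x)) A := by
    refine ⟨?_, ?_⟩
    · rintro x x' y y' ⟨j, h1, h2⟩ ⟨j', h3, h4⟩
      constructor
      · intro hlt
        obtain ⟨s, t, h5, h6, h7⟩ := (Eho j j').1 ⟨x, y, h1, h3, hlt⟩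
        have e1 := hv_unique S h2 h5
        have e2 := hv_unique S h4 h6
        dsimp only at e1 e2
        rw [e1, e2]; exact h7
      · intro hlt
        obtain ⟨s, t, h5, h6, h7⟩ := (Eho j j').2 ⟨x', y', h2, h4, hlt⟩
        have e1 := hv_unique S h1 h5
        have e2 := hv_unique S h3 h6
        dsimp only at e1 e2
        rw [e1, e2]; exact h7
    · rintro x x' ⟨j, h1, h2⟩
      refine tr_congr fun c hc => ?_
      have h6 := Ehc j c hc
      constructor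
      · intro h7
        obtain ⟨t, g1, g2⟩ := h6.1 ⟨x, h1, h7⟩
        have e1 := hv_unique S h2 g1
        dsimp only at e1
        rw [e1]; exact g2
      · intro h7
        obtain ⟨t, g1, g2⟩ := h6.2 ⟨x', h2, h7⟩
        have e1 := hv_unique S h1 g1
        dsimp only at e1
        rw [e1]; exact g2
  have hB : BG (S.trunc (N + 1)) (S.trunc (N + 1)) A B := by
    refine ⟨?_, ?_, ?_, ?_, ?_, ?_⟩
    · rintro z z' w w' ⟨i, h1, h2, -⟩ ⟨j, h3, h4, -⟩
      exact hzeq h1 h2 h3 h4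
    · rintro z z' ⟨i, -, -, h3⟩
      change (S.lev z : ℕ∞) < (N + 1 : ℕ)
      exact_mod_cast h3
    · rintro z z' ⟨i, h1, h2, h3⟩
      exact (hzl h1 h2 h3).1
    · rintro z z' ⟨i, h1, h2, h3⟩
      exact (hzl h1 h2 h3).2
    · rintro z z' ⟨i, h1, h2, h3⟩ h4
      obtain ⟨h5, h6⟩ := hzl h1 h2 h3
      change tr (N + 1) (S.cz z) ≠ ⊤ at h4
      have h7 : ¬ ((N + 1 : ℕ) : ℕ∞) ≤ S.cz z := fun h => h4 (tr_of_le h)
      have h8 : ¬ ((N + 1 : ℕ) : ℕ∞) ≤ S.cz z' := fun h => h4 (by rw [h6]; exact tr_of_le h)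
      exact ⟨.inr (.inl i), ⟨z, h1, h3, h7, rfl⟩, ⟨z', h2, by rw [← h5]; exact h3, h8, rfl⟩⟩
    · rintro z z' w w' ⟨i, h1, h2, h3⟩ ⟨j, g1, g2, g3⟩ h4 h5
      have e1 := (hzl h1 h2 h3).1
      have e2 := (hzl g1 g2 g3).1
      change S.lev z = S.lev w at h4
      exact ⟨.inr (.inr (.inl (i, j))), ⟨z, w, h1, g1, h3, h4, h5, rfl⟩,
        ⟨z', w', h2, g2, by rw [← e1]; exact h3, by rw [← e1, ← e2]; exact h4,
          fun h => h5 ((hzeq h1 h2 g1 g2).2 h), rfl⟩⟩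
  have hC : WG (S.trunc (N + 1)) (S.trunc (N + 1)) A C := by
    refine ⟨?_, ?_⟩
    · rintro z z' w w' ⟨i, h1, h2⟩ ⟨j, h3, h4⟩
      exact hweq h1 h2 h3 h4
    · rintro hcon z z' w w' ⟨i, h1, h2⟩ ⟨j, g1, g2⟩ h5
      exact ⟨.inr (.inr (.inr (i, j))), ⟨hcon, z, w, h1, g1, h5, rfl⟩,
        ⟨hcon, z', w', h2, g2, fun h => h5 ((hweq h1 h2 g1 g2).2 h), rfl⟩⟩
  have hR : RG (S.trunc (N + 1)) (S.trunc (N + 1)) B C := by
    rintro z z' ⟨i, h1, h2, h3⟩ l hl hlen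
    change l.length = p.ar (S.lev z) at hlen
    change (S.r z _ ↔ S.r z' _)
    have hch : ∀ t : Fin (p.ar (S.lev z)), ∃ j, a j = .inr (.inr (.inl (l[(t : ℕ)]'(by omega)).1)) ∧
        b j = .inr (.inr (.inl (l[(t : ℕ)]'(by omega)).2)) := fun t => hl _ (List.getElem_mem _)
    choose φ hφ1 hφ2 using hch
    have e1 : l.map Prod.fst = List.ofFn (fun t : Fin (p.ar (S.lev z)) =>
        (l[(t : ℕ)]'(by omega)).1) := by
      apply List.ext_getElem (by simp [hlen])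
      intro t ht1 ht2
      simp
    have e2 : l.map Prod.snd = List.ofFn (fun t : Fin (p.ar (S.lev z)) =>
        (l[(t : ℕ)]'(by omega)).2) := by
      apply List.ext_getElem (by simp [hlen])
      intro t ht1 ht2
      simp
    rw [e1, e2]
    have h5 := (hzl h1 h2 h3).1
    have h6 := Err i (S.lev z) h3 φ
    constructor
    · intro h7
      obtain ⟨z1, c, g1, g2, g3, g4⟩ := h6.1 ⟨z, _, h1, rfl, hφ1, h7⟩
      rw [h2] at g1
      simp only [Sum.inr.injEq, Sum.inl.injEq] at g1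
      subst g1
      have : c = fun t : Fin (p.ar (S.lev z)) => (l[(t : ℕ)]'(by omega)).2 := by
        ext t
        have g5 := g3 t
        rw [hφ2 t] at g5
        simp only [Sum.inr.injEq, Sum.inl.injEq] at g5
        exact g5.symm
      rwa [this] at g4
    · intro h7
      obtain ⟨z1, c, g1, g2, g3, g4⟩ := h6.2 ⟨z', _, h2, h5.symm, hφ2, h7⟩
      rw [h1] at g1
      simp only [Sum.inr.injEq, Sum.inl.injEq] at g1
      subst g1
      have : c = fun t : Fin (p.ar (S.lev z)) => (l[(t : ℕ)]'(by omega)).1 := by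
        ext t
        have g5 := g3 t
        rw [hφ1 t] at g5
        simp only [Sum.inr.injEq, Sum.inl.injEq] at g5
        exact g5.symm
      rwa [this] at g4
  -- the points of high level
  obtain ⟨w, hw⟩ := extend_equiv (X := {z : Z // ¬ (S.lev z : ℕ∞) < (N + 1 : ℕ)})
    (Y := {z : Z // ¬ (S.lev z : ℕ∞) < (N + 1 : ℕ)})
    {x | ∃ i, a i = .inr (.inl x.1.1) ∧ b i = .inr (.inl x.2.1)} (by
      refine (Set.finite_iUnion (fun i : Fin n => (Set.Subsingleton.finite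
        (s := {x : {z : Z // ¬ (S.lev z : ℕ∞) < (N + 1 : ℕ)} ×
          {z : Z // ¬ (S.lev z : ℕ∞) < (N + 1 : ℕ)} |
          a i = .inr (.inl x.1.1) ∧ b i = .inr (.inl x.2.1)}) ?_))).subset ?_
      · rintro ⟨x, x'⟩ ⟨h1, h2⟩ ⟨y, y'⟩ ⟨h3, h4⟩
        simp only at h1 h2 h3 h4
        rw [h1] at h3
        rw [h2] at h4
        simp only [Sum.inr.injEq, Sum.inl.injEq] at h3 h4
        exact Prod.ext (Subtype.ext h3) (Subtype.ext h4)
      · rintro x ⟨j, h1, h2⟩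
        exact mem_iUnion.2 ⟨j, h1, h2⟩) (by
      rintro z z' w w' ⟨i, h1, h2⟩ ⟨j, h3, h4⟩
      have := hzeq h1 h2 h3 h4
      rw [Subtype.ext_iff, Subtype.ext_iff]
      exact this)
  obtain ⟨f, g, e, h1, h2, h3, h4, h5⟩ := iso_inf (S := S.trunc (N + 1)) (S' := S.trunc (N + 1))
    (A := A) (B := B) (C := C) (hF.match_trunc hF (N + 1)) (fun x x' h => h)
    (fun k _ => Iff.rfl) hq hq hF.ne hF.ne w (by
      by_cases hCe : C = ∅
      · exact Or.inl ⟨hA, hAf, hB, hBf, hCe⟩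
      · exact Or.inr ⟨hA, hAf, hB, empty_subset _, by simpa using hBf, hC, hCf,
          nonempty_iff_ne_empty.2 hCe, subset_univ _, hR⟩)
  refine ⟨bij f g e (Equiv.refl Empty), fun n R v hR => ?_, fun i => ?_⟩
  · refine (h1.rIso_trunc).rel_iff (Equiv.refl Empty) R v ?_
    exact_mod_cast Nat.lt_succ_of_le hR
  · rcases hai : a i with x | z | w1 | x
    · -- heights
      have h6 : hv S (N + 1) a (.inl i) x := hai
      obtain ⟨x', h7, -⟩ := (Ehc (.inl i) 0 (by omega)).1 ⟨x, h6, by simp⟩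
      have h8 : b i = .inl x' := h7
      rw [h8]
      have := h2 x x' ⟨.inl i, h6, h7⟩
      simp [bij, this]
    · obtain ⟨z', hbi⟩ := (Ezs i).1 ⟨z, hai⟩
      rw [hbi]
      by_cases hlz : S.lev z < N + 1
      · have := h3 z z' ⟨i, hai, hbi, hlz⟩ (by
          change (S.lev z : ℕ∞) < (N + 1 : ℕ); exact_mod_cast hlz)
        simp [bij, this]
      · have hlz' : ¬ S.lev z' < N + 1 := fun h => hlz (hzl' hai hbi h)
        have g1 : ¬ (S.lev z : ℕ∞) < (N + 1 : ℕ) := by exact_mod_cast hlz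
        have g2 : ¬ (S.lev z' : ℕ∞) < (N + 1 : ℕ) := by exact_mod_cast hlz'
        have g3 := h5 z g1
        have e := congrArg Subtype.val (hw ⟨z, g1⟩ ⟨z', g2⟩ ⟨i, hai, hbi⟩)
        have g4 := g3.trans e
        simp [bij, g4]
    · obtain ⟨w', hbi⟩ := (Ews i).1 ⟨w1, hai⟩
      rw [hbi]
      have := h4 w1 w' ⟨i, hai, hbi⟩
      simp [bij, this]
    · exact x.elim

theorem Full.oligo {S : Sy p ⊤ H Z W} [Countable H] [Countable Z] [Countable W] (hF : Full S)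
    (N : ℕ) : Oligo (idx p.ar) N (str S Empty) := fun n =>
  ⟨Dat p (N + 1) n, inferInstance, dat S (N + 1), fun a b h => hF.aut N a b h⟩

end Pool.Agent.Y567.MD
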