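import Pool.Agent.Y567.MD.IsoW
import Pool.Agent.Y567.MD.Bor

/-!
The coded structure is determined by the standard system; coding of structures.
-/

set_option autoImplicit false

namespace Pool.Agent.Y567.MD.StdW

open Set FirstOrder FirstOrder.Language MeasureTheory

section

variable {H : Type} [LinearOrder H] [Countable H] [Nonempty H] {col : H → ℕ∞} {hcol : Monotone col}
  {D D' : ℕ → List ℕ → Prop}

theorem top_of (hfin : ∀ x, col x ≠ ⊤) {z : ℕ × (H →₀ ℕ)} (h : ∀ n : ℕ, (n : ℕ∞) ≤ cf col z.2) :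
    z.2 = 0 := by
  by_contra hn
  have : cf col z.2 = ⊤ := top_le_iff.1 (le_of_nat fun n _ => h n)
  rw [cf_ne col hn] at this
  exact hfin _ this

/-- The image of the top points. -/
theorem isom_top (hfin : ∀ x, col x ≠ ⊤)
    {G : Un H (ℕ × (H →₀ ℕ)) WW ≃ Un H (ℕ × (H →₀ ℕ)) WW}
    (hG : Isom (str (std col hcol D) Empty) (str (std col hcol D') Empty) G) (k : ℕ) :
    G (.inr (.inl (k, 0))) = .inr (.inl (k, 0)) := by
  have h1 : ∀ n : ℕ, ∃ z : ℕ × (H →₀ ℕ), G (.inr (.inl (k, 0))) = .inr (.inl z) ∧ z.1 = k ∧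
      (n : ℕ∞) ≤ cf col z.2 := by
    intro n
    have := (hG.one (.P k n) (.inr (.inl (k, 0)))).1 ⟨(k, 0), rfl, rfl, by
      change (n : ℕ∞) ≤ cf col 0
      rw [cf_zero]; exact le_top⟩
    obtain ⟨z, g1, g2, g3⟩ := this
    exact ⟨z, g1, g2, g3⟩
  obtain ⟨z, h2, h3, -⟩ := h1 0
  have h4 : z.2 = 0 := by
    refine top_of hfin fun n => ?_
    obtain ⟨z', g1, -, g3⟩ := h1 n
    rw [h2] at g1
    have : z = z' := by simpa using g1
    rw [this]; exact g3
  rw [h2]
  have : z = (k, 0) := Prod.ext h3 h4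
  rw [this]

theorem exists_e {G : Un H (ℕ × (H →₀ ℕ)) WW ≃ Un H (ℕ × (H →₀ ℕ)) WW}
    (hG : Isom (str (std col hcol D) Empty) (str (std col hcol D') Empty) G) :
    ∃ e : WW → WW, ∀ w, G (.inr (.inr (.inl w))) = .inr (.inr (.inl (e w))) := by
  have h1 : ∀ w, ∃ w', G (.inr (.inr (.inl w))) = .inr (.inr (.inl w')) := by
    intro w
    obtain ⟨w', h2⟩ := (hG.one .V (.inr (.inr (.inl w)))).1 ⟨w, rfl⟩
    exact ⟨w', h2⟩
  choose e he using h1
  exact ⟨e, he⟩

theorem isom_rel (hfin : ∀ x, col x ≠ ⊤)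
    {G : Un H (ℕ × (H →₀ ℕ)) WW ≃ Un H (ℕ × (H →₀ ℕ)) WW}
    (hG : Isom (str (std col hcol D) Empty) (str (std col hcol D') Empty) G) {e : WW → WW}
    (he : ∀ w, G (.inr (.inr (.inl w))) = .inr (.inr (.inl (e w)))) (k : ℕ) (l : List WW)
    (hl : l.length = pW.ar k) (h : Rr D ((k, 0) : ℕ × (H →₀ ℕ)) l) :
    Rr D' ((k, 0) : ℕ × (H →₀ ℕ)) (l.map e) := by
  let a : Fin (pW.ar k) → WW := fun i => l[(i : ℕ)]'(by omega)
  have ha : List.ofFn a = l := by
    apply List.ext_getElem (by simp [hl])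
    intro i h1 h2
    simp [a]
  have h1 := (hG.pres (.Q k) (Fin.snoc (fun i => .inr (.inr (.inl (a i)))) (.inr (.inl (k, 0))))).1
    ⟨(k, 0), a, by rw [Fin.snoc_last], fun i => by rw [Fin.snoc_castSucc], rfl, by
      rw [ha]; exact h⟩
  obtain ⟨z, b, h2, h3, h4, h5⟩ := h1
  simp only [Function.comp, Fin.snoc_last, Fin.snoc_castSucc] at h2 h3
  rw [isom_top hfin hG] at h2
  have hz : (k, 0) = z := by simpa using h2
  have hb : b = e ∘ a := by
    ext1 i
    have := h3 i
    rw [he] at this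
    simpa using this.symm
  rw [← hz, hb, ← List.map_ofFn, ha] at h5
  exact h5

/-- Isomorphic standard systems have isomorphic coded structures. -/
theorem diso_of_isom (hfin : ∀ x, col x ≠ ⊤)
    (hD : ∀ a b, D (Nat.pair 0 1) [a, b] ↔ a = b) (hD' : ∀ a b, D' (Nat.pair 0 1) [a, b] ↔ a = b)
    {G : Un H (ℕ × (H →₀ ℕ)) WW ≃ Un H (ℕ × (H →₀ ℕ)) WW}
    (hG : Isom (str (std col hcol D) Empty) (str (std col hcol D') Empty) G) :
    ∃ φ : ℕ ≃ ℕ, DIso D D' φ := by
  obtain ⟨e, he⟩ := exists_e hG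
  obtain ⟨e', he'⟩ := exists_e hG.symm
  have hee : ∀ w, e' (e w) = w := by
    intro w
    have := he' (e w)
    rw [← he w, Equiv.symm_apply_apply] at this
    simpa using this.symm
  have hee' : ∀ w, e (e' w) = w := by
    intro w
    have := he (e' w)
    rw [← he' w, Equiv.apply_symm_apply] at this
    simpa using this.symm
  have hrel : ∀ k (l : List WW), l.length = pW.ar k → (Rr D ((k, 0) : ℕ × (H →₀ ℕ)) l ↔
      Rr D' ((k, 0) : ℕ × (H →₀ ℕ)) (l.map e)) := by
    intro k l hl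
    refine ⟨isom_rel hfin hG he k l hl, fun h => ?_⟩
    have := isom_rel hfin hG.symm he' k (l.map e) (by simpa using hl) h
    rw [List.map_map] at this
    have e1 : e' ∘ e = id := by ext1 w; exact hee w
    rwa [e1, List.map_id] at this
  -- the coded relations
  have key : ∀ j (l : List WW), l.length = (Nat.unpair j).2 + 1 →
      (D j (l.map Prod.fst) ↔ D' j ((l.map e).map Prod.fst)) := by
    intro j l hl
    obtain ⟨N, hN⟩ := default_rel (H := H) D l
    obtain ⟨N', hN'⟩ := default_rel (H := H) D' (l.map e)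
    have hk : max N N' ≤ Nat.pair j (max N N') := Nat.right_le_pair _ _
    have h1 := hN _ ((le_max_left _ _).trans hk)
    have h2 := hN' _ ((le_max_right _ _).trans hk)
    have h3 := hrel (Nat.pair j (max N N')) l (by
      change l.length = (Nat.unpair (Nat.unpair _).1).2 + 1
      rw [Nat.unpair_pair]; exact hl)
    rw [Nat.unpair_pair] at h1 h2
    rw [← h1, h3, h2]
  have hlab : ∀ w w' : WW, w.1 = w'.1 ↔ (e w).1 = (e w').1 := by
    intro w w'
    have := key (Nat.pair 0 1) [w, w'] (by rw [Nat.unpair_pair]; rfl)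
    simp only [List.map_cons, List.map_nil] at this
    rwa [hD, hD'] at this
  have hbij : Function.Bijective (fun a : ℕ => (e (a, 0)).1) := by
    constructor
    · intro a b hab
      exact (hlab (a, 0) (b, 0)).2 hab
    · intro b
      refine ⟨(e' (b, 0)).1, ?_⟩
      have := (hlab ((e' (b, 0)).1, 0) (e' (b, 0))).1 rfl
      rw [hee'] at this
      exact this
  refine ⟨Equiv.ofBijective _ hbij, fun j l hl => ?_⟩
  have := key j (l.map fun a => (a, 0)) (by simpa using hl)
  rw [List.map_map, List.map_map, List.map_map] at this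
  have e1 : (Prod.fst ∘ fun a : ℕ => ((a, 0) : WW)) = id := rfl
  rw [e1, List.map_id] at this
  exact this

/-- The relations depend on the coded structure at one place only. -/
theorem rel_D (J : Type) {n : ℕ} (R : Rl pW.ar n) (v : Fin n → H ⊕ (ℕ × (H →₀ ℕ)) ⊕ WW ⊕ J) :
    ∃ (j : ℕ) (l : List ℕ) (ψ : Prop → Prop), ∀ D : ℕ → List ℕ → Prop,
      (rel (std col hcol D) J R v ↔ ψ (D j l)) := by
  cases R with
  | U n => exact ⟨0, [], fun _ => rel (std col hcol fun _ _ => False) J (.U n) v, fun x => Iff.rfl⟩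
  | P k n => exact ⟨0, [], fun _ => rel (std col hcol fun _ _ => False) J (.P k n) v, fun x => Iff.rfl⟩
  | V => exact ⟨0, [], fun _ => rel (std col hcol fun _ _ => False) J .V v, fun x => Iff.rfl⟩
  | Lt => exact ⟨0, [], fun _ => rel (std col hcol fun _ _ => False) J .Lt v, fun x => Iff.rfl⟩
  | D k => exact ⟨0, [], fun _ => rel (std col hcol fun _ _ => False) J (.D k) v, fun x => Iff.rfl⟩
  | E => exact ⟨0, [], fun _ => rel (std col hcol fun _ _ => False) J .E v, fun x => Iff.rfl⟩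
  | Q k =>
    by_cases h : ∃ z, ∃ a : Fin (pW.ar k) → WW, v (Fin.last _) = .inr (.inl z) ∧
      ∀ i, v i.castSucc = .inr (.inr (.inl (a i)))
    · obtain ⟨z, a, h1, h2⟩ := h
      refine ⟨(Nat.unpair z.1).1, (List.ofFn a).map Prod.fst, fun b => z.1 = k ∧
        ((∃ w, Nw w (List.ofFn a) ∧ (z, red w (List.ofFn a)) ∈ (dW H w.2).1 ∧
          (z, red w (List.ofFn a)) ∈ (dW H w.2).2) ∨
        (¬ Dc z (List.ofFn a) ∧ ((z.2 = 0 ∧ b) ∨ (z.2 ≠ 0 ∧ (List.ofFn a) ∈ dZ (lastv z.2))))),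
        fun D => ?_⟩
      constructor
      · rintro ⟨z', a', g1, g2, g3, g4⟩
        rw [h1] at g1
        have e1 : z = z' := by simpa using g1
        have e2 : a = a' := by
          ext1 i
          have := g2 i
          rw [h2] at this
          simpa using this
        rw [← e1] at g3 g4
        rw [← e2] at g4
        exact ⟨g3, g4⟩
      · rintro ⟨g3, g4⟩
        exact ⟨z, a, h1, h2, g3, g4⟩
    · refine ⟨0, [], fun _ => False, fun D => ?_⟩
      constructor
      · rintro ⟨z, a, g1, g2, -⟩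
        exact h ⟨z, a, g1, g2⟩
      · exact fun h => h.elim

end

section code

variable {L : FirstOrder.Language.{0, 0}} (eR : (Σ n, L.Relations n) → ℕ)
  (eF : (Σ n, L.Functions n) → ℕ)

/-- coded structure -/
def DA (A : L.Structure ℕ) (j : ℕ) (l : List ℕ) : Prop :=
  (j = Nat.pair 0 1 ∧ ∃ a, l = [a, a]) ∨
  (∃ (n : ℕ) (R : L.Relations n) (v : Fin n → ℕ) (y : ℕ), j = Nat.pair (2 * eR ⟨n, R⟩ + 1) n ∧
    l = List.ofFn (Fin.snoc v y : Fin (n + 1) → ℕ) ∧ @Structure.RelMap L ℕ A n R v) ∨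
  (∃ (n : ℕ) (f : L.Functions n) (v : Fin n → ℕ), j = Nat.pair (2 * eF ⟨n, f⟩ + 2) n ∧
    l = List.ofFn (Fin.snoc v (@Structure.funMap L ℕ A n f v) : Fin (n + 1) → ℕ))

theorem snoc_inj {n : ℕ} {v v' : Fin n → ℕ} {y y' : ℕ}
    (h : List.ofFn (Fin.snoc v y : Fin (n + 1) → ℕ) = List.ofFn (Fin.snoc v' y' : Fin (n + 1) → ℕ)) :
    v = v' ∧ y = y' := by
  have h1 := List.ofFn_injective h
  constructor
  · ext i
    have := congrFun h1 i.castSucc
    simpa using this
  · have := congrFun h1 (Fin.last n)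
    simpa using this

variable {eR eF}

theorem DA_eq (A : L.Structure ℕ) (a b : ℕ) : DA eR eF A (Nat.pair 0 1) [a, b] ↔ a = b := by
  constructor
  · rintro (⟨-, c, hc⟩ | ⟨n, R, v, y, h1, -⟩ | ⟨n, f, v, h1, -⟩)
    · simp only [List.cons.injEq, and_true] at hc
      rw [hc.1, hc.2]
    · have := (Nat.pair_eq_pair.1 h1).1
      omega
    · have := (Nat.pair_eq_pair.1 h1).1
      omega
  · rintro rfl
    exact Or.inl ⟨rfl, a, rfl⟩

theorem DA_rel (hR : Function.Injective eR) (A : L.Structure ℕ) {n : ℕ} (R : L.Relations n)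
    (v : Fin n → ℕ) (y : ℕ) : DA eR eF A (Nat.pair (2 * eR ⟨n, R⟩ + 1) n)
      (List.ofFn (Fin.snoc v y : Fin (n + 1) → ℕ)) ↔ @Structure.RelMap L ℕ A n R v := by
  constructor
  · rintro (⟨h1, -⟩ | ⟨m, R', v', y', h1, h2, h3⟩ | ⟨m, f, v', h1, -⟩)
    · have := (Nat.pair_eq_pair.1 h1).1
      omega
    · obtain ⟨h4, rfl⟩ := Nat.pair_eq_pair.1 h1
      have h5 : eR ⟨n, R⟩ = eR ⟨n, R'⟩ := by omega
      have h6 := hR h5
      simp only [Sigma.mk.injEq, heq_eq_eq, true_and] at h6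
      subst h6
      obtain ⟨rfl, -⟩ := snoc_inj h2
      exact h3
    · have := (Nat.pair_eq_pair.1 h1).1
      omega
  · exact fun h => Or.inr (Or.inl ⟨n, R, v, y, rfl, rfl, h⟩)

theorem DA_fun (hF : Function.Injective eF) (A : L.Structure ℕ) {n : ℕ} (f : L.Functions n)
    (v : Fin n → ℕ) (y : ℕ) : DA eR eF A (Nat.pair (2 * eF ⟨n, f⟩ + 2) n)
      (List.ofFn (Fin.snoc v y : Fin (n + 1) → ℕ)) ↔ @Structure.funMap L ℕ A n f v = y := by
  constructor
  · rintro (⟨h1, -⟩ | ⟨m, R', v', y', h1, -⟩ | ⟨m, f', v', h1, h2⟩)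
    · have := (Nat.pair_eq_pair.1 h1).1
      omega
    · have := (Nat.pair_eq_pair.1 h1).1
      omega
    · obtain ⟨h4, rfl⟩ := Nat.pair_eq_pair.1 h1
      have h5 : eF ⟨n, f⟩ = eF ⟨n, f'⟩ := by omega
      have h6 := hF h5
      simp only [Sigma.mk.injEq, heq_eq_eq, true_and] at h6
      subst h6
      obtain ⟨rfl, h7⟩ := snoc_inj h2
      exact h7.symm
  · rintro rfl
    exact Or.inr (Or.inr ⟨n, f, v, rfl, rfl⟩)

/-- `F` is an isomorphism -/
structure LIso {M N : Type} (A : L.Structure M) (B : L.Structure N) (F : M ≃ N) : Prop where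
  rel : ∀ {n : ℕ} (R : L.Relations n) (v : Fin n → M),
    @Structure.RelMap L M A n R v ↔ @Structure.RelMap L N B n R (F ∘ v)
  fn : ∀ {n : ℕ} (f : L.Functions n) (v : Fin n → M),
    F (@Structure.funMap L M A n f v) = @Structure.funMap L N B n f (F ∘ v)

theorem LIso.symm {M N : Type} {A : L.Structure M} {B : L.Structure N} {F : M ≃ N}
    (h : LIso A B F) : LIso B A F.symm := by
  refine ⟨fun {n} R v => ?_, fun {n} f v => ?_⟩
  · rw [h.rel R (F.symm ∘ v)]
    have : F ∘ (F.symm ∘ v) = v := by ext i; simp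
    rw [this]
  · rw [Equiv.symm_apply_eq, h.fn]
    have : F ∘ (F.symm ∘ v) = v := by ext i; simp
    rw [this]

theorem lequiv_iff' {M N : Type} [A : L.Structure M] [B : L.Structure N] :
    Nonempty (M ≃[L] N) ↔ ∃ F : M ≃ N, LIso A B F := by
  constructor
  · rintro ⟨F⟩
    exact ⟨F.toEquiv, ⟨fun R v => (F.map_rel' R v).symm, fun f v => F.map_fun' f v⟩⟩
  · rintro ⟨F, h⟩
    exact ⟨{ toEquiv := F, map_fun' := fun f v => h.fn f v, map_rel' := fun R v => (h.rel R v).symm }⟩

theorem lequiv_iff (A B : L.Structure ℕ) : Nonempty (@FirstOrder.Language.Equiv L ℕ ℕ A B) ↔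
    ∃ F : ℕ ≃ ℕ, LIso A B F := @lequiv_iff' L ℕ ℕ A B

theorem map_snoc {n : ℕ} (φ : ℕ ≃ ℕ) (v : Fin n → ℕ) (y : ℕ) :
    (List.ofFn (Fin.snoc v y : Fin (n + 1) → ℕ)).map φ =
      List.ofFn (Fin.snoc (φ ∘ v) (φ y) : Fin (n + 1) → ℕ) := by
  rw [List.map_ofFn]
  congr 1
  ext i
  refine Fin.lastCases ?_ (fun i => ?_) i
  · simp
  · simp

theorem DA_map {A B : L.Structure ℕ} {F : ℕ ≃ ℕ} (hF : LIso A B F) {j : ℕ}
    {l : List ℕ} (h : DA eR eF A j l) : DA eR eF B j (l.map F) := by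
  rcases h with ⟨h1, a, rfl⟩ | ⟨n, R, v, y, h1, rfl, h3⟩ | ⟨n, f, v, h1, rfl⟩
  · exact Or.inl ⟨h1, F a, rfl⟩
  · exact Or.inr (Or.inl ⟨n, R, F ∘ v, F y, h1, map_snoc F v y, (hF.rel R v).1 h3⟩)
  · refine Or.inr (Or.inr ⟨n, f, F ∘ v, h1, ?_⟩)
    rw [map_snoc, hF.fn]

/-- Isomorphism of structures and of coded structures. -/
theorem DA_iso (hR : Function.Injective eR) (hF : Function.Injective eF) (A B : L.Structure ℕ) :
    Nonempty (@FirstOrder.Language.Equiv L ℕ ℕ A B) ↔
      ∃ φ : ℕ ≃ ℕ, DIso (DA eR eF A) (DA eR eF B) φ := by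
  rw [lequiv_iff]
  constructor
  · rintro ⟨F, hFF⟩
    refine ⟨F, fun j l _ => ⟨fun h => DA_map hFF h, fun h => ?_⟩⟩
    have := DA_map hFF.symm h
    rw [List.map_map] at this
    have e1 : ((F.symm : ℕ → ℕ) ∘ (F : ℕ → ℕ)) = id := by
      ext x
      simp
    rwa [e1, List.map_id] at this
  · rintro ⟨φ, h⟩
    refine ⟨φ, ⟨fun {n} R v => ?_, fun {n} f v => ?_⟩⟩
    · have h1 := h (Nat.pair (2 * eR ⟨n, R⟩ + 1) n)
        (List.ofFn (Fin.snoc v 0 : Fin (n + 1) → ℕ)) (by simp)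
      rw [DA_rel hR, map_snoc, DA_rel hR] at h1
      exact h1
    · have h1 := h (Nat.pair (2 * eF ⟨n, f⟩ + 2) n)
        (List.ofFn (Fin.snoc v (@Structure.funMap L ℕ A n f v) : Fin (n + 1) → ℕ)) (by simp)
      rw [DA_fun hF, map_snoc, DA_fun hF] at h1
      exact (h1.1 rfl).symm

theorem mS_fun (L : FirstOrder.Language.{0, 0}) {n : ℕ} (f : L.Functions n) (v : Fin n → ℕ) :
    Measurable[mS L] (fun S : L.Structure ℕ => @Structure.funMap L ℕ S n f v) := by
  have h1 : Measurable[mS L] (fun S : L.Structure ℕ =>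
        (((fun n (f : L.Functions n) =>
            FirstOrder.Language.Structure.funMap (L := L) (M := ℕ) f),
          (fun n (r : L.Relations n) =>
            FirstOrder.Language.Structure.RelMap (L := L) (M := ℕ) r)) :
          ((n : ℕ) → L.Functions n → (Fin n → ℕ) → ℕ) ×
          ((n : ℕ) → L.Relations n → (Fin n → ℕ) → Prop))) := by
    intro s hs
    exact ⟨s, hs, rfl⟩
  have h2 : Measurable (fun q : ((n : ℕ) → L.Functions n → (Fin n → ℕ) → ℕ) ×
          ((n : ℕ) → L.Relations n → (Fin n → ℕ) → Prop) => q.1 n f v) := by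
    exact (measurable_pi_apply v).comp ((measurable_pi_apply f).comp
      ((measurable_pi_apply n).comp measurable_fst))
  exact h2.comp h1

theorem DA_meas [Countable L.Symbols] (j : ℕ) (l : List ℕ) :
    Measurable[mS L] (fun A : L.Structure ℕ => DA eR eF A j l) := by
  have cR : ∀ n, Countable (L.Relations n) := fun n =>
    (show Function.Injective (fun R : L.Relations n => (Sum.inr ⟨n, R⟩ : L.Symbols)) by
      intro R R' h
      simpa using h).countable
  have cF : ∀ n, Countable (L.Functions n) := fun n =>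
    (show Function.Injective (fun R : L.Functions n => (Sum.inl ⟨n, R⟩ : L.Symbols)) by
      intro R R' h
      simpa using h).countable
  let _ := mS L
  refine Measurable.or measurable_const (Measurable.or ?_ ?_)
  · refine Measurable.exists fun n => Measurable.exists fun R => Measurable.exists fun v =>
      Measurable.exists fun y => measurable_const.and (measurable_const.and (mS_rel L R v))
  · refine Measurable.exists fun n => Measurable.exists fun f => Measurable.exists fun v =>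
      measurable_const.and ?_
    exact (measurable_of_countable (fun y : ℕ => l = List.ofFn (Fin.snoc v y : Fin (n + 1) → ℕ))).comp
      (mS_fun L f v)

end code

end Pool.Agent.Y567.MD.StdW
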