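import Pool.Agent.Y567.MD.StdE

/-!
The standard system without metric on `W`, over an arbitrary coloured linear order. The set `W`
consists of pairs of a label and a code.
-/

set_option autoImplicit false

namespace Pool.Agent.Y567.MD.StdW

open Set

/-- the parameters: level `k` belongs to the relation of number `(unpair k).1` -/
def pW : Par := ⟨fun k => (Nat.unpair (Nat.unpair k).1).2 + 1, False, fun h => h.elim,
  fun _ => Nat.succ_ne_zero _⟩

section phase

variable {H : Type} [LinearOrder H]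

/-- least difference of two functions -/
noncomputable def sg (f g : H →₀ ℕ) : WithTop H := (f.neLocus g).min

theorem le_sg {f g : H →₀ ℕ} {x : WithTop H} :
    x ≤ sg f g ↔ ∀ u : H, (u : WithTop H) < x → f u = g u := by
  unfold sg
  rw [Finset.le_min_iff]
  constructor
  · intro h u hu
    by_contra hn
    exact absurd (h u (by simpa using hn)) (not_le.2 hu)
  · intro h u hu
    by_contra hn
    exact (by simpa using hu : f u ≠ g u) (h u (not_le.1 hn))

theorem sg_comm (f g : H →₀ ℕ) : sg f g = sg g f := by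
  unfold sg; rw [Finsupp.neLocus_comm]

theorem sg_top {f g : H →₀ ℕ} : sg f g = ⊤ ↔ f = g := by
  rw [← top_le_iff, le_sg]
  constructor
  · intro h; ext u; exact h u (WithTop.coe_lt_top u)
  · rintro rfl u _; rfl

theorem sg_tri {f g h : H →₀ ℕ} : min (sg f g) (sg g h) ≤ sg f h := by
  rw [le_sg]
  intro u hu
  obtain ⟨h1, h2⟩ := lt_min_iff.1 hu
  exact (le_sg.1 le_rfl u h1).trans (le_sg.1 le_rfl u h2)

theorem sg_of {f g : H →₀ ℕ} {q : H} (h1 : ∀ u, u < q → f u = g u) (h2 : f q ≠ g q) :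
    sg f g = q := by
  refine le_antisymm ?_ (le_sg.2 fun u hu => h1 u (WithTop.coe_lt_coe.1 hu))
  by_contra hn
  exact h2 (le_sg.1 le_rfl q (not_le.1 hn))

variable [Nonempty H]

/-- the value at the last point of the support -/
noncomputable def lastv (f : H →₀ ℕ) : ℕ := f (f.support.max.unbotD (Classical.arbitrary H))

/-- The new coordinate. -/
theorem exists_coord (f0 : H →₀ ℕ) (q : H) (r : ℕ) (hr : r ≠ 0) :
    ∃ f : H →₀ ℕ, (∀ u, u < q → f u = f0 u) ∧ f q = r ∧ f ≠ 0 ∧ lastv f = r := by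
  classical
  refine ⟨(f0.filter (· < q)).update q r, ?_, ?_, ?_, ?_⟩
  · intro u hu
    rw [Finsupp.coe_update, Function.update_of_ne hu.ne, Finsupp.filter_apply, if_pos hu]
  · rw [Finsupp.coe_update, Function.update_self]
  · intro h
    have := DFunLike.congr_fun h q
    rw [Finsupp.coe_update, Function.update_self] at this
    exact hr this
  · have hmax : ((f0.filter (· < q)).update q r).support.max = (q : WithBot H) := by
      refine le_antisymm (Finset.max_le ?_) (Finset.le_max ?_)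
      · intro u hu
        rw [Finsupp.mem_support_iff, Finsupp.coe_update] at hu
        by_cases huq : u = q
        · rw [huq]
        · rw [Function.update_of_ne huq, Finsupp.filter_apply] at hu
          have : u < q := by
            by_contra hn
            rw [if_neg hn] at hu
            exact hu rfl
          exact_mod_cast this.le
      · rw [Finsupp.mem_support_iff, Finsupp.coe_update, Function.update_self]
        exact hr
    rw [lastv, hmax, WithBot.unbotD_coe, Finsupp.coe_update, Function.update_self]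

/-- distance -/
noncomputable def ds (f g : H →₀ ℕ) : H := (sg f g).untopD (Classical.arbitrary H)

theorem coe_ds {f g : H →₀ ℕ} (h : f ≠ g) : ((ds f g : H) : WithTop H) = sg f g := by
  obtain ⟨y, hy⟩ := WithTop.ne_top_iff_exists.1 (fun h1 => h (sg_top.1 h1))
  rw [ds, ← hy, WithTop.untopD_coe]

theorem ds_comm (f g : H →₀ ℕ) : ds f g = ds g f := by unfold ds; rw [sg_comm]

theorem ds_tri {f g h : H →₀ ℕ} (h1 : f ≠ g) (h2 : g ≠ h) (h3 : f ≠ h) :
    min (ds f g) (ds g h) ≤ ds f h := by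
  rw [← WithTop.coe_le_coe, WithTop.coe_min, coe_ds h1, coe_ds h2, coe_ds h3]
  exact sg_tri

theorem ds_of {f g : H →₀ ℕ} {q : H} (h1 : ∀ u, u < q → f u = g u) (h2 : f q ≠ g q) :
    f ≠ g ∧ ds f g = q := by
  refine ⟨fun h => h2 (by rw [h]), ?_⟩
  rw [ds, sg_of h1 h2, WithTop.untopD_coe]

theorem le_ds {f g : H →₀ ℕ} {q : H} (hne : f ≠ g) (h : q ≤ ds f g) {u : H} (hu : u < q) :
    f u = g u := by
  rw [← WithTop.coe_le_coe, coe_ds hne] at h
  exact le_sg.1 h u (WithTop.coe_lt_coe.2 hu)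

end phase

/-- the set `W`: labels and codes -/
abbrev WW : Type := ℕ × ℕ

/-- the newest element of a list -/
def Nw (w : WW) (l : List WW) : Prop := w ∈ l ∧ ∀ w' ∈ l, w' = w ∨ w'.2 < w.2

theorem Nw.unique {w w' : WW} {l : List WW} (h : Nw w l) (h' : Nw w' l) : w = w' := by
  rcases h.2 w' h'.1 with h1 | h1
  · exact h1.symm
  rcases h'.2 w h.1 with h2 | h2
  · exact h2
  omega

/-- the list relative to an element -/
def red (w : WW) (l : List WW) : List (Option WW) := l.map fun w' => if w' = w then none else some w'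

theorem red_map (w : WW) (l : List (Option WW)) (h : ∀ g, some g ∈ l → g ≠ w) :
    red w (l.map fun x => x.getD w) = l := by
  unfold red
  rw [List.map_map]
  conv_rhs => rw [← List.map_id l]
  refine List.map_congr_left fun x hx => ?_
  cases x with
  | none => simp
  | some g => simp [h g hx]

/-- lists of given length over a finite set -/
theorem finite_lists {X : Type} {V : Set X} (hV : V.Finite) (n : ℕ) :
    {l : List X | (∀ w ∈ l, w ∈ V) ∧ l.length = n}.Finite := by
  have := hV.to_subtype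
  refine (Set.finite_range (fun f : Fin n → V => List.ofFn fun i => (f i).1)).subset ?_
  rintro l ⟨h1, h2⟩
  subst h2
  refine ⟨fun i => ⟨l[i], h1 _ (List.getElem_mem _)⟩, ?_⟩
  apply List.ext_getElem (by simp)
  intro i h3 h4
  simp

section sys

variable (H : Type) [LinearOrder H] [Countable H]

/-- codes -/
noncomputable def dW : ℕ → Finset ((ℕ × (H →₀ ℕ)) × List (Option WW)) ×
    Finset ((ℕ × (H →₀ ℕ)) × List (Option WW)) :=
  (exists_dec (Finset ((ℕ × (H →₀ ℕ)) × List (Option WW)) ×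
    Finset ((ℕ × (H →₀ ℕ)) × List (Option WW)))).choose

theorem dW_inf (b : Finset ((ℕ × (H →₀ ℕ)) × List (Option WW)) ×
    Finset ((ℕ × (H →₀ ℕ)) × List (Option WW))) : {n | dW H n = b}.Infinite :=
  (exists_dec (Finset ((ℕ × (H →₀ ℕ)) × List (Option WW)) ×
    Finset ((ℕ × (H →₀ ℕ)) × List (Option WW)))).choose_spec b

/-- codes -/
noncomputable def dZ : ℕ → Finset (List WW) := (exists_dec (Finset (List WW))).choose

theorem dZ_inf (b : Finset (List WW)) : {n | dZ n = b}.Infinite :=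
  (exists_dec (Finset (List WW))).choose_spec b

variable {H} [Nonempty H]

/-- the code of the newest element decides -/
def Dc (z : ℕ × (H →₀ ℕ)) (l : List WW) : Prop := ∃ w, Nw w l ∧ (z, red w l) ∈ (dW H w.2).1

/-- the relation, in dependence on the coded structure `D` -/
def Rr (D : ℕ → List ℕ → Prop) (z : ℕ × (H →₀ ℕ)) (l : List WW) : Prop :=
  (∃ w, Nw w l ∧ (z, red w l) ∈ (dW H w.2).1 ∧ (z, red w l) ∈ (dW H w.2).2) ∨
    (¬ Dc z l ∧ ((z.2 = 0 ∧ D (Nat.unpair z.1).1 (l.map Prod.fst)) ∨ (z.2 ≠ 0 ∧ l ∈ dZ (lastv z.2))))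

theorem Rr_of_nw {D : ℕ → List ℕ → Prop} {z : ℕ × (H →₀ ℕ)} {l : List WW} {w : WW} (h : Nw w l)
    (h' : (z, red w l) ∈ (dW H w.2).1) : Rr D z l ↔ (z, red w l) ∈ (dW H w.2).2 := by
  constructor
  · rintro (⟨w', h1, h2, h3⟩ | ⟨h1, -⟩)
    · rw [h.unique h1]; exact h3
    · exact absurd ⟨w, h, h'⟩ h1
  · exact fun h1 => Or.inl ⟨w, h, h', h1⟩

theorem Rr_of_not {D : ℕ → List ℕ → Prop} {z : ℕ × (H →₀ ℕ)} {l : List WW} (h : ¬ Dc z l) :
    Rr D z l ↔ ((z.2 = 0 ∧ D (Nat.unpair z.1).1 (l.map Prod.fst)) ∨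
      (z.2 ≠ 0 ∧ l ∈ dZ (lastv z.2))) := by
  constructor
  · rintro (⟨w', h1, h2, h3⟩ | ⟨-, h1⟩)
    · exact absurd ⟨w', h1, h2⟩ h
    · exact h1
  · exact fun h1 => Or.inr ⟨h, h1⟩

/-- The levels which are decided are bounded. -/
theorem bound (H : Type) [LinearOrder H] [Countable H] {V : Set WW} (hV : V.Finite) :
    ∃ N, ∀ w ∈ V, ∀ x ∈ (dW H w.2).1, x.1.1 < N := by
  have : (⋃ w ∈ V, (fun x : (ℕ × (H →₀ ℕ)) × List (Option WW) => x.1.1) ''
      ((dW H w.2).1 : Set ((ℕ × (H →₀ ℕ)) × List (Option WW)))).Finite :=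
    hV.biUnion fun w _ => (Finset.finite_toSet _).image _
  obtain ⟨N, hN⟩ := this.bddAbove
  refine ⟨N + 1, fun w hw x hx => Nat.lt_succ_of_le (hN ?_)⟩
  simp only [mem_iUnion]
  exact ⟨w, hw, x, hx, rfl⟩

/-- new element of `W` with a given label -/
theorem exists_w (D : ℕ → List ℕ → Prop) (a : ℕ) {V : Set WW} (hV : V.Finite)
    {E1 : Set ((ℕ × (H →₀ ℕ)) × List (Option WW))} (hE1 : E1.Finite)
    (η : (ℕ × (H →₀ ℕ)) → List (Option WW) → Prop) :
    ∃ w : WW, w.1 = a ∧ w ∉ V ∧ ∀ (z : ℕ × (H →₀ ℕ)) (l : List (Option WW)), none ∈ l →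
      (∀ g, some g ∈ l → g ∈ V) →
      ((z, l) ∈ E1 → (Rr D z (l.map fun x => x.getD w) ↔ η z l)) ∧
      ((z, l) ∉ E1 → ¬ Dc z (l.map fun x => x.getD w)) := by
  classical
  have hE2 : {x | x ∈ E1 ∧ η x.1 x.2}.Finite := hE1.subset fun x hx => hx.1
  obtain ⟨m, hm⟩ := (hV.image Prod.snd).bddAbove
  obtain ⟨n, hn, hn'⟩ := ((dW_inf H (hE1.toFinset, hE2.toFinset)).sdiff (Set.finite_le_nat m)).nonempty
  have hn' : m < n := not_le.1 hn'
  have hnV : ∀ w ∈ V, w.2 < n := fun w hw => (hm ⟨w, hw, rfl⟩).trans_lt hn'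
  have hn : dW H n = (hE1.toFinset, hE2.toFinset) := hn
  refine ⟨(a, n), rfl, fun h => lt_irrefl _ (hnV _ h), ?_⟩
  intro z l hl hlV
  have hNw : Nw (a, n) (l.map fun x => x.getD (a, n)) := by
    refine ⟨List.mem_map.2 ⟨none, hl, rfl⟩, fun w' hw' => ?_⟩
    obtain ⟨x, hx, rfl⟩ := List.mem_map.1 hw'
    cases x with
    | none => exact Or.inl rfl
    | some g => exact Or.inr (hnV g (hlV g hx))
  have hred : red (a, n) (l.map fun x => x.getD (a, n)) = l := by
    refine red_map _ _ fun g hg h => ?_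
    have := hnV g (hlV g hg)
    rw [h] at this
    exact lt_irrefl _ this
  constructor
  · intro hz
    rw [Rr_of_nw hNw (by rw [hred, hn]; simpa using hz), hred]
    change (z, l) ∈ (dW H n).2 ↔ _
    rw [hn]
    simp [hz]
  · rintro hz ⟨w', h1, h2⟩
    rw [← hNw.unique h1, hred] at h2
    change (z, l) ∈ (dW H n).1 at h2
    rw [hn] at h2
    exact hz (by simpa using h2)

theorem ne_of {z w : ℕ × (H →₀ ℕ)} (hl : z.1 = w.1) (hne : z ≠ w) : z.2 ≠ w.2 :=
  fun h => hne (Prod.ext hl h)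

/-- colour of a function -/
noncomputable def cf (col : H → ℕ∞) (f : H →₀ ℕ) : ℕ∞ := by
  classical exact if f = 0 then ⊤ else col (ds f 0)

theorem cf_zero (col : H → ℕ∞) : cf col 0 = ⊤ := by
  unfold cf; rw [if_pos rfl]

theorem cf_ne (col : H → ℕ∞) {f : H →₀ ℕ} (h : f ≠ 0) : cf col f = col (ds f 0) := by
  unfold cf; rw [if_neg h]

theorem ne_zero_of {col : H → ℕ∞} {f : H →₀ ℕ} (h : cf col f ≠ ⊤) : f ≠ 0 := by
  rintro rfl
  exact h (cf_zero col)

/-- The standard system. -/
noncomputable def std (col : H → ℕ∞) (hcol : Monotone col) (D : ℕ → List ℕ → Prop) :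
    Sy pW ⊤ H (ℕ × (H →₀ ℕ)) WW where
  c := col
  lev := Prod.fst
  cz := fun z => cf col z.2
  s := fun z w => ds z.2 w.2
  d := fun z => ds z.2 0
  u := fun _ _ => Classical.arbitrary H
  r := Rr D
  c_mono := hcol
  s_comm := fun z w _ _ => ds_comm _ _
  ultra := fun x y z h1 h2 n1 n2 n3 => ds_tri (ne_of h1 n1) (ne_of h2 n2) (ne_of (h1.trans h2) n3)
  s_top := by
    intro z w hl hne h1 h2
    have h3 := ne_of hl hne
    by_cases hz : z.2 = 0
    · have hw : w.2 ≠ 0 := fun h => h3 (hz.trans h.symm)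
      rw [cf_ne col hw] at h2
      rw [hz, ds_comm]; exact h2
    · rw [cf_ne col hz] at h1
      by_cases hw : w.2 = 0
      · rw [hw]; exact h1
      · rw [cf_ne col hw] at h2
        have h4 := hcol (ds_tri hz (Ne.symm hw) h3)
        rw [ds_comm 0 w.2] at h4
        rw [← top_le_iff]
        refine le_trans ?_ h4
        rcases min_choice (ds z.2 0) (ds w.2 0) with h5 | h5
        · rw [h5, h1]
        · rw [h5, h2]
  s_d := by
    intro z w hl h1 h2
    have hz := ne_zero_of h1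
    by_cases hw : w.2 = 0
    · rw [hw]
    rw [cf_ne col hz] at h1
    rw [cf_ne col hw] at h2
    have hlt : ds z.2 0 < ds w.2 0 := by
      by_contra hn
      have := hcol (not_lt.1 hn)
      rw [h2] at this
      exact h1 (top_le_iff.1 this)
    have h3 : z.2 ≠ w.2 := by
      intro h
      rw [h] at hlt
      exact lt_irrefl _ hlt
    have h4 := ds_tri hz (Ne.symm hw) h3
    rw [ds_comm 0 w.2, min_eq_left hlt.le] at h4
    have h5 := ds_tri h3 hw hz
    rcases min_le_iff.1 h5 with h6 | h6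
    · exact le_antisymm h6 h4
    · exact absurd h6 (not_le.2 hlt)
  c_d := fun z h1 => (cf_ne col (ne_zero_of h1)).symm
  d1 := by
    intro z w hl hne h1 h2
    have := ds_tri (ne_of hl hne).symm (ne_zero_of h1) (ne_zero_of h2)
    rwa [ds_comm w.2 z.2, min_comm] at this
  d2 := by
    intro z w hl hne h1 h2
    have := ds_tri (ne_zero_of h1) (ne_zero_of h2).symm (ne_of hl hne)
    rwa [ds_comm 0 w.2] at this
  unb := by
    intro k x _ hx
    refine ⟨(k, 0), rfl, ?_⟩
    rw [cf_zero]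
    exact lt_top_iff_ne_top.2 hx
  u_comm := fun h => h.elim
  u_ultra := fun h => h.elim
  r_u := fun h => h.elim
  ext := by
    classical
    rintro ⟨k, g0⟩ q F _ hF hFb V hV η hη
    -- the code
    obtain ⟨E, hE⟩ : ∃ E : Finset (List WW), ∀ x, x ∈ E ↔ ((∀ w ∈ x, w ∈ V) ∧
        x.length = pW.ar k) ∧ η x := by
      have : {x : List WW | ((∀ w ∈ x, w ∈ V) ∧ x.length = pW.ar k) ∧ η x}.Finite :=
        (finite_lists hV _).subset fun x hx => hx.1
      exact ⟨this.toFinset, fun x => by simp⟩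
    have hfin : (insert 0 ((fun b : ℕ × (H →₀ ℕ) => b.2 q) '' (insert (k, g0) F)) ∪
        ⋃ w ∈ V, (fun b : (ℕ × (H →₀ ℕ)) × List (Option WW) => b.1.2 q) ''
          ((dW H w.2).1 : Set ((ℕ × (H →₀ ℕ)) × List (Option WW)))).Finite :=
      (((hF.insert _).image _).insert _).union
        (hV.biUnion fun f _ => (Finset.finite_toSet _).image _)
    obtain ⟨n, hn, hn'⟩ := ((dZ_inf E).sdiff hfin).nonempty
    have hn0 : n ≠ 0 := fun h => hn' (Or.inl (by simp [h]))
    have hnF : ∀ b ∈ insert (k, g0) F, b.2 q ≠ n := fun b hb h =>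
      hn' (Or.inl (Or.inr ⟨b, hb, h⟩))
    obtain ⟨g, h1, h2, h3, h4⟩ := exists_coord g0 q n hn0
    have key : ∀ b : ℕ × (H →₀ ℕ), b ∈ insert (k, g0) F →
        (b = (k, g0) ∨ (b.1 = k ∧ q ≤ ds b.2 g0)) → b.2 ≠ g ∧ ds b.2 g = q := by
      intro b hb hb2
      refine ds_of (fun u hu => ?_) (by rw [h2]; exact hnF b hb)
      rw [h1 u hu]
      rcases hb2 with rfl | ⟨-, h5⟩
      · rfl
      · by_cases h6 : b.2 = g0
        · rw [h6]
        · exact le_ds h6 h5 hu
    refine ⟨(k, g), rfl, ?_, ?_, ?_⟩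
    · obtain ⟨h5, h6⟩ := key (k, g0) (mem_insert _ _) (Or.inl rfl)
      exact ⟨fun h => h5 (congrArg Prod.snd h), h6⟩
    · intro b hb
      obtain ⟨h5, h6⟩ := key b (mem_insert_of_mem _ hb) (hFb b hb)
      exact ⟨fun h => h5 (congrArg Prod.snd h), h6⟩
    · intro l hl hlen
      have hnd : ¬ Dc (k, g) l := by
        rintro ⟨w, h5, h6⟩
        refine hn' (Or.inr ?_)
        simp only [mem_iUnion]
        exact ⟨w, hl w h5.1, ((k, g), red w l), h6, h2⟩
      rw [Rr_of_not hnd]
      simp only [h3, false_and, false_or, ne_eq, not_false_eq_true, true_and]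
      rw [h4, show dZ n = E from hn, hE]
      exact ⟨fun h => h.2, fun h => ⟨⟨hl, hlen⟩, h⟩⟩
  extW := by
    intro f0 q V hV hf0 hVu G hG _ η hη
    have hE : {x : (ℕ × (H →₀ ℕ)) × List (Option WW) | x.1 ∈ G ∧
        (∀ o ∈ x.2, o ∈ insert none (some '' V)) ∧ x.2.length = pW.ar x.1.1}.Finite := by
      have h1 : (⋃ z ∈ G, (fun l : List (Option WW) => (z, l)) '' {l | (∀ o ∈ l, o ∈
          insert none (some '' V)) ∧ l.length = pW.ar z.1}).Finite :=
        hG.biUnion fun z _ => (finite_lists ((hV.image _).insert _) _).image _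
      refine h1.subset ?_
      rintro ⟨z, l⟩ ⟨g1, g2, g3⟩
      simp only [mem_iUnion]
      exact ⟨z, g1, l, ⟨g2, g3⟩, rfl⟩
    obtain ⟨w, -, h1, h2⟩ := exists_w D 0 hV hE η
    refine ⟨w, h1, fun h => h.elim, fun z hz l hl hlV hlen => ?_⟩
    refine (h2 z l hl hlV).1 ⟨hz, fun o ho => ?_, hlen⟩
    cases o with
    | none => exact mem_insert _ _
    | some g => exact mem_insert_of_mem _ ⟨g, hlV g ho, rfl⟩

end sys

end Pool.Agent.Y567.MD.StdW
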