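import Pool.Agent.Y567.MD.BF

/-!
States of the back and forth construction.
-/

set_option autoImplicit false

namespace Pool.Agent.Y567.MD

open Set
open Pool.Agent.Y567.MC (Col Match AG)

variable {p : Par} {L : ℕ∞} {H Z W H' Z' W' ι : Type} [LinearOrder H] [LinearOrder H']

/-- States. -/
structure Inv (S : Sy p L H Z W) (S' : Sy p L H' Z' W') (ρ : H → ι) (ρ' : H' → ι)
    (B0 : Set (Z × Z')) (Θ : Set (W × W'))
    (A : Set (H × H')) (B : Set (Z × Z')) (C : Set (W × W')) : Prop where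
  ag : AG ρ ρ' A
  af : A.Finite
  bg : BG S S' A B
  sub : B0 ⊆ B
  bf : (B \ B0).Finite
  wg : WG S S' A C
  cf : C.Finite
  cn : C.Nonempty
  ct : C ⊆ Θ
  rg : RG S S' B C

variable {S : Sy p L H Z W} {S' : Sy p L H' Z' W'} {ρ : H → ι} {ρ' : H' → ι} {sg : ι → Prop}
  {B0 : Set (Z × Z')} {Θ : Set (W × W')} {A : Set (H × H')} {B : Set (Z × Z')} {C : Set (W × W')}

theorem swap_swap_set {X Y : Type} (A : Set (X × Y)) : Prod.swap ⁻¹' (Prod.swap ⁻¹' A) = A := by
  ext ⟨a, b⟩; simp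

theorem Inv.swap (h : Inv S S' ρ ρ' B0 Θ A B C) :
    Inv S' S ρ' ρ (Prod.swap ⁻¹' B0) (Prod.swap ⁻¹' Θ) (Prod.swap ⁻¹' A) (Prod.swap ⁻¹' B)
      (Prod.swap ⁻¹' C) where
  ag := h.ag.swap
  af := h.af.preimage Prod.swap_injective.injOn
  bg := h.bg.swap
  sub := preimage_mono h.sub
  bf := by
    rw [← preimage_sdiff]
    exact h.bf.preimage Prod.swap_injective.injOn
  wg := h.wg.swap
  cf := h.cf.preimage Prod.swap_injective.injOn
  cn := by
    obtain ⟨⟨a, b⟩, hab⟩ := h.cn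
    exact ⟨(b, a), hab⟩
  ct := preimage_mono h.ct
  rg := h.rg.swap h.bg

theorem Inv.monoA (h : Inv S S' ρ ρ' B0 Θ A B C) {A' : Set (H × H')} (h1 : A ⊆ A')
    (h2 : A'.Finite) (h3 : AG ρ ρ' A') : Inv S S' ρ ρ' B0 Θ A' B C :=
  { h with ag := h3, af := h2, bg := h.bg.mono h1, wg := h.wg.mono h1 }

theorem Inv.extH (h : Inv S S' ρ ρ' B0 Θ A B C) (m : Match ρ ρ' sg) (x : H) :
    ∃ x', Inv S S' ρ ρ' B0 Θ (insert (x, x') A) B C := by
  obtain ⟨x', hx'⟩ := h.ag.extend m h.af x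
  exact ⟨x', h.monoA (subset_insert _ _) (h.af.insert _) hx'⟩

theorem Inv.extZ (h : Inv S S' ρ ρ' B0 Θ A B C) (m : Match ρ ρ' sg)
    (hρ : ∀ x x', ρ x = ρ' x' → S.c x = S'.c x')
    (hB0 : ∀ k, {a ∈ B0 | S.lev a.1 = k}.Finite) (z : Z) (hzL : (S.lev z : ℕ∞) < L)
    (hT : S.cz z = ⊤ → (∃ z', (z, z') ∈ B0) ∨ TopE S' (S.lev z)) :
    ∃ A' B', A ⊆ A' ∧ B ⊆ B' ∧ Inv S S' ρ ρ' B0 Θ A' B' C ∧ ∃ z', (z, z') ∈ B' := by
  by_cases hin : ∃ z', (z, z') ∈ B
  · exact ⟨A, B, subset_rfl, subset_rfl, h, hin⟩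
  push Not at hin
  have hlf : {a ∈ B | S.lev a.1 = S.lev z}.Finite := by
    refine ((hB0 (S.lev z)).union h.bf).subset ?_
    rintro a ⟨h1, h2⟩
    by_cases h3 : a ∈ B0
    · exact Or.inl ⟨h3, h2⟩
    · exact Or.inr ⟨h1, h3⟩
  obtain ⟨A2, h1, h2, h3, h4⟩ := h.ag.extendSet m h.af
    (X := insert (S.d z) ((fun p : Z × Z' => S.s p.1 z) '' {a ∈ B | S.lev a.1 = S.lev z}))
    ((hlf.image _).insert _)
  have hB2 := h.bg.mono h1
  have hC2 := h.wg.mono h1
  obtain ⟨z', hz'⟩ := ans_exists hρ h3 hB2 h.cf hC2 hzL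
    (fun hz => (hT hz).resolve_left (fun ⟨z', hz'⟩ => hin z' (h.sub hz'))) hlf hin
    (fun _ => h4 _ (by simp))
    (fun {a a'} ha hl => h4 _ (Set.mem_insert_of_mem _ ⟨(a, a'), ⟨ha, hl⟩, rfl⟩))
  have h5 := h.monoA h1 h2 h3
  refine ⟨A2, insert (z, z') B, h1, subset_insert _ _, { h5 with
    bg := hB2.insert hin hz'
    sub := h.sub.trans (subset_insert _ _)
    bf := (h.bf.insert (z, z')).subset (by
      rintro a ⟨h6 | h6, h7⟩
      · exact Or.inl h6
      · exact Or.inr ⟨h6, h7⟩)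
    rg := h.rg.insertZ hz' }, z', mem_insert _ _⟩

/-- A point of `W'` that behaves as `w` does. -/
structure AnsW (S : Sy p L H Z W) (S' : Sy p L H' Z' W') (A : Set (H × H')) (B : Set (Z × Z'))
    (C : Set (W × W')) (w : W) (w' : W') : Prop where
  ne : ∀ f', (∃ f, (f, f') ∈ C) → f' ≠ w'
  u : p.con → ∀ f f', (f, f') ∈ C → (S.u f w, S'.u f' w') ∈ A
  r : ∀ z z', (z, z') ∈ B → ∀ l : List (Option (W × W')), none ∈ l → (∀ x, some x ∈ l → x ∈ C) →
    l.length = p.ar (S.lev z) → (S.r z (l.map fun o => (o.map Prod.fst).getD w) ↔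
      S'.r z' (l.map fun o => (o.map Prod.snd).getD w'))

theorem Inv.insertW (h : Inv S S' ρ ρ' B0 Θ A B C) {w : W} {w' : W'} (hw : ∀ w', (w, w') ∉ C)
    (h' : AnsW S S' A B C w w') (ht : (w, w') ∈ Θ) :
    Inv S S' ρ ρ' B0 Θ A B (insert (w, w') C) := by
  classical
  have hne : ∀ {a a'}, (a, a') ∈ C → a ≠ w := by
    rintro a a' h1 rfl; exact hw _ h1
  have hne' : ∀ {a a'}, (a, a') ∈ C → a' ≠ w' := fun h1 => h'.ne _ ⟨_, h1⟩
  refine { h with
    wg := ⟨?_, ?_⟩
    cf := h.cf.insert _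
    cn := ⟨_, mem_insert _ _⟩
    ct := insert_subset ht h.ct
    rg := ?_ }
  · rintro a a' b b' (h1 | h1) (h2 | h2)
    · cases h1; cases h2; simp
    · cases h1
      exact ⟨fun h3 => absurd h3.symm (hne h2), fun h3 => absurd h3.symm (hne' h2)⟩
    · cases h2
      exact ⟨fun h3 => absurd h3 (hne h1), fun h3 => absurd h3 (hne' h1)⟩
    · exact h.wg.inj h1 h2
  · rintro hcon a a' b b' (h1 | h1) (h2 | h2) h4
    · cases h1; cases h2; exact absurd rfl h4
    · cases h1
      rw [S.u_comm hcon _ _ h4, S'.u_comm hcon _ _ (hne' h2).symm]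
      exact h'.u hcon _ _ h2
    · cases h2
      exact h'.u hcon _ _ h1
    · exact h.wg.u hcon h1 h2 h4
  · intro z z' hz l hl hlen
    by_cases hmem : (w, w') ∈ l
    · let l' : List (Option (W × W')) := l.map (fun x => if x = (w, w') then none else some x)
      have e1 : l'.map (fun o => (o.map Prod.fst).getD w) = l.map Prod.fst := by
        simp only [l', List.map_map]
        refine List.map_congr_left fun x _ => ?_
        simp only [Function.comp]
        split_ifs with hx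
        · rw [hx]; rfl
        · rfl
      have e2 : l'.map (fun o => (o.map Prod.snd).getD w') = l.map Prod.snd := by
        simp only [l', List.map_map]
        refine List.map_congr_left fun x _ => ?_
        simp only [Function.comp]
        split_ifs with hx
        · rw [hx]; rfl
        · rfl
      rw [← e1, ← e2]
      refine h'.r z z' hz l' ?_ ?_ (by simp only [l', List.length_map]; exact hlen)
      · exact List.mem_map.2 ⟨(w, w'), hmem, by simp⟩
      · intro x hx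
        obtain ⟨y, hy, hyx⟩ := List.mem_map.1 hx
        split_ifs at hyx with h5
        · rw [Option.some.injEq] at hyx
          subst hyx
          exact (hl y hy).resolve_left h5
    · refine h.rg z z' hz l (fun x hx => (hl x hx).resolve_left ?_) hlen
      rintro rfl
      exact hmem hx

theorem list_eq_opt {X Y : Type} {C : Set (X × Y)}
    (hC : ∀ {f f' g g'}, (f, f') ∈ C → (g, g') ∈ C → (f = g ↔ f' = g')) :
    ∀ l1 l2 : List (Option (X × Y)), (∀ x, some x ∈ l1 → x ∈ C) → (∀ x, some x ∈ l2 → x ∈ C) →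
      l1.map (Option.map Prod.snd) = l2.map (Option.map Prod.snd) → l1 = l2
  | [], [], _, _, _ => rfl
  | [], _ :: _, _, _, h => by simp at h
  | _ :: _, [], _, _, h => by simp at h
  | x :: l1, y :: l2, h1, h2, h => by
    simp only [List.map_cons, List.cons.injEq] at h
    rw [list_eq_opt hC l1 l2 (fun z hz => h1 z (by simp [hz])) (fun z hz => h2 z (by simp [hz]))
      h.2]
    congr 1
    cases x with
    | none =>
      cases y with
      | none => rfl
      | some y => simp at h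
    | some x =>
      cases y with
      | none => simp at h
      | some y =>
        simp only [Option.map_some, Option.some.injEq] at h
        rw [Prod.ext ((hC (h1 x (by simp)) (h2 y (by simp))).2 h.1) h.1]

/-- Patterns for new points of `W`. -/
def etaW (S : Sy p L H Z W) (B : Set (Z × Z')) (C : Set (W × W')) (w : W) (z' : Z')
    (l' : List (Option W')) : Prop :=
  ∃ z, (z, z') ∈ B ∧ ∃ l : List (Option (W × W')), (∀ x, some x ∈ l → x ∈ C) ∧
    l.map (Option.map Prod.snd) = l' ∧ S.r z (l.map fun o => (o.map Prod.fst).getD w)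

theorem etaW_iff (hB : BG S S' A B) (hC : WG S S' A C) {w : W} {z : Z} {z' : Z'}
    (hz : (z, z') ∈ B) {l : List (Option (W × W'))} (hl : ∀ x, some x ∈ l → x ∈ C) :
    etaW S B C w z' (l.map (Option.map Prod.snd)) ↔
      S.r z (l.map fun o => (o.map Prod.fst).getD w) := by
  constructor
  · rintro ⟨z1, h1, l1, h2, h3, h4⟩
    rw [list_eq_opt hC.inj l1 l h2 hl h3, (hB.inj h1 hz).2 rfl] at h4
    exact h4
  · exact fun h => ⟨z, hz, l, hl, rfl, h⟩

/-- The step for `W`. -/
theorem Inv.extW (h : Inv S S' ρ ρ' B0 univ A B C) (m : Match ρ ρ' sg)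
    (hρ : ∀ x x', ρ x = ρ' x' → S.c x = S'.c x')
    (hB0 : ∀ k, {a ∈ B0 | S.lev a.1 = k}.Finite) (hc : B0 = ∅ ∨ (p.con ∧ ∀ q, S.c q ≠ ⊤))
    (w : W) :
    ∃ A' C', A ⊆ A' ∧ C ⊆ C' ∧ Inv S S' ρ ρ' B0 univ A' B C' ∧ ∃ w', (w, w') ∈ C' := by
  classical
  by_cases hin : ∃ w', (w, w') ∈ C
  · exact ⟨A, C, subset_rfl, subset_rfl, h, hin⟩
  push Not at hin
  have hne : ∀ {a a'}, (a, a') ∈ C → a ≠ w := by
    rintro a a' h1 rfl; exact hin _ h1
  obtain ⟨A2, h1, h2, h3, h4⟩ := h.ag.extendSet m h.af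
    (X := ((fun p : W × W' => S.u p.1 w) '' C)) (h.cf.image _)
  have hI := h.monoA h1 h2 h3
  have hcc : ∀ {x x'}, (x, x') ∈ A2 → S.c x = S'.c x' := fun h => hρ _ _ (h3.lab h)
  -- the nearest point
  obtain ⟨⟨f0, f0'⟩, hf0, hmin⟩ := Set.exists_min_image C (fun x => S.u x.1 w) h.cf h.cn
  obtain ⟨q', hq⟩ := h4 (S.u f0 w) ⟨_, hf0, rfl⟩
  have hfw : f0 ≠ w := hne hf0
  -- the finite set of the relevant points of `Z`
  have hG : {a ∈ B | B0 = ∅ ∨ (S.lev a.1 : ℕ∞) < S.c (S.u f0 w)}.Finite := by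
    rcases hc with h5 | ⟨hcon, h5⟩
    · subst h5
      refine h.bf.subset ?_
      rintro a ⟨h6, -⟩
      exact ⟨h6, id⟩
    · obtain ⟨n, hn⟩ := ENat.ne_top_iff_exists.1 (h5 (S.u f0 w))
      refine ((Set.finite_iUnion (fun i : Fin n => hB0 i)).union h.bf).subset ?_
      rintro a ⟨h6, h7⟩
      by_cases h8 : a ∈ B0
      · rcases h7 with h7 | h7
        · rw [h7] at h8; exact h8.elim
        · rw [← hn, Nat.cast_lt] at h7
          exact Or.inl (mem_iUnion.2 ⟨⟨S.lev a.1, h7⟩, h8, rfl⟩)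
      · exact Or.inr ⟨h6, h8⟩
  let G : Set Z' := Prod.snd '' {a ∈ B | B0 = ∅ ∨ (S.lev a.1 : ℕ∞) < S.c (S.u f0 w)}
  let V : Set W' := {g' | ∃ g, (g, g') ∈ C ∧ (p.con → g = f0 ∨ S.u g f0 ≤ S.u f0 w)}
  have hVf : V.Finite := (h.cf.image Prod.snd).subset (by rintro g' ⟨g, hg, -⟩; exact ⟨_, hg, rfl⟩)
  obtain ⟨w', w1, w2, w3⟩ := S'.extW f0' q' V hVf ⟨f0, hf0, fun _ => Or.inl rfl⟩ (by
      rintro hcon g' ⟨g, hg, hg2⟩
      by_cases hgf : g = f0
      · exact Or.inl ((h.wg.inj hg hf0).1 hgf)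
      · right
        rw [← h3.le_iff (hI.wg.u hcon hg hf0 hgf) hq]
        exact (hg2 hcon).resolve_left hgf)
    G (hG.image _) (by
      rintro z' ⟨⟨z, z1⟩, ⟨hz, -⟩, rfl⟩
      rw [← h.bg.lev hz]; exact h.bg.low hz) (etaW S B C w) (by
      rintro hcon z' ⟨⟨z, z1⟩, ⟨hz, hz2⟩, rfl⟩ hle
      have e1 := etaW_iff h.bg h.wg (w := w) hz (l := [none]) (by simp)
      simp only [List.map_cons, List.map_nil, Option.map_none, Option.getD_none] at e1
      have e2 := h.rg z z1 hz [(f0, f0')] (by simpa using hf0) (by simp [p.one hcon])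
      simp only [List.map_cons, List.map_nil] at e2
      rw [e1, ← e2]
      refine S.r_u hcon z w f0 (h.bg.low hz) hfw.symm ?_
      rw [S.u_comm hcon w f0 hfw.symm, hcc hq, h.bg.lev hz]
      exact hle)
  refine ⟨A2, insert (w, w') C, h1, subset_insert _ _, hI.insertW hin ⟨?_, ?_, ?_⟩ (mem_univ _),
    w', mem_insert _ _⟩
  · rintro g' ⟨g, hg⟩ rfl
    by_cases hgV : p.con → g = f0 ∨ S.u g f0 ≤ S.u f0 w
    · exact w1 ⟨g, hg, hgV⟩
    · push Not at hgV
      obtain ⟨hcon, hgf, hlt⟩ := hgV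
      have hgf' : g' ≠ f0' := fun h5 => hgf ((h.wg.inj hg hf0).2 h5)
      have h5 : q' < S'.u g' f0' := (h3.ord hq (hI.wg.u hcon hg hf0 hgf)).1 hlt
      have h6 := w2 hcon f0' ⟨f0, hf0, fun _ => Or.inl rfl⟩
      rw [S'.u_comm hcon _ _ hgf'.symm] at h6
      rw [h6] at h5
      exact lt_irrefl _ h5
  · intro hcon g g' hg
    have hgw := hne hg
    have hmg : S.u f0 w ≤ S.u g w := hmin (g, g') hg
    by_cases hgV : g = f0 ∨ S.u g f0 ≤ S.u f0 w
    · rw [w2 hcon g' ⟨g, hg, fun _ => hgV⟩]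
      have : S.u g w = S.u f0 w := by
        rcases hgV with rfl | h5
        · rfl
        · refine le_antisymm ?_ hmg
          by_cases hgf : g = f0
          · rw [hgf]
          · exact (S.u_ultra hcon g f0 w hgf hfw hgw).trans (max_le h5 le_rfl)
      rw [this]; exact hq
    · push Not at hgV
      obtain ⟨hgf, hlt⟩ := hgV
      have hgf' : g' ≠ f0' := fun h5 => hgf ((h.wg.inj hg hf0).2 h5)
      have h5 : q' < S'.u g' f0' := (h3.ord hq (hI.wg.u hcon hg hf0 hgf)).1 hlt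
      have h6 := w2 hcon f0' ⟨f0, hf0, fun _ => Or.inl rfl⟩
      have hgw' : g' ≠ w' := by
        rintro rfl
        rw [S'.u_comm hcon _ _ hgf'.symm] at h6
        rw [h6] at h5
        exact lt_irrefl _ h5
      have hf0w' : f0' ≠ w' := by
        rintro rfl
        exact w1 ⟨f0, hf0, fun _ => Or.inl rfl⟩
      have e1 : S.u g w = S.u g f0 := by
        refine le_antisymm ?_ ?_
        · exact (S.u_ultra hcon g f0 w hgf hfw hgw).trans (max_le le_rfl hlt.le)
        · have := S.u_ultra hcon g w f0 hgw hfw.symm hgf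
          rw [S.u_comm hcon w f0 hfw.symm] at this
          rcases le_max_iff.1 this with h7 | h7
          · exact h7
          · exact absurd h7 (not_le.2 hlt)
      have e2 : S'.u g' w' = S'.u g' f0' := by
        refine le_antisymm ?_ ?_
        · exact (S'.u_ultra hcon g' f0' w' hgf' hf0w' hgw').trans (max_le le_rfl (by rw [h6]; exact h5.le))
        · have := S'.u_ultra hcon g' w' f0' hgw' hf0w'.symm hgf'
          rw [S'.u_comm hcon w' f0' hf0w'.symm, h6] at this
          rcases le_max_iff.1 this with h7 | h7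
          · exact h7
          · exact absurd h7 (not_le.2 h5)
      rw [e1, e2]
      exact hI.wg.u hcon hg hf0 hgf
  · intro z z' hz l hno hl hlen
    have hmap : l.map (fun o => (o.map Prod.snd).getD w') =
        (l.map (Option.map Prod.snd)).map (fun x => x.getD w') := by
      rw [List.map_map]; rfl
    by_cases hzG : B0 = ∅ ∨ (S.lev z : ℕ∞) < S.c (S.u f0 w)
    · rw [hmap, w3 z' ⟨(z, z'), ⟨hz, hzG⟩, rfl⟩ _ (by
          refine List.mem_map.2 ⟨none, hno, rfl⟩) ?_ (by
          rw [List.length_map, ← h.bg.lev hz]; exact hlen), etaW_iff h.bg h.wg hz hl]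
      intro g' hg'
      obtain ⟨o, ho, ho2⟩ := List.mem_map.1 hg'
      cases o with
      | none => simp at ho2
      | some x =>
        simp only [Option.map_some, Option.some.injEq] at ho2
        refine ⟨x.1, by rw [← ho2]; exact hl x ho, fun hcon => ?_⟩
        exfalso
        rw [p.one hcon] at hlen
        obtain ⟨y, rfl⟩ := List.length_eq_one_iff.1 hlen
        simp only [List.mem_singleton] at hno ho
        rw [← hno] at ho
        simp at ho
    · push Not at hzG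
      obtain ⟨hB0', hle⟩ := hzG
      obtain ⟨hcon, -⟩ := hc.resolve_left hB0'.ne_empty
      have hf0w' : f0' ≠ w' := by
        rintro rfl
        exact w1 ⟨f0, hf0, fun _ => Or.inl rfl⟩
      rw [p.one hcon] at hlen
      obtain ⟨y, rfl⟩ := List.length_eq_one_iff.1 hlen
      simp only [List.mem_singleton] at hno
      subst hno
      simp only [List.map_cons, List.map_nil, Option.map_none, Option.getD_none]
      have e2 := h.rg z z' hz [(f0, f0')] (by simpa using hf0) (by simp [p.one hcon])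
      simp only [List.map_cons, List.map_nil] at e2
      rw [← S.r_u hcon z f0 w (h.bg.low hz) hfw hle, e2]
      refine S'.r_u hcon z' f0' w' (by rw [← h.bg.lev hz]; exact h.bg.low hz) hf0w' ?_
      rw [w2 hcon f0' ⟨f0, hf0, fun _ => Or.inl rfl⟩, ← hcc hq, ← h.bg.lev hz]
      exact hle

end Pool.Agent.Y567.MD
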