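import Pool.Agent.Y567.MC.Chain

/-!
Systems: a coloured linear order `H`, ultrametric spaces `Z_k` (`k ∈ ℕ`), and a set `W` on which each
point `z` of `Z_k` defines a relation `r z`.
-/

set_option autoImplicit false

namespace Pool.Agent.Y567.MD

open Set

/-- Parameters: the arities of the relations, and whether `W` is an ultrametric space, too. -/
structure Par where
  ar : ℕ → ℕ
  con : Prop
  one : con → ∀ k, ar k = 1
  pos : ∀ k, ar k ≠ 0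

/-- Systems; `L` is a bound for the levels to which the axioms apply. -/
structure Sy (p : Par) (L : ℕ∞) (H Z W : Type) [LinearOrder H] where
  c : H → ℕ∞
  lev : Z → ℕ
  cz : Z → ℕ∞
  s : Z → Z → H
  d : Z → H
  u : W → W → H
  r : Z → List W → Prop
  c_mono : Monotone c
  s_comm : ∀ z w, lev z = lev w → z ≠ w → s z w = s w z
  ultra : ∀ x y z, lev x = lev y → lev y = lev z → x ≠ y → y ≠ z → x ≠ z →
    min (s x y) (s y z) ≤ s x z
  s_top : ∀ z w, lev z = lev w → z ≠ w → cz z = ⊤ → cz w = ⊤ → c (s z w) = ⊤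
  s_d : ∀ z w, lev z = lev w → cz z ≠ ⊤ → cz w = ⊤ → s z w = d z
  c_d : ∀ z, cz z ≠ ⊤ → c (d z) = cz z
  d1 : ∀ z w, lev z = lev w → z ≠ w → cz z ≠ ⊤ → cz w ≠ ⊤ → min (d z) (s z w) ≤ d w
  d2 : ∀ z w, lev z = lev w → z ≠ w → cz z ≠ ⊤ → cz w ≠ ⊤ → min (d z) (d w) ≤ s z w
  unb : ∀ (k : ℕ) x, (k : ℕ∞) < L → c x ≠ ⊤ → ∃ z, lev z = k ∧ c x < cz z
  u_comm : p.con → ∀ f g, f ≠ g → u f g = u g f
  u_ultra : p.con → ∀ f g h, f ≠ g → g ≠ h → f ≠ h → u f h ≤ max (u f g) (u g h)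
  r_u : p.con → ∀ z f g, (lev z : ℕ∞) < L → f ≠ g → c (u f g) ≤ lev z → (r z [f] ↔ r z [g])
  ext : ∀ (a : Z) (q : H) (F : Set Z), (lev a : ℕ∞) < L → F.Finite →
    (∀ b ∈ F, b = a ∨ (lev b = lev a ∧ q ≤ s b a)) →
    ∀ (V : Set W), V.Finite → ∀ η : List W → Prop,
    (p.con → ∀ f ∈ V, ∀ g ∈ V, f ≠ g → c (u f g) ≤ lev a → (η [f] ↔ η [g])) →
    ∃ z, lev z = lev a ∧ (a ≠ z ∧ s a z = q) ∧ (∀ b ∈ F, b ≠ z ∧ s b z = q) ∧
      ∀ l : List W, (∀ w ∈ l, w ∈ V) → l.length = p.ar (lev a) → (r z l ↔ η l)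
  extW : ∀ (f0 : W) (q : H) (V : Set W), V.Finite → f0 ∈ V →
    (p.con → ∀ g ∈ V, g = f0 ∨ u g f0 ≤ q) → ∀ G : Set Z, G.Finite →
    (∀ z ∈ G, (lev z : ℕ∞) < L) →
    ∀ η : Z → List (Option W) → Prop,
    (p.con → ∀ z ∈ G, c q ≤ lev z → (η z [none] ↔ r z [f0])) →
    ∃ w, w ∉ V ∧ (p.con → ∀ g ∈ V, u g w = q) ∧
      ∀ z ∈ G, ∀ l : List (Option W), none ∈ l → (∀ g, some g ∈ l → g ∈ V) →
        l.length = p.ar (lev z) → (r z (l.map (fun x => x.getD w)) ↔ η z l)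

namespace Sy

variable {p : Par} {L : ℕ∞} {H Z W : Type} [LinearOrder H] (S : Sy p L H Z W)

theorem lt_of_c {x y : H} (h : S.c x < S.c y) : x < y := by
  by_contra hn
  exact absurd (S.c_mono (not_lt.1 hn)) (not_le.2 h)

theorem s_eq_d {a b : Z} (hl : S.lev a = S.lev b) (h : S.cz a < S.cz b) : S.s a b = S.d a := by
  have ha : S.cz a ≠ ⊤ := ne_top_of_lt h
  have hab : a ≠ b := by rintro rfl; exact lt_irrefl _ h
  by_cases hb : S.cz b = ⊤
  · exact S.s_d a b hl ha hb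
  · have hd : S.d a < S.d b := S.lt_of_c (by rw [S.c_d a ha, S.c_d b hb]; exact h)
    have h1 := S.d2 a b hl hab ha hb
    rw [min_eq_left hd.le] at h1
    have h2 := S.d1 b a hl.symm hab.symm hb ha
    rw [S.s_comm b a hl.symm hab.symm] at h2
    rcases min_le_iff.1 h2 with h3 | h3
    · exact absurd h3 (not_le.2 hd)
    · exact le_antisymm h3 h1

theorem cs_ge {a b : Z} (hl : S.lev a = S.lev b) (hab : a ≠ b) :
    min (S.cz a) (S.cz b) ≤ S.c (S.s a b) := by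
  by_cases ha : S.cz a = ⊤
  · by_cases hb : S.cz b = ⊤
    · rw [S.s_top a b hl hab ha hb]; exact le_top
    · rw [S.s_comm a b hl hab, S.s_d b a hl.symm hb ha, S.c_d b hb]; exact min_le_right _ _
  · by_cases hb : S.cz b = ⊤
    · rw [S.s_d a b hl ha hb, S.c_d a ha]; exact min_le_left _ _
    · have h1 := S.c_mono (S.d2 a b hl hab ha hb)
      rcases le_total (S.d a) (S.d b) with h2 | h2
      · rw [min_eq_left h2, S.c_d a ha] at h1
        exact (min_le_left _ _).trans h1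
      · rw [min_eq_right h2, S.c_d b hb] at h1
        exact (min_le_right _ _).trans h1

theorem d_eq_of_lt {a z : Z} (hl : S.lev a = S.lev z) (haz : a ≠ z) (ha : S.cz a ≠ ⊤)
    (h : S.d a < S.s a z) : S.cz z ≠ ⊤ ∧ S.d z = S.d a := by
  have hz : S.cz z ≠ ⊤ := by
    intro hz
    rw [S.s_d a z hl ha hz] at h
    exact lt_irrefl _ h
  refine ⟨hz, ?_⟩
  have h1 := S.d1 a z hl haz ha hz
  rw [min_eq_left h.le] at h1
  have h2 := S.d1 z a hl.symm haz.symm hz ha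
  rw [S.s_comm z a hl.symm haz.symm] at h2
  rcases min_le_iff.1 h2 with h3 | h3
  · exact le_antisymm h3 h1
  · exact absurd h3 (not_le.2 h)

theorem s_iso {a b z : Z} (hab : S.lev a = S.lev b) (hbz : S.lev b = S.lev z) (n1 : a ≠ b)
    (n2 : b ≠ z) (h : S.s a b < S.s b z) : a ≠ z ∧ S.s a z = S.s a b := by
  have n3 : a ≠ z := by
    rintro rfl
    rw [S.s_comm a b hab n1] at h
    exact lt_irrefl _ h
  refine ⟨n3, le_antisymm ?_ ?_⟩
  · have h2 := S.ultra a z b (hab.trans hbz) hbz.symm n3 n2.symm n1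
    rw [S.s_comm z b hbz.symm n2.symm] at h2
    rcases min_le_iff.1 h2 with h3 | h3
    · exact h3
    · exact absurd h3 (not_le.2 h)
  · have h2 := S.ultra a b z hab hbz n1 n2 n3
    rwa [min_eq_left h.le] at h2

theorem ext1 {k : ℕ} (hk : (k : ℕ∞) < L) {q : H} {F : Set Z} (hF : F.Finite) (h2 : S.c q ≠ ⊤)
    (hFd : ∀ b ∈ F, S.lev b = k ∧ S.cz b ≠ ⊤ ∧ S.d b = q)
    {V : Set W} (hV : V.Finite) {η : List W → Prop}
    (hη : p.con → ∀ f ∈ V, ∀ g ∈ V, f ≠ g → S.c (S.u f g) ≤ k → (η [f] ↔ η [g])) :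
    ∃ z, S.lev z = k ∧ S.cz z ≠ ⊤ ∧ S.d z = q ∧ (∀ b ∈ F, b ≠ z ∧ S.s b z = q) ∧
      ∀ l : List W, (∀ w ∈ l, w ∈ V) → l.length = p.ar k → (S.r z l ↔ η l) := by
  obtain ⟨b0, hb0, hc⟩ := S.unb k q hk h2
  subst hb0
  obtain ⟨z, z2, ⟨z4, z5⟩, z6, z7⟩ := S.ext b0 q F hk hF (by
    intro b hb
    obtain ⟨h3, h4, h5⟩ := hFd b hb
    refine Or.inr ⟨by omega, ?_⟩
    have h6 : S.cz b < S.cz b0 := by rw [← S.c_d b h4, h5]; exact hc
    rw [S.s_eq_d (by omega) h6, h5]) V hV η hη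
  have h7 : S.cz z < S.cz b0 := by
    by_contra hn
    have h8 := S.cs_ge z2.symm z4
    rw [min_eq_left (not_lt.1 hn), z5] at h8
    exact absurd h8 (not_le.2 hc)
  have h8 : S.s z b0 = S.d z := S.s_eq_d z2 h7
  rw [S.s_comm z b0 z2 z4.symm, z5] at h8
  exact ⟨z, z2, ne_top_of_lt h7, h8.symm, z6, z7⟩

end Sy

end Pool.Agent.Y567.MD
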